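import Pool.Agent.Lib.MP_666dc0_nt.TP.G2
import Pool.Agent.Lib.MP_666dc0_nt.Mg.G003

/-!
# TP, C1: the character of the Levi subgroup
-/

open NumberField IsDedekindDomain
open scoped NumberField

namespace Pool.Agent.Lib.MP_666dc0_nt.TP

open WL

variable {F : Type} [Field F] [NumberField F] {n : ℕ} {D D' : Datum F n} {μ : Grading D} (a₀ : ℤ)
  {R : Type} [CommRing R] {φ : F →+* R}

/-- `p_a p_a = p_a` (multiply `∑ p_b = 1` by `p_a`; `orth`, `zero`). -/
theorem Grading.idem' (μ : Grading D) (a : ℤ) : μ.p a * μ.p a = μ.p a := by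
  by_cases ha : a ∈ μ.J
  · have h1 : μ.p a * ∑ b ∈ μ.J, μ.p b = μ.p a := by rw [μ.sum, Matrix.mul_one]
    rw [Finset.mul_sum, Finset.sum_eq_single_of_mem a ha fun b _ hb => μ.orth a b hb.symm] at h1
    exact h1
  · rw [μ.zero a ha, Matrix.mul_zero]

private theorem C1a (μ : Grading D) (φ : F →+* R) (a : ℤ) :
    (μ.p a).map φ * (μ.p a).map φ = (μ.p a).map φ := by
  rw [← Matrix.map_mul, μ.idem']

/-- Elements of `M` commute with the projectors (`hM`), `(p m p + 1 - p)(p m' p + 1 - p) = p m m' p + 1 - p`, and `det` is multiplicative. -/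
theorem chi_mul (hM : μ.IsLevi D') (m m' : D'.points φ) :
    μ.chi a₀ φ ((m * m').1 : Matrix (Fin n) (Fin n) R) =
      μ.chi a₀ φ (m.1 : Matrix (Fin n) (Fin n) R) * μ.chi a₀ φ (m'.1 : Matrix (Fin n) (Fin n) R) := by
  have hc : ∀ g : D'.points φ, (g.1 : Matrix (Fin n) (Fin n) R) * (μ.p a₀).map φ =
      (μ.p a₀).map φ * (g.1 : Matrix (Fin n) (Fin n) R) := fun g =>
    ((hM R φ g.1).1 g.2).2 a₀
  have hp := C1a μ φ a₀
  have h1 := hc m
  have h2 := hc m'
  unfold Grading.chi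
  rw [← Matrix.det_mul]
  have h3 : ((m * m').1 : Matrix (Fin n) (Fin n) R) =
      (m.1 : Matrix (Fin n) (Fin n) R) * (m'.1 : Matrix (Fin n) (Fin n) R) := rfl
  rw [h3]
  generalize (μ.p a₀).map φ = p at *
  generalize (m.1 : Matrix (Fin n) (Fin n) R) = x at *
  generalize (m'.1 : Matrix (Fin n) (Fin n) R) = y at *
  congr 1
  have e1 : p * x * p * (p * y * p) = p * (x * y) * p := by
    calc p * x * p * (p * y * p) = p * x * (p * p) * (y * p) := by simp only [Matrix.mul_assoc]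
      _ = p * (x * p) * (y * p) := by rw [hp]; simp only [Matrix.mul_assoc]
      _ = p * (p * x) * (y * p) := by rw [h1]
      _ = (p * p) * (x * y) * p := by simp only [Matrix.mul_assoc]
      _ = p * (x * y) * p := by rw [hp]
  have e2 : p * x * p * (1 - p) = 0 := by
    rw [mul_sub, mul_one, Matrix.mul_assoc (p * x) p p, hp, sub_self]
  have e3 : (1 - p) * (p * y * p) = 0 := by
    rw [sub_mul, one_mul, ← Matrix.mul_assoc p (p * y) p, ← Matrix.mul_assoc p p y, hp, sub_self]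
  have e4 : (1 - p) * (1 - p) = 1 - p := by
    rw [sub_mul, one_mul, mul_sub, mul_one, hp, sub_self, sub_zero]
  rw [add_sub_assoc, add_sub_assoc, add_sub_assoc, add_mul, mul_add, mul_add, e1, e2, e3, e4,
    add_zero, zero_add]

theorem chi_one : μ.chi a₀ φ (1 : Matrix (Fin n) (Fin n) R) = 1 := by
  unfold Grading.chi
  rw [Matrix.mul_one, C1a, add_sub_cancel_left, Matrix.det_one]

/-- Functoriality (`RingHom.map_det`). -/
theorem chi_map {S : Type} [CommRing S] (f : R →+* S) (m : Matrix (Fin n) (Fin n) R) :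
    μ.chi a₀ (f.comp φ) (m.map f) = f (μ.chi a₀ φ m) := by
  unfold Grading.chi
  rw [RingHom.map_det]
  congr 1
  rw [map_sub, map_add, map_mul, map_mul, map_one]
  rfl

/-- The character as a homomorphism to the group of finite ideles. -/
noncomputable def chiU (hM : μ.IsLevi D') (a₀ : ℤ) : D'.Ad →* (FiniteAdeleRing (𝓞 F) F)ˣ :=
  MonoidHom.toHomUnits
    { toFun := fun m => μ.chi a₀ (algebraMap F (FiniteAdeleRing (𝓞 F) F))
        (m.1 : Matrix (Fin n) (Fin n) (FiniteAdeleRing (𝓞 F) F))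
      map_one' := chi_one a₀
      map_mul' := fun m m' => chi_mul a₀ hM m m' }

theorem chiU_val (hM : μ.IsLevi D') (m : D'.Ad) :
    ((chiU hM a₀ m : (FiniteAdeleRing (𝓞 F) F)ˣ) : FiniteAdeleRing (𝓞 F) F) =
      μ.chi a₀ (algebraMap F (FiniteAdeleRing (𝓞 F) F))
        (m.1 : Matrix (Fin n) (Fin n) (FiniteAdeleRing (𝓞 F) F)) := rfl

/-- Continuity for the topology of the units (`Units.continuous_iff`): the value is a polynomial in the entries of `m`, and the
inverse is the value at `m⁻¹` (`isEmbedding_entries` for `D'`: the entries of `m` and `m⁻¹` are continuous functions of `m`; `Continuous.matrix_det`). -/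
theorem continuous_chiU (hM : μ.IsLevi D') : Continuous (chiU (D' := D') hM a₀) := by
  have h0 : Continuous fun m : D'.Ad => μ.chi a₀ (algebraMap F (FiniteAdeleRing (𝓞 F) F))
      (m.1 : Matrix (Fin n) (Fin n) (FiniteAdeleRing (𝓞 F) F)) := by
    have h1 : Continuous fun m : D'.Ad =>
        (m.1 : Matrix (Fin n) (Fin n) (FiniteAdeleRing (𝓞 F) F)) :=
      Units.continuous_val.comp continuous_subtype_val
    unfold Grading.chi
    exact Continuous.matrix_det ((((continuous_const.matrix_mul h1).matrix_mul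
      continuous_const).add continuous_const).sub continuous_const)
  rw [Units.continuous_iff]
  refine ⟨h0, ?_⟩
  have h2 : (fun m : D'.Ad => (((chiU (D' := D') hM a₀ m)⁻¹ : (FiniteAdeleRing (𝓞 F) F)ˣ) :
      FiniteAdeleRing (𝓞 F) F)) = fun m : D'.Ad =>
      μ.chi a₀ (algebraMap F (FiniteAdeleRing (𝓞 F) F))
        ((m⁻¹).1 : Matrix (Fin n) (Fin n) (FiniteAdeleRing (𝓞 F) F)) := by
    funext m
    rw [← map_inv]
    rfl
  rw [h2]
  exact h0.comp continuous_inv

/-- On `M(F)` the character has values in `Fˣ` (`chi_map`, the character of `γ` over `F` is a unit by `chi_mul`, `chi_one`). -/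
theorem chiU_toAd (hM : μ.IsLevi D') (γ : D'.Rat) : ∃ x : Fˣ, chiU hM a₀ (D'.toAd γ) =
    Units.map (algebraMap F (FiniteAdeleRing (𝓞 F) F) : F →* FiniteAdeleRing (𝓞 F) F) x := by
  have h1 : μ.chi a₀ (RingHom.id F) (γ.1 : Matrix (Fin n) (Fin n) F) ≠ 0 := by
    intro h0
    have h2 := chi_mul (φ := RingHom.id F) a₀ hM γ γ⁻¹
    rw [mul_inv_cancel, h0, zero_mul] at h2
    have h3 : μ.chi a₀ (RingHom.id F) (((1 : D'.Rat).1 : GL (Fin n) F) :
      Matrix (Fin n) (Fin n) F) = 1 := chi_one a₀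
    rw [h3] at h2
    exact one_ne_zero h2
  refine ⟨Units.mk0 _ h1, Units.ext ?_⟩
  exact chi_map a₀ (φ := RingHom.id F) (algebraMap F (FiniteAdeleRing (𝓞 F) F))
    (γ.1 : Matrix (Fin n) (Fin n) F)

/-- `chi_map` for `evalAt F v`, `chi_one`. -/
theorem chiU_trivialAt (hM : μ.IsLevi D') {v : HeightOneSpectrum (𝓞 F)} {m : D'.Ad}
    (hm : TrivialAt v m) :
    ((chiU hM a₀ m : (FiniteAdeleRing (𝓞 F) F)ˣ) : FiniteAdeleRing (𝓞 F) F) v = 1 := by
  have h1 := chi_map (μ := μ) a₀ (φ := algebraMap F (FiniteAdeleRing (𝓞 F) F)) (evalAt F v)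
    (m.1 : Matrix (Fin n) (Fin n) (FiniteAdeleRing (𝓞 F) F))
  have h2 : (m.1 : Matrix (Fin n) (Fin n) (FiniteAdeleRing (𝓞 F) F)).map (evalAt F v) = 1 := hm
  rw [h2, chi_one] at h1
  exact h1.symm

/-- On a compact subgroup the character has absolute value `1` at each place.
Proof: `m ↦ (χ(m))_v` is continuous on `M(𝔸_f)` (`continuous_chiU`, `RestrictedProduct.continuous_eval`), so its image of `V` is compact and bounded: there is `r : ℤ` with
`Valued.v (χ(m) v) ≤ ofAdd r` for all `m ∈ V` (cover by the open sets `{x | Valued.v x ≤ ofAdd r}`, or `IsCompact.exists_isMaxOn`-type arguments; or the image of `V` under the locally constant function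
`x ↦ Valued.v x` on `F_v ∖ {0}` is finite). As `χ(m ^ k) = χ(m) ^ k` and `χ(m)_v ≠ 0`, `Valued.v (χ(m) v) = ofAdd s` with `k s ≤ r` for all `k : ℕ`, so `s ≤ 0`; the same for `m⁻¹` gives `s = 0`. -/
theorem valued_chiU_eq_one (hM : μ.IsLevi D') {V : Subgroup D'.Ad}
    (hV : IsCompact (V : Set D'.Ad)) {m : D'.Ad} (hm : m ∈ V) (v : HeightOneSpectrum (𝓞 F)) :
    Valued.v (((chiU hM a₀ m : (FiniteAdeleRing (𝓞 F) F)ˣ) : FiniteAdeleRing (𝓞 F) F) v) = 1 := by
  have hne : ∀ m : D'.Ad, Valued.v (((chiU hM a₀ m : (FiniteAdeleRing (𝓞 F) F)ˣ) :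
      FiniteAdeleRing (𝓞 F) F) v) ≠ 0 := by
    intro m h
    have h1 : (((chiU hM a₀ m : (FiniteAdeleRing (𝓞 F) F)ˣ) : FiniteAdeleRing (𝓞 F) F) *
        (((chiU hM a₀ m)⁻¹ : (FiniteAdeleRing (𝓞 F) F)ˣ) : FiniteAdeleRing (𝓞 F) F)) v = 1 := by
      rw [Units.mul_inv]
      rfl
    have h2 : ((chiU hM a₀ m : (FiniteAdeleRing (𝓞 F) F)ˣ) : FiniteAdeleRing (𝓞 F) F) v *
        (((chiU hM a₀ m)⁻¹ : (FiniteAdeleRing (𝓞 F) F)ˣ) : FiniteAdeleRing (𝓞 F) F) v = 1 := h1
    have h3 := congrArg Valued.v h2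
    rw [map_mul, h, zero_mul, map_one] at h3
    exact zero_ne_one h3
  have hev : Continuous fun x : FiniteAdeleRing (𝓞 F) F => (x v : v.adicCompletion F) :=
    RestrictedProduct.continuous_eval v
  have hcont : Continuous fun m : D'.Ad =>
      ((chiU hM a₀ m : (FiniteAdeleRing (𝓞 F) F)ˣ) : FiniteAdeleRing (𝓞 F) F) v :=
    hev.comp (Units.continuous_val.comp (continuous_chiU a₀ hM))
  have hopen : ∀ γ : WithZero (Multiplicative ℤ), IsOpen {m : D'.Ad |
      Valued.v (((chiU hM a₀ m : (FiniteAdeleRing (𝓞 F) F)ˣ) : FiniteAdeleRing (𝓞 F) F) v) =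
        γ} := by
    intro γ
    rw [isOpen_iff_mem_nhds]
    intro m hm
    have h1 := hcont.continuousAt.preimage_mem_nhds (Valued.locally_const (hne m))
    refine Filter.mem_of_superset h1 fun m' hm' => ?_
    exact Eq.trans hm' hm
  obtain ⟨t, ht⟩ := hV.elim_finite_subcover _ hopen fun m _ => Set.mem_iUnion.2 ⟨_, rfl⟩
  by_contra hc
  have hpow : ∀ k : ℕ, (Valued.v (((chiU hM a₀ m : (FiniteAdeleRing (𝓞 F) F)ˣ) :
      FiniteAdeleRing (𝓞 F) F) v)) ^ k ∈ t := by
    intro k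
    obtain ⟨γ, hγ, h2⟩ := Set.mem_iUnion₂.1 (ht (pow_mem hm k : m ^ k ∈ V))
    have h3 : Valued.v (((chiU hM a₀ (m ^ k) : (FiniteAdeleRing (𝓞 F) F)ˣ) :
      FiniteAdeleRing (𝓞 F) F) v) = γ := h2
    rw [← h3] at hγ
    have h4 : ((chiU hM a₀ (m ^ k) : (FiniteAdeleRing (𝓞 F) F)ˣ) : FiniteAdeleRing (𝓞 F) F) v =
        (((chiU hM a₀ m : (FiniteAdeleRing (𝓞 F) F)ˣ) : FiniteAdeleRing (𝓞 F) F) v) ^ k := by
      rw [map_pow, Units.val_pow_eq_pow_val]
      exact map_pow (evalAt F v) _ k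
    rw [h4, map_pow] at hγ
    exact hγ
  have hlog : WithZero.log (Valued.v (((chiU hM a₀ m : (FiniteAdeleRing (𝓞 F) F)ˣ) :
      FiniteAdeleRing (𝓞 F) F) v)) ≠ 0 := by
    intro h0
    apply hc
    rw [← WithZero.exp_log (hne m), h0]
    rfl
  have hinj : Function.Injective fun k : ℕ => (Valued.v (((chiU hM a₀ m :
      (FiniteAdeleRing (𝓞 F) F)ˣ) : FiniteAdeleRing (𝓞 F) F) v)) ^ k := by
    intro k l hkl
    have h1 := congrArg WithZero.log hkl
    simp only [WithZero.log_pow, nsmul_eq_mul] at h1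
    exact_mod_cast mul_right_cancel₀ hlog h1
  exact (Set.infinite_of_injective_forall_mem hinj hpow) t.finite_toSet

end Pool.Agent.Lib.MP_666dc0_nt.TP
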