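import Pool.Agent.Lib.MP_666dc0_nt.TP.G4
import Pool.Agent.Lib.MP_666dc0_nt.TP.C1

/-!
# TP, R2: Levi representatives of the cosets
-/

open NumberField IsDedekindDomain
open scoped NumberField

namespace Pool.Agent.Lib.MP_666dc0_nt.TP

open WL

variable {F : Type} [Field F] [NumberField F] {n : ℕ} {D D' : Datum F n} {μ : Grading D}
  {U : Subgroup D.Ad} {v : HeightOneSpectrum (𝓞 F)}

/-- The Levi representative `m_c` of the coset `c` is `π(q)` for some `q ∈ P(F_v)` with class `c`.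
Proof: `c` is the class of `g ∈ G(F_v)`; `iwasawa` gives `q ∈ P(F_v)` with `q⁻¹ g ∈ U`, so `q` has class `c` (`QuotientGroup.eq`), and `exists_leviPart`
gives the `m` in the definition of `leviRep` (`dif_pos`, `choose_spec`); `leviM_eq`. -/
theorem leviRep_spec (hM : μ.IsLevi D') (hg : IsGood μ U v) (c : LocQuot U v) :
    ∃ q : Loc D v, (q : D.Ad) ∈ μ.parab (algebraMap F (FiniteAdeleRing (𝓞 F) F)) ∧
      (QuotientGroup.mk q : LocQuot U v) = c ∧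
      leviM hM (algebraMap F (FiniteAdeleRing (𝓞 F) F)) (q : D.Ad) = leviRep μ D' c := by
  obtain ⟨g, rfl⟩ := QuotientGroup.mk_surjective c
  obtain ⟨q, hq, hqP, hqU⟩ := hg.iwasawa g.1 g.2
  have h1 : (QuotientGroup.mk (⟨q, hq⟩ : Loc D v) : LocQuot U v) = QuotientGroup.mk g := by
    rw [QuotientGroup.eq, Subgroup.mem_subgroupOf]
    exact hqU
  have h : ∃ m : D'.Ad, ∃ q : Loc D v,
      (q : D.Ad) ∈ μ.parab (algebraMap F (FiniteAdeleRing (𝓞 F) F)) ∧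
      (QuotientGroup.mk q : LocQuot U v) = QuotientGroup.mk g ∧
      μ.IsLeviPart (algebraMap F (FiniteAdeleRing (𝓞 F) F)) (q : D.Ad).1 m.1 :=
    ⟨leviM hM _ q, ⟨q, hq⟩, hqP, h1, leviM_spec hM hqP⟩
  have h2 : leviRep μ D' (QuotientGroup.mk g : LocQuot U v) = h.choose := by
    unfold leviRep
    exact dif_pos h
  obtain ⟨q', hq', hc, hm⟩ := h.choose_spec
  refine ⟨q', hq', hc, ?_⟩
  rw [h2]
  exact leviM_eq hM hq' hm

/-- `π` maps `P(F_v)` to `M(F_v)` (`Grading.IsLeviPart.trivialAt`, `leviM_spec`). -/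
theorem leviM_mem_locSub (hM : μ.IsLevi D') {q : D.Ad}
    (hq : q ∈ μ.parab (algebraMap F (FiniteAdeleRing (𝓞 F) F))) (h : q ∈ locSub D v) :
    leviM hM (algebraMap F (FiniteAdeleRing (𝓞 F) F)) q ∈ locSub D' v := by
  intro w hw
  exact (leviM_spec hM hq).trivialAt (h w hw)

theorem leviRep_mem_locSub (hM : μ.IsLevi D') (hg : IsGood μ U v) (c : LocQuot U v) :
    leviRep μ D' c ∈ locSub D' v := by
  obtain ⟨q, hq, _, he⟩ := leviRep_spec hM hg c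
  rw [← he]
  exact leviM_mem_locSub hM hq q.2

/-- Translation of `c` by `b ∈ M(F_v)`, `b' = ι(b)`: `m_(b' c) = b m_c u` with `u ∈ restr D' U ∩ M(F_v)`.
Proof: let `q`, `q₁` be as in `leviRep_spec` for `c` and for `b' • c`. `b' q` and `q₁` have the same class, so `u' = (b' q)⁻¹ q₁ ∈ U`, and `u' ∈ P(𝔸_f) ∩ G(F_v)`
(`inclM_mem`); `m_(b' c) = π(q₁) = π(b') π(q) π(u') = b m_c π(u')` (`leviM_mul`, `leviM_inclM`), and `u = π(u') ∈ restr D' U` by `hUP` (`leviM_spec`). -/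
theorem leviRep_smul (hM : μ.IsLevi D') (hg : IsGood μ U v)
    (hUP : ∀ u ∈ U, u ∈ μ.parab (algebraMap F (FiniteAdeleRing (𝓞 F) F)) → ∀ m : D'.Ad,
      μ.IsLeviPart (algebraMap F (FiniteAdeleRing (𝓞 F) F)) u.1 m.1 → m ∈ restr D' U)
    (c : LocQuot U v) (b : D'.Ad) (b' : Loc D v)
    (hb : (b' : D.Ad) = inclM hM (algebraMap F (FiniteAdeleRing (𝓞 F) F)) b) :
    ∃ u ∈ restr D' U, u ∈ locSub D' v ∧ leviRep μ D' (b' • c) = b * leviRep μ D' c * u := by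
  obtain ⟨q, hq, hqc, he⟩ := leviRep_spec hM hg c
  obtain ⟨q₁, hq₁, hqc₁, he₁⟩ := leviRep_spec hM hg (b' • c)
  have h1 : (QuotientGroup.mk (b' * q) : LocQuot U v) = QuotientGroup.mk q₁ := by
    rw [hqc₁, ← hqc]
    rfl
  rw [QuotientGroup.eq, Subgroup.mem_subgroupOf] at h1
  have hb' : (b' : D.Ad) ∈ μ.parab (algebraMap F (FiniteAdeleRing (𝓞 F) F)) := by
    rw [hb]
    exact inclM_mem hM _ b
  have hu : (((b' * q)⁻¹ * q₁ : Loc D v) : D.Ad) =
      ((b' : D.Ad) * (q : D.Ad))⁻¹ * (q₁ : D.Ad) := rfl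
  have hbq : (b' : D.Ad) * (q : D.Ad) ∈ μ.parab (algebraMap F (FiniteAdeleRing (𝓞 F) F)) :=
    mul_mem hb' hq
  have huP : (((b' * q)⁻¹ * q₁ : Loc D v) : D.Ad) ∈
      μ.parab (algebraMap F (FiniteAdeleRing (𝓞 F) F)) := by
    rw [hu]
    exact mul_mem (inv_mem hbq) hq₁
  refine ⟨leviM hM _ (((b' * q)⁻¹ * q₁ : Loc D v) : D.Ad), hUP _ h1 huP _ (leviM_spec hM huP),
    leviM_mem_locSub hM huP ((b' * q)⁻¹ * q₁ : Loc D v).2, ?_⟩
  have h2 : leviM hM (algebraMap F (FiniteAdeleRing (𝓞 F) F)) (b' : D.Ad) = b := by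
    rw [hb]
    exact leviM_inclM hM _ b
  rw [← he, ← he₁, ← h2, ← leviM_mul hM hb' hq, ← leviM_mul hM hbq huP, hu, mul_inv_cancel_left]

private theorem R2_comm (v : HeightOneSpectrum (𝓞 F))
    {A U P : Matrix (Fin n) (Fin n) (FiniteAdeleRing (𝓞 F) F)}
    (h1 : A.map (evalAt F v) = U.map (evalAt F v))
    (h2 : ∀ w, w ≠ v → A.map (evalAt F w) = 1) (hc : U * P = P * U) : A * P = P * A := by
  have key : ∀ w : HeightOneSpectrum (𝓞 F), (A * P).map (evalAt F w) = (P * A).map (evalAt F w) := by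
    intro w
    by_cases hw : w = v
    · subst hw
      rw [Matrix.map_mul, Matrix.map_mul, h1, ← Matrix.map_mul, ← Matrix.map_mul, hc]
    · rw [Matrix.map_mul, Matrix.map_mul, h2 w hw, Matrix.one_mul, Matrix.mul_one]
  refine Matrix.ext fun j k => ?_
  refine FiniteAdeleRing.ext _ fun w => ?_
  exact congrFun (congrFun (key w) j) k

private theorem R2_comp (v : HeightOneSpectrum (𝓞 F)) (a u : D.Ad) (h : TrivialAt v (a⁻¹ * u)) :
    (a.1 : Matrix (Fin n) (Fin n) (FiniteAdeleRing (𝓞 F) F)).map (evalAt F v) =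
      (u.1 : Matrix (Fin n) (Fin n) (FiniteAdeleRing (𝓞 F) F)).map (evalAt F v) := by
  have h2 := (trivialAt_iff v _).1 h
  rw [Subgroup.coe_mul, Subgroup.coe_inv, map_mul, map_inv, inv_mul_eq_one] at h2
  exact congrArg Units.val h2

/-- `restr D' U` splits at `v`.
Proof: for `u ∈ restr D' U` let `a ∈ U ∩ G(F_v)` be given by `hs` for `ι(u)` (`mem_restr`). `a` is in `M(𝔸_f)`, i.e. commutes with the projectors (`hM`): componentwise
(`FiniteAdeleRing.ext`, `evalAt`), at `v` it is `ι(u)_v`, which does, and outside of `v` it is `1`. So `a = ι(b)` with `b ∈ M(𝔸_f)`; `trivialAt_inclM`. -/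
theorem restr_split (hM : μ.IsLevi D')
    (hs : ∀ u ∈ U, ∃ a ∈ U, a ∈ locSub D v ∧ TrivialAt v (a⁻¹ * u)) :
    ∀ u ∈ restr D' U, ∃ b ∈ restr D' U, b ∈ locSub D' v ∧ TrivialAt v (b⁻¹ * u) := by
  intro u hu
  obtain ⟨a, haU, haL, haT⟩ := hs _ ((mem_restr hM u).1 hu)
  obtain ⟨b, hb⟩ : ∃ b : D'.Ad, inclM hM (algebraMap F (FiniteAdeleRing (𝓞 F) F)) b = a := by
    refine ⟨⟨a.1, (hM _ _ a.1).2 ⟨a.2, fun i => ?_⟩⟩, rfl⟩
    refine R2_comm v (R2_comp v a (inclM hM _ u) haT) (fun w hw => ?_) (((hM _ _ u.1).1 u.2).2 i)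
    exact haL w hw
  refine ⟨b, ?_, ?_, ?_⟩
  · rw [mem_restr hM, hb]
    exact haU
  · intro w hw
    rw [← trivialAt_inclM hM w, hb]
    exact haL w hw
  · rw [← trivialAt_inclM hM v, map_mul, map_inv, hb]
    exact haT

/-- Every coset has a degree (the value of `χ(m_c)` at `v` is not zero, `chiU`), and only one. -/
theorem exists_hasDeg (hM : μ.IsLevi D') (a₀ : ℤ) (c : LocQuot U v) :
    ∃ r : ℤ, HasDeg μ D' a₀ c r := by
  have h1 : Valued.v ((μ.chi a₀ (algebraMap F (FiniteAdeleRing (𝓞 F) F))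
      ((leviRep μ D' c).1 : Matrix (Fin n) (Fin n) (FiniteAdeleRing (𝓞 F) F))) v) ≠ 0 := by
    rw [← chiU_val a₀ hM (leviRep μ D' c)]
    intro h0
    rw [map_eq_zero] at h0
    have h2 : ((chiU hM a₀ (leviRep μ D' c) : (FiniteAdeleRing (𝓞 F) F)ˣ) :
        FiniteAdeleRing (𝓞 F) F) *
        (((chiU hM a₀ (leviRep μ D' c))⁻¹ : (FiniteAdeleRing (𝓞 F) F)ˣ) :
          FiniteAdeleRing (𝓞 F) F) = 1 := by
      rw [← Units.val_mul, mul_inv_cancel, Units.val_one]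
    have h3 := congrArg (evalAt F v) h2
    rw [map_mul, map_one] at h3
    have h4 : evalAt F v ((chiU hM a₀ (leviRep μ D' c) : (FiniteAdeleRing (𝓞 F) F)ˣ) :
        FiniteAdeleRing (𝓞 F) F) = 0 := h0
    rw [h4, zero_mul] at h3
    exact zero_ne_one h3
  obtain ⟨r, hr⟩ := WithZero.ne_zero_iff_exists.1 h1
  exact ⟨Multiplicative.toAdd r, hr.symm⟩

theorem HasDeg.unique {a₀ : ℤ} {c : LocQuot U v} {r r' : ℤ} (h : HasDeg μ D' a₀ c r)
    (h' : HasDeg μ D' a₀ c r') : r = r' := by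
  unfold HasDeg at h h'
  rw [h] at h'
  exact Multiplicative.ofAdd.injective (WithZero.coe_inj.1 h')

/-- The degree is invariant under `b' = ι(b)`, `b ∈ restr D' U` (`leviRep_smul`, multiplicativity `chiU`, `valued_chiU_eq_one` for `V = restr D' U ⊔ K'`). -/
theorem hasDeg_smul (hM : μ.IsLevi D') (hg : IsGood μ U v)
    (hUP : ∀ u ∈ U, u ∈ μ.parab (algebraMap F (FiniteAdeleRing (𝓞 F) F)) → ∀ m : D'.Ad,
      μ.IsLeviPart (algebraMap F (FiniteAdeleRing (𝓞 F) F)) u.1 m.1 → m ∈ restr D' U)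
    {V : Subgroup D'.Ad} (hV : IsCompact (V : Set D'.Ad)) (hUV : restr D' U ≤ V) (a₀ : ℤ)
    (c : LocQuot U v) {b : D'.Ad} (hbU : b ∈ restr D' U) (b' : Loc D v)
    (hb : (b' : D.Ad) = inclM hM (algebraMap F (FiniteAdeleRing (𝓞 F) F)) b) (r : ℤ) :
    HasDeg μ D' a₀ (b' • c) r ↔ HasDeg μ D' a₀ c r := by
  obtain ⟨u, huU, _, hu⟩ := leviRep_smul hM hg hUP c b b' hb
  have h1 : Valued.v ((μ.chi a₀ (algebraMap F (FiniteAdeleRing (𝓞 F) F))
      ((leviRep μ D' (b' • c)).1 : Matrix (Fin n) (Fin n) (FiniteAdeleRing (𝓞 F) F))) v) =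
      Valued.v ((μ.chi a₀ (algebraMap F (FiniteAdeleRing (𝓞 F) F))
      ((leviRep μ D' c).1 : Matrix (Fin n) (Fin n) (FiniteAdeleRing (𝓞 F) F))) v) := by
    rw [← chiU_val a₀ hM, ← chiU_val a₀ hM, hu, map_mul, map_mul, Units.val_mul, Units.val_mul]
    have h2 : ((((chiU hM a₀ b : (FiniteAdeleRing (𝓞 F) F)ˣ) : FiniteAdeleRing (𝓞 F) F) *
        ((chiU hM a₀ (leviRep μ D' c) : (FiniteAdeleRing (𝓞 F) F)ˣ) : FiniteAdeleRing (𝓞 F) F) *
        ((chiU hM a₀ u : (FiniteAdeleRing (𝓞 F) F)ˣ) : FiniteAdeleRing (𝓞 F) F)) v) =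
        (((chiU hM a₀ b : (FiniteAdeleRing (𝓞 F) F)ˣ) : FiniteAdeleRing (𝓞 F) F) v) *
        (((chiU hM a₀ (leviRep μ D' c) : (FiniteAdeleRing (𝓞 F) F)ˣ) :
          FiniteAdeleRing (𝓞 F) F) v) *
        (((chiU hM a₀ u : (FiniteAdeleRing (𝓞 F) F)ˣ) : FiniteAdeleRing (𝓞 F) F) v) := rfl
    rw [h2, map_mul, map_mul, valued_chiU_eq_one a₀ hM hV (hUV hbU) v,
      valued_chiU_eq_one a₀ hM hV (hUV huU) v, one_mul, mul_one]
  unfold HasDeg
  rw [h1]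

end Pool.Agent.Lib.MP_666dc0_nt.TP
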