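import Pool.Agent.Lib.MP_666dc0_nt.DS.Main

/-!
# TP, DZ: Levi descent without semisimplicity
-/

open NumberField IsDedekindDomain TensorProduct LaurentPolynomial
open scoped NumberField TensorProduct

namespace Pool.Agent.Lib.MP_666dc0_nt.TP

theorem descent {F : Type} [Field F] [NumberField F]
    {O O' : Type} [CommRing O] [HopfAlgebra ℚ O] [Algebra.FiniteType ℚ O]
    [CommRing O'] [HopfAlgebra ℚ O'] (hO : LinearlyReductive O) (hO' : LinearlyReductive O')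
    (A : HopfAction Gal(AlgebraicClosure F/F) O) (A' : HopfAction Gal(AlgebraicClosure F/F) O')
    (hA : IsOpen (A.act.ker : Set Gal(AlgebraicClosure F/F)))
    (π : O →ₐc[ℚ] O') (μ : O →ₐc[ℚ] ℚ[T;T⁻¹]) (hM : IsLevi A A' π μ)
    (S : Finset (HeightOneSpectrum (𝓞 F)))
    (hS : ∀ v, v ∉ S → ∀ P u, IsInertiaAt v P u → A.act u = 1)
    (φ : HeightOneSpectrum (𝓞 F) → Gal(AlgebraicClosure F/F))
    (hφ : (∀ v, v ∉ S → ∃ P, IsOver v P ∧ IsFrob v P (φ v)) ∨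
      ∀ v, v ∉ S → ∃ P, IsOver v P ∧ IsFrob v P (φ v)⁻¹)
    (ℓ : ℕ) [Fact ℓ.Prime] (m : HeightOneSpectrum (𝓞 F) → Pts O' (PadicAlgCl ℓ))
    (hk : {k : ℤ | ∃ r : Gal(AlgebraicClosure F/F) →* A.LGroup (PadicAlgCl ℓ),
      IsAdmissible A r ∧ ∀ v, v ∉ S → (ℓ : 𝓞 F) ∉ v.asIdeal →
        ((∀ P u, IsInertiaAt v P u → (r u).left = 1) ∧ ∀ f ∈ A.inv (φ v),
          (r (φ v)).left.hom f = (Pts.incl π (m v) *
            Pts.cochar μ (normUnit (PadicAlgCl ℓ) v ^ k)).hom f)}.Infinite) :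
    ∃ r' : Gal(AlgebraicClosure F/F) →* A'.LGroup (PadicAlgCl ℓ),
      IsAdmissible A' r' ∧ ∀ v, v ∉ S → (ℓ : 𝓞 F) ∉ v.asIdeal →
        ((∀ P u, IsInertiaAt v P u → (r' u).left = 1) ∧
          ∀ f ∈ A'.inv (φ v), (r' (φ v)).left.hom f = (m v).hom f) :=
  DS.levi_descent hO hO' A A' hA π μ hM S hS φ hφ ℓ m hk

end Pool.Agent.Lib.MP_666dc0_nt.TP
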