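import Pool.Agent.Lib.MP_666dc0_nt.IG.Kj
import Pool.Agent.Lib.MP_666dc0_nt.IG.Kl

/-!
# TP, IZ: the interpolation theorem
-/

open NumberField IsDedekindDomain TensorProduct
open scoped NumberField TensorProduct

namespace Pool.Agent.Lib.MP_666dc0_nt.TP

theorem interpolation {F : Type} [Field F] [NumberField F]
    {B : Type} [CommRing B] [IsDomain B] [IsPrincipalIdealRing B] [Algebra B ℚ] [IsFractionRing B ℚ]
    {O : Type} [CommRing O] [HopfAlgebra B O] [Algebra.FiniteType B O] [Module.Free B O]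
    (hO : LinearlyReductive (ℚ ⊗[B] O))
    (A : OverB.HopfAction B Gal(AlgebraicClosure F/F) O)
    (hA : IsOpen (A.act.ker : Set Gal(AlgebraicClosure F/F)))
    (S : Finset (HeightOneSpectrum (𝓞 F)))
    (hS : ∀ v, v ∉ S → ∀ P u, IsInertiaAt v P u → A.act u = 1)
    (φ : HeightOneSpectrum (𝓞 F) → Gal(AlgebraicClosure F/F))
    (hφ : ∀ v, v ∉ S → ∃ P : Ideal (𝓞 (AlgebraicClosure F)), IsOver v P ∧
      (IsFrob v P (φ v) ∨ IsFrob v P (φ v)⁻¹))
    (T : Type) [CommRing T] [TopologicalSpace T] [CompactSpace T] (x : ∀ v, A.inv (φ v) → T)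
    (hx : ∀ t : T, t ≠ 0 → OverB.IsDetected A S φ x t)
    (K : Type) [Field K] [CharZero K] [IsAlgClosed K] [Algebra B K] [TopologicalSpace K]
    [IsTopologicalRing K] (y : T →+* K) (hy : Continuous y) :
    ∃ r : Gal(AlgebraicClosure F/F) →* A.LGroup K,
      OverB.IsAttachedTo A S φ (fun v f => y (x v f)) r := by
  obtain ⟨n, ρ, hρ⟩ := IG.exists_faithful_Z hA
  have h1 : ∀ t : {t : T // t ≠ 0}, ∃ (R : Type) (_ : CommRing R) (_ : Algebra B R)
      (_ : TopologicalSpace R) (_ : T2Space R) (e : T →+* R), Continuous e ∧ e t ≠ 0 ∧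
      ∃ r : Gal(AlgebraicClosure F/F) →* A.LGroup R,
        OverB.IsAttachedTo A S φ (fun v f => e (x v f)) r := fun t => by
    obtain ⟨e, he, ht, r, hr⟩ := hx t t.2
    exact ⟨_, _, _, _, inferInstance, e, he, ht, r, hr⟩
  choose R i1 i2 i3 i4 e he ht hr using h1
  obtain ⟨r, hr, _⟩ := IG.interpolation_Z hO hA hS hφ ρ hρ x e he
    (fun t ht' => by_contra fun h => ht ⟨t, h⟩ (ht' ⟨t, h⟩)) hr y hy
  exact ⟨r, hr⟩

end Pool.Agent.Lib.MP_666dc0_nt.TP
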