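import Pool.Agent.Lib.MP_666dc0_nt.TP.Defs
import Pool.Agent.Lib.MP_666dc0_nt.TP.IZ

/-!
# TP, I1: attached representations from an estimate
-/

open NumberField IsDedekindDomain TensorProduct
open scoped NumberField TensorProduct

namespace Pool.Agent.Lib.MP_666dc0_nt.TP

/-- **Interpolation from an estimate.** Let the nonzero elements of the compact ring `T` be detected, and let `c` be values in `ℚ̄_ℓ` such that the values `t(c)` of all polynomials are in a compact set, and `t(c)` is close to zero whenever `t(x)` is close to zero in `T`. Then there is a representation attached to `c`.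
Proof: let `G` be the closure in `T × ℚ̄_ℓ` of the subring of all pairs `(t(x), t(c))` (`Subring.topologicalClosure` of the range of the ring homomorphism `FreeAlgebra.lift ℤ x` `.prod` `FreeAlgebra.lift ℤ c`). `G ⊆ T × C` (`C` is compact, hence closed), so `G` is compact (a closed subset of the compact set
`univ ×ˢ C`). If `(0, b) ∈ G`, then for every `ε` the neighbourhood `W × {b' | ‖b' - b‖ < ε}` (`W` from `hest` for `ε`) contains some `(t(x), t(c))`, so `‖b‖ ≤ max ...`, `‖b‖ < 2 ε`; hence `b = 0`. So `pr₁ : G → T` is injective. Let `x' v f ∈ G` be the pair `(x v f, c (v, f))` for `v ∉ S` (the value of the polynomial `ι (v, f)`), and `0` for `v ∈ S`.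
For `g ≠ 0` in `G`, `pr₁ g ≠ 0` is detected by some `e : T → R` and `r`, and `e ∘ pr₁` and `r` detect `g` for the family `x'` (`IsAttachedTo` only involves the values at `v ∉ S`, where `pr₁ (x' v f) = x v f`). The theorem `interpolation` (`TP/IZ.lean`) for
`T := G`, `x := x'`, `K := PadicAlgCl ℓ`, `y := pr₂` gives `r` with values `pr₂ (x' v f) = c (v, f)` for `v ∉ S`. -/
theorem exists_attached {F : Type} [Field F] [NumberField F] {ℓ : ℕ} [Fact ℓ.Prime]
    {B : Type} [CommRing B] [IsDomain B] [IsPrincipalIdealRing B] [Algebra B ℚ]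
    [IsFractionRing B ℚ] [Algebra B (PadicAlgCl ℓ)]
    {O : Type} [CommRing O] [HopfAlgebra B O] [Algebra.FiniteType B O] [Module.Free B O]
    (hO : LinearlyReductive (ℚ ⊗[B] O)) (A : OverB.HopfAction B Gal(AlgebraicClosure F/F) O)
    (hA : IsOpen (A.act.ker : Set Gal(AlgebraicClosure F/F)))
    (S : Finset (HeightOneSpectrum (𝓞 F)))
    (hS : ∀ v, v ∉ S → ∀ P u, IsInertiaAt v P u → A.act u = 1)
    (φ : HeightOneSpectrum (𝓞 F) → Gal(AlgebraicClosure F/F))
    (hφ : ∀ v, v ∉ S → ∃ P : Ideal (𝓞 (AlgebraicClosure F)), IsOver v P ∧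
      (IsFrob v P (φ v) ∨ IsFrob v P (φ v)⁻¹))
    (T : Type) [CommRing T] [TopologicalSpace T] [IsTopologicalRing T] [CompactSpace T]
    (x : ∀ v, A.inv (φ v) → T) (hx : ∀ t : T, t ≠ 0 → OverB.IsDetected A S φ x t)
    (c : Ix A S φ → PadicAlgCl ℓ) (C : Set (PadicAlgCl ℓ)) (hC : IsCompact C)
    (hcC : ∀ t : FreeAlgebra ℤ (Ix A S φ), FreeAlgebra.lift ℤ c t ∈ C)
    (hest : ∀ ε : ℝ, 0 < ε → ∃ W ∈ nhds (0 : T), ∀ t : FreeAlgebra ℤ (Ix A S φ),
      FreeAlgebra.lift ℤ (fun i : Ix A S φ => x i.1.1 i.2) t ∈ W →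
        ‖FreeAlgebra.lift ℤ c t‖ < ε) :
    ∃ r : Gal(AlgebraicClosure F/F) →* A.LGroup (PadicAlgCl ℓ), (∀ γ, (r γ).right = γ) ∧
      (∀ f : O, Continuous fun γ => (r γ).left.hom f) ∧
      ∀ (v : HeightOneSpectrum (𝓞 F)) (hv : v ∉ S),
        (∀ P u, IsInertiaAt v P u → (r u).left = 1) ∧
        ∀ f : A.inv (φ v), (r (φ v)).left.hom (f : O) = c ⟨⟨v, hv⟩, f⟩ := by
  classical
  let ev : FreeAlgebra ℤ (Ix A S φ) →+* T × PadicAlgCl ℓ :=
    RingHom.prod (FreeAlgebra.lift ℤ (fun i : Ix A S φ => x i.1.1 i.2)).toRingHom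
      (FreeAlgebra.lift ℤ c).toRingHom
  let G : Subring (T × PadicAlgCl ℓ) := ev.range.topologicalClosure
  have hGcl : (G : Set (T × PadicAlgCl ℓ)) = closure (Set.range ev) := by
    show closure ((ev.range : Subring (T × PadicAlgCl ℓ)) : Set (T × PadicAlgCl ℓ)) = _
    rw [RingHom.coe_range]
  have hmem : ∀ t : FreeAlgebra ℤ (Ix A S φ), ev t ∈ G := fun t => by
    have h1 : ev t ∈ (G : Set (T × PadicAlgCl ℓ)) := by
      rw [hGcl]
      exact subset_closure ⟨t, rfl⟩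
    exact h1
  have hcomp : CompactSpace G := by
    refine (isCompact_iff_compactSpace (s := (G : Set (T × PadicAlgCl ℓ)))).1 ?_
    have h1 : IsClosed ((Set.univ : Set T) ×ˢ C) := isClosed_univ.prod hC.isClosed
    refine (isCompact_univ.prod hC).of_isClosed_subset ?_ ?_
    · show IsClosed (G : Set (T × PadicAlgCl ℓ))
      rw [hGcl]
      exact isClosed_closure
    · show (G : Set (T × PadicAlgCl ℓ)) ⊆ _
      rw [hGcl]
      refine closure_minimal ?_ h1
      rintro _ ⟨t, rfl⟩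
      exact ⟨Set.mem_univ _, hcC t⟩
  have hinj : ∀ b : PadicAlgCl ℓ, ((0 : T), b) ∈ G → b = 0 := by
    intro b hb
    by_contra hb0
    have hε : 0 < ‖b‖ / 2 := half_pos (norm_pos_iff.2 hb0)
    obtain ⟨W, hW, hW'⟩ := hest _ hε
    have hb' : ((0 : T), b) ∈ closure (Set.range ev) := by
      rw [← hGcl]
      exact hb
    have hn : W ×ˢ Metric.ball b (‖b‖ / 2) ∈ nhds ((0 : T), b) :=
      prod_mem_nhds hW (Metric.ball_mem_nhds b hε)
    obtain ⟨_, ⟨h1, h2⟩, t, rfl⟩ := mem_closure_iff_nhds.1 hb' _ hn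
    have h3 : ‖FreeAlgebra.lift ℤ c t‖ < ‖b‖ / 2 := hW' t h1
    have h4 : dist (FreeAlgebra.lift ℤ c t) b < ‖b‖ / 2 := h2
    have h5 : ‖b‖ ≤ ‖FreeAlgebra.lift ℤ c t‖ + ‖b - FreeAlgebra.lift ℤ c t‖ := by
      have h6 := norm_add_le (FreeAlgebra.lift ℤ c t) (b - FreeAlgebra.lift ℤ c t)
      rwa [add_sub_cancel] at h6
    rw [dist_comm, dist_eq_norm] at h4
    linarith
  let x' : ∀ v, A.inv (φ v) → G := fun v f =>
    if hv : v ∉ S then ⟨(x v f, c ⟨⟨v, hv⟩, f⟩), by
      have h1 := hmem (FreeAlgebra.ι ℤ (⟨⟨v, hv⟩, f⟩ : Ix A S φ))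
      have h2 : ev (FreeAlgebra.ι ℤ (⟨⟨v, hv⟩, f⟩ : Ix A S φ)) = (x v f, c ⟨⟨v, hv⟩, f⟩) := by
        refine Prod.ext ?_ ?_
        · exact FreeAlgebra.lift_ι_apply _ _
        · exact FreeAlgebra.lift_ι_apply _ _
      rw [h2] at h1
      exact h1⟩ else 0
  have hx' : ∀ (v : HeightOneSpectrum (𝓞 F)) (hv : v ∉ S) (f : A.inv (φ v)),
      ((x' v f : G) : T × PadicAlgCl ℓ) = (x v f, c ⟨⟨v, hv⟩, f⟩) := by
    intro v hv f
    show ((dite _ _ _ : G) : T × PadicAlgCl ℓ) = _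
    rw [dif_pos hv]
  let y : G →+* PadicAlgCl ℓ := (RingHom.snd T (PadicAlgCl ℓ)).comp G.subtype
  have hy : Continuous y := continuous_snd.comp continuous_subtype_val
  have hdet : ∀ g : G, g ≠ 0 → OverB.IsDetected A S φ x' g := by
    intro g hg
    have h1 : (g : T × PadicAlgCl ℓ).1 ≠ 0 := by
      intro h0
      apply hg
      have h2 : ((0 : T), (g : T × PadicAlgCl ℓ).2) ∈ G := by
        rw [← h0]
        exact g.2
      have h3 := hinj _ h2
      exact Subtype.ext (Prod.ext h0 h3)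
    obtain ⟨e, he, ht, r, hr⟩ := hx _ h1
    refine ⟨e.comp ((RingHom.fst T (PadicAlgCl ℓ)).comp G.subtype),
      he.comp (continuous_fst.comp continuous_subtype_val), ht, r,
      hr.proj, hr.cont, hr.unram, fun v hv f => ?_⟩
    rw [hr.value v hv f]
    show e (x v f) = e ((x' v f : G) : T × PadicAlgCl ℓ).1
    rw [hx' v hv f]
  obtain ⟨r, hr⟩ := interpolation hO A hA S hS φ hφ G x' hdet (PadicAlgCl ℓ) y hy
  refine ⟨r, hr.proj, hr.cont, fun v hv => ⟨hr.unram v hv, fun f => ?_⟩⟩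
  rw [hr.value v hv f]
  show ((x' v f : G) : T × PadicAlgCl ℓ).2 = _
  rw [hx' v hv f]

end Pool.Agent.Lib.MP_666dc0_nt.TP
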