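import Pool.Agent.Lib.MP_666dc0_nt.TP.Defs
import Pool.Agent.Lib.MP_666dc0_nt.Mg.G042
import Pool.Agent.Lib.MP_666dc0_nt.Mg.G047

/-!
# TP, X4: from the base ring to the generic fibre
-/

open NumberField IsDedekindDomain TensorProduct
open scoped NumberField TensorProduct

namespace Pool.Agent.Lib.MP_666dc0_nt.TP

/-- A representation with values in the L-group over `B` as one with values in the L-group of the generic fibre.
Proof: `IsScalarTower B ℚ K` by `IG.isScalarTower_frac K`. Let `E` be from `IG.exists_LE A K` and `r' = E.symm ∘ r` (`MulEquiv.toMonoidHom`), so `E (r' γ) = r γ`: `(r' γ).right = γ` and `(r' γ).left.hom (1 ⊗ f) = (r γ).left.hom f`. Continuity for all elements of `ℚ ⊗ O`: induction on tensors (`q ⊗ f = q • (1 ⊗ f)`, the value is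
`algebraMap ℚ K q * (r γ).left.hom f`; sums). Unramified: `IG.kb_ext` (`(r' u).left` and `1` agree on all `1 ⊗ f`, as `(r u).left = 1`; the value of `1` at `1 ⊗ f` is that of `1` at `f`: use `E` applied to `1`, or `IG.kbEquiv`). Values: for `f' ∈ (baseA A).inv (φ v)`, `IG.exists_inv A hf'` gives `N f' = 1 ⊗ f`, `N ≠ 0`, `f ∈ A.inv`;
both sides agree on `1 ⊗ f`, so `N` times both sides are equal, `K` has characteristic zero. -/
theorem bridge {F : Type} [Field F] [NumberField F]
    {B : Type} [CommRing B] [IsDomain B] [IsPrincipalIdealRing B] [Algebra B ℚ]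
    [IsFractionRing B ℚ] {O : Type} [CommRing O] [HopfAlgebra B O] [Module.Free B O]
    (A : OverB.HopfAction B Gal(AlgebraicClosure F/F) O)
    {K : Type} [Field K] [CharZero K] [Algebra B K] [TopologicalSpace K] [IsTopologicalRing K]
    (S : Finset (HeightOneSpectrum (𝓞 F)))
    (φ : HeightOneSpectrum (𝓞 F) → Gal(AlgebraicClosure F/F))
    (g : HeightOneSpectrum (𝓞 F) → Pts (ℚ ⊗[B] O) K)
    (r : Gal(AlgebraicClosure F/F) →* A.LGroup K) (hr1 : ∀ γ, (r γ).right = γ)
    (hr2 : ∀ f : O, Continuous fun γ => (r γ).left.hom f)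
    (hr3 : ∀ v, v ∉ S → (∀ P u, IsInertiaAt v P u → (r u).left = 1) ∧
      ∀ f : A.inv (φ v), (r (φ v)).left.hom (f : O) = (g v).hom (1 ⊗ₜ[B] (f : O))) :
    ∃ r' : Gal(AlgebraicClosure F/F) →* (IG.baseA A).LGroup K,
      IsAdmissible (IG.baseA A) r' ∧ ∀ v, v ∉ S →
        (∀ P u, IsInertiaAt v P u → (r' u).left = 1) ∧
        ∀ f ∈ (IG.baseA A).inv (φ v), (r' (φ v)).left.hom f = (g v).hom f := by
  have : IsScalarTower B ℚ K := IG.isScalarTower_frac K
  obtain ⟨E, hE1, hE2⟩ := IG.exists_LE A K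
  have hEr : ∀ γ, E ((E.symm.toMonoidHom.comp r) γ) = r γ := fun γ => E.apply_symm_apply _
  generalize E.symm.toMonoidHom.comp r = r' at hEr
  have hright : ∀ γ, (r' γ).right = γ := by
    intro γ
    rw [← hE1, hEr, hr1]
  have hleft : ∀ γ (f : O), (r' γ).left.hom (1 ⊗ₜ[B] f) = (r γ).left.hom f := by
    intro γ f
    rw [← hE2, hEr]
  refine ⟨r', ⟨hright, ?_⟩, ?_⟩
  · intro f
    induction f using TensorProduct.induction_on with
    | zero =>
      simp only [map_zero]
      exact continuous_const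
    | tmul q f =>
      have h : ∀ γ, (r' γ).left.hom (q ⊗ₜ[B] f) = algebraMap ℚ K q * (r γ).left.hom f := by
        intro γ
        have h2 : (q ⊗ₜ[B] f : ℚ ⊗[B] O) = q • ((1 : ℚ) ⊗ₜ[B] f) := by
          rw [TensorProduct.smul_tmul', smul_eq_mul, mul_one]
        rw [h2, map_smul, Algebra.smul_def, hleft]
      simp only [h]
      exact continuous_const.mul (hr2 f)
    | add x y hx hy =>
      simp only [map_add]
      exact hx.add hy
  · intro v hv
    obtain ⟨h1, h2⟩ := hr3 v hv
    refine ⟨fun P u hu => ?_, fun f' hf' => ?_⟩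
    · apply IG.kb_ext
      intro f
      rw [hleft, h1 P u hu]
      have h3 := hE2 1 f
      rw [map_one] at h3
      exact h3
    · obtain ⟨N, hN, f, hf, hNf⟩ := IG.exists_inv A hf'
      have h3 := h2 ⟨f, hf⟩
      have hNK : (N : K) ≠ 0 := Nat.cast_ne_zero.2 hN
      apply mul_left_cancel₀ hNK
      rw [← map_natCast (r' (φ v)).left.hom N, ← map_mul, hNf, hleft,
        map_natCast (r' (φ v)).left.hom N, ← map_natCast (g v).hom N, ← map_mul, hNf]
      exact h3

end Pool.Agent.Lib.MP_666dc0_nt.TP
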