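import Pool.Agent.Lib.MP_666dc0_nt.TP.X3
import Pool.Agent.Lib.MP_666dc0_nt.TP.X4
import Pool.Agent.Lib.MP_666dc0_nt.TP.I1
import Pool.Agent.Lib.MP_666dc0_nt.TP.DZ

/-!
# TP, X5: the main theorem
-/

open NumberField IsDedekindDomain TensorProduct LaurentPolynomial
open scoped NumberField TensorProduct

namespace Pool.Agent.Lib.MP_666dc0_nt.TP

open WL EC

theorem main {F : Type} [Field F] [NumberField F] {n : ℕ} {D D' : Datum F n} (μ : Grading D)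
    (hM : μ.IsLevi D') (hq : D'.q.det ≠ 0) (hcl : HasClosedOrbit D')
    {Q Q' : Type} [PartialOrder Q] [OrderTop Q] [PartialOrder Q'] [OrderTop Q']
    (a : D.Rat →* (Q ≃o Q)) (a' : D'.Rat →* (Q' ≃o Q')) (j : Q' ↪o Q)
    (hj : ∀ x, x ≤ j ⊤ → x ∈ Set.range j) (hP : IsCoatom (j ⊤))
    (hst : ∀ γ, a γ (j ⊤) = j ⊤ ↔ γ ∈ μ.parab (RingHom.id F))
    (hact : ∀ γ ∈ μ.parab (RingHom.id F), ∀ γ' : D'.Rat, μ.IsLeviPart (RingHom.id F) γ.1 γ'.1 →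
      ∀ x, a γ (j x) = j (a' γ' x))
    {ℓ : ℕ} [Fact ℓ.Prime] {U : Subgroup D.Ad} (hU : IsTame ℓ U) (hK : ∃ K, IsLevel ℓ U K)
    (hUP : ∀ u ∈ U, u ∈ μ.parab (algebraMap F (FiniteAdeleRing (𝓞 F) F)) → ∀ m : D'.Ad,
      μ.IsLeviPart (algebraMap F (FiniteAdeleRing (𝓞 F) F)) u.1 m.1 → m ∈ restr D' U)
    (S : Finset (HeightOneSpectrum (𝓞 F)))
    (hSl : ∀ v : HeightOneSpectrum (𝓞 F), (ℓ : 𝓞 F) ∈ v.asIdeal → v ∈ S)
    (hgood : ∀ v, v ∉ S → IsGood μ U v)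
    {B : Type} [CommRing B] [IsDomain B] [IsPrincipalIdealRing B] [Algebra B ℚ]
    [IsFractionRing B ℚ] [Algebra B (PadicAlgCl ℓ)]
    {O : Type} [CommRing O] [HopfAlgebra B O] [Algebra.FiniteType B O] [Module.Free B O]
    (hO : LinearlyReductive (ℚ ⊗[B] O)) (A : OverB.HopfAction B Gal(AlgebraicClosure F/F) O)
    (hA : IsOpen (A.act.ker : Set Gal(AlgebraicClosure F/F)))
    (hS : ∀ v, v ∉ S → ∀ P u, IsInertiaAt v P u → A.act u = 1)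
    (φ : HeightOneSpectrum (𝓞 F) → Gal(AlgebraicClosure F/F))
    (hφ : (∀ v, v ∉ S → ∃ P, IsOver v P ∧ IsFrob v P (φ v)) ∨
      ∀ v, v ∉ S → ∃ P, IsOver v P ∧ IsFrob v P (φ v)⁻¹)
    {O' : Type} [CommRing O'] [HopfAlgebra ℚ O'] (hO' : LinearlyReductive O')
    (A' : HopfAction Gal(AlgebraicClosure F/F) O')
    (π : (ℚ ⊗[B] O) →ₐc[ℚ] O') (ν : (ℚ ⊗[B] O) →ₐc[ℚ] ℚ[T;T⁻¹])
    (hL : Pool.Agent.Lib.MP_666dc0_nt.IsLevi (IG.baseA A) A' π ν)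
    (sat : ∀ v, A.inv (φ v) → Hk ℓ U v) (hT : TorsionDetected a A S φ sat)
    (m : HeightOneSpectrum (𝓞 F) → Pts O' (PadicAlgCl ℓ)) (a₀ : ℤ)
    (hocc : ∃ (K' : Subgroup D'.Ad) (d i : ℕ) (ρ : Representation ℤ_[ℓ] K' (Fin d → ℤ_[ℓ])),
      IsLevel ℓ (restr D' U) K' ∧ (∀ w, Continuous fun x : K' => ρ x w) ∧
      Occurs μ D' a₀ sat a' K' ρ i (fun x : IxM A S φ =>
        coef π ν (m x.1.1.1) (1 ⊗ₜ[B] (x.1.2 : O)) x.2)) :
    ∃ r : Gal(AlgebraicClosure F/F) →* A'.LGroup (PadicAlgCl ℓ), IsAdmissible A' r ∧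
      ∀ v, v ∉ S → (∀ P u, IsInertiaAt v P u → (r u).left = 1) ∧
        ∀ f : A'.inv (φ v), (r (φ v)).left.hom (f : O') = (m v).hom (f : O') := by
  obtain ⟨T, i1, i2, i3, i4, x, N, hx, hTor⟩ := hT
  obtain ⟨K', d, i, ρ, hK', hρ, hocc⟩ := hocc
  have hφ' : ∀ v, v ∉ S → ∃ P : Ideal (𝓞 (AlgebraicClosure F)), IsOver v P ∧
      (IsFrob v P (φ v) ∨ IsFrob v P (φ v)⁻¹) := by
    rcases hφ with h | h
    · intro v hv
      obtain ⟨P, h1, h2⟩ := h v hv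
      exact ⟨P, h1, Or.inl h2⟩
    · intro v hv
      obtain ⟨P, h1, h2⟩ := h v hv
      exact ⟨P, h1, Or.inr h2⟩
  have key : ∀ j' : ℤ, ∃ r : Gal(AlgebraicClosure F/F) →* (IG.baseA A).LGroup (PadicAlgCl ℓ),
      IsAdmissible (IG.baseA A) r ∧ ∀ v, v ∉ S →
        (∀ P u, IsInertiaAt v P u → (r u).left = 1) ∧
        ∀ f ∈ (IG.baseA A).inv (φ v), (r (φ v)).left.hom f =
          (Pts.incl π (m v) * Pts.cochar ν (normUnit (PadicAlgCl ℓ) v ^ (2 * j'))).hom f := by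
    intro j'
    obtain ⟨⟨C, hC, hcC⟩, hest⟩ := bounds hM hq hcl a a' j hj hP hst hact hU hK hUP hSl hgood sat x N
      hTor π ν m a₀ hK' ρ hρ hocc j'
    obtain ⟨r, hr1, hr2, hr3⟩ := exists_attached hO A hA S hS φ hφ' T x hx (valJ π ν m j') C hC
      hcC hest
    exact bridge A S φ (fun v =>
      Pts.incl π (m v) * Pts.cochar ν (normUnit (PadicAlgCl ℓ) v ^ (2 * j'))) r hr1 hr2
      fun v hv => ⟨(hr3 v hv).1, fun f => (hr3 v hv).2 f⟩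
  have hinf : {k : ℤ | ∃ r : Gal(AlgebraicClosure F/F) →* (IG.baseA A).LGroup (PadicAlgCl ℓ),
      IsAdmissible (IG.baseA A) r ∧ ∀ v, v ∉ S → (ℓ : 𝓞 F) ∉ v.asIdeal →
        ((∀ P u, IsInertiaAt v P u → (r u).left = 1) ∧ ∀ f ∈ (IG.baseA A).inv (φ v),
          (r (φ v)).left.hom f = (Pts.incl π (m v) *
            Pts.cochar ν (normUnit (PadicAlgCl ℓ) v ^ k)).hom f)}.Infinite := by
    refine Set.Infinite.mono (s := Set.range fun j' : ℤ => 2 * j') ?_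
      (Set.infinite_range_of_injective fun x y h => by
        have h' : 2 * x = 2 * y := h
        omega)
    rintro _ ⟨j', rfl⟩
    obtain ⟨r, h1, h2⟩ := key j'
    exact ⟨r, h1, fun v hv _ => h2 v hv⟩
  obtain ⟨r, h1, h2⟩ := descent hO hO' (IG.baseA A) A' (IG.isOpen_ker_baseA A hA) π ν hL S
    (fun v hv P u hu => by
      rw [← map_one (IG.baseA A).act]
      exact IG.baseA_act_eq A ((hS v hv P u hu).trans (map_one A.act).symm)) φ hφ ℓ m hinf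
  exact ⟨r, h1, fun v hv => ⟨(h2 v hv fun h => hv (hSl v h)).1,
    fun f => (h2 v hv fun h => hv (hSl v h)).2 f f.2⟩⟩

end Pool.Agent.Lib.MP_666dc0_nt.TP
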