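import Pool.Agent.Lib.MP_666dc0_nt.TP.Defs
import Mathlib.Data.Fin.Parity

/-!
# TP, A1: the differential
-/

namespace Pool.Agent.Lib.MP_666dc0_nt.TP

variable {Γ G Q X : Type} [Group Γ] [Group G] [PartialOrder Q] [AddCommGroup X] {m : ℕ}

/-- `δ δ = 0`.
Proof: the usual computation. At `(e, x, g)` the left side is the double sum over `i : Fin (m+3)`, `j : Fin (m+2)` of
`(-1)^i (-1)^j z (e ∘ i.succAbove ∘ j.succAbove) (face j (face i x)) g`; the pairs `(i, j)` with `j < i` cancel against the
pairs `(i, j)` with `i ≤ j` by `(i, j) ↦ (j, i - 1)`. The library has the same computation for `bd`: `EP/C2c.lean`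
(`bd_comp_bd`, with the index involution `C2c_g`), which can be copied; or evaluate
`AlgebraicTopology.AlternatingFaceMapComplex`; or prove it from `Fin.succAbove_succAbove_...`
(`Fin.succ_succAbove_...`). For a function `c : (Fin (m+1) → Fin (m+3)) → X` the identity
`∑ i, (-1)^i • ∑ j, (-1)^j • c (fun l => i.succAbove (j.succAbove l)) = 0` is enough
(take `c s = z (e ∘ s) (x ∘ s) g`, with `x ∘ s` replaced by `cst` when `s` is not monotone, or prove the
identity first for functions on order embeddings `Fin (m+1) ↪o Fin (m+3)`). -/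
theorem del_del (z : Coch Γ G Q X m) : del (del z) = 0 := by
  funext e x g
  have h0 : del (del z) e x g = ∑ p : Fin (m + 3) × Fin (m + 2),
      (-1 : ℤ) ^ ((p.1 : ℕ) + (p.2 : ℕ)) •
        z (fun l => e (p.1.succAbove (p.2.succAbove l))) (face p.2 (face p.1 x)) g := by
    rw [Fintype.sum_prod_type]
    unfold del
    refine Finset.sum_congr rfl fun i _ => ?_
    rw [Finset.smul_sum]
    refine Finset.sum_congr rfl fun j _ => ?_
    rw [smul_smul, ← pow_add]
  rw [h0]
  refine Finset.sum_involution (fun p _ => (p.1.succAbove p.2, p.2.predAbove p.1)) ?_ ?_ ?_ ?_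
  · rintro ⟨i, j⟩ -
    have h1 : (fun l => e ((i.succAbove j).succAbove ((j.predAbove i).succAbove l))) =
        fun l => e (i.succAbove (j.succAbove l)) := by
      funext l
      rw [Fin.succAbove_succAbove_succAbove_predAbove]
    have h2 : face (j.predAbove i) (face (i.succAbove j) x) = face j (face i x) := by
      apply OrderHom.ext
      funext l
      exact congrArg x (Fin.succAbove_succAbove_succAbove_predAbove i j l)
    simp only [h1, h2, Fin.neg_one_pow_succAbove_add_predAbove, neg_smul, add_neg_cancel]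
  · rintro ⟨i, j⟩ - - h
    exact Fin.succAbove_ne i j (congrArg Prod.fst h)
  · intro p _
    exact Finset.mem_univ _
  · rintro ⟨i, j⟩ -
    exact Prod.ext (Fin.succAbove_succAbove_predAbove i j) (Fin.predAbove_predAbove_succAbove i j)

theorem del_add (z z' : Coch Γ G Q X m) : del (z + z') = del z + del z' := by
  funext e x g
  show ∑ i : Fin (m + 2), (-1 : ℤ) ^ (i : ℕ) •
      (z (fun j => e (i.succAbove j)) (face i x) g + z' (fun j => e (i.succAbove j)) (face i x) g) =
    ∑ i : Fin (m + 2), (-1 : ℤ) ^ (i : ℕ) • z (fun j => e (i.succAbove j)) (face i x) g +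
      ∑ i : Fin (m + 2), (-1 : ℤ) ^ (i : ℕ) • z' (fun j => e (i.succAbove j)) (face i x) g
  simp only [smul_add, Finset.sum_add_distrib]

theorem del_sub (z z' : Coch Γ G Q X m) : del (z - z') = del z - del z' := by
  funext e x g
  show ∑ i : Fin (m + 2), (-1 : ℤ) ^ (i : ℕ) •
      (z (fun j => e (i.succAbove j)) (face i x) g - z' (fun j => e (i.succAbove j)) (face i x) g) =
    ∑ i : Fin (m + 2), (-1 : ℤ) ^ (i : ℕ) • z (fun j => e (i.succAbove j)) (face i x) g -
      ∑ i : Fin (m + 2), (-1 : ℤ) ^ (i : ℕ) • z' (fun j => e (i.succAbove j)) (face i x) g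
  simp only [smul_sub, Finset.sum_sub_distrib]

theorem del_zero : del (0 : Coch Γ G Q X m) = 0 := by
  funext e x g
  show ∑ i : Fin (m + 2), (-1 : ℤ) ^ (i : ℕ) • (0 : X) = 0
  simp only [smul_zero, Finset.sum_const_zero]

theorem del_sum {ι : Type} (s : Finset ι) (z : ι → Coch Γ G Q X m) :
    del (∑ i ∈ s, z i) = ∑ i ∈ s, del (z i) := by
  classical
  induction s using Finset.induction_on with
  | empty => simpa using del_zero (Γ := Γ) (G := G) (Q := Q) (X := X) (m := m)
  | insert a s ha ih => rw [Finset.sum_insert ha, Finset.sum_insert ha, del_add, ih]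

end Pool.Agent.Lib.MP_666dc0_nt.TP
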