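import Pool.Agent.Lib.MP_666dc0_nt.TP.A1

/-!
# TP, A2: cochains and operators
-/

namespace Pool.Agent.Lib.MP_666dc0_nt.TP

variable {Γ G Q X R : Type} [Group Γ] [Group G] [PartialOrder Q] [CommRing R] [AddCommGroup X]
  [Module R X] {m : ℕ} {τ : Γ →* G} {a : Γ →* (Q ≃o Q)} {U K : Subgroup G}
  {ρ : Representation R K X}

private theorem A2_del_smul (r : R) (z : Coch Γ G Q X m) : TP.del (r • z) = r • TP.del z := by
  funext e x g
  show ∑ i : Fin (m + 2), (-1 : ℤ) ^ (i : ℕ) • (r • z (fun j => e (i.succAbove j)) (face i x) g) =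
    r • ∑ i : Fin (m + 2), (-1 : ℤ) ^ (i : ℕ) • z (fun j => e (i.succAbove j)) (face i x) g
  rw [Finset.smul_sum]
  exact Finset.sum_congr rfl fun i _ => smul_comm _ _ _

theorem IsCoch.add {z z' : Coch Γ G Q X m} (hz : IsCoch τ a U K ρ z) (hz' : IsCoch τ a U K ρ z') :
    IsCoch τ a U K ρ (z + z') := by
  intro γ e x g u hu k
  have h1 := hz γ e x g u hu k
  have h2 := hz' γ e x g u hu k
  simp only [Pi.add_apply, map_add]
  rw [h1, h2]

theorem IsCoch.sub {z z' : Coch Γ G Q X m} (hz : IsCoch τ a U K ρ z) (hz' : IsCoch τ a U K ρ z') :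
    IsCoch τ a U K ρ (z - z') := by
  intro γ e x g u hu k
  have h1 := hz γ e x g u hu k
  have h2 := hz' γ e x g u hu k
  simp only [Pi.sub_apply, map_sub]
  rw [h1, h2]

theorem IsCoch.smul (r : R) {z : Coch Γ G Q X m} (hz : IsCoch τ a U K ρ z) :
    IsCoch τ a U K ρ (r • z) := by
  intro γ e x g u hu k
  have h1 := hz γ e x g u hu k
  simp only [Pi.smul_apply, map_smul]
  rw [h1]

theorem IsCoch.zero : IsCoch τ a U K ρ (0 : Coch Γ G Q X m) := by
  intro γ e x g u hu k
  simp only [Pi.zero_apply, map_zero]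

/-- `face i (flagMap θ x) = flagMap θ (face i x)`, linearity of `ρ k`. -/
theorem IsCoch.del {z : Coch Γ G Q X m} (hz : IsCoch τ a U K ρ z) : IsCoch τ a U K ρ (del z) := by
  intro γ e x g u hu k
  unfold TP.del
  rw [map_sum]
  refine Finset.sum_congr rfl fun i _ => ?_
  rw [map_zsmul]
  have h1 := hz γ (fun j => e (i.succAbove j)) (face i x) g u hu k
  rw [← h1]
  rfl

/-- `γ = 1`, `k = 1`. -/
theorem IsCoch.right {z : Coch Γ G Q X m} (hz : IsCoch τ a U K ρ z) (e : Fin (m + 1) → Γ)
    (x : Fin (m + 1) →o Q) (g : G) {u : G} (hu : u ∈ U) : z e x (g * u) = z e x g := by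
  have h1 := hz 1 e x g u hu 1
  have h2 : flagMap (a 1) x = x := by
    rw [map_one]
    rfl
  have h3 : (fun i => (1 : Γ) * e i) = e := by
    funext i
    exact one_mul _
  rw [h2, h3, map_one, map_one, one_mul, OneMemClass.coe_one, mul_one] at h1
  exact h1

section top

variable [OrderTop Q]

theorem IsRel.add {z z' : Coch Γ G Q X m} (hz : IsRel z) (hz' : IsRel z') : IsRel (z + z') := by
  intro e x g h
  simp only [Pi.add_apply]
  rw [hz e x g h, hz' e x g h, add_zero]

theorem IsRel.sub {z z' : Coch Γ G Q X m} (hz : IsRel z) (hz' : IsRel z') : IsRel (z - z') := by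
  intro e x g h
  simp only [Pi.sub_apply]
  rw [hz e x g h, hz' e x g h, sub_zero]

theorem IsRel.smul (r : R) {z : Coch Γ G Q X m} (hz : IsRel z) : IsRel (r • z) := by
  intro e x g h
  simp only [Pi.smul_apply]
  rw [hz e x g h, smul_zero]

/-- All faces of a flag that does not end with `⊤` do not end with `⊤` (the last element of a face is at most the
last element: monotonicity, `top_le_iff`). -/
theorem IsRel.del {z : Coch Γ G Q X m} (hz : IsRel z) : IsRel (del z) := by
  intro e x g h
  unfold TP.del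
  refine Finset.sum_eq_zero fun i _ => ?_
  rw [hz _ _ _ ?_, smul_zero]
  intro h2
  apply h
  have h3 : x (i.succAbove (Fin.last m)) = ⊤ := h2
  have h4 : x (i.succAbove (Fin.last m)) ≤ x (Fin.last (m + 1)) := x.monotone (Fin.le_last _)
  rw [h3] at h4
  exact top_le_iff.1 h4

/-- In degree `m + 1` the coboundaries are a submodule. -/
theorem IsCob.add {z z' : Coch Γ G Q X m} (hz : IsCob τ a U K ρ z) (hz' : IsCob τ a U K ρ z') :
    IsCob τ a U K ρ (z + z') := by
  cases m with
  | zero =>
    have h1 : z = 0 := hz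
    have h2 : z' = 0 := hz'
    show z + z' = 0
    rw [h1, h2, add_zero]
  | succ m =>
    obtain ⟨y, hy1, hy2, hy3⟩ := hz
    obtain ⟨y', hy1', hy2', hy3'⟩ := hz'
    exact ⟨y + y', hy1.add hy1', hy2.add hy2', by rw [del_add, hy3, hy3']⟩

theorem IsCob.smul (r : R) {z : Coch Γ G Q X m} (hz : IsCob τ a U K ρ z) :
    IsCob τ a U K ρ (r • z) := by
  cases m with
  | zero =>
    have h1 : z = 0 := hz
    show r • z = 0
    rw [h1, smul_zero]
  | succ m =>
    obtain ⟨y, hy1, hy2, hy3⟩ := hz
    exact ⟨r • y, hy1.smul r, hy2.smul r, by rw [A2_del_smul, hy3]⟩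

theorem IsCob.zero : IsCob τ a U K ρ (0 : Coch Γ G Q X m) := by
  cases m with
  | zero =>
    show (0 : Coch Γ G Q X 0) = 0
    rfl
  | succ m =>
    exact ⟨0, IsCoch.zero, fun _ _ _ _ => rfl, by rw [del_zero]⟩

/-- A coboundary is a cocycle (`del_del`), a cochain and vanishes on the flags of proper elements. -/
theorem IsCob.isCoch {z : Coch Γ G Q X m} (hz : IsCob τ a U K ρ z) : IsCoch τ a U K ρ z := by
  cases m with
  | zero =>
    have h1 : z = 0 := hz
    rw [h1]
    exact IsCoch.zero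
  | succ m =>
    obtain ⟨y, hy1, hy2, hy3⟩ := hz
    rw [hy3]
    exact hy1.del

theorem IsCob.isRel {z : Coch Γ G Q X m} (hz : IsCob τ a U K ρ z) : IsRel z := by
  cases m with
  | zero =>
    have h1 : z = 0 := hz
    rw [h1]
    exact fun _ _ _ _ => rfl
  | succ m =>
    obtain ⟨y, hy1, hy2, hy3⟩ := hz
    rw [hy3]
    exact hy2.del

theorem IsCob.del_eq {z : Coch Γ G Q X m} (hz : IsCob τ a U K ρ z) : del z = 0 := by
  cases m with
  | zero =>
    have h1 : z = 0 := hz
    rw [h1, del_zero]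
  | succ m =>
    obtain ⟨y, hy1, hy2, hy3⟩ := hz
    rw [hy3, del_del]

end top

/-- For the ordered set with one element the condition `IsRel` is empty. -/
theorem isRel_unit (z : Coch Γ G Unit X m) : IsRel z := by
  intro e x g h
  exact absurd (Subsingleton.elim _ _) h

/-- Operators commute with the differential (linearity of `T`). -/
theorem opOn_del (T : Module.End R (G → X)) (z : Coch Γ G Q X m) :
    opOn T (del z) = del (opOn T z) := by
  funext e x
  have h1 : TP.del z e x = ∑ i : Fin (m + 2), (-1 : ℤ) ^ (i : ℕ) •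
      z (fun j => e (i.succAbove j)) (face i x) := by
    funext g
    rw [Finset.sum_apply]
    rfl
  show T (TP.del z e x) = TP.del (opOn T z) e x
  rw [h1, map_sum]
  funext g
  rw [Finset.sum_apply]
  show _ = ∑ i : Fin (m + 2), (-1 : ℤ) ^ (i : ℕ) • T (z (fun j => e (i.succAbove j)) (face i x)) g
  refine Finset.sum_congr rfl fun i _ => ?_
  rw [map_zsmul]
  rfl

/-- The operator `T` on functions on `G` with values in `X` commutes with left translations, preserves
the functions that are right invariant under `U`, commutes on these with right translations by `K`,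
and commutes with the endomorphisms of `X`. -/
structure IsGoodOp (U K : Subgroup G) (T : Module.End R (G → X)) : Prop where
  left : ∀ (x : G) (f : G → X), T (fun g => f (x * g)) = fun g => T f (x * g)
  right : ∀ f : G → X, (∀ g, ∀ u ∈ U, f (g * u) = f g) → ∀ g, ∀ u ∈ U, T f (g * u) = T f g
  rightK : ∀ f : G → X, (∀ g, ∀ u ∈ U, f (g * u) = f g) → ∀ k ∈ K,
    T (fun g => f (g * k)) = fun g => T f (g * k)
  coeff : ∀ (α : X →ₗ[R] X) (f : G → X), T (fun g => α (f g)) = fun g => α (T f g)

theorem IsGoodOp.one : IsGoodOp U K (1 : Module.End R (G → X)) := by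
  exact ⟨fun _ _ => rfl, fun _ hf => hf, fun _ _ _ _ => rfl, fun _ _ => rfl⟩

theorem IsGoodOp.mul {T T' : Module.End R (G → X)} (hT : IsGoodOp U K T) (hT' : IsGoodOp U K T') :
    IsGoodOp U K (T * T') := by
  refine ⟨fun x f => ?_, fun f hf => ?_, fun f hf k hk => ?_, fun α f => ?_⟩
  · show T (T' (fun g => f (x * g))) = fun g => T (T' f) (x * g)
    rw [hT'.left, hT.left]
  · exact hT.right (T' f) (hT'.right f hf)
  · show T (T' (fun g => f (g * k))) = fun g => T (T' f) (g * k)
    rw [hT'.rightK f hf k hk, hT.rightK (T' f) (hT'.right f hf) k hk]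
  · show T (T' (fun g => α (f g))) = fun g => α (T (T' f) g)
    rw [hT'.coeff, hT.coeff]

theorem IsGoodOp.add {T T' : Module.End R (G → X)} (hT : IsGoodOp U K T) (hT' : IsGoodOp U K T') :
    IsGoodOp U K (T + T') := by
  refine ⟨fun x f => ?_, fun f hf g u hu => ?_, fun f hf k hk => ?_, fun α f => ?_⟩
  · show T (fun g => f (x * g)) + T' (fun g => f (x * g)) = fun g => T f (x * g) + T' f (x * g)
    rw [hT'.left, hT.left]
    rfl
  · show T f (g * u) + T' f (g * u) = T f g + T' f g
    rw [hT.right f hf g u hu, hT'.right f hf g u hu]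
  · show T (fun g => f (g * k)) + T' (fun g => f (g * k)) = fun g => T f (g * k) + T' f (g * k)
    rw [hT'.rightK f hf k hk, hT.rightK f hf k hk]
    rfl
  · show T (fun g => α (f g)) + T' (fun g => α (f g)) = fun g => α (T f g + T' f g)
    rw [hT'.coeff, hT.coeff]
    funext g
    exact (map_add α _ _).symm

theorem IsGoodOp.smul (r : R) {T : Module.End R (G → X)} (hT : IsGoodOp U K T) :
    IsGoodOp U K (r • T) := by
  refine ⟨fun x f => ?_, fun f hf g u hu => ?_, fun f hf k hk => ?_, fun α f => ?_⟩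
  · show r • T (fun g => f (x * g)) = fun g => r • T f (x * g)
    rw [hT.left]
    rfl
  · show r • T f (g * u) = r • T f g
    rw [hT.right f hf g u hu]
  · show r • T (fun g => f (g * k)) = fun g => r • T f (g * k)
    rw [hT.rightK f hf k hk]
    rfl
  · show r • T (fun g => α (f g)) = fun g => α (r • T f g)
    rw [hT.coeff]
    funext g
    exact (map_smul α r _).symm

theorem IsGoodOp.pow {T : Module.End R (G → X)} (hT : IsGoodOp U K T) (N : ℕ) :
    IsGoodOp U K (T ^ N) := by
  induction N with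
  | zero =>
    rw [pow_zero]
    exact IsGoodOp.one
  | succ N ih =>
    rw [pow_succ]
    exact ih.mul hT

/-- Proof: fix `γ, e, x, g, u, k` and put `f = z e x`, `f' = z (γ e) (γ x)`. `f'` is right `U`-invariant
(`IsCoch.right`). `τ γ * g * u * k = τ γ * (g * k) * u` (`hUK`), so
`T f' (τ γ g u k) = T f' (τ γ g k)` (`right`) `= T (fun h => f' (τ γ * h * k)) g` (`rightK`, `left`), and
`f' (τ γ * h * k) = ρ k⁻¹ (f h)` (the cochain condition with `u = 1`, and `ρ k⁻¹ ∘ ρ k = 1`), so this is
`ρ k⁻¹ (T f g)` by `coeff`. -/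
theorem IsCoch.opOn (hUK : ∀ u ∈ U, ∀ k ∈ K, u * k = k * u) {T : Module.End R (G → X)}
    (hT : IsGoodOp U K T) {z : Coch Γ G Q X m} (hz : IsCoch τ a U K ρ z) :
    IsCoch τ a U K ρ (opOn T z) := by
  intro γ e x g u hu k
  set f : G → X := z e x with hf
  set f' : G → X := z (fun i => γ * e i) (flagMap (a γ) x) with hf'
  have hr : ∀ g, ∀ u ∈ U, f' (g * u) = f' g := fun g u hu => hz.right _ _ g hu
  show ρ k (T f' (τ γ * g * u * k)) = T f g
  have h1 : τ γ * g * u * k = τ γ * g * k * u := by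
    rw [mul_assoc (τ γ * g), hUK u hu k k.2, ← mul_assoc]
  rw [h1, hT.right f' hr _ u hu]
  have h2 := hT.rightK f' hr k k.2
  have h3 : T f' (τ γ * g * k) = T (fun h => f' (τ γ * h * k)) g := by
    have h4 := hT.left (τ γ) (fun h => f' (h * k))
    have h5 := congrFun h4 g
    rw [h2] at h5
    exact h5.symm
  have h6 : (fun h => f' (τ γ * h * k)) = fun h => ρ k⁻¹ (f h) := by
    funext h
    have h7 := hz γ e x h 1 (one_mem U) k
    rw [mul_one] at h7
    rw [hf, ← h7, ← Module.End.mul_apply, ← map_mul, inv_mul_cancel, map_one]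
    rfl
  rw [h3, h6, hT.coeff (ρ k⁻¹) f]
  show ρ k (ρ k⁻¹ (T f g)) = T f g
  rw [← Module.End.mul_apply, ← map_mul, mul_inv_cancel, map_one]
  rfl

theorem IsRel.opOn [OrderTop Q] (T : Module.End R (G → X)) {z : Coch Γ G Q X m} (hz : IsRel z) :
    IsRel (opOn T z) := by
  intro e x g h
  have h1 : z e x = 0 := by
    funext g'
    exact hz e x g' h
  show T (z e x) g = 0
  rw [h1, map_zero]
  rfl

/-- `T` maps coboundaries to coboundaries (`IsCoch.opOn`, `IsRel.opOn`, `opOn_del`). -/
theorem IsCob.opOn [OrderTop Q] (hUK : ∀ u ∈ U, ∀ k ∈ K, u * k = k * u)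
    {T : Module.End R (G → X)} (hT : IsGoodOp U K T) {z : Coch Γ G Q X m}
    (hz : IsCob τ a U K ρ z) : IsCob τ a U K ρ (opOn T z) := by
  cases m with
  | zero =>
    have h1 : z = 0 := hz
    show TP.opOn T z = 0
    funext e x
    show T (z e x) = 0
    rw [h1]
    exact map_zero T
  | succ m =>
    obtain ⟨y, hy1, hy2, hy3⟩ := hz
    exact ⟨TP.opOn T y, hy1.opOn hUK hT, hy2.opOn T, by rw [hy3, opOn_del]⟩

/-- If `T` kills, so does `T' T` (`IsCob.opOn`), in particular every higher power of `T`. -/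
theorem Kills.pow_le [OrderTop Q] (hUK : ∀ u ∈ U, ∀ k ∈ K, u * k = k * u)
    {T : Module.End R (G → X)} (hT : IsGoodOp U K T) {N N' : ℕ} (h : N ≤ N')
    (hk : Kills τ a U K ρ (T ^ N) m) : Kills τ a U K ρ (T ^ N') m := by
  obtain ⟨d, rfl⟩ := Nat.exists_eq_add_of_le h
  intro z hz hrel hdel
  have h1 := (hk z hz hrel hdel).opOn hUK (hT.pow d)
  have h2 : TP.opOn (T ^ (N + d)) z = TP.opOn (T ^ d) (TP.opOn (T ^ N) z) := by
    rw [add_comm N d, pow_add]
    rfl
  rw [h2]
  exact h1

end Pool.Agent.Lib.MP_666dc0_nt.TP
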