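import Pool.Agent.Lib.MP_666dc0_nt.TP.A2

/-!
# TP, B1: the prism
-/

namespace Pool.Agent.Lib.MP_666dc0_nt.TP

variable {Γ G Q X R : Type} [Group Γ] [Group G] [PartialOrder Q] [OrderTop Q] [CommRing R]
  [AddCommGroup X] [Module R X]

/-- The values of `z` on the constant flag `q`. -/
def qVal (q : Q) {m : ℕ} (z : Coch Γ G Q X m) : Coch Γ G Unit X m := fun e _ g => z e (cst q) g

/-- Equivariance under the subgroup `S` of `Γ` and under `U K`. -/
def EqvOn (S : Subgroup Γ) (τ : Γ →* G) (U K : Subgroup G) (ρ : Representation R K X) {m : ℕ}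
    (b : Coch Γ G Unit X m) : Prop :=
  ∀ γ ∈ S, ∀ (e : Fin (m + 1) → Γ) (x : Fin (m + 1) →o Unit) (g : G), ∀ u ∈ U, ∀ k : K,
    ρ k (b (fun i => γ * e i) x (τ γ * g * u * k)) = b e x g

/-- `z` is the differential of an `S`-equivariant cochain (or zero in degree zero). -/
def IsCobOn (S : Subgroup Γ) (τ : Γ →* G) (U K : Subgroup G) (ρ : Representation R K X) :
    ∀ {m : ℕ}, Coch Γ G Unit X m → Prop
  | 0, z => z = 0
  | _ + 1, z => ∃ b, EqvOn S τ U K ρ b ∧ z = del b

/-- The flag `q, …, q, ⊤, …, ⊤` with `i + 1` entries `q` (indices `≤ i`). -/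
def mix (q : Q) {m : ℕ} (i : Fin (m + 1)) : Fin (m + 2) →o Q :=
  ⟨fun l => if (l : ℕ) ≤ i then q else ⊤, fun l l' h => by
    have h' : (l : ℕ) ≤ l' := h
    by_cases h1 : (l' : ℕ) ≤ i
    · simp [h1, h'.trans h1]
    · simp only [h1, if_false]; exact le_top⟩

/-- The prism operator `(H w)(e; g) = ∑ i, (-1)^i w(e_0, …, e_i, e_i, …, e_m; q, …, q, ⊤, …, ⊤; g)`. -/
def prism (q : Q) {m : ℕ} (w : Coch Γ G Q X (m + 1)) : Coch Γ G Unit X m := fun e _ g =>
  ∑ i : Fin (m + 1), (-1 : ℤ) ^ (i : ℕ) • w (fun l => e (i.predAbove l)) (mix q i) g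

private lemma B1_val_predAbove {n : ℕ} (p : Fin n) (i : Fin (n + 1)) :
    ((p.predAbove i : Fin n) : ℕ) = if (p : ℕ) < i then (i : ℕ) - 1 else i := by
  unfold Fin.predAbove
  split_ifs with h1 h2 h2
  · simp
  · exact absurd h1 h2
  · exact absurd h2 h1
  · simp

private lemma B1_val_succAbove {n : ℕ} (p : Fin (n + 1)) (i : Fin n) :
    ((p.succAbove i : Fin (n + 1)) : ℕ) = if (i : ℕ) < p then (i : ℕ) else i + 1 := by
  unfold Fin.succAbove
  split_ifs with h1 h2 h2
  · simp
  · exact absurd h1 h2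
  · exact absurd h2 h1
  · simp

/-- the involution of the index set -/
private def B1_inv {m : ℕ} (p : Fin (m + 2) × Fin (m + 1)) : Fin (m + 2) × Fin (m + 1) :=
  (p.1.succAbove p.2, p.2.predAbove p.1)

private lemma B1_inv_inv {m : ℕ} (p : Fin (m + 2) × Fin (m + 1)) : B1_inv (B1_inv p) = p := by
  obtain ⟨a, b⟩ := p
  apply Prod.ext
  · apply Fin.ext
    simp only [B1_inv, B1_val_succAbove, B1_val_predAbove]
    split_ifs <;> omega
  · apply Fin.ext
    simp only [B1_inv, B1_val_succAbove, B1_val_predAbove]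
    split_ifs <;> omega

/-- the flag with `k` entries `q` -/
private def B1_ck (q : Q) {m : ℕ} (k : ℕ) : Fin (m + 1) →o Q :=
  ⟨fun l => if (l : ℕ) < k then q else ⊤, fun l l' h => by
    have h' : (l : ℕ) ≤ l' := h
    by_cases h1 : (l' : ℕ) < k
    · simp [h1, lt_of_le_of_lt h' h1]
    · simp only [h1, if_false]; exact le_top⟩

omit [Group Γ] [Group G] in
private lemma B1_sum (q : Q) {m : ℕ} (w : Coch Γ G Q X (m + 1)) (e : Fin (m + 2) → Γ) (g : G)
    (i : Fin (m + 2)) :
    ∑ l : Fin (m + 3), (-1 : ℤ) ^ (l : ℕ) •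
      w (fun j => e (i.predAbove (l.succAbove j))) (face l (mix q i)) g =
    (-1 : ℤ) ^ (i : ℕ) • (w e (B1_ck q i) g - w e (B1_ck q (i + 1)) g) +
    ∑ b : Fin (m + 1), (-1 : ℤ) ^ ((i.castSucc.succAbove (i.succAbove b) : Fin (m + 3)) : ℕ) •
      w (fun j => e (i.predAbove ((i.castSucc.succAbove (i.succAbove b)).succAbove j)))
        (face (i.castSucc.succAbove (i.succAbove b)) (mix q i)) g := by
  rw [Fin.sum_univ_succAbove _ i.castSucc, Fin.sum_univ_succAbove _ i, ← add_assoc]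
  congr 1
  have h1 : i.castSucc.succAbove i = i.succ := Fin.succAbove_castSucc_self i
  rw [h1]
  have h2 : (fun j => e (i.predAbove (i.castSucc.succAbove j))) = e := by
    funext j
    congr 1
    apply Fin.ext
    simp only [B1_val_predAbove, B1_val_succAbove, Fin.val_castSucc]
    split_ifs <;> omega
  have h3 : (fun j => e (i.predAbove (i.succ.succAbove j))) = e := by
    funext j
    congr 1
    apply Fin.ext
    simp only [B1_val_predAbove, B1_val_succAbove, Fin.val_succ]
    split_ifs <;> omega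
  have h4 : face i.castSucc (mix q i) = B1_ck q i := by
    apply OrderHom.ext
    funext j
    change (if ((i.castSucc.succAbove j : Fin (m + 3)) : ℕ) ≤ i then q else ⊤) =
      if (j : ℕ) < i then q else ⊤
    rw [B1_val_succAbove]
    congr 1
    simp only [Fin.val_castSucc, eq_iff_iff]
    split_ifs <;> omega
  have h5 : face i.succ (mix q i) = B1_ck q (i + 1) := by
    apply OrderHom.ext
    funext j
    change (if ((i.succ.succAbove j : Fin (m + 3)) : ℕ) ≤ i then q else ⊤) =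
      if (j : ℕ) < i + 1 then q else ⊤
    rw [B1_val_succAbove]
    congr 1
    simp only [Fin.val_succ, eq_iff_iff]
    split_ifs <;> omega
  rw [h2, h3, h4, h5, Fin.val_castSucc, Fin.val_succ, pow_succ, smul_sub]
  simp only [mul_neg, mul_one, neg_smul]
  rw [sub_eq_add_neg]

omit [Group Γ] [Group G] in
private lemma B1_term (q : Q) {m : ℕ} (w : Coch Γ G Q X (m + 1)) (e : Fin (m + 2) → Γ) (g : G)
    (p : Fin (m + 2) × Fin (m + 1)) :
    (-1 : ℤ) ^ (p.1 : ℕ) • (-1 : ℤ) ^ ((p.1.castSucc.succAbove (p.1.succAbove p.2) : Fin (m + 3)) : ℕ) •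
      w (fun j => e (p.1.predAbove ((p.1.castSucc.succAbove (p.1.succAbove p.2)).succAbove j)))
        (face (p.1.castSucc.succAbove (p.1.succAbove p.2)) (mix q p.1)) g =
    - ((-1 : ℤ) ^ ((B1_inv p).1 : ℕ) • (-1 : ℤ) ^ ((B1_inv p).2 : ℕ) •
      w (fun j => e ((B1_inv p).1.succAbove ((B1_inv p).2.predAbove j))) (mix q (B1_inv p).2) g) := by
  obtain ⟨i, b⟩ := p
  have h1 : (fun j => e (i.predAbove ((i.castSucc.succAbove (i.succAbove b)).succAbove j))) =
      fun j => e ((B1_inv (i, b)).1.succAbove ((B1_inv (i, b)).2.predAbove j)) := by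
    funext j
    congr 1
    apply Fin.ext
    simp only [B1_inv, B1_val_predAbove, B1_val_succAbove, Fin.val_castSucc]
    split_ifs <;> omega
  have h2 : face (i.castSucc.succAbove (i.succAbove b)) (mix q i) = mix q (B1_inv (i, b)).2 := by
    apply OrderHom.ext
    funext j
    change (if (((i.castSucc.succAbove (i.succAbove b)).succAbove j : Fin (m + 3)) : ℕ) ≤ i
      then q else ⊤) = if (j : ℕ) ≤ ((B1_inv (i, b)).2 : ℕ) then q else ⊤
    simp only [B1_inv, B1_val_predAbove, B1_val_succAbove, Fin.val_castSucc]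
    congr 1
    simp only [eq_iff_iff]
    split_ifs <;> omega
  simp only [h1, h2]
  rw [smul_smul, smul_smul, ← neg_smul, ← pow_add, ← pow_add]
  congr 1
  rcases lt_or_ge (b : ℕ) i with h | h
  · have e1 : ((i.castSucc.succAbove (i.succAbove b) : Fin (m + 3)) : ℕ) = b := by
      simp only [B1_val_succAbove, Fin.val_castSucc]
      split_ifs <;> omega
    have e2 : ((B1_inv (i, b)).1 : ℕ) = b := by
      simp only [B1_inv, B1_val_succAbove]
      split_ifs <;> rfl
    have e3 : ((B1_inv (i, b)).2 : ℕ) = i - 1 := by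
      simp only [B1_inv, B1_val_predAbove]
      split_ifs <;> rfl
    rw [e1, e2, e3, show (i : ℕ) + b = (b + (i - 1)) + 1 by omega, pow_succ]
    ring
  · have e1 : ((i.castSucc.succAbove (i.succAbove b) : Fin (m + 3)) : ℕ) = b + 2 := by
      simp only [B1_val_succAbove, Fin.val_castSucc]
      split_ifs <;> omega
    have e2 : ((B1_inv (i, b)).1 : ℕ) = b + 1 := by
      simp only [B1_inv, B1_val_succAbove]
      split_ifs <;> omega
    have e3 : ((B1_inv (i, b)).2 : ℕ) = i := by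
      simp only [B1_inv, B1_val_predAbove]
      split_ifs <;> omega
    rw [e1, e2, e3, show (i : ℕ) + (b + 2) = (b + 1 + i) + 1 by omega, pow_succ]
    ring

/-- The prism identity: `H δ w + δ H w = w|_⊤ - w|_q`.
Proof: fix `e, g`. `H (δ w) = ∑_{i ≤ m} ∑_{l ≤ m+1} (-1)^(i+l) w (e ∘ i.predAbove ∘ l.succAbove) (face l (mix q i)) g`
(here `w` has degree `m + 1` and `δ w` degree `m + 2`, so `i : Fin (m+2)`, `l : Fin (m+3)`). The terms `l = i` (castSucc) and `l = i + 1` have
`i.predAbove ∘ l.succAbove = id` and `face l (mix q i)` = the flag with `i`, respectively `i + 1`, entries `q` (`c_i`, `c_{i+1}`): they telescope to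
`w e c_0 g - w e c_{m+2} g = w|_⊤ - w|_q`. The terms with `l < i` are the terms of `-δ H w` for the face `l` and the index `i - 1`,
those with `l > i + 1` the terms for the face `l - 1` and the index `i`: `(-1)^(i+l) = - (-1)^((i-1)+l)`. (Simplicial identities
`Fin.predAbove_succAbove`, `SimplexCategory.δ_comp_σ_of_le`, `..._of_gt`, `δ_comp_σ_self`, `δ_comp_σ_succ`.) -/
theorem prism_del (q : Q) {m : ℕ} (w : Coch Γ G Q X (m + 1)) :
    prism q (del w) + del (prism q w) = qVal ⊤ w - qVal q w := by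
  funext e x g
  have hA : prism q (del w) e x g =
      ∑ i : Fin (m + 2), (-1 : ℤ) ^ (i : ℕ) • ∑ l : Fin (m + 3), (-1 : ℤ) ^ (l : ℕ) •
        w (fun j => e (i.predAbove (l.succAbove j))) (face l (mix q i)) g := rfl
  have hB : del (prism q w) e x g =
      ∑ i : Fin (m + 2), (-1 : ℤ) ^ (i : ℕ) • ∑ b : Fin (m + 1), (-1 : ℤ) ^ (b : ℕ) •
        w (fun j => e (i.succAbove (b.predAbove j))) (mix q b) g := rfl
  have hC : (qVal ⊤ w - qVal q w) e x g = w e (cst ⊤) g - w e (cst q) g := rfl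
  change prism q (del w) e x g + del (prism q w) e x g = (qVal ⊤ w - qVal q w) e x g
  rw [hA, hB, hC]
  simp only [B1_sum, smul_add, Finset.sum_add_distrib]
  have h1 : ∑ i : Fin (m + 2), (-1 : ℤ) ^ (i : ℕ) • (-1 : ℤ) ^ (i : ℕ) •
      (w e (B1_ck q i) g - w e (B1_ck q (i + 1)) g) = w e (cst ⊤) g - w e (cst q) g := by
    have h2 : ∀ i : Fin (m + 2), (-1 : ℤ) ^ (i : ℕ) • (-1 : ℤ) ^ (i : ℕ) •
        (w e (B1_ck q i) g - w e (B1_ck q (i + 1)) g) =
        w e (B1_ck q i) g - w e (B1_ck q (i + 1)) g := fun i => by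
      rw [smul_smul, ← mul_pow]
      simp
    simp only [h2]
    rw [Fin.sum_univ_eq_sum_range (fun i => w e (B1_ck q i) g - w e (B1_ck q (i + 1)) g),
      Finset.sum_range_sub' (fun i => w e (B1_ck q i) g)]
    have h3 : (B1_ck q 0 : Fin (m + 2) →o Q) = cst ⊤ := by
      apply OrderHom.ext
      funext j
      change (if (j : ℕ) < 0 then q else ⊤) = ⊤
      simp
    have h4 : (B1_ck q (m + 2) : Fin (m + 2) →o Q) = cst q := by
      apply OrderHom.ext
      funext j
      change (if (j : ℕ) < m + 2 then q else ⊤) = q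
      simp [j.2]
    rw [h3, h4]
  rw [h1]
  simp only [Finset.smul_sum]
  rw [add_assoc, ← Fintype.sum_prod_type' (f := fun (i : Fin (m + 2)) (b : Fin (m + 1)) =>
      (-1 : ℤ) ^ (i : ℕ) • (-1 : ℤ) ^ ((i.castSucc.succAbove (i.succAbove b) : Fin (m + 3)) : ℕ) •
      w (fun j => e (i.predAbove ((i.castSucc.succAbove (i.succAbove b)).succAbove j)))
        (face (i.castSucc.succAbove (i.succAbove b)) (mix q i)) g),
    ← Fintype.sum_prod_type' (f := fun (i : Fin (m + 2)) (b : Fin (m + 1)) =>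
      (-1 : ℤ) ^ (i : ℕ) • (-1 : ℤ) ^ (b : ℕ) •
        w (fun j => e (i.succAbove (b.predAbove j))) (mix q b) g)]
  have h5 : ∑ p : Fin (m + 2) × Fin (m + 1), (-1 : ℤ) ^ (p.1 : ℕ) • (-1 : ℤ) ^ (p.2 : ℕ) •
        w (fun j => e (p.1.succAbove (p.2.predAbove j))) (mix q p.2) g =
      ∑ p : Fin (m + 2) × Fin (m + 1), (-1 : ℤ) ^ ((B1_inv p).1 : ℕ) •
        (-1 : ℤ) ^ ((B1_inv p).2 : ℕ) •
        w (fun j => e ((B1_inv p).1.succAbove ((B1_inv p).2.predAbove j)))
          (mix q (B1_inv p).2) g :=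
    (Equiv.sum_comp (⟨B1_inv, B1_inv, B1_inv_inv, B1_inv_inv⟩ :
      Fin (m + 2) × Fin (m + 1) ≃ Fin (m + 2) × Fin (m + 1))
      (fun p => (-1 : ℤ) ^ (p.1 : ℕ) • (-1 : ℤ) ^ (p.2 : ℕ) •
        w (fun j => e (p.1.succAbove (p.2.predAbove j))) (mix q p.2) g)).symm
  rw [h5, ← Finset.sum_add_distrib]
  rw [Finset.sum_eq_zero, add_zero]
  intro p _
  rw [B1_term, neg_add_cancel]

variable {τ : Γ →* G} {a : Γ →* (Q ≃o Q)} {U K : Subgroup G} {ρ : Representation R K X}

/-- `S` fixes `q` (and `⊤`), so it fixes the flags `mix q i`. -/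
theorem eqvOn_prism {S : Subgroup Γ} {q : Q} (hS : ∀ γ ∈ S, a γ q = q) {m : ℕ}
    {w : Coch Γ G Q X (m + 1)} (hw : IsCoch τ a U K ρ w) : EqvOn S τ U K ρ (prism q w) := by
  intro γ hγ e x g u hu k
  unfold prism
  rw [map_sum]
  refine Finset.sum_congr rfl fun i _ => ?_
  rw [map_zsmul]
  have h1 : flagMap (a γ) (mix q i) = mix q i := by
    apply OrderHom.ext
    funext j
    change a γ (if (j : ℕ) ≤ i then q else ⊤) = if (j : ℕ) ≤ i then q else ⊤
    split_ifs
    · exact hS γ hγ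
    · exact (a γ).map_top
  have h2 := hw γ (fun l => e (i.predAbove l)) (mix q i) g u hu k
  rw [h1] at h2
  rw [h2]

/-- For a cocycle `w`, `w|_q - w|_⊤` is a coboundary (`b = - prism q w`); in degree `0` the two are equal: `del w` at
`(e_0, e_0; q ≤ ⊤; g)`. -/
theorem isCobOn_sub {S : Subgroup Γ} {q : Q} (hS : ∀ γ ∈ S, a γ q = q) {m : ℕ}
    {w : Coch Γ G Q X m} (hw : IsCoch τ a U K ρ w) (hd : del w = 0) :
    IsCobOn S τ U K ρ (qVal q w - qVal ⊤ w) := by
  cases m with
  | zero =>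
    change qVal q w - qVal ⊤ w = 0
    funext e x g
    change w e (cst q) g - w e (cst ⊤) g = 0
    have h1 : del w (fun _ => e 0) (mix q (0 : Fin 1)) g = 0 := by rw [hd]; rfl
    have h2 : del w (fun _ => e 0) (mix q (0 : Fin 1)) g =
        ∑ i : Fin 2, (-1 : ℤ) ^ (i : ℕ) • w (fun _ => e 0) (face i (mix q (0 : Fin 1))) g := rfl
    rw [h2, Fin.sum_univ_two] at h1
    have h3 : (fun _ : Fin 1 => e 0) = e := by
      funext j
      rw [Subsingleton.elim j 0]
    have h4 : face 0 (mix q (0 : Fin 1)) = cst ⊤ := by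
      apply OrderHom.ext
      funext j
      change (if ((((0 : Fin 2).succAbove j : Fin 2)) : ℕ) ≤ ((0 : Fin 1) : ℕ) then q else ⊤) = ⊤
      rw [B1_val_succAbove]
      simp
    have h5 : face 1 (mix q (0 : Fin 1)) = cst q := by
      apply OrderHom.ext
      funext j
      change (if ((((1 : Fin 2).succAbove j : Fin 2)) : ℕ) ≤ ((0 : Fin 1) : ℕ) then q else ⊤) = q
      rw [B1_val_succAbove]
      simp
    rw [h3, h4, h5] at h1
    simp only [Fin.val_zero, pow_zero, one_smul, Fin.val_one, pow_one, neg_smul] at h1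
    rw [← sub_eq_add_neg] at h1
    rw [sub_eq_zero] at h1 ⊢
    exact h1.symm
  | succ m =>
    refine ⟨0 - prism q w, ?_, ?_⟩
    · intro γ hγ e x g u hu k
      have h1 := eqvOn_prism hS hw γ hγ e x g u hu k
      change ρ k (0 - prism q w (fun i => γ * e i) x (τ γ * g * u * k)) = 0 - prism q w e x g
      rw [map_sub, map_zero, h1]
    · have h1 := prism_del q w
      rw [hd] at h1
      have h2 : prism q (0 : Coch Γ G Q X (m + 2)) = 0 := by
        funext e x g
        unfold prism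
        simp
      rw [h2, zero_add] at h1
      rw [del_sub, del_zero, zero_sub, h1, neg_sub]

/-- Cochains for `Γ` are equivariant for `S`; coboundaries are a submodule. -/
theorem IsCob.isCobOn {S : Subgroup Γ} {m : ℕ} {w : Coch Γ G Unit X m}
    (hw : IsCob τ (1 : Γ →* (Unit ≃o Unit)) U K ρ w) : IsCobOn S τ U K ρ w := by
  cases m with
  | zero => exact hw
  | succ m =>
    obtain ⟨y, hy, -, h⟩ := hw
    refine ⟨y, ?_, h⟩
    intro γ _ e x g u hu k
    have h1 := hy γ e x g u hu k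
    have h2 : flagMap ((1 : Γ →* (Unit ≃o Unit)) γ) x = x := by
      apply OrderHom.ext
      funext j
      rfl
    rw [h2] at h1
    exact h1

theorem IsCobOn.add {S : Subgroup Γ} {m : ℕ} {w w' : Coch Γ G Unit X m}
    (hw : IsCobOn S τ U K ρ w) (hw' : IsCobOn S τ U K ρ w') : IsCobOn S τ U K ρ (w + w') := by
  cases m with
  | zero =>
    change w = 0 at hw
    change w' = 0 at hw'
    change w + w' = 0
    rw [hw, hw', add_zero]
  | succ m =>
    obtain ⟨b, hb, h⟩ := hw
    obtain ⟨b', hb', h'⟩ := hw'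
    refine ⟨b + b', ?_, ?_⟩
    · intro γ hγ e x g u hu k
      change ρ k (b (fun i => γ * e i) x (τ γ * g * u * k) + b' (fun i => γ * e i) x (τ γ * g * u * k)) =
        b e x g + b' e x g
      rw [map_add, hb γ hγ e x g u hu k, hb' γ hγ e x g u hu k]
    · rw [del_add, h, h']

end Pool.Agent.Lib.MP_666dc0_nt.TP
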