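import Pool.Agent.Lib.MP_666dc0_nt.TP.B1

/-!
# TP, B2: the boundary sequence
-/

namespace Pool.Agent.Lib.MP_666dc0_nt.TP

variable {Γ G Q X R : Type} [Group Γ] [Group G] [PartialOrder Q] [OrderTop Q] [CommRing R]
  [AddCommGroup X] [Module R X] {τ : Γ →* G} {a : Γ →* (Q ≃o Q)} {U K : Subgroup G}
  {ρ : Representation R K X}

/-- `a γ ⊤ = ⊤`: the values of a cochain on the constant flag `⊤` form a cochain. -/
theorem IsCoch.qVal_top {m : ℕ} {w : Coch Γ G Q X m} (hw : IsCoch τ a U K ρ w) :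
    IsCoch τ (1 : Γ →* (Unit ≃o Unit)) U K ρ (qVal ⊤ w) := by
  intro γ e x g u hu k
  have h1 : flagMap (a γ) (cst (⊤ : Q) : Fin (m + 1) →o Q) = cst ⊤ := by
    ext i
    exact (a γ).map_top
  have h2 := hw γ e (cst ⊤) g u hu k
  rw [h1] at h2
  exact h2

theorem del_qVal (q : Q) {m : ℕ} (w : Coch Γ G Q X m) : del (qVal q w) = qVal q (del w) := by
  funext e x g
  rfl

/-- **The boundary sequence.** Let `y` be a cochain that vanishes on the flags ending with `⊤` and whose differential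
is relative, `q ≠ ⊤` fixed by `S`. If `T₂` kills the cohomology with compact support in degree `m + 1` and `T₁` kills the
cohomology in degree `m`, then `T₁ T₂ y|_q` is the coboundary of an `S`-equivariant cochain.
Proof: `del y` is a relative cocycle (`del_del`), so `opOn T₂ (del y) = del u`, `u` a relative cochain. `w := opOn T₂ y - u` is a
cochain (`IsCoch.opOn`) with `del w = 0` (`opOn_del`). `qVal ⊤ w` is a cocycle of `Γ` (`IsCoch.qVal_top`, `del_qVal`), so `opOn T₁ (qVal ⊤ w)` is a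
coboundary (`h1`, `isRel_unit`). `w' := opOn T₁ w` is a cocycle and a cochain, so by `isCobOn_sub`
`qVal q w' - qVal ⊤ w'` is a coboundary, `qVal ⊤ w' = opOn T₁ (qVal ⊤ w)` too (`IsCob.isCobOn`), hence `qVal q w'` is (`IsCobOn.add`); and
`qVal q w' = opOn (T₁ * T₂) (qVal q y)` because `u` vanishes on the constant flag `q ≠ ⊤`. -/
theorem boundary (hUK : ∀ u ∈ U, ∀ k ∈ K, u * k = k * u) {S : Subgroup Γ} {q : Q} (hq : q ≠ ⊤)
    (hS : ∀ γ ∈ S, a γ q = q) {T₁ T₂ : Module.End R (G → X)} (hT₁ : IsGoodOp U K T₁)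
    (hT₂ : IsGoodOp U K T₂) {m : ℕ} {y : Coch Γ G Q X m} (hy : IsCoch τ a U K ρ y)
    (h0 : ∀ e x g, x (Fin.last m) = ⊤ → y e x g = 0) (hr : IsRel (del y))
    (h1 : Kills τ (1 : Γ →* (Unit ≃o Unit)) U K ρ T₁ m) (h2 : Kills τ a U K ρ T₂ (m + 1)) :
    IsCobOn S τ U K ρ (opOn (T₁ * T₂) (qVal q y)) := by
  have _ := h0
  -- `opOn T₂ (del y) = del u`
  obtain ⟨u, hu, hur, hdu⟩ := h2 (del y) hy.del hr (del_del y)
  -- `w = opOn T₂ y - u`
  have hw : IsCoch τ a U K ρ (opOn T₂ y - u) := (hy.opOn hUK hT₂).sub hu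
  have hdw : del (opOn T₂ y - u) = 0 := by
    rw [del_sub, ← opOn_del, hdu, sub_self]
  have hw' : IsCoch τ a U K ρ (opOn T₁ (opOn T₂ y - u)) := hw.opOn hUK hT₁
  have hdw' : del (opOn T₁ (opOn T₂ y - u)) = 0 := by
    rw [← opOn_del, hdw]
    funext e x
    exact map_zero T₁
  -- the constant flag `⊤`
  have hdt : del (qVal ⊤ (opOn T₂ y - u)) = 0 := by
    rw [del_qVal, hdw]
    rfl
  have h3 : IsCobOn S τ U K ρ (qVal ⊤ (opOn T₁ (opOn T₂ y - u))) :=
    (h1 (qVal ⊤ (opOn T₂ y - u)) hw.qVal_top (isRel_unit _) hdt).isCobOn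
  have h4 := (isCobOn_sub hS hw' hdw').add h3
  rw [sub_add_cancel] at h4
  have h5 : qVal q (opOn T₁ (opOn T₂ y - u)) = opOn (T₁ * T₂) (qVal q y) := by
    funext e x
    have h6 : (opOn T₂ y - u) e (cst q) = T₂ (y e (cst q)) := by
      funext g
      have h7 : u e (cst q) g = 0 := hur e (cst q) g hq
      change T₂ (y e (cst q)) g - u e (cst q) g = T₂ (y e (cst q)) g
      rw [h7, sub_zero]
    change T₁ ((opOn T₂ y - u) e (cst q)) = T₁ (T₂ (y e (cst q)))
    rw [h6]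
  rw [h5] at h4
  exact h4

end Pool.Agent.Lib.MP_666dc0_nt.TP
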