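import Pool.Agent.Lib.MP_666dc0_nt.TP.E0

/-!
# TP, E1: the extension exists
-/

namespace Pool.Agent.Lib.MP_666dc0_nt.TP

variable {Γ G Q Γ' G' Q' R X : Type} [Group Γ] [Group G] [PartialOrder Q] [OrderTop Q] [Group Γ']
  [Group G'] [PartialOrder Q'] [OrderTop Q'] [CommRing R] [AddCommGroup X] [Module R X]
  {d : PD Γ G Q Γ' G' Q'} {U K : Subgroup G} {U' K' : Subgroup G'} {m : ℕ}

/-- If `a γ (j x') = a γ₁ (j x₁')` for flags ending with `⊤`, then `η = γ⁻¹ γ₁ ∈ PΓ` and `x' = a' (πΓ η) x₁'`.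
Proof: at the last element: `a η (j ⊤) = j ⊤` (the action is a homomorphism), `d.stab`; then `d.act` and injectivity of `j`. -/
theorem PD.fl_eq {γ γ₁ : Γ} {x' x₁' : Fin (m + 1) →o Q'} (hx : x' (Fin.last m) = ⊤)
    (hx₁ : x₁' (Fin.last m) = ⊤) (h : d.fl γ x' = d.fl γ₁ x₁') :
    γ⁻¹ * γ₁ ∈ d.PΓ ∧ x' = flagMap (d.a' (d.πΓ (γ⁻¹ * γ₁))) x₁' := by
  have h0 : ∀ i, d.a γ (d.j (x' i)) = d.a γ₁ (d.j (x₁' i)) := fun i => DFunLike.congr_fun h i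
  have h1 : ∀ i, d.a (γ⁻¹ * γ₁) (d.j (x₁' i)) = d.j (x' i) := by
    intro i
    rw [map_mul, RelIso.mul_apply, ← h0 i, ← RelIso.mul_apply, ← map_mul, inv_mul_cancel, map_one]
    rfl
  have hη : γ⁻¹ * γ₁ ∈ d.PΓ := by
    rw [← d.stab]
    have h2 := h1 (Fin.last m)
    rwa [hx, hx₁] at h2
  refine ⟨hη, ?_⟩
  refine OrderHom.ext _ _ (funext fun i => ?_)
  have h2 := h1 i
  rw [d.act _ hη] at h2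
  exact (d.j.injective h2).symm

/-- The value is well defined.
Proof: let `η = γ⁻¹ γ₁ ∈ PΓ`, `x' = πΓ η x₁'` (`fl_eq`). `σ (γ⁻¹ e_i) = σ (η γ₁⁻¹ e_i) = η σ (γ₁⁻¹ e_i)`, so
`πΓ σ (γ⁻¹ e_i) = πΓ η * πΓ σ (γ₁⁻¹ e_i)`. From `τ γ p u k = τ γ₁ p₁ u₁ k₁`: `p = τ η p₁ (u₁ u⁻¹) (k₁ k⁻¹)` up to the
commutation of `U` and `K`; so `u₁ u⁻¹ * (k₁ k⁻¹) = (τ η p₁)⁻¹ p ∈ P`, hence `u₁ u⁻¹, k₁ k⁻¹ ∈ P` (`comp`), and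
`π p = τ' (πΓ η) * π p₁ * π (u₁ u⁻¹) * π (k₁ k⁻¹)`. The cochain condition for `z` with `πΓ η`, `π (u₁ u⁻¹) ∈ U'`,
`π (k₁ k⁻¹) ∈ K'` gives `ρ' (π (k₁ k⁻¹)) (z (..) x' (π p)) = z (..) x₁' (π p₁)`, and `ρ' (π (k₁ k⁻¹)) = ρ (k₁ k⁻¹)`
(`Compat`), so `ρ k⁻¹ (z .. (π p)) = ρ k₁⁻¹ (z .. (π p₁))`. -/
theorem PD.ext_wd (hL : d.Lev U K U' K') {ρ : Representation R K X} {ρ' : Representation R K' X}
    (hρ : d.Compat ρ ρ') {σ : Γ → Γ} (hσ : d.IsSel σ) {z : Coch Γ' G' Q' X m}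
    (hz : IsCoch d.τ' d.a' U' K' ρ' z) (e : Fin (m + 1) → Γ) {γ γ₁ : Γ}
    {x' x₁' : Fin (m + 1) →o Q'} (hx : x' (Fin.last m) = ⊤) (hx₁ : x₁' (Fin.last m) = ⊤)
    (h : d.fl γ x' = d.fl γ₁ x₁') {p p₁ u u₁ : G} (hp : p ∈ d.P) (hp₁ : p₁ ∈ d.P) (hu : u ∈ U)
    (hu₁ : u₁ ∈ U) {k k₁ : K} (hg : d.τ γ * p * u * k = d.τ γ₁ * p₁ * u₁ * k₁) :
    ρ k⁻¹ (z (fun i => d.πΓ (σ (γ⁻¹ * e i))) x' (d.π p)) =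
      ρ k₁⁻¹ (z (fun i => d.πΓ (σ (γ₁⁻¹ * e i))) x₁' (d.π p₁)) := by
  obtain ⟨hη, hx'⟩ := d.fl_eq hx hx₁ h
  have hq : (d.τ (γ⁻¹ * γ₁) * p₁)⁻¹ * p = (u₁ * u⁻¹) * ((k₁ : G) * (k : G)⁻¹) := by
    have hc : ((k₁ : G) * (k : G)⁻¹) * u⁻¹ = u⁻¹ * ((k₁ : G) * (k : G)⁻¹) :=
      (hL.comm _ (U.inv_mem hu) _ (K.mul_mem k₁.2 (K.inv_mem k.2))).symm
    have h1 : p = d.τ (γ⁻¹ * γ₁) * p₁ * u₁ * (k₁ : G) * (k : G)⁻¹ * u⁻¹ := by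
      rw [map_mul, map_inv]
      have h2 : d.τ γ * p = d.τ γ₁ * p₁ * u₁ * (k₁ : G) * (k : G)⁻¹ * u⁻¹ := by
        rw [← hg]
        group
      calc p = (d.τ γ)⁻¹ * (d.τ γ * p) := by group
        _ = _ := by rw [h2]; group
    rw [inv_mul_eq_iff_eq_mul]
    calc p = d.τ (γ⁻¹ * γ₁) * p₁ * (u₁ * (((k₁ : G) * (k : G)⁻¹) * u⁻¹)) := by
          conv_lhs => rw [h1]
          group
      _ = _ := by rw [hc]; group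
  have hPη : d.τ (γ⁻¹ * γ₁) * p₁ ∈ d.P := d.P.mul_mem (d.τ_mem _ hη) hp₁
  have hmem : (u₁ * u⁻¹) * ((k₁ : G) * (k : G)⁻¹) ∈ d.P := by
    rw [← hq]
    exact d.P.mul_mem (d.P.inv_mem hPη) hp
  have huU : u₁ * u⁻¹ ∈ U := U.mul_mem hu₁ (U.inv_mem hu)
  have hkK : (k₁ : G) * (k : G)⁻¹ ∈ K := K.mul_mem k₁.2 (K.inv_mem k.2)
  obtain ⟨huP, hkP⟩ := hL.comp _ huU _ hkK hmem
  have hpi : d.π p = d.τ' (d.πΓ (γ⁻¹ * γ₁)) * d.π p₁ * d.π (u₁ * u⁻¹) *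
      d.π ((k₁ : G) * (k : G)⁻¹) := by
    have h1 : p = (d.τ (γ⁻¹ * γ₁) * p₁) * ((u₁ * u⁻¹) * ((k₁ : G) * (k : G)⁻¹)) := by
      rw [← hq]
      group
    have h2 : d.π p = d.π ((d.τ (γ⁻¹ * γ₁) * p₁) * ((u₁ * u⁻¹) * ((k₁ : G) * (k : G)⁻¹))) :=
      congrArg d.π h1
    rw [h2, d.π_mul _ hPη _ hmem, d.π_mul _ (d.τ_mem _ hη) _ hp₁, d.π_mul _ huP _ hkP,
      d.π_τ _ hη]
    group
  have he : (fun i => d.πΓ (σ (γ⁻¹ * e i))) =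
      fun i => d.πΓ (γ⁻¹ * γ₁) * d.πΓ (σ (γ₁⁻¹ * e i)) := by
    funext i
    have h1 : γ⁻¹ * e i = (γ⁻¹ * γ₁) * (γ₁⁻¹ * e i) := by group
    rw [h1, hσ.2.1 _ hη, d.πΓ_mul _ hη _ (hσ.1 _)]
  have hz1 := hz (d.πΓ (γ⁻¹ * γ₁)) (fun i => d.πΓ (σ (γ₁⁻¹ * e i))) x₁' (d.π p₁)
    (d.π (u₁ * u⁻¹)) (hL.πU _ huU huP) ⟨d.π ((k₁ : G) * (k : G)⁻¹), hL.πK _ hkK hkP⟩
  rw [← hρ.1 (k₁ * k⁻¹) hkP ⟨d.π ((k₁ : G) * (k : G)⁻¹), hL.πK _ hkK hkP⟩ rfl] at hz1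
  have hz2 : ρ (k₁ * k⁻¹) (z (fun i => d.πΓ (σ (γ⁻¹ * e i))) x' (d.π p)) =
      z (fun i => d.πΓ (σ (γ₁⁻¹ * e i))) x₁' (d.π p₁) := by
    rw [he, hx', hpi]
    exact hz1
  rw [← hz2, ← Module.End.mul_apply, ← map_mul, inv_mul_cancel_left]

/-- The extension exists (classical choice of `γ, x', p, u, k`, and `ext_wd`). -/
theorem PD.exists_isExt (hL : d.Lev U K U' K') {ρ : Representation R K X}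
    {ρ' : Representation R K' X} (hρ : d.Compat ρ ρ') {σ : Γ → Γ} (hσ : d.IsSel σ)
    {z : Coch Γ' G' Q' X m} (hz : IsCoch d.τ' d.a' U' K' ρ' z) :
    ∃ y : Coch Γ G Q X m, d.IsExt σ U K ρ z y := by
  have key : ∀ (e : Fin (m + 1) → Γ) (x : Fin (m + 1) →o Q) (g : G), ∃ y0 : X,
      (∀ (γ : Γ) (x' : Fin (m + 1) →o Q'), x' (Fin.last m) = ⊤ → ∀ p ∈ d.P, ∀ u ∈ U, ∀ k : K,
        x = d.fl γ x' → g = d.τ γ * p * u * k →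
          y0 = ρ k⁻¹ (z (fun i => d.πΓ (σ (γ⁻¹ * e i))) x' (d.π p))) ∧
      ((¬ ∃ (γ : Γ) (x' : Fin (m + 1) →o Q') (p u : G) (k : K), x' (Fin.last m) = ⊤ ∧ p ∈ d.P ∧
        u ∈ U ∧ x = d.fl γ x' ∧ g = d.τ γ * p * u * k) → y0 = 0) := by
    intro e x g
    by_cases hex : ∃ (γ : Γ) (x' : Fin (m + 1) →o Q') (p u : G) (k : K), x' (Fin.last m) = ⊤ ∧
        p ∈ d.P ∧ u ∈ U ∧ x = d.fl γ x' ∧ g = d.τ γ * p * u * k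
    · obtain ⟨γ₁, x₁', p₁, u₁, k₁, hx₁, hp₁, hu₁, hfl, hg⟩ := hex
      refine ⟨ρ k₁⁻¹ (z (fun i => d.πΓ (σ (γ₁⁻¹ * e i))) x₁' (d.π p₁)), ?_, ?_⟩
      · intro γ x' hx p hp u hu k hfl' hg'
        exact d.ext_wd hL hρ hσ hz e hx₁ hx (hfl.symm.trans hfl') hp₁ hp hu₁ hu
          (hg.symm.trans hg')
      · intro hne
        exact absurd ⟨γ₁, x₁', p₁, u₁, k₁, hx₁, hp₁, hu₁, hfl, hg⟩ hne
    · refine ⟨0, ?_, fun _ => rfl⟩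
      intro γ x' hx p hp u hu k hfl' hg'
      exact absurd ⟨γ, x', p, u, k, hx, hp, hu, hfl', hg'⟩ hex
  choose y hy using key
  refine ⟨y, ?_, ?_⟩
  · intro e γ x' hx p hp u hu k
    exact (hy e _ _).1 γ x' hx p hp u hu k rfl rfl
  · intro e x g hne
    exact (hy e x g).2 hne

end Pool.Agent.Lib.MP_666dc0_nt.TP
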