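import Pool.Agent.Lib.MP_666dc0_nt.TP.E0

/-!
# TP, E2: the extension is a cochain; its values on the flag `P`
-/

namespace Pool.Agent.Lib.MP_666dc0_nt.TP

variable {Γ G Q Γ' G' Q' R X : Type} [Group Γ] [Group G] [PartialOrder Q] [OrderTop Q] [Group Γ']
  [Group G'] [PartialOrder Q'] [OrderTop Q'] [CommRing R] [AddCommGroup X] [Module R X]
  {d : PD Γ G Q Γ' G' Q'} {U K : Subgroup G} {U' K' : Subgroup G'} {m : ℕ}

private theorem E2_flagMap_fl (γ₀ γ : Γ) (x' : Fin (m + 1) →o Q') :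
    flagMap (d.a γ₀) (d.fl γ x') = d.fl (γ₀ * γ) x' := by
  ext i
  change d.a γ₀ (d.a γ (d.j (x' i))) = d.a (γ₀ * γ) (d.j (x' i))
  rw [map_mul]
  rfl

private theorem E2_flagMap_inv (γ₀ : Γ) (x : Fin (m + 1) →o Q) :
    flagMap (d.a γ₀⁻¹) (flagMap (d.a γ₀) x) = x := by
  ext i
  change d.a γ₀⁻¹ (d.a γ₀ (x i)) = x i
  have h : d.a γ₀⁻¹ * d.a γ₀ = 1 := by rw [← map_mul, inv_mul_cancel, map_one]
  have h2 := congrArg (fun f : Q ≃o Q => f (x i)) h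
  exact h2

/-- Proof: let `(e, x, g)` and `γ₀, u₀, k₀` be given. If `x = fl γ x'`, `g = τ γ p u k`, then
`flagMap (a γ₀) x = fl (γ₀ γ) x'`, `τ γ₀ g u₀ k₀ = τ (γ₀ γ) p (u u₀) (k k₀)` (`U`, `K` commute), and
`(γ₀ γ)⁻¹ (γ₀ e i) = γ⁻¹ e i`, so the value is `ρ (k k₀)⁻¹ (z ..) = ρ k₀⁻¹ (ρ k⁻¹ (z ..))`. If `(x, g)` is not of this form,
neither is `(γ₀ x, τ γ₀ g u₀ k₀)` (apply the inverses), both values are zero. -/
theorem PD.IsExt.isCoch (hL : d.Lev U K U' K') {ρ : Representation R K X} {σ : Γ → Γ}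
    {z : Coch Γ' G' Q' X m} {y : Coch Γ G Q X m} (hy : d.IsExt σ U K ρ z y) :
    IsCoch d.τ d.a U K ρ y := by
  intro γ₀ e x g u₀ hu₀ k₀
  by_cases h : ∃ (γ : Γ) (x' : Fin (m + 1) →o Q') (p u : G) (k : K), x' (Fin.last m) = ⊤ ∧ p ∈ d.P ∧
      u ∈ U ∧ x = d.fl γ x' ∧ g = d.τ γ * p * u * k
  · obtain ⟨γ, x', p, u, k, hx', hp, hu, rfl, rfl⟩ := h
    have h1 : d.τ γ₀ * (d.τ γ * p * u * k) * u₀ * k₀ =
        d.τ (γ₀ * γ) * p * (u * u₀) * ((k * k₀ : K) : G) := by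
      have h2 := hL.comm u₀ hu₀ k k.2
      rw [map_mul, Subgroup.coe_mul]
      calc d.τ γ₀ * (d.τ γ * p * u * k) * u₀ * k₀
          = d.τ γ₀ * d.τ γ * p * u * ((k : G) * u₀) * k₀ := by group
        _ = d.τ γ₀ * d.τ γ * p * u * (u₀ * k) * k₀ := by rw [h2]
        _ = _ := by group
    rw [h1, E2_flagMap_fl, hy.1 _ _ x' hx' p hp _ (U.mul_mem hu hu₀) (k * k₀),
      hy.1 _ _ x' hx' p hp u hu k]
    have h3 : (fun i => d.πΓ (σ ((γ₀ * γ)⁻¹ * (γ₀ * e i)))) = fun i => d.πΓ (σ (γ⁻¹ * e i)) := by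
      funext i
      congr 2
      group
    rw [h3]
    have h4 : ρ k₀ * ρ (k * k₀)⁻¹ = ρ k⁻¹ := by
      rw [← map_mul]
      congr 1
      group
    rw [← h4]
    rfl
  · rw [hy.2 e x g h, hy.2 _ _ _ ?_, map_zero]
    rintro ⟨γ, x', p, u, k, hx', hp, hu, hx, hg⟩
    refine h ⟨γ₀⁻¹ * γ, x', p, u * u₀⁻¹, k * k₀⁻¹, hx', hp, U.mul_mem hu (U.inv_mem hu₀), ?_, ?_⟩
    · rw [← E2_flagMap_fl, ← hx, E2_flagMap_inv]
    · have h2 := hL.comm u₀⁻¹ (U.inv_mem hu₀) (k * k₀⁻¹ : K) (k * k₀⁻¹ : K).2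
      rw [Subgroup.coe_mul, Subgroup.coe_inv] at h2 ⊢
      have h5 : g = (d.τ γ₀)⁻¹ * (d.τ γ * p * u * k) * (k₀ : G)⁻¹ * u₀⁻¹ := by
        rw [← hg]
        group
      rw [map_mul, map_inv]
      calc g = (d.τ γ₀)⁻¹ * (d.τ γ * p * u * k) * (k₀ : G)⁻¹ * u₀⁻¹ := h5
        _ = (d.τ γ₀)⁻¹ * d.τ γ * p * u * (((k : G) * (k₀ : G)⁻¹) * u₀⁻¹) := by group
        _ = (d.τ γ₀)⁻¹ * d.τ γ * p * u * (u₀⁻¹ * ((k : G) * (k₀ : G)⁻¹)) := by rw [h2]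
        _ = _ := by group

/-- `y` is zero on the flags ending with `⊤` (`fl γ x'` ends with `a γ (j ⊤) ≠ ⊤`: `a γ` is an order automorphism,
`d.coatom.1`). -/
theorem PD.IsExt.eq_zero {ρ : Representation R K X} {σ : Γ → Γ} {z : Coch Γ' G' Q' X m}
    {y : Coch Γ G Q X m} (hy : d.IsExt σ U K ρ z y) (e : Fin (m + 1) → Γ)
    (x : Fin (m + 1) →o Q) (g : G) (hx : x (Fin.last m) = ⊤) : y e x g = 0 := by
  refine hy.2 e x g ?_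
  rintro ⟨γ, x', p, u, k, hx', -, -, h, -⟩
  have h1 : d.a γ (d.j (x' (Fin.last m))) = ⊤ := by
    rw [← hx, h]
    rfl
  rw [hx', map_eq_top_iff] at h1
  exact d.coatom.1 h1

/-- Values on the constant flag `P = j ⊤` (`γ = 1`, `x' = ⊤`, `u = 1`, `k = 1`, `σ (e i) = e i`). -/
theorem PD.IsExt.value {ρ : Representation R K X} {σ : Γ → Γ} (hσ : d.IsSel σ)
    {z : Coch Γ' G' Q' X m} {y : Coch Γ G Q X m} (hy : d.IsExt σ U K ρ z y)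
    (e : Fin (m + 1) → Γ) (he : ∀ i, e i ∈ d.PΓ) (p : G) (hp : p ∈ d.P) :
    y e (cst (d.j ⊤)) p = z (fun i => d.πΓ (e i)) (cst ⊤) (d.π p) := by
  have h1 := hy.1 e 1 (cst ⊤) rfl p hp 1 U.one_mem 1
  have h2 : d.fl 1 (cst ⊤ : Fin (m + 1) →o Q') = cst (d.j ⊤) := by
    ext i
    change d.a 1 (d.j ⊤) = d.j ⊤
    rw [map_one]
    rfl
  have h3 : (fun i => d.πΓ (σ (1⁻¹ * e i))) = fun i => d.πΓ (e i) := by
    funext i
    rw [inv_one, one_mul, hσ.2.2 _ (he i)]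
  rw [h2, h3, inv_one, map_one, map_one, one_mul, mul_one, OneMemClass.coe_one, mul_one] at h1
  exact h1

end Pool.Agent.Lib.MP_666dc0_nt.TP
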