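import Pool.Agent.Lib.MP_666dc0_nt.TP.E0

/-!
# TP, E3: the differential of the extension
-/

namespace Pool.Agent.Lib.MP_666dc0_nt.TP

variable {Γ G Q Γ' G' Q' R X : Type} [Group Γ] [Group G] [PartialOrder Q] [OrderTop Q] [Group Γ']
  [Group G'] [PartialOrder Q'] [OrderTop Q'] [CommRing R] [AddCommGroup X] [Module R X]
  {d : PD Γ G Q Γ' G' Q'} {U K : Subgroup G} {m : ℕ}

/-- A flag ending below `P` comes from `Q'` (`d.j_mem`, `j` reflects the order). -/
theorem PD.exists_flag {x : Fin (m + 1) →o Q} (h : x (Fin.last m) ≤ d.j ⊤) :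
    ∃ x' : Fin (m + 1) →o Q', ∀ i, x i = d.j (x' i) := by
  have h1 : ∀ i, ∃ q : Q', d.j q = x i := fun i =>
    d.j_mem (x i) ((x.monotone (Fin.le_last i)).trans h)
  choose f hf using h1
  refine ⟨⟨f, fun i k hik => ?_⟩, fun i => (hf i).symm⟩
  rw [← d.j.le_iff_le, hf i, hf k]
  exact x.monotone hik

/-- Translates of `P` are coatoms; a coatom below a translate of `P` is equal to it; nothing is strictly between a
translate of `P` and `⊤`. -/
theorem PD.coatom' (γ : Γ) : IsCoatom (d.a γ (d.j ⊤)) :=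
  ((d.a γ).isCoatom_iff (d.j ⊤)).2 d.coatom

private theorem E3_le {q : Q} {γ : Γ} (h : d.a γ (d.j ⊤) ≤ q) (hq : q ≠ ⊤) :
    q = d.a γ (d.j ⊤) := by
  rcases (PD.coatom' (d := d) γ).le_iff.1 h with h1 | h1
  · exact absurd h1 hq
  · exact h1

private theorem E3_face (γ : Γ) (x' : Fin (m + 2) →o Q') (i : Fin (m + 2)) :
    TP.face i (d.fl γ x') = d.fl γ (TP.face i x') := rfl

omit [OrderTop Q] in
private theorem E3_face_last (x : Fin (m + 2) →o Q) (i : Fin (m + 2)) :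
    TP.face i x (Fin.last m) ≤ x (Fin.last (m + 1)) := x.monotone (Fin.le_last _)

/-- Let `z` be a relative cochain. Faces: for `x = fl γ x'`, `x'` of dimension `m + 1` ending with `⊤`, and
`g = τ γ p u k`: for all `i` the value of `y` at the `i`-th face is `ρ k⁻¹` of the value of `z` at the `i`-th face.
Proof: `face i (fl γ x') = fl γ (face i x')`. If `face i x'` ends with `⊤` this is the first property of `IsExt`. Otherwise (then `i` is
the last index) `z` is zero there (`IsRel`), and `y` is zero by the second property: if `fl γ (face i x') = fl γ₁ x₁'` with `x₁'` ending with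
`⊤`, then `a γ₁ (j ⊤) = a γ (j q)` with `q < ⊤`, so the coatom `a γ₁ (j ⊤)` is strictly below the coatom `a γ (j ⊤)`, impossible. -/
theorem PD.IsExt.face {ρ : Representation R K X} {σ : Γ → Γ} {z : Coch Γ' G' Q' X m}
    (hr : IsRel z) {y : Coch Γ G Q X m} (hy : d.IsExt σ U K ρ z y) (e : Fin (m + 1) → Γ) (γ : Γ)
    (x' : Fin (m + 2) →o Q') {p u : G} (hp : p ∈ d.P) (hu : u ∈ U) (k : K) (i : Fin (m + 2))
    (hx : x' (Fin.last (m + 1)) = ⊤) :
    y e (TP.face i (d.fl γ x')) (d.τ γ * p * u * k) =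
      ρ k⁻¹ (z (fun i => d.πΓ (σ (γ⁻¹ * e i))) (TP.face i x') (d.π p)) := by
  rw [E3_face]
  by_cases hl : TP.face i x' (Fin.last m) = ⊤
  · exact hy.1 e γ (TP.face i x') hl p hp u hu k
  · rw [hr _ _ _ hl, map_zero]
    refine hy.2 e _ _ ?_
    rintro ⟨γ₁, x₁, p₁, u₁, k₁, h1, -, -, h2, -⟩
    have h3 : d.a γ (d.j (TP.face i x' (Fin.last m))) = d.a γ₁ (d.j (x₁ (Fin.last m))) :=
      congrArg (fun f : Fin (m + 1) →o Q => f (Fin.last m)) h2
    rw [h1] at h3
    have h4 : d.a γ (d.j (TP.face i x' (Fin.last m))) < d.a γ (d.j ⊤) :=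
      (d.a γ).strictMono (d.j.strictMono (lt_top_iff_ne_top.2 hl))
    rw [h3] at h4
    have h5 := E3_le h4.le (PD.coatom' (d := d) γ).1
    exact absurd h5 h4.ne'

/-- The differential of the extension of a relative cocycle is relative.
Proof: let `x` not end with `⊤`. Case A: the last element of `x` is `a γ (j ⊤)` for some `γ`. Then `x = fl γ x'` (`exists_flag` for
`flagMap (a γ⁻¹) x`). If `g = τ γ₁ p u k` for some `γ₁ ∈ γ PΓ`, then we may take `γ₁ = γ` (absorb `τ (γ⁻¹ γ₁) ∈ P` in `p`), and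
`del y e x g = ρ k⁻¹ (del z (..) x' (π p)) = 0` by `face`. If there are no such `γ₁, p, u, k`, all terms are zero: a face
`TP.face i x = fl γ₁ x₁'` with `x₁'` ending with `⊤` has last element `a γ₁ (j ⊤) ≤ a γ (j ⊤)`, hence equal, so
`γ⁻¹ γ₁ ∈ PΓ`, and `g` is not in `τ γ₁ P U K`. Case B: the last element `q ≠ ⊤` of `x` is not a translate of `j ⊤`: a face
`TP.face i x = fl γ₁ x₁'` with `x₁'` ending with `⊤` has the last element `a γ₁ (j ⊤) ≤ q < ⊤`, so `q = a γ₁ (j ⊤)`,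
a contradiction; so all terms are zero by the second property. -/
theorem PD.IsExt.isRel_del {ρ : Representation R K X} {σ : Γ → Γ} {z : Coch Γ' G' Q' X m}
    (hr : IsRel z) (hd : del z = 0) {y : Coch Γ G Q X m} (hy : d.IsExt σ U K ρ z y) :
    IsRel (del y) := by
  intro e x g hx
  have hzero : (∀ (i : Fin (m + 2)) (γ₁ : Γ) (p₁ u₁ : G) (k₁ : K), p₁ ∈ d.P → u₁ ∈ U →
      d.a γ₁ (d.j ⊤) = x (Fin.last (m + 1)) → g ≠ d.τ γ₁ * p₁ * u₁ * k₁) → del y e x g = 0 := by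
    intro hno
    refine Finset.sum_eq_zero fun i _ => ?_
    rw [hy.2, smul_zero]
    rintro ⟨γ₁, x₁, p₁, u₁, k₁, h1, h2, h3, h4, h5⟩
    have h6 : TP.face i x (Fin.last m) = d.a γ₁ (d.j (x₁ (Fin.last m))) :=
      congrArg (fun f : Fin (m + 1) →o Q => f (Fin.last m)) h4
    rw [h1] at h6
    have h7 := E3_face_last x i
    rw [h6] at h7
    exact hno i γ₁ p₁ u₁ k₁ h2 h3 (E3_le h7 hx).symm h5
  by_cases hA : ∃ γ : Γ, x (Fin.last (m + 1)) = d.a γ (d.j ⊤)
  · obtain ⟨γ, hγ⟩ := hA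
    have hinv : ∀ q : Q, d.a γ⁻¹ (d.a γ q) = q := by
      intro q
      have h0 : d.a γ⁻¹ (d.a γ q) = (d.a γ⁻¹ * d.a γ) q := rfl
      rw [h0, ← map_mul, inv_mul_cancel, map_one]
      rfl
    have hinv' : ∀ q : Q, d.a γ (d.a γ⁻¹ q) = q := by
      intro q
      have h0 : d.a γ (d.a γ⁻¹ q) = (d.a γ * d.a γ⁻¹) q := rfl
      rw [h0, ← map_mul, mul_inv_cancel, map_one]
      rfl
    have hlast : flagMap (d.a γ⁻¹) x (Fin.last (m + 1)) = d.j ⊤ := by
      have h0 : flagMap (d.a γ⁻¹) x (Fin.last (m + 1)) = d.a γ⁻¹ (x (Fin.last (m + 1))) := rfl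
      rw [h0, hγ, hinv]
    obtain ⟨x', hx'⟩ := PD.exists_flag (d := d) (x := flagMap (d.a γ⁻¹) x) hlast.le
    have hx'l : x' (Fin.last (m + 1)) = ⊤ := by
      apply d.j.injective
      rw [← hx', hlast]
    have hxfl : x = d.fl γ x' := by
      apply OrderHom.ext
      funext i
      have h1 : d.a γ⁻¹ (x i) = d.j (x' i) := hx' i
      have h2 : d.fl γ x' i = d.a γ (d.j (x' i)) := rfl
      rw [h2, ← h1, hinv']
    by_cases hg : ∃ (p u : G) (k : K), p ∈ d.P ∧ u ∈ U ∧ g = d.τ γ * p * u * k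
    · obtain ⟨p, u, k, hp, hu, hg⟩ := hg
      have h1 : del y e x g = ρ k⁻¹ (del z (fun l => d.πΓ (σ (γ⁻¹ * e l))) x' (d.π p)) := by
        unfold del
        rw [map_sum]
        refine Finset.sum_congr rfl fun i _ => ?_
        rw [map_zsmul, hxfl, hg]
        rw [PD.IsExt.face hr hy (fun l => e (i.succAbove l)) γ x' hp hu k i hx'l]
      rw [h1, hd]
      exact map_zero _
    · apply hzero
      intro i γ₁ p₁ u₁ k₁ h1 h2 h3 h4
      apply hg
      have h5 : d.a (γ⁻¹ * γ₁) (d.j ⊤) = d.j ⊤ := by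
        have h0 : d.a (γ⁻¹ * γ₁) (d.j ⊤) = d.a γ⁻¹ (d.a γ₁ (d.j ⊤)) := by
          rw [map_mul]
          rfl
        rw [h0, h3, hγ, hinv]
      have h6 : γ⁻¹ * γ₁ ∈ d.PΓ := (d.stab _).1 h5
      refine ⟨d.τ (γ⁻¹ * γ₁) * p₁, u₁, k₁, d.P.mul_mem (d.τ_mem _ h6) h1, h2, ?_⟩
      rw [h4, ← mul_assoc, ← map_mul, mul_inv_cancel_left]
  · apply hzero
    intro i γ₁ p₁ u₁ k₁ h1 h2 h3 h4
    exact hA ⟨γ₁, h3.symm⟩

end Pool.Agent.Lib.MP_666dc0_nt.TP
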