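import Pool.Agent.Lib.MP_666dc0_nt.TP.B2
import Pool.Agent.Lib.MP_666dc0_nt.TP.E1
import Pool.Agent.Lib.MP_666dc0_nt.TP.E2
import Pool.Agent.Lib.MP_666dc0_nt.TP.E3

/-!
# TP, B3: from the cohomology of `G` to the interior cohomology of the Levi subgroup
-/

namespace Pool.Agent.Lib.MP_666dc0_nt.TP

variable {Γ G Q Γ' G' Q' R X : Type} [Group Γ] [Group G] [PartialOrder Q] [OrderTop Q] [Group Γ']
  [Group G'] [PartialOrder Q'] [OrderTop Q'] [CommRing R] [AddCommGroup X] [Module R X]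
  {d : PD Γ G Q Γ' G' Q'} {U K : Subgroup G} {U' K' : Subgroup G'} {m : ℕ}

/-- Restriction of a `PΓ`-equivariant coboundary to the Levi subgroup: `b'(e'; g') = b(ιΓ e'; ι g')`; invariance: `ιΓ γ' ∈ PΓ`,
`τ (ιΓ γ') = ι (τ' γ')`, `ιU`, `ιK`, second part of `Compat`. -/
theorem PD.isCob_restrict (hL : d.Lev U K U' K') {ρ : Representation R K X}
    {ρ' : Representation R K' X} (hρ : d.Compat ρ ρ') {w : Coch Γ G Unit X m}
    (hw : IsCobOn d.PΓ d.τ U K ρ w) :
    IsCob d.τ' (1 : Γ' →* (Unit ≃o Unit)) U' K' ρ'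
      (fun e _ g => w (fun i => d.ιΓ (e i)) (cst ()) (d.ι g) : Coch Γ' G' Unit X m) := by
  cases m with
  | zero =>
    have h0 : w = 0 := hw
    show (fun e _ g => w (fun i => d.ιΓ (e i)) (cst ()) (d.ι g) : Coch Γ' G' Unit X 0) = 0
    rw [h0]
    rfl
  | succ m =>
    obtain ⟨b, hb, hwb⟩ : ∃ b, EqvOn d.PΓ d.τ U K ρ b ∧ w = del b := hw
    refine ⟨fun e _ g => b (fun i => d.ιΓ (e i)) (cst ()) (d.ι g), ?_, isRel_unit _, ?_⟩
    · intro γ e x g u hu k
      have hk : d.ι (k : G') ∈ K := hL.ιK k k.2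
      have h1 := hb (d.ιΓ γ) (d.ιΓ_mem γ) (fun i => d.ιΓ (e i)) (cst ()) (d.ι g) (d.ι u)
        (hL.ιU u hu) ⟨d.ι (k : G'), hk⟩
      have h2 : ρ ⟨d.ι (k : G'), hk⟩ = ρ' k := hρ.2 ⟨d.ι (k : G'), hk⟩ k rfl
      rw [h2] at h1
      have h3 : (fun i => d.ιΓ (γ * e i)) = fun i => d.ιΓ γ * d.ιΓ (e i) := by
        funext i
        exact map_mul d.ιΓ γ (e i)
      have h4 : d.ι (d.τ' γ * g * u * k) = d.τ (d.ιΓ γ) * d.ι g * d.ι u * d.ι (k : G') := by
        rw [map_mul, map_mul, map_mul, d.τ_ι]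
      show ρ' k (b (fun i => d.ιΓ (γ * e i)) (cst ()) (d.ι (d.τ' γ * g * u * k))) =
        b (fun i => d.ιΓ (e i)) (cst ()) (d.ι g)
      rw [h3, h4]
      exact h1
    · subst hwb
      rfl

/-- `T` on functions on `G` and `T'` on functions on `G'` are compatible: if a right `U`-invariant function `f` on `G` is on
`P` the inflation of `f'`, then `T f` is on `P` the inflation of `T' f'`. -/
def PD.OpCompat (U : Subgroup G) (T : Module.End R (G → X)) (T' : Module.End R (G' → X)) : Prop :=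
  ∀ (f : G → X) (f' : G' → X), (∀ g, ∀ u ∈ U, f (g * u) = f g) → (∀ p ∈ d.P, f p = f' (d.π p)) →
    ∀ p ∈ d.P, T f p = T' f' (d.π p)

/-- **Transfer.** If `T₁` kills the cohomology of `G` in degree `m` and `T₂` the cohomology with compact support in degree
`m + 1`, and `T'` is compatible with `T₁ T₂`, then `T'` kills the interior cohomology of the Levi subgroup in degree `m`.
Proof: `y` the extension of `z` (`exists_isSel`, `exists_isExt`), `boundary` with `q = j ⊤`, `S = PΓ` (`d.stab`, `d.coatom.1`,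
`IsExt.isCoch`, `IsExt.eq_zero`, `IsExt.isRel_del`), `isCob_restrict`. The restriction of `opOn (T₁ * T₂) (qVal (j ⊤) y)` to the Levi
subgroup is `opOn T' (topVal z)`: for fixed `e' : Fin (m+1) → Γ'` the function `f = y (ιΓ e') (cst (j ⊤))` on `G` is right
`U`-invariant and `f p = z e' (cst ⊤) (π p)` on `P` (`IsExt.value`, `πΓ_ι`), so `(T₁ T₂ f) (ι g') = T' (z e' (cst ⊤)) g'`
(`OpCompat`, `π_ι`). -/
theorem PD.transfer (hL : d.Lev U K U' K') {ρ : Representation R K X}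
    {ρ' : Representation R K' X} (hρ : d.Compat ρ ρ') {T₁ T₂ : Module.End R (G → X)}
    (hT₁ : IsGoodOp U K T₁) (hT₂ : IsGoodOp U K T₂) {T' : Module.End R (G' → X)}
    (hT' : d.OpCompat U (T₁ * T₂) T')
    (h1 : Kills d.τ (1 : Γ →* (Unit ≃o Unit)) U K ρ T₁ m) (h2 : Kills d.τ d.a U K ρ T₂ (m + 1))
    {z : Coch Γ' G' Q' X m} (hz : IsCoch d.τ' d.a' U' K' ρ' z) (hr : IsRel z) (hd : del z = 0) :
    IsCob d.τ' (1 : Γ' →* (Unit ≃o Unit)) U' K' ρ' (opOn T' (topVal z)) := by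
  obtain ⟨σ, hσ⟩ := d.exists_isSel
  obtain ⟨y, hy⟩ := PD.exists_isExt hL hρ hσ hz
  have hyc := PD.IsExt.isCoch hL hy
  have hb := boundary hL.comm d.coatom.1 (S := d.PΓ) (fun γ hγ => (d.stab γ).mpr hγ) hT₁ hT₂ hyc
    (fun e x g hx => hy.eq_zero e x g hx) (hy.isRel_del hr hd) h1 h2
  have hc := PD.isCob_restrict hL hρ hb
  have key : (fun e _ g => opOn (T₁ * T₂) (qVal (d.j ⊤) y) (fun i => d.ιΓ (e i)) (cst ())
      (d.ι g) : Coch Γ' G' Unit X m) = opOn T' (topVal z) := by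
    funext e x g
    have h3 := hT' (y (fun i => d.ιΓ (e i)) (cst (d.j ⊤))) (z e (cst ⊤))
      (fun g u hu => hyc.right _ _ _ hu)
      (fun p hp => by
        have h4 := hy.value hσ (fun i => d.ιΓ (e i)) (fun i => d.ιΓ_mem (e i)) p hp
        simp only [d.πΓ_ι] at h4
        exact h4)
      (d.ι g) (d.ι_mem g)
    rw [d.π_ι] at h3
    exact h3
  rw [key] at hc
  exact hc

end Pool.Agent.Lib.MP_666dc0_nt.TP
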