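import Pool.Agent.Lib.MP_666dc0_nt.InterpZDefs
import Pool.Agent.Lib.MP_666dc0_nt.LeviDefs
import Pool.Agent.Lib.MP_666dc0_nt.Mg.G047
import Pool.Agent.Lib.MP_666dc0_nt.EC.Defs

/-!
# Torsion classes of a group and Galois representations for its Levi subgroups: definitions
-/

open NumberField IsDedekindDomain TensorProduct LaurentPolynomial
open scoped NumberField TensorProduct

namespace Pool.Agent.Lib.MP_666dc0_nt.TP

open WL

section Cochains

variable {Γ G Q X : Type} [Group Γ] [Group G] [PartialOrder Q] {m : ℕ}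

/-- The functions `z(e_0, …, e_m; x_0 ≤ … ≤ x_m; g)` with `e_i ∈ Γ`, a weakly increasing sequence
(flag) `x_0 ≤ … ≤ x_m` in the ordered set `Q`, and `g ∈ G`, with values in `X`. -/
abbrev Coch (Γ G Q X : Type) [PartialOrder Q] (m : ℕ) : Type :=
  (Fin (m + 1) → Γ) → (Fin (m + 1) →o Q) → G → X

/-- The image of a flag under an automorphism of the ordered set. -/
def flagMap (θ : Q ≃o Q) (x : Fin (m + 1) →o Q) : Fin (m + 1) →o Q :=
  ⟨fun i => θ (x i), θ.monotone.comp x.monotone⟩

/-- The flag without its `i`-th element. -/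
def face (i : Fin (m + 2)) (x : Fin (m + 2) →o Q) : Fin (m + 1) →o Q :=
  ⟨fun j => x (i.succAbove j), x.monotone.comp (Fin.strictMono_succAbove i).monotone⟩

/-- The differential: the alternating sum of the faces. -/
def del [AddCommGroup X] (z : Coch Γ G Q X m) : Coch Γ G Q X (m + 1) := fun e x g =>
  ∑ i : Fin (m + 2), (-1 : ℤ) ^ (i : ℕ) • z (fun j => e (i.succAbove j)) (face i x) g

/-- The constant flag. -/
def cst (q : Q) : Fin (m + 1) →o Q := ⟨fun _ => q, fun _ _ _ => le_rfl⟩

variable {R : Type} [CommRing R] [AddCommGroup X] [Module R X]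

/-- `z` is a cochain of level `U K` with coefficients in the representation `ρ` of `K` on `X`:
`z(γ e; γ x; γ g u k) = ρ(k)⁻¹ z(e; x; g)` for `γ ∈ Γ`, `u ∈ U`, `k ∈ K`. Here `Γ` acts on `G` by
left multiplication through `τ`, and on the ordered set `Q` through `a`. -/
def IsCoch (τ : Γ →* G) (a : Γ →* (Q ≃o Q)) (U K : Subgroup G) (ρ : Representation R K X)
    (z : Coch Γ G Q X m) : Prop :=
  ∀ (γ : Γ) (e : Fin (m + 1) → Γ) (x : Fin (m + 1) →o Q) (g : G), ∀ u ∈ U, ∀ k : K,
    ρ k (z (fun i => γ * e i) (flagMap (a γ) x) (τ γ * g * u * k)) = z e x g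

variable [OrderTop Q]

/-- `z` vanishes on the flags that do not end with the greatest element (for the ordered set of all
parabolic subgroups of a group: on the flags of proper parabolic subgroups). The cohomology of the
complex of these cochains is the cohomology with compact support. -/
def IsRel (z : Coch Γ G Q X m) : Prop :=
  ∀ (e : Fin (m + 1) → Γ) (x : Fin (m + 1) →o Q) (g : G), x (Fin.last m) ≠ ⊤ → z e x g = 0

/-- `z` is the differential of a cochain with compact support (or zero in degree zero). -/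
def IsCob (τ : Γ →* G) (a : Γ →* (Q ≃o Q)) (U K : Subgroup G) (ρ : Representation R K X) :
    ∀ {m : ℕ}, Coch Γ G Q X m → Prop
  | 0, z => z = 0
  | _ + 1, z => ∃ y, IsCoch τ a U K ρ y ∧ IsRel y ∧ z = del y

/-- An operator on functions on `G`, applied to cochains. -/
def opOn (T : Module.End R (G → X)) (z : Coch Γ G Q X m) : Coch Γ G Q X m := fun e x => T (z e x)

/-- The operator `T` kills the cohomology with compact support of degree `m`. (If `Q` is a point this
is the cohomology itself.) -/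
def Kills (τ : Γ →* G) (a : Γ →* (Q ≃o Q)) (U K : Subgroup G) (ρ : Representation R K X)
    (T : Module.End R (G → X)) (m : ℕ) : Prop :=
  ∀ z : Coch Γ G Q X m, IsCoch τ a U K ρ z → IsRel z → del z = 0 → IsCob τ a U K ρ (opOn T z)

/-- The values of `z` on the flags all of whose elements are the greatest element: the map from the
cohomology with compact support to the cohomology. -/
def topVal (z : Coch Γ G Q X m) : Coch Γ G Unit X m := fun e _ g => z e (cst ⊤) g

end Cochains

section Groups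

variable {F : Type} [Field F] [NumberField F] {n : ℕ}

/-- A grading of `Fⁿ` (projectors `p a` onto the summands) such that `μ(t) = ∑ t ^ a p_a` is in `G(F)`
for `t ∈ Fˣ`: a cocharacter `μ` of `G` defined over `F`. -/
structure Grading (D : Datum F n) where
  /-- the degrees -/
  J : Finset ℤ
  /-- the projectors -/
  p : ℤ → Matrix (Fin n) (Fin n) F
  orth : ∀ a b, a ≠ b → p a * p b = 0
  zero : ∀ a, a ∉ J → p a = 0
  sum : ∑ a ∈ J, p a = 1
  mem : ∀ t : Fˣ, ∃ g : D.Rat, ((g.1 : GL (Fin n) F) : Matrix (Fin n) (Fin n) F) =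
    ∑ a ∈ J, ((t ^ a : Fˣ) : F) • p a

variable {D : Datum F n}

omit [NumberField F] in
theorem Grading.parab_mul (μ : Grading D) {R : Type} [CommRing R] (φ : F →+* R)
    {g h : Matrix (Fin n) (Fin n) R}
    (hg : ∀ a b, a < b → (μ.p a).map φ * g * (μ.p b).map φ = 0)
    (hh : ∀ a b, a < b → (μ.p a).map φ * h * (μ.p b).map φ = 0) (a b : ℤ) (hab : a < b) :
    (μ.p a).map φ * (g * h) * (μ.p b).map φ = 0 := by
  have h1 : ∑ c ∈ μ.J, (μ.p c).map φ = 1 := by
    have h2 := congrArg (fun M => RingHom.mapMatrix φ M) μ.sum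
    simpa only [map_sum, map_one, RingHom.mapMatrix_apply] using h2
  have h3 : (μ.p a).map φ * (g * h) * (μ.p b).map φ =
      ∑ c ∈ μ.J, (μ.p a).map φ * g * ((μ.p c).map φ) * (h * (μ.p b).map φ) := by
    rw [← Finset.sum_mul, ← Finset.mul_sum, h1]
    simp only [Matrix.mul_assoc, Matrix.mul_one]
  rw [h3]
  refine Finset.sum_eq_zero fun c _ => ?_
  rcases lt_or_ge a c with hac | hca
  · rw [hg a c hac, Matrix.zero_mul]
  · have h4 := hh c b (lt_of_le_of_lt hca hab)
    rw [Matrix.mul_assoc ((μ.p a).map φ * g), ← Matrix.mul_assoc ((μ.p c).map φ), h4,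
      Matrix.mul_zero]

/-- The points of the parabolic subgroup `P = P(μ)` of `G`: the `g` with `p_a g p_b = 0` and
`p_a g⁻¹ p_b = 0` for `a < b`. -/
def Grading.parab (μ : Grading D) {R : Type} [CommRing R] (φ : F →+* R) :
    Subgroup (D.points φ) where
  carrier := {g | ∀ a b, a < b →
    (μ.p a).map φ * ((g.1 : GL (Fin n) R) : Matrix (Fin n) (Fin n) R) * (μ.p b).map φ = 0 ∧
    (μ.p a).map φ * ((g.1⁻¹ : GL (Fin n) R) : Matrix (Fin n) (Fin n) R) * (μ.p b).map φ = 0}
  one_mem' a b hab := by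
    have h1 : (μ.p a).map φ * (μ.p b).map φ = 0 := by
      rw [← Matrix.map_mul, μ.orth a b hab.ne]
      exact Matrix.map_zero φ (map_zero φ)
    constructor <;> simpa using h1
  mul_mem' {g h} hg hh a b hab := by
    constructor
    · exact μ.parab_mul φ (fun a b hab => (hg a b hab).1) (fun a b hab => (hh a b hab).1) a b hab
    · have h1 : (((g * h).1⁻¹ : GL (Fin n) R) : Matrix (Fin n) (Fin n) R) =
          ((h.1⁻¹ : GL (Fin n) R) : Matrix (Fin n) (Fin n) R) *
            ((g.1⁻¹ : GL (Fin n) R) : Matrix (Fin n) (Fin n) R) := by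
        rw [← Units.val_mul, ← mul_inv_rev]
        rfl
      rw [h1]
      exact μ.parab_mul φ (fun a b hab => (hh a b hab).2) (fun a b hab => (hg a b hab).2) a b hab
  inv_mem' {g} hg a b hab := by
    refine ⟨(hg a b hab).2, ?_⟩
    have h1 : ((g⁻¹ : D.points φ).1⁻¹ : GL (Fin n) R) = g.1 := inv_inv g.1
    rw [h1]
    exact (hg a b hab).1

/-- `m` is the Levi part `∑ p_a g p_a` of `g`. -/
def Grading.IsLeviPart (μ : Grading D) {R : Type} [CommRing R] (φ : F →+* R)
    (g m : GL (Fin n) R) : Prop :=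
  (m : Matrix (Fin n) (Fin n) R) = ∑ a ∈ μ.J, (μ.p a).map φ * (g : Matrix (Fin n) (Fin n) R) *
    (μ.p a).map φ

/-- The group `M` of the datum `D'` is the Levi subgroup `M = M(μ)` of `P`, the centraliser of the
cocharacter `μ` in `G`. -/
def Grading.IsLevi (μ : Grading D) (D' : Datum F n) : Prop :=
  ∀ (R : Type) [CommRing R] (φ : F →+* R) (g : GL (Fin n) R), g ∈ D'.points φ ↔
    g ∈ D.points φ ∧ ∀ a, (g : Matrix (Fin n) (Fin n) R) * (μ.p a).map φ =
      (μ.p a).map φ * (g : Matrix (Fin n) (Fin n) R)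

/-- The intersection of the subgroup `U` of `G(𝔸_f)` with `M(𝔸_f)`. -/
noncomputable def restr (D' : Datum F n) (U : Subgroup D.Ad) : Subgroup D'.Ad :=
  (U.map (D.points (algebraMap F (FiniteAdeleRing (𝓞 F) F))).subtype).comap
    (D'.points (algebraMap F (FiniteAdeleRing (𝓞 F) F))).subtype

/-- The tame level `U` of `G` is good at `v` for the parabolic subgroup `P`: it is the product of
`U_v = U ∩ G(F_v)` and of a group with trivial components at `v`, and `G(F_v) = P(F_v) U_v`
(Iwasawa decomposition). -/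
structure IsGood (μ : Grading D) (U : Subgroup D.Ad) (v : HeightOneSpectrum (𝓞 F)) : Prop where
  split : ∀ u ∈ U, ∃ a ∈ U, a ∈ locSub D v ∧ TrivialAt v (a⁻¹ * u)
  iwasawa : ∀ g ∈ locSub D v, ∃ q ∈ locSub D v, q ∈ μ.parab (algebraMap F _) ∧ q⁻¹ * g ∈ U

variable (ℓ : ℕ) [Fact ℓ.Prime]

/-- The Hecke algebra of `G(F_v)` with respect to `U ∩ G(F_v)` and with coefficients in `ℤ_ℓ`. -/
def Hk (U : Subgroup D.Ad) (v : HeightOneSpectrum (𝓞 F)) : Type :=
  {h : LocQuot U v →₀ ℤ_[ℓ] // ∀ u : Loc D v, (u : D.Ad) ∈ U → ∀ c : LocQuot U v, h (u • c) = h c}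

variable {ℓ} {U : Subgroup D.Ad} {v : HeightOneSpectrum (𝓞 F)}

/-- The Hecke operator of `h` on functions on `G(𝔸_f)`: `(T_h f)(g) = ∑ h(c) f(g c)`, the sum over
`c ∈ G(F_v) / (U ∩ G(F_v))`. -/
noncomputable def Hk.op (h : Hk ℓ U v) (X : Type) [AddCommGroup X] [Module ℤ_[ℓ] X] :
    Module.End ℤ_[ℓ] (D.Ad → X) where
  toFun f g := h.1.sum fun c r => r • f (g * ((Quotient.out c : locSub D v) : D.Ad))
  map_add' f f' := by
    funext g
    simp only [Pi.add_apply, smul_add, Finsupp.sum_add]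
  map_smul' r f := by
    funext g
    simp only [Pi.smul_apply, RingHom.id_apply, Finsupp.smul_sum]
    exact Finset.sum_congr rfl fun c _ => smul_comm _ _ _

/-- The Levi part in `M(𝔸_f)` of a representative `q ∈ P(F_v)` of the coset `c`. -/
noncomputable def leviRep (μ : Grading D) (D' : Datum F n) (c : LocQuot U v) : D'.Ad := by
  classical
  exact if h : ∃ m : D'.Ad, ∃ q : Loc D v, (q : D.Ad) ∈ μ.parab (algebraMap F _) ∧
    QuotientGroup.mk q = c ∧ μ.IsLeviPart (algebraMap F _) (q : D.Ad).1 m.1 then h.choose else 1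

/-- The character `χ(m) = det(m | V_{a₀})` of `M`, where `V_{a₀}` is the summand of degree `a₀` of the
grading. -/
def Grading.chi (μ : Grading D) (a₀ : ℤ) {R : Type} [CommRing R] (φ : F →+* R)
    (m : Matrix (Fin n) (Fin n) R) : R :=
  ((μ.p a₀).map φ * m * (μ.p a₀).map φ + 1 - (μ.p a₀).map φ).det

/-- The Levi part `m_c` of (a representative of) the coset `c` has degree `r`: `|χ(m_c)|_v = N(v)^r`. -/
def HasDeg (μ : Grading D) (D' : Datum F n) (a₀ : ℤ) (c : LocQuot U v) (r : ℤ) : Prop :=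
  Valued.v ((μ.chi a₀ (algebraMap F (FiniteAdeleRing (𝓞 F) F))
    ((leviRep μ D' c).1 : Matrix (Fin n) (Fin n) (FiniteAdeleRing (𝓞 F) F))) v) =
      ((Multiplicative.ofAdd r : Multiplicative ℤ) : WithZero (Multiplicative ℤ))

open Classical in
/-- The part of degree `r` of the constant term along `P` of the Hecke operator of `h`, an operator on
functions on `M(𝔸_f)`: `f ↦ (g ↦ ∑ h(c) f(g m_c))`, where `m_c ∈ M(F_v)` is the Levi part of a
representative of `c` in `P(F_v)`, and the sum is over the `c` with `|χ(m_c)|_v = N(v)^r`. -/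
noncomputable def Hk.ct (h : Hk ℓ U v) (μ : Grading D) (D' : Datum F n) (a₀ r : ℤ) (X : Type)
    [AddCommGroup X] [Module ℤ_[ℓ] X] : Module.End ℤ_[ℓ] (D'.Ad → X) where
  toFun f g := h.1.sum fun c s => if HasDeg μ D' a₀ c r then s • f (g * leviRep μ D' c) else 0
  map_add' f f' := by
    funext g
    simp only [Pi.add_apply, smul_add]
    rw [← Finsupp.sum_add]
    refine Finset.sum_congr rfl fun c _ => ?_
    beta_reduce
    split_ifs
    · rfl
    · exact (add_zero _).symm
  map_smul' r f := by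
    funext g
    simp only [Pi.smul_apply, RingHom.id_apply, Finsupp.smul_sum]
    refine Finset.sum_congr rfl fun c _ => ?_
    beta_reduce
    split_ifs
    · exact smul_comm _ _ _
    · exact (smul_zero _).symm

end Groups

section Systems

variable {F : Type} [Field F] [NumberField F] {n : ℕ} {D D' : Datum F n} {ℓ : ℕ} [Fact ℓ.Prime]
  {B : Type} [CommRing B] {O : Type} [CommRing O] [HopfAlgebra B O]
  (A : OverB.HopfAction B Gal(AlgebraicClosure F/F) O) (S : Finset (HeightOneSpectrum (𝓞 F)))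
  (φ : HeightOneSpectrum (𝓞 F) → Gal(AlgebraicClosure F/F))

/-- The pairs `(v, f)` of a place `v ∉ S` and of an invariant function `f` on `Ĝ ⋊ φ v`. -/
abbrev Ix : Type := Σ v : {v // v ∉ S}, A.inv (φ v.1)

/-- The triples `(v, f, r)` of a place `v ∉ S`, an invariant function `f` on `Ĝ ⋊ φ v` and a degree
`r`. -/
abbrev IxM : Type := Ix A S φ × ℤ

variable {A S φ} {U : Subgroup D.Ad}

/-- The action of the non-commutative polynomials in the symbols `(v, f)` on functions on `G(𝔸_f)`,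
the symbol `(v, f)` acting as the Hecke operator `sat v f`. -/
noncomputable def actG (sat : ∀ v, A.inv (φ v) → Hk ℓ U v) (X : Type) [AddCommGroup X]
    [Module ℤ_[ℓ] X] : FreeAlgebra ℤ_[ℓ] (Ix A S φ) →ₐ[ℤ_[ℓ]] Module.End ℤ_[ℓ] (D.Ad → X) :=
  FreeAlgebra.lift ℤ_[ℓ] fun i => (sat i.1.1 i.2).op X

/-- The action of the non-commutative polynomials in the symbols `(v, f, r)` on functions on `M(𝔸_f)`,
the symbol `(v, f, r)` acting as the part of degree `r` of the constant term of the Hecke operator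
`sat v f`. -/
noncomputable def actM (μ : Grading D) (D' : Datum F n) (a₀ : ℤ)
    (sat : ∀ v, A.inv (φ v) → Hk ℓ U v) (X : Type) [AddCommGroup X] [Module ℤ_[ℓ] X] :
    FreeAlgebra ℤ_[ℓ] (IxM A S φ) →ₐ[ℤ_[ℓ]] Module.End ℤ_[ℓ] (D'.Ad → X) :=
  FreeAlgebra.lift ℤ_[ℓ] fun i => (sat i.1.1.1 i.1.2).ct μ D' a₀ i.2 X

/-- Polynomials with coefficients in `ℤ` as polynomials with coefficients in `ℤ_ℓ`. -/
noncomputable def toZl (ℓ : ℕ) [Fact ℓ.Prime] (I : Type) :
    FreeAlgebra ℤ I →ₐ[ℤ] FreeAlgebra ℤ_[ℓ] I :=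
  FreeAlgebra.lift ℤ (FreeAlgebra.ι ℤ_[ℓ])

/-- The ring `ℤ/ℓ^k`. -/
abbrev Zk (ℓ k : ℕ) [Fact ℓ.Prime] : Type := ℤ_[ℓ] ⧸ Ideal.span {(ℓ : ℤ_[ℓ]) ^ k}

/-- **Galois representations for the torsion cohomology of `G`.** There is a compact topological ring
`T` with elements `x v f`, all whose nonzero elements are detected by Galois representations with
values in `ᴸG`, such that the Hecke operators act, modulo nilpotents of degree bounded in terms of the
degree `m` of the cohomology, continuously for the topology of `T` on the cohomology and on the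
cohomology with compact support with coefficients in `ℤ/ℓ^k`, at all levels at `ℓ`: a polynomial in the
Hecke operators whose value in `T` is sufficiently close to zero is nilpotent there. -/
def TorsionDetected {Q : Type} [PartialOrder Q] [OrderTop Q] (a : D.Rat →* (Q ≃o Q))
    (A : OverB.HopfAction B Gal(AlgebraicClosure F/F) O) (S : Finset (HeightOneSpectrum (𝓞 F)))
    (φ : HeightOneSpectrum (𝓞 F) → Gal(AlgebraicClosure F/F))
    (sat : ∀ v, A.inv (φ v) → Hk ℓ U v) : Prop :=
  ∃ (T : Type) (_ : CommRing T) (_ : TopologicalSpace T) (_ : IsTopologicalRing T)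
    (_ : CompactSpace T) (x : ∀ v, A.inv (φ v) → T) (N : ℕ → ℕ),
    (∀ t : T, t ≠ 0 → OverB.IsDetected A S φ x t) ∧
    ∀ (m k : ℕ) (K : Subgroup D.Ad), IsLevel ℓ U K → ∃ W ∈ nhds (0 : T),
      ∀ t : FreeAlgebra ℤ (Ix A S φ), FreeAlgebra.lift ℤ (fun i : Ix A S φ => x i.1.1 i.2) t ∈ W →
        Kills D.toAd (1 : D.Rat →* (Unit ≃o Unit)) U K (1 : Representation ℤ_[ℓ] K (Zk ℓ k))
          (actG sat (Zk ℓ k) (toZl ℓ (Ix A S φ) t) ^ N m) m ∧
        Kills D.toAd a U K (1 : Representation ℤ_[ℓ] K (Zk ℓ k))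
          (actG sat (Zk ℓ k) (toZl ℓ (Ix A S φ) t) ^ N m) m

/-- **The system `c` occurs in the interior cohomology of `M`**, of degree `i` and level
`(U ∩ M) K'`, with coefficients in the continuous representation `ρ` of `K'` on `V = ℤ_ℓ^d`: every
polynomial in the (graded pieces of the) constant terms of the Hecke operators that kills
`H_!^i(M; V) ⊗ ℚ`, the image of the cohomology with compact support, vanishes at `c`. -/
def Occurs (μ : Grading D) (D' : Datum F n) (a₀ : ℤ) (sat : ∀ v, A.inv (φ v) → Hk ℓ U v)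
    {Q' : Type} [PartialOrder Q'] [OrderTop Q'] (a' : D'.Rat →* (Q' ≃o Q')) (K' : Subgroup D'.Ad)
    {d : ℕ} (ρ : Representation ℤ_[ℓ] K' (Fin d → ℤ_[ℓ])) (i : ℕ)
    (c : IxM A S φ → PadicAlgCl ℓ) : Prop :=
  ∀ t : FreeAlgebra ℤ_[ℓ] (IxM A S φ),
    (∀ z : Coch D'.Rat D'.Ad Q' (Fin d → ℤ_[ℓ]) i, IsCoch D'.toAd a' (restr D' U) K' ρ z →
      IsRel z → del z = 0 → ∃ r : ℕ, IsCob D'.toAd (1 : D'.Rat →* (Unit ≃o Unit)) (restr D' U) K' ρ
        ((ℓ : ℤ_[ℓ]) ^ r • opOn (actM μ D' a₀ sat (Fin d → ℤ_[ℓ]) t) (topVal z))) →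
    FreeAlgebra.lift ℤ_[ℓ] c t = 0

/-- The variable `T` as a unit of the ring of Laurent polynomials. -/
noncomputable def unitT (K : Type) [Field K] : (K[T;T⁻¹])ˣ :=
  ⟨T 1, T (-1), by rw [← T_add, add_neg_cancel, T_zero], by rw [← T_add, neg_add_cancel, T_zero]⟩

/-- The coefficient of `T^r` in `f(m ν(T))`, for `m ∈ M̂(K)`, a cocharacter `ν` and a regular function
`f` on `Ĝ`. -/
noncomputable def coef {O₁ O' : Type} [CommRing O₁] [HopfAlgebra ℚ O₁] [CommRing O']
    [HopfAlgebra ℚ O'] (π : O₁ →ₐc[ℚ] O') (ν : O₁ →ₐc[ℚ] ℚ[T;T⁻¹]) {K : Type} [Field K] [CharZero K]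
    (m : Pts O' K) (f : O₁) (r : ℤ) : K :=
  ((Pts.incl π (Pts.map (C : K →+* K[T;T⁻¹]).toRatAlgHom m) *
    Pts.cochar ν (unitT K)).hom f).coeff r

end Systems

end Pool.Agent.Lib.MP_666dc0_nt.TP
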