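import Pool.Agent.Lib.MP_666dc0_nt.TP.A2

/-!
# TP, E0: abstract parabolic data
-/

namespace Pool.Agent.Lib.MP_666dc0_nt.TP

/-- The groups `Γ = G(F)`, `G = G(𝔸_f)`, `Γ' = M(F)`, `G' = M(𝔸_f)`, the subgroups `PΓ = P(F)`, `P = P(𝔸_f)`
with the Levi projections `πΓ`, `π` and the inclusions `ιΓ`, `ι` of the Levi subgroups, the ordered sets
`Q`, `Q'` of the parabolic subgroups of `G` and `M` with the embedding `j`. -/
structure PD (Γ G Q Γ' G' Q' : Type) [Group Γ] [Group G] [PartialOrder Q] [OrderTop Q] [Group Γ']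
    [Group G'] [PartialOrder Q'] [OrderTop Q'] where
  τ : Γ →* G
  τ' : Γ' →* G'
  a : Γ →* (Q ≃o Q)
  a' : Γ' →* (Q' ≃o Q')
  j : Q' ↪o Q
  PΓ : Subgroup Γ
  P : Subgroup G
  πΓ : Γ → Γ'
  π : G → G'
  ιΓ : Γ' →* Γ
  ι : G' →* G
  πΓ_mul : ∀ γ ∈ PΓ, ∀ η ∈ PΓ, πΓ (γ * η) = πΓ γ * πΓ η
  π_mul : ∀ g ∈ P, ∀ h ∈ P, π (g * h) = π g * π h
  ιΓ_mem : ∀ γ, ιΓ γ ∈ PΓ
  ι_mem : ∀ g, ι g ∈ P
  πΓ_ι : ∀ γ, πΓ (ιΓ γ) = γ
  π_ι : ∀ g, π (ι g) = g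
  τ_mem : ∀ γ ∈ PΓ, τ γ ∈ P
  π_τ : ∀ γ ∈ PΓ, π (τ γ) = τ' (πΓ γ)
  τ_ι : ∀ γ, τ (ιΓ γ) = ι (τ' γ)
  j_mem : ∀ x, x ≤ j ⊤ → x ∈ Set.range j
  coatom : IsCoatom (j ⊤)
  stab : ∀ γ, a γ (j ⊤) = j ⊤ ↔ γ ∈ PΓ
  act : ∀ γ ∈ PΓ, ∀ x, a γ (j x) = j (a' (πΓ γ) x)

variable {Γ G Q Γ' G' Q' : Type} [Group Γ] [Group G] [PartialOrder Q] [OrderTop Q] [Group Γ']
  [Group G'] [PartialOrder Q'] [OrderTop Q'] (d : PD Γ G Q Γ' G' Q')

/-- A level `U K` of `G` and a level `U' K'` of the Levi subgroup. -/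
structure PD.Lev (U K : Subgroup G) (U' K' : Subgroup G') : Prop where
  comm : ∀ u ∈ U, ∀ k ∈ K, u * k = k * u
  disj : ∀ u ∈ U, u ∈ K → u = 1
  comp : ∀ u ∈ U, ∀ k ∈ K, u * k ∈ d.P → u ∈ d.P ∧ k ∈ d.P
  πU : ∀ u ∈ U, u ∈ d.P → d.π u ∈ U'
  πK : ∀ k ∈ K, k ∈ d.P → d.π k ∈ K'
  ιU : ∀ u ∈ U', d.ι u ∈ U
  ιK : ∀ k ∈ K', d.ι k ∈ K

variable {R X : Type} [CommRing R] [AddCommGroup X] [Module R X]

/-- The coefficients `ρ` of `K` and `ρ'` of `K'` on `X` are compatible. -/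
def PD.Compat {K : Subgroup G} {K' : Subgroup G'} (ρ : Representation R K X)
    (ρ' : Representation R K' X) : Prop :=
  (∀ k : K, (k : G) ∈ d.P → ∀ k' : K', (k' : G') = d.π k → ρ k = ρ' k') ∧
  ∀ (k : K) (k' : K'), (k : G) = d.ι k' → ρ k = ρ' k'

/-- The data for the extension of cochains of `M` to cochains of `G` with support in `P(𝔸_f) U K`, on the
flags ending with a conjugate of `P`. The map `σ : Γ → Γ` has values in `PΓ`, is left `PΓ`-equivariant and the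
identity on `PΓ`. -/
def PD.IsSel (σ : Γ → Γ) : Prop :=
  (∀ γ, σ γ ∈ d.PΓ) ∧ (∀ η ∈ d.PΓ, ∀ γ, σ (η * γ) = η * σ γ) ∧ ∀ η ∈ d.PΓ, σ η = η

/-- There is such a map: representatives of the right cosets `PΓ γ` (the quotient by
`QuotientGroup.rightRel d.PΓ`), with representative `1` of the trivial coset. -/
theorem PD.exists_isSel : ∃ σ : Γ → Γ, d.IsSel σ := by
  classical
  let S : Setoid Γ := QuotientGroup.rightRel d.PΓ
  let r : Γ → Γ := fun γ => if γ ∈ d.PΓ then 1 else Quotient.out (Quotient.mk S γ)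
  have hr : ∀ γ, γ * (r γ)⁻¹ ∈ d.PΓ := by
    intro γ
    by_cases h : γ ∈ d.PΓ
    · have e : r γ = 1 := if_pos h
      rw [e, inv_one, mul_one]
      exact h
    · have e : r γ = Quotient.out (Quotient.mk S γ) := if_neg h
      rw [e]
      have h1 : S (Quotient.out (Quotient.mk S γ)) γ := Quotient.exact (Quotient.out_eq _)
      exact QuotientGroup.rightRel_apply.mp h1
  have hr2 : ∀ η ∈ d.PΓ, ∀ γ, r (η * γ) = r γ := by
    intro η hη γ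
    by_cases h : γ ∈ d.PΓ
    · have e : r γ = 1 := if_pos h
      have e2 : r (η * γ) = 1 := if_pos (d.PΓ.mul_mem hη h)
      rw [e, e2]
    · have h' : η * γ ∉ d.PΓ := fun h2 => h ((d.PΓ.mul_mem_cancel_left hη).mp h2)
      have e : r γ = Quotient.out (Quotient.mk S γ) := if_neg h
      have e2 : r (η * γ) = Quotient.out (Quotient.mk S (η * γ)) := if_neg h'
      have e3 : Quotient.mk S (η * γ) = Quotient.mk S γ := by
        apply Quotient.sound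
        show S (η * γ) γ
        refine QuotientGroup.rightRel_apply.mpr ?_
        rw [mul_inv_rev, mul_inv_cancel_left]
        exact d.PΓ.inv_mem hη
      rw [e, e2, e3]
  refine ⟨fun γ => γ * (r γ)⁻¹, hr, fun η hη γ => ?_, fun η hη => ?_⟩
  · show η * γ * (r (η * γ))⁻¹ = η * (γ * (r γ)⁻¹)
    rw [hr2 η hη γ, mul_assoc]
  · have e : r η = 1 := if_pos hη
    show η * (r η)⁻¹ = η
    rw [e, inv_one, mul_one]

variable {m : ℕ}

/-- The flag `a γ (j x')` of `Q`. -/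
def PD.fl (γ : Γ) (x' : Fin (m + 1) →o Q') : Fin (m + 1) →o Q :=
  ⟨fun i => d.a γ (d.j (x' i)), fun _ _ h => (d.a γ).monotone (d.j.monotone (x'.monotone h))⟩

/-- `y` is the extension of `z`: it has the obvious values at the points `(e, a γ (j x'), τ γ p u k)` with
`p ∈ P`, `u ∈ U`, `k ∈ K` and a flag `x'` ending with `⊤`, and it is zero at all other points. -/
def PD.IsExt (σ : Γ → Γ) (U K : Subgroup G) (ρ : Representation R K X) (z : Coch Γ' G' Q' X m)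
    (y : Coch Γ G Q X m) : Prop :=
  (∀ (e : Fin (m + 1) → Γ) (γ : Γ) (x' : Fin (m + 1) →o Q'), x' (Fin.last m) = ⊤ → ∀ p ∈ d.P,
    ∀ u ∈ U, ∀ k : K, y e (d.fl γ x') (d.τ γ * p * u * k) =
      ρ k⁻¹ (z (fun i => d.πΓ (σ (γ⁻¹ * e i))) x' (d.π p))) ∧
  ∀ (e : Fin (m + 1) → Γ) (x : Fin (m + 1) →o Q) (g : G),
    (¬ ∃ (γ : Γ) (x' : Fin (m + 1) →o Q') (p u : G) (k : K), x' (Fin.last m) = ⊤ ∧ p ∈ d.P ∧ u ∈ U ∧
      x = d.fl γ x' ∧ g = d.τ γ * p * u * k) → y e x g = 0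

end Pool.Agent.Lib.MP_666dc0_nt.TP
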