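import Pool.Agent.Lib.MP_666dc0_nt.Mg.G069
import Pool.Agent.Lib.MP_666dc0_nt.EP.C2f

/-!
# TP, F1: equivariant cochains with values in a module
-/

namespace Pool.Agent.Lib.MP_666dc0_nt.TP

open EP

variable {R A V : Type} [CommRing R] [Group A] [AddCommGroup V] [Module R V]

/-- The transpose of `c : R[Y] → R[Z]` on functions with values in the `R`-module `V`:
`f ↦ (y ↦ ∑ c_{yz} f(z))`. -/
noncomputable def pullR (V : Type) [AddCommGroup V] [Module R V] {Y Z : Type}
    (c : (Y →₀ R) →ₗ[R] (Z →₀ R)) : (Z → V) →ₗ[R] (Y → V) where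
  toFun f y := (c (Finsupp.single y 1)).sum fun z r => r • f z
  map_add' f g := by
    funext y
    simp only [Pi.add_apply, smul_add, Finsupp.sum_add]
  map_smul' a f := by
    funext y
    simp only [Pi.smul_apply, RingHom.id_apply, Finsupp.smul_sum]
    exact Finset.sum_congr rfl fun z _ => smul_comm _ _ _

/-- The module of the `A`-equivariant functions `Y → V`. -/
def FunR (ρ : Representation R A V) (Y : Type) [MulAction A Y] : Submodule R (Y → V) where
  carrier := {f | ∀ (a : A) (y : Y), f (a • y) = ρ a (f y)}
  zero_mem' a y := by simp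
  add_mem' {f g} hf hg a y := by simp [hf a y, hg a y]
  smul_mem' c f hf a y := by simp [hf a y]

variable {W Y Z : Type}

/-- The value of the pull-back is linear in the chain: `(pullR V c f) y = L_f (c y)` with `L_f = Finsupp.linearCombination`. -/
theorem pullR_apply (c : (Y →₀ R) →ₗ[R] (Z →₀ R)) (f : Z → V) (y : Y) :
    pullR V c f y = Finsupp.linearCombination R f (c (Finsupp.single y 1)) := by
  rw [Finsupp.linearCombination_apply]
  rfl

private theorem F1_single (c : (Y →₀ R) →ₗ[R] (Z →₀ R)) (f : Z → V) :
    Finsupp.linearCombination R (pullR V c f) = (Finsupp.linearCombination R f) ∘ₗ c := by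
  refine Finsupp.lhom_ext fun y r => ?_
  rw [Finsupp.linearCombination_single, pullR_apply, LinearMap.comp_apply, ← map_smul, ← map_smul,
    Finsupp.smul_single, smul_eq_mul, mul_one]

theorem pullR_id : pullR V (LinearMap.id : (Y →₀ R) →ₗ[R] (Y →₀ R)) = LinearMap.id := by
  refine LinearMap.ext fun f => funext fun y => ?_
  rw [pullR_apply, LinearMap.id_apply, LinearMap.id_apply, Finsupp.linearCombination_single,
    one_smul]

/-- Proof: both sides at `f`, `w` are the value of the linear map `L_f ∘ c' ` at `c (single w 1)`: `Finsupp.linearCombination (pullR c' f) = L_f ∘ c'` (on basis vectors, `pullR_apply`). -/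
theorem pullR_comp (c' : (Y →₀ R) →ₗ[R] (Z →₀ R)) (c : (W →₀ R) →ₗ[R] (Y →₀ R)) :
    pullR V (c' ∘ₗ c) = pullR V c ∘ₗ pullR V c' := by
  refine LinearMap.ext fun f => funext fun w => ?_
  rw [pullR_apply, LinearMap.comp_apply, LinearMap.comp_apply, pullR_apply, F1_single,
    LinearMap.comp_apply]

theorem pullR_add (c c' : (Y →₀ R) →ₗ[R] (Z →₀ R)) : pullR V (c + c') = pullR V c + pullR V c' := by
  refine LinearMap.ext fun f => funext fun w => ?_
  rw [pullR_apply, LinearMap.add_apply, LinearMap.add_apply, Pi.add_apply, pullR_apply,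
    pullR_apply, map_add]

theorem pullR_sub (c c' : (Y →₀ R) →ₗ[R] (Z →₀ R)) : pullR V (c - c') = pullR V c - pullR V c' := by
  refine LinearMap.ext fun f => funext fun w => ?_
  rw [pullR_apply, LinearMap.sub_apply, LinearMap.sub_apply, Pi.sub_apply, pullR_apply,
    pullR_apply, map_sub]

theorem pullR_smul (r : R) (c : (Y →₀ R) →ₗ[R] (Z →₀ R)) : pullR V (r • c) = r • pullR V c := by
  refine LinearMap.ext fun f => funext fun w => ?_
  rw [pullR_apply, LinearMap.smul_apply, LinearMap.smul_apply, Pi.smul_apply, pullR_apply,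
    map_smul]

/-- Pull-backs along equivariant maps preserve equivariance (`Equi.single`, `Finsupp.linearCombination_mapDomain`, `pullR_apply`). -/
theorem pullR_mem {ρ : Representation R A V} [MulAction A Y] [MulAction A Z]
    {c : (Y →₀ R) →ₗ[R] (Z →₀ R)} (hc : Equi A c) {f : Z → V} (hf : f ∈ FunR ρ Z) :
    pullR V c f ∈ FunR ρ Y := by
  intro a y
  rw [pullR_apply, pullR_apply, hc.single, Finsupp.linearCombination_mapDomain,
    Finsupp.linearCombination_apply, Finsupp.linearCombination_apply, map_finsuppSum]
  refine Finsupp.sum_congr fun z _ => ?_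
  rw [map_smul]
  congr 1
  exact hf a z

/-- For a free `A`-set with finitely many orbits the equivariant functions form a finitely generated module: `f` is determined by its values at `e.symm (i, 1)`, arbitrary in `V`; so `FunR ρ Y` is the range of a linear map
from `Fin r → V`, `u ↦ (y ↦ ρ (e y).g (u (e y).i))`, and `Fin r → V` is finitely generated (`Submodule.FG.map`, `Module.Finite`). -/
theorem FunR_fg [Module.Finite R V] (ρ : Representation R A V) [MulAction A Y] (r : ℕ)
    (e : Y ≃ FreeSet A r) (he : ∀ (a : A) (y : Y), e (a • y) = a • e y) : (FunR ρ Y).FG := by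
  classical
  let T : (Fin r → V) →ₗ[R] (Y → V) :=
    { toFun := fun u y => ρ (e y).g (u (e y).i)
      map_add' := fun u v => by
        funext y
        simp only [Pi.add_apply, map_add]
      map_smul' := fun c u => by
        funext y
        simp only [Pi.smul_apply, map_smul, RingHom.id_apply] }
  have hT : FunR ρ Y = LinearMap.range T := by
    apply le_antisymm
    · intro f hf
      refine ⟨fun i => f (e.symm ⟨i, 1⟩), ?_⟩
      funext y
      show ρ (e y).g (f (e.symm ⟨(e y).i, 1⟩)) = f y
      rw [← hf (e y).g]
      congr 1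
      apply e.injective
      rw [he, Equiv.apply_symm_apply]
      exact FreeSet.ext rfl (mul_one _)
    · rintro _ ⟨u, rfl⟩
      intro a y
      show ρ (e (a • y)).g (u (e (a • y)).i) = ρ a (ρ (e y).g (u (e y).i))
      rw [he]
      show ρ (a * (e y).g) (u (e y).i) = _
      rw [map_mul]
      rfl
  rw [hT]
  exact Module.Finite.iff_fg.1 (Module.Finite.range T)

end Pool.Agent.Lib.MP_666dc0_nt.TP
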