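import Pool.Agent.Lib.MP_666dc0_nt.TP.F1

/-!
# TP, F2: finiteness of the cohomology of finitely dominated sets
-/

namespace Pool.Agent.Lib.MP_666dc0_nt.TP

open EP

variable {R A E X V : Type} [CommRing R] [Group A] [MulAction A E] [MulAction A X]
  [AddCommGroup V] [Module R V]

/-- The cocycles of degree `n` of the standard complex. -/
noncomputable def cocycR (ρ : Representation R A V) (E X : Type) [MulAction A E] [MulAction A X]
    (n : ℕ) : Submodule R (Simp E X n → V) :=
  FunR ρ (Simp E X n) ⊓ LinearMap.ker (pullR V (bd R E X n))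

/-- The coboundaries of degree `n`. -/
noncomputable def cobdR (ρ : Representation R A V) (E X : Type) [MulAction A E] [MulAction A X] :
    ∀ n : ℕ, Submodule R (Simp E X n → V)
  | 0 => ⊥
  | n + 1 => (FunR ρ (Simp E X n)).map (pullR V (bd R E X n))

/-- **Finiteness.** If `X` is finitely dominated over `R`, then `m Z^n ⊆ Y + B^n` for some integer `m > 0` and some finitely generated module `Y`.
Proof: let `P`, `C`, `N`, `m`, `i` be as in `IsFD`, `i : P → C` a chain map over `m · id`. Let `S = Res.std R A E X hfree`. Take chain maps `s : S → P` over `id` (`exists_isLift`, `Equi.id`) and `j : C → S.toCx` over `id` (`exists_isMap`, `Cx.IsFin.free`). The composition `j i s`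
is a lift `S → S` of `m · id` (`IsLift.toMap`, `IsMap.comp`, `IsMap.toLift`; unfold the compositions by hand if this is easier), as is `(m : R) • id`. By `exists_homotopy`, with `f = (m : R) • id` and `g = j i s`: `m · id - j i s = d h` in degree `0`, `= d h + h d` in degree `n + 1`, `h` equivariant.
Let `z ∈ Z^n`. Pulling back (`pullR_comp`, `pullR_sub`, `pullR_smul`, `pullR_id`, and `S.d = bd`): `m z = (i s)^* (j^* z) + h^*(bd^* z) [ = 0 ] + bd^*(h^* z)` (last term only in degree `n + 1`), and `h^* z` is equivariant (`pullR_mem`), so the last term is in `B^n`; `j^* z` is in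
`FunR ρ (C.Y n)`, which is finitely generated (`FunR_fg`, `IsFin.exists_equiv`), so `Y` = the image of `FunR ρ (C.Y n)` under `pullR V (i n ∘ₗ s n)` works (`Submodule.FG.map`). -/
theorem exists_fg [Module.Finite R V] [Nonempty E]
    (hfree : ∀ (a : A) (e : E) (x : X), a • e = e → a • x = x → a = 1) (hfd : IsFD R A X)
    (ρ : Representation R A V) (n : ℕ) :
    ∃ m : ℕ, 0 < m ∧ ∃ Y : Submodule R (Simp E X n → V), Y.FG ∧
      ∀ z ∈ cocycR ρ E X n, (m : R) • z ∈ Y ⊔ cobdR ρ E X n := by
  obtain ⟨P, C, N, m, i, hm, hC, hi⟩ := hfd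
  have key : ∃ (t : ∀ n, (Simp E X n →₀ R) →ₗ[R] (C.Y n →₀ R))
      (j : ∀ n, (C.Y n →₀ R) →ₗ[R] (Simp E X n →₀ R))
      (h : ∀ n, (Simp E X n →₀ R) →ₗ[R] (Simp E X (n + 1) →₀ R)),
      (∀ n, Equi A (j n)) ∧ (∀ n, Equi A (h n)) ∧
      (m : R) • LinearMap.id - j 0 ∘ₗ t 0 = bd R E X 0 ∘ₗ h 0 ∧
      ∀ n, (m : R) • LinearMap.id - j (n + 1) ∘ₗ t (n + 1) =
        bd R E X (n + 1) ∘ₗ h (n + 1) + h n ∘ₗ bd R E X n := by
    have hid : Equi A (LinearMap.id : (X →₀ R) →ₗ[R] (X →₀ R)) := Equi.id
    obtain ⟨s, hs⟩ := exists_isLift (Res.std R A E X hfree) P hid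
    obtain ⟨j, hj⟩ := exists_isMap C hC.free (Res.std R A E X hfree) hid
    have hg : IsLift (Res.std R A E X hfree) (Res.std R A E X hfree)
        ((m : R) • LinearMap.id) (fun n => j n ∘ₗ (i n ∘ₗ s n)) := by
      have h1 := (hj.comp (hi.comp hs.toMap)).toLift
      rw [LinearMap.comp_id, LinearMap.id_comp] at h1
      exact h1
    have hf : IsLift (Res.std R A E X hfree) (Res.std R A E X hfree)
        ((m : R) • LinearMap.id) (fun n => (m : R) • LinearMap.id) := by
      refine ⟨fun n => Equi.smul (m : R) Equi.id, ?_, fun n => ?_⟩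
      · rw [LinearMap.comp_smul, LinearMap.smul_comp, LinearMap.comp_id, LinearMap.id_comp]
      · rw [LinearMap.comp_smul, LinearMap.smul_comp, LinearMap.comp_id, LinearMap.id_comp]
    obtain ⟨h, he, h0, hn⟩ := exists_homotopy hf hg
    exact ⟨fun n => i n ∘ₗ s n, j, h, hj.equi, he, h0, hn⟩
  obtain ⟨t, j, h, hj, hh, h0, hn⟩ := key
  refine ⟨m, hm, (FunR ρ (C.Y n)).map (pullR V (t n)), ?_, ?_⟩
  · obtain ⟨r, e, he⟩ := hC.exists_equiv n
    exact (FunR_fg ρ r e he).map _
  · intro z hz
    have hzF : z ∈ FunR ρ (Simp E X n) := (Submodule.mem_inf.1 hz).1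
    have hzk : pullR V (bd R E X n) z = 0 := LinearMap.mem_ker.1 (Submodule.mem_inf.1 hz).2
    have hY : pullR V (j n ∘ₗ t n) z ∈ (FunR ρ (C.Y n)).map (pullR V (t n)) := by
      rw [pullR_comp]
      exact Submodule.mem_map_of_mem (pullR_mem (hj n) hzF)
    cases n with
    | zero =>
      have h1 := LinearMap.congr_fun (congrArg (pullR V) h0) z
      rw [pullR_sub, pullR_smul, pullR_id, pullR_comp (bd R E X 0) (h 0), LinearMap.sub_apply,
        LinearMap.smul_apply, LinearMap.id_apply, LinearMap.comp_apply, hzk, map_zero,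
        sub_eq_zero] at h1
      rw [h1]
      exact Submodule.mem_sup_left hY
    | succ n =>
      have h1 := LinearMap.congr_fun (congrArg (pullR V) (hn n)) z
      rw [pullR_sub, pullR_smul, pullR_id, pullR_add, pullR_comp (bd R E X (n + 1)) (h (n + 1)),
        pullR_comp (h n) (bd R E X n), LinearMap.sub_apply, LinearMap.smul_apply,
        LinearMap.id_apply, LinearMap.add_apply, LinearMap.comp_apply, LinearMap.comp_apply, hzk,
        map_zero, zero_add, sub_eq_iff_eq_add] at h1
      rw [h1]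
      refine add_mem (Submodule.mem_sup_right ?_) (Submodule.mem_sup_left hY)
      exact Submodule.mem_map_of_mem (pullR_mem (hh n) hzF)

end Pool.Agent.Lib.MP_666dc0_nt.TP
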