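import Pool.Agent.Lib.MP_666dc0_nt.EP.BW6
import Pool.Agent.Lib.MP_666dc0_nt.Mg.G064
import Pool.Agent.Lib.MP_666dc0_nt.EC.Defs

/-!
# TP, FZ: arithmetic groups are finitely dominated
-/

open NumberField IsDedekindDomain
open scoped NumberField

namespace Pool.Agent.Lib.MP_666dc0_nt.TP

open WL EP

variable {F : Type} [Field F] [NumberField F] {n : ℕ} {D : Datum F n} {ℓ : ℕ} [Fact ℓ.Prime]

theorem isFD_level (L : Level D ℓ) (hq : D.q.det ≠ 0) (hcl : EC.HasClosedOrbit D) :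
    IsFD ℤ_[ℓ] (D.Rat × L.K) L.X :=
  L.isFD ℤ_[ℓ] hq (closed_uR hq hcl)

end Pool.Agent.Lib.MP_666dc0_nt.TP
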