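import Pool.Agent.Lib.MP_666dc0_nt.TP.F2
import Pool.Agent.Lib.MP_666dc0_nt.TP.A2
import Pool.Agent.Lib.MP_666dc0_nt.TP.FZ

/-!
# TP, F3: finiteness of the cohomology of the group
-/

open NumberField IsDedekindDomain
open scoped NumberField

namespace Pool.Agent.Lib.MP_666dc0_nt.TP

open WL EP

variable {F : Type} [Field F] [NumberField F] {n : ℕ} {D : Datum F n} {ℓ : ℕ} [Fact ℓ.Prime]

/-- The action of `G(F) × K` on `G(F) × G(𝔸_f)/U` is free: if `(γ, k)` fixes `e` and the class of `g`, then `γ = 1` and `g k⁻¹ ∈ g U`, so `k⁻¹ ∈ U`, `k = 1` (`IsTame`, `supp`, `eq_one_of_trivialAt`). -/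
theorem level_free (L : Level D ℓ) (a : D.Rat × L.K) (e : L.E) (x : L.X) (he : a • e = e)
    (hx : a • x = x) : a = 1 := by
  obtain ⟨γ, k⟩ := a
  have h1 : γ = 1 := by
    have h : HMul.hMul (α := D.Rat) (β := D.Rat) γ e = e := he
    exact mul_eq_right.1 h
  subst h1
  induction x using Quotient.inductionOn'
  rename_i g
  have h2 : L.cls (D.toAd 1 * g * (k : D.Ad)⁻¹) = L.cls g := hx
  have h3 : (D.toAd 1 * g * (k : D.Ad)⁻¹)⁻¹ * g ∈ L.U := QuotientGroup.eq.1 h2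
  have h4 : (D.toAd 1 * g * (k : D.Ad)⁻¹)⁻¹ * g = (k : D.Ad) := by
    rw [map_one, one_mul, mul_inv_rev, inv_inv, inv_mul_cancel_right]
  rw [h4] at h3
  have h5 : (k : D.Ad) = 1 := by
    refine eq_one_of_trivialAt fun v => ?_
    by_cases hv : (ℓ : 𝓞 F) ∈ v.asIdeal
    · exact L.tame _ h3 v hv
    · exact L.level.supp _ k.2 v hv
  have h6 : k = 1 := Subtype.ext h5
  rw [h6]
  rfl

/-- The coefficients as a representation of `G(F) × K`: `(γ, k) ↦ ρ(k)`. -/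
noncomputable def repX (L : Level D ℓ) {V : Type} [AddCommGroup V] [Module ℤ_[ℓ] V]
    (ρ : Representation ℤ_[ℓ] L.K V) : Representation ℤ_[ℓ] (D.Rat × L.K) V :=
  ρ.comp (MonoidHom.snd D.Rat L.K)

variable {V : Type} [AddCommGroup V] [Module ℤ_[ℓ] V] {m : ℕ}

/-- A function on the simplices as a cochain: `z(e; x; g) = f(e; [g])`. -/
noncomputable def toCoch (L : Level D ℓ) : (Simp L.E L.X m → V) →ₗ[ℤ_[ℓ]]
    Coch D.Rat D.Ad Unit V m where
  toFun f e _ g := f ((e : Fin (m + 1) → L.E), L.cls g)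
  map_add' _ _ := rfl
  map_smul' _ _ := rfl

/-- Equivariant functions correspond to cochains of level `U K`: `(γ, k) • (e, [g]) = (γ e, [γ g k⁻¹])`; for the first direction write the point `τ γ * g * u * k` as `γ g k u` (`L.comm`), whose class is `(γ, k⁻¹) • [g]`; for the second a cochain is right
`U`-invariant, so it factors through `L.X` (`Quotient.lift` or choose representatives `Quotient.out`). -/
theorem isCoch_toCoch (L : Level D ℓ) {ρ : Representation ℤ_[ℓ] L.K V} {f : Simp L.E L.X m → V} :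
    IsCoch D.toAd (1 : D.Rat →* (Unit ≃o Unit)) L.U L.K ρ (toCoch L f) ↔
      f ∈ FunR (repX L ρ) (Simp L.E L.X m) := by
  have hsm : ∀ (γ : D.Rat) (k : L.K) (e : Fin (m + 1) → L.E) (g : D.Ad),
      ((γ, k) : D.Rat × L.K) • ((e, L.cls g) : Simp L.E L.X m) =
        (((fun i => γ * (show D.Rat from e i) : Fin (m + 1) → D.Rat) : Fin (m + 1) → L.E),
          L.cls (D.toAd γ * g * (k : D.Ad)⁻¹)) := fun γ k e g => rfl
  constructor
  · intro h a y
    obtain ⟨γ, k⟩ := a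
    obtain ⟨e, x⟩ := y
    induction x using Quotient.inductionOn'
    rename_i g
    have h1 := h γ (e : Fin (m + 1) → D.Rat) (cst ()) g 1 L.U.one_mem k⁻¹
    have h2 : ρ k⁻¹ (f (((γ, k) : D.Rat × L.K) • ((e, L.cls g) : Simp L.E L.X m))) =
        f (e, L.cls g) := by
      rw [hsm]
      rw [mul_one] at h1
      exact h1
    have h3 : f (((γ, k) : D.Rat × L.K) • ((e, L.cls g) : Simp L.E L.X m)) =
        ρ k (f (e, L.cls g)) := by
      rw [← h2, ← Module.End.mul_apply, ← map_mul, mul_inv_cancel, map_one, Module.End.one_apply]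
    exact h3
  · intro h γ e x g u hu k
    have h1 : L.cls (D.toAd γ * g * u * (k : D.Ad)) = L.cls (D.toAd γ * g * (k : D.Ad)) := by
      rw [mul_assoc (D.toAd γ * g), L.comm hu k.2, ← mul_assoc]
      exact (QuotientGroup.mk_mul_of_mem _ hu)
    have h2 : f (((γ, k⁻¹) : D.Rat × L.K) • (((e : Fin (m + 1) → L.E), L.cls g) :
        Simp L.E L.X m)) = ρ k⁻¹ (f ((e : Fin (m + 1) → L.E), L.cls g)) :=
      h (γ, k⁻¹) ((e : Fin (m + 1) → L.E), L.cls g)
    rw [hsm γ k⁻¹ e g] at h2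
    have h3 : f (((fun i => γ * e i : Fin (m + 1) → D.Rat) : Fin (m + 1) → L.E),
        L.cls (D.toAd γ * g * u * (k : D.Ad))) = ρ k⁻¹ (f ((e : Fin (m + 1) → L.E), L.cls g)) := by
      rw [h1]
      rw [Subgroup.coe_inv, inv_inv] at h2
      exact h2
    show ρ k (f (((fun i => γ * e i : Fin (m + 1) → D.Rat) : Fin (m + 1) → L.E),
        L.cls (D.toAd γ * g * u * (k : D.Ad)))) = f ((e : Fin (m + 1) → L.E), L.cls g)
    rw [h3, ← Module.End.mul_apply, ← map_mul, mul_inv_cancel, map_one, Module.End.one_apply]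

theorem exists_toCoch (L : Level D ℓ) {ρ : Representation ℤ_[ℓ] L.K V}
    {z : Coch D.Rat D.Ad Unit V m}
    (hz : IsCoch D.toAd (1 : D.Rat →* (Unit ≃o Unit)) L.U L.K ρ z) :
    ∃ f : Simp L.E L.X m → V, toCoch L f = z := by
  refine ⟨fun p => z (p.1 : Fin (m + 1) → D.Rat) (cst ()) (Quotient.out (p.2 : D.Ad ⧸ L.U)), ?_⟩
  funext e x g
  have hx : x = cst () := by
    apply OrderHom.ext
    funext i
    rfl
  obtain ⟨u, hu⟩ := QuotientGroup.mk_out_eq_mul L.U g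
  show z e (cst ()) (Quotient.out (QuotientGroup.mk g : D.Ad ⧸ L.U)) = z e x g
  rw [hu, hx]
  exact hz.right e (cst ()) g u.2

/-- The differentials correspond (`bd_single`, `pullR`, `Finsupp.sum` of a finite sum of `single`s: `pullR_apply`, `map_sum`, `Finsupp.linearCombination_single`). -/
theorem del_toCoch (L : Level D ℓ) (f : Simp L.E L.X m → V) :
    del (toCoch L f) = toCoch L (pullR V (bd ℤ_[ℓ] L.E L.X m) f) := by
  funext e x g
  show ∑ i : Fin (m + 2), (-1 : ℤ) ^ (i : ℕ) •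
      f (((fun j => e (i.succAbove j) : Fin (m + 1) → D.Rat) : Fin (m + 1) → L.E), L.cls g) =
    pullR V (bd ℤ_[ℓ] L.E L.X m) f ((e : Fin (m + 2) → L.E), L.cls g)
  rw [pullR_apply, bd_single, map_sum]
  refine Finset.sum_congr rfl fun i _ => ?_
  rw [Finsupp.linearCombination_single]
  rcases Nat.even_or_odd (i : ℕ) with h | h
  · rw [h.neg_one_pow, h.neg_one_pow, one_smul, one_smul]
  · rw [h.neg_one_pow, h.neg_one_pow, neg_smul, neg_smul, one_smul, one_smul]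

private theorem F3_main (hq : D.q.det ≠ 0) (hcl : EC.HasClosedOrbit D) (L : Level D ℓ)
    {d : ℕ} (ρ : Representation ℤ_[ℓ] L.K (Fin d → ℤ_[ℓ]))
    (i : ℕ) : ∃ m₀ : ℕ, 0 < m₀ ∧ ∃ Y : Submodule ℤ_[ℓ] (Coch D.Rat D.Ad Unit (Fin d → ℤ_[ℓ]) i),
      Y.FG ∧ ∀ z : Coch D.Rat D.Ad Unit (Fin d → ℤ_[ℓ]) i,
        IsCoch D.toAd (1 : D.Rat →* (Unit ≃o Unit)) L.U L.K ρ z → del z = 0 →
        ∃ y ∈ Y, ∃ b, IsCob D.toAd (1 : D.Rat →* (Unit ≃o Unit)) L.U L.K ρ b ∧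
          (m₀ : ℤ_[ℓ]) • z = y + b := by
  have : Nonempty L.E := ⟨(1 : D.Rat)⟩
  obtain ⟨m₀, hm₀, Y, hY, H⟩ := exists_fg (R := ℤ_[ℓ]) (A := D.Rat × L.K) (E := L.E) (X := L.X)
    (V := Fin d → ℤ_[ℓ]) (fun a e x => level_free L a e x) (isFD_level L hq hcl) (repX L ρ) i
  refine ⟨m₀, hm₀, Y.map (toCoch L), hY.map _, ?_⟩
  intro z hz hdz
  obtain ⟨f, hf⟩ := exists_toCoch L (ρ := ρ) hz
  have hfF : f ∈ FunR (repX L ρ) (Simp L.E L.X i) := by
    rw [← isCoch_toCoch L, hf]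
    exact hz
  have hker : pullR (Fin d → ℤ_[ℓ]) (bd ℤ_[ℓ] L.E L.X i) f = 0 := by
    have h1 : toCoch L (pullR (Fin d → ℤ_[ℓ]) (bd ℤ_[ℓ] L.E L.X i) f) = 0 := by
      rw [← del_toCoch, hf, hdz]
    funext p
    obtain ⟨e, x⟩ := p
    induction x using Quotient.inductionOn'
    rename_i g
    exact congrFun (congrFun (congrFun h1 e) (cst ())) g
  have hmem : f ∈ cocycR (repX L ρ) L.E L.X i := ⟨hfF, LinearMap.mem_ker.2 hker⟩
  obtain ⟨y, hy, b, hb, hyb⟩ := Submodule.mem_sup.1 (H f hmem)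
  refine ⟨toCoch L y, Submodule.mem_map_of_mem hy, toCoch L b, ?_, ?_⟩
  · cases i with
    | zero =>
      have hb0 : b = 0 := hb
      rw [hb0]
      exact map_zero (toCoch L)
    | succ i =>
      obtain ⟨c, hc, hcb⟩ := Submodule.mem_map.1 (show b ∈ (FunR (repX L ρ) (Simp L.E L.X i)).map
        (pullR (Fin d → ℤ_[ℓ]) (bd ℤ_[ℓ] L.E L.X i)) from hb)
      refine ⟨toCoch L c, (isCoch_toCoch L).2 hc, isRel_unit _, ?_⟩
      rw [del_toCoch, hcb]
  · rw [← hf, ← map_smul, ← hyb, map_add]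

/-- **Finiteness.** Proof: `exists_fg` for `A = D.Rat × L.K`, `E = L.E`, `X = L.X`, the finite domination `isFD_level` (`TP/FZ.lean`), `level_free`; translate by `toCoch` (`Y` is mapped to its image; `isCoch_toCoch`,
`exists_toCoch`, `del_toCoch`, injectivity of `toCoch`; coboundaries: degree `0` and degree `m + 1`, `isRel_unit`). -/
theorem exists_fg_coch (hq : D.q.det ≠ 0) (hcl : EC.HasClosedOrbit D) {U K : Subgroup D.Ad}
    (hU : IsTame ℓ U) (hK : IsLevel ℓ U K) {d : ℕ} (ρ : Representation ℤ_[ℓ] K (Fin d → ℤ_[ℓ]))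
    (i : ℕ) : ∃ m₀ : ℕ, 0 < m₀ ∧ ∃ Y : Submodule ℤ_[ℓ] (Coch D.Rat D.Ad Unit (Fin d → ℤ_[ℓ]) i),
      Y.FG ∧ ∀ z : Coch D.Rat D.Ad Unit (Fin d → ℤ_[ℓ]) i,
        IsCoch D.toAd (1 : D.Rat →* (Unit ≃o Unit)) U K ρ z → del z = 0 →
        ∃ y ∈ Y, ∃ b, IsCob D.toAd (1 : D.Rat →* (Unit ≃o Unit)) U K ρ b ∧
          (m₀ : ℤ_[ℓ]) • z = y + b := by
  exact F3_main hq hcl ⟨U, K, hU, hK⟩ ρ i

end Pool.Agent.Lib.MP_666dc0_nt.TP
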