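import Pool.Agent.Lib.MP_666dc0_nt.TP.Defs

/-!
# TP, G1: Levi parts
-/

open NumberField IsDedekindDomain
open scoped NumberField

namespace Pool.Agent.Lib.MP_666dc0_nt.TP

open WL

variable {F : Type} [Field F] [NumberField F] {n : ℕ} {D D' : Datum F n} {μ : Grading D}

theorem Grading.idem (μ : Grading D) (a : ℤ) : μ.p a * μ.p a = μ.p a := by
  have h : μ.p a = ∑ b ∈ μ.J, μ.p a * μ.p b := by
    rw [← Finset.mul_sum, μ.sum, Matrix.mul_one]
  by_cases ha : a ∈ μ.J
  · rw [Finset.sum_eq_single_of_mem a ha (fun b _ hb => μ.orth a b hb.symm)] at h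
    exact h.symm
  · rw [μ.zero a ha, Matrix.zero_mul]

section aux

variable {R : Type} [CommRing R] (φ : F →+* R)

private theorem G1_orth (μ : Grading D) {a b : ℤ} (h : a ≠ b) :
    (μ.p a).map φ * (μ.p b).map φ = 0 := by
  rw [← Matrix.map_mul, μ.orth a b h]
  exact Matrix.map_zero φ (map_zero φ)

private theorem G1_idem (μ : Grading D) (a : ℤ) :
    (μ.p a).map φ * (μ.p a).map φ = (μ.p a).map φ := by
  rw [← Matrix.map_mul, μ.idem]

private theorem G1_sum (μ : Grading D) : ∑ a ∈ μ.J, (μ.p a).map φ = 1 := by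
  have h2 := congrArg (fun M => RingHom.mapMatrix φ M) μ.sum
  simpa only [map_sum, map_one, RingHom.mapMatrix_apply] using h2

private theorem G1_mul (μ : Grading D) (f g : ℤ → R) :
    (∑ a ∈ μ.J, f a • (μ.p a).map φ) * (∑ b ∈ μ.J, g b • (μ.p b).map φ) =
      ∑ a ∈ μ.J, (f a * g a) • (μ.p a).map φ := by
  rw [Finset.sum_mul]
  refine Finset.sum_congr rfl fun a ha => ?_
  rw [Finset.mul_sum, Finset.sum_eq_single_of_mem a ha]
  · rw [Matrix.smul_mul, Matrix.mul_smul, G1_idem, smul_smul]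
  · intro b _ hb
    rw [Matrix.smul_mul, Matrix.mul_smul, G1_orth φ μ hb.symm, smul_zero, smul_zero]

private theorem G1_map (μ : Grading D) (f : ℤ → F) :
    (∑ a ∈ μ.J, f a • μ.p a).map φ = ∑ a ∈ μ.J, φ (f a) • (μ.p a).map φ := by
  have h : (∑ a ∈ μ.J, f a • μ.p a).map φ = RingHom.mapMatrix φ (∑ a ∈ μ.J, f a • μ.p a) := rfl
  rw [h, map_sum]
  refine Finset.sum_congr rfl fun a _ => ?_
  ext i j
  simp

end aux

/-- A polynomial with coefficients in an `F`-algebra `R` (through `φ : F → R`) that vanishes at `φ t` for all `t ∈ Fˣ` is zero.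
Proof: by contradiction, or: `F` is infinite; choose `deg + 1` distinct `t_i ∈ Fˣ`; the Vandermonde matrix `(t_i ^ j)` has nonzero determinant in `F`
(`Matrix.det_vandermonde_ne_zero_iff`), so its image under `φ` is invertible; hence all coefficients are zero. -/
theorem poly_eq_zero {R : Type} [CommRing R] (φ : F →+* R) (p : Polynomial R)
    (h : ∀ t : Fˣ, p.eval (φ t) = 0) : p = 0 := by
  classical
  let f : Fin (p.natDegree + 1) → Fˣ := fun i =>
    Units.mk0 (((i : ℕ) + 1 : ℕ) : F) (Nat.cast_ne_zero.2 (Nat.succ_ne_zero _))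
  have hf : Function.Injective (fun i => (f i : F)) := by
    intro i j hij
    have h1 : (((i : ℕ) + 1 : ℕ) : F) = (((j : ℕ) + 1 : ℕ) : F) := hij
    have h2 := Nat.cast_injective h1
    exact Fin.ext (by omega)
  have hdet : (Matrix.vandermonde (fun i => (f i : F))).det ≠ 0 :=
    Matrix.det_vandermonde_ne_zero_iff.2 hf
  have hW := Matrix.nonsing_inv_mul _ (isUnit_iff_ne_zero.2 hdet)
  have hWφ : ((Matrix.vandermonde (fun i => (f i : F)))⁻¹.map φ) *
      ((Matrix.vandermonde (fun i => (f i : F))).map φ) = 1 := by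
    rw [← Matrix.map_mul, hW]
    exact Matrix.map_one φ (map_zero φ) (map_one φ)
  have hVc : Matrix.mulVec ((Matrix.vandermonde (fun i => (f i : F))).map φ)
      (fun j => p.coeff j) = 0 := by
    funext i
    have h1 := h (f i)
    rw [Polynomial.eval_eq_sum_range, Finset.sum_range] at h1
    simp only [Matrix.mulVec, dotProduct, Matrix.map_apply, Matrix.vandermonde_apply, map_pow,
      Pi.zero_apply]
    rw [← h1]
    exact Finset.sum_congr rfl fun j _ => mul_comm _ _
  have hc : (fun j : Fin (p.natDegree + 1) => p.coeff j) = 0 := by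
    have h1 : (fun j : Fin (p.natDegree + 1) => p.coeff j) =
        Matrix.mulVec (1 : Matrix (Fin (p.natDegree + 1)) (Fin (p.natDegree + 1)) R)
          (fun j => p.coeff j) := (Matrix.one_mulVec _).symm
    rw [h1, ← hWφ, ← Matrix.mulVec_mulVec, hVc, Matrix.mulVec_zero]
  ext j
  rw [Polynomial.coeff_zero]
  by_cases hj : j < p.natDegree + 1
  · exact congrFun hc ⟨j, hj⟩
  · exact Polynomial.coeff_eq_zero_of_natDegree_lt (by omega)

/-- The matrix `∑_{b ≤ a} t^{a-b} p_a g p_b` for `t ∈ R`. -/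
noncomputable def Grading.fam (μ : Grading D) {R : Type} [CommRing R] (φ : F →+* R)
    (g : Matrix (Fin n) (Fin n) R) (t : R) : Matrix (Fin n) (Fin n) R :=
  ∑ a ∈ μ.J, ∑ b ∈ μ.J, if b ≤ a then
    t ^ (a - b).toNat • ((μ.p a).map φ * g * (μ.p b).map φ) else 0

/-- For `g ∈ P` and `t ∈ Fˣ` this is `μ(t) g μ(t)⁻¹`, so it is in `G(R)`: there is an element of `D.points φ` with this matrix
(`μ.mem t`, mapped by `D.mapPoints`; `μ(t)⁻¹ = ∑ t^(-b) p_b`; the terms with `a < b` are zero by the definition of `parab`). -/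
theorem Grading.fam_mem {R : Type} [CommRing R] (φ : F →+* R) {g : D.points φ}
    (hg : g ∈ μ.parab φ) (t : Fˣ) : ∃ h : D.points φ,
      ((h.1 : GL (Fin n) R) : Matrix (Fin n) (Fin n) R) =
        μ.fam φ ((g.1 : GL (Fin n) R) : Matrix (Fin n) (Fin n) R) (φ t) := by
  obtain ⟨g₀, hg₀⟩ := μ.mem t
  let m : D.points φ := D.mapPoints (RingHom.id F) φ g₀
  have hm : ((m.1 : GL (Fin n) R) : Matrix (Fin n) (Fin n) R) =
      ∑ a ∈ μ.J, φ ((t ^ a : Fˣ) : F) • (μ.p a).map φ := by
    rw [← G1_map φ μ (fun a => ((t ^ a : Fˣ) : F)), ← hg₀]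
    rfl
  have hmi : ((m.1⁻¹ : GL (Fin n) R) : Matrix (Fin n) (Fin n) R) =
      ∑ a ∈ μ.J, φ ((t ^ (-a) : Fˣ) : F) • (μ.p a).map φ := by
    have h1 : (∑ a ∈ μ.J, φ ((t ^ (-a) : Fˣ) : F) • (μ.p a).map φ) *
        ((m.1 : GL (Fin n) R) : Matrix (Fin n) (Fin n) R) = 1 := by
      rw [hm, G1_mul φ μ (fun a => φ ((t ^ (-a) : Fˣ) : F)) (fun a => φ ((t ^ a : Fˣ) : F)),
        ← G1_sum φ μ]
      refine Finset.sum_congr rfl fun a _ => ?_
      rw [← map_mul, ← Units.val_mul, ← zpow_add, neg_add_cancel, zpow_zero, Units.val_one,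
        map_one, one_smul]
    exact Units.inv_eq_of_mul_eq_one_left h1
  refine ⟨m * g * m⁻¹, ?_⟩
  have h2 : (((m * g * m⁻¹ : D.points φ).1 : GL (Fin n) R) : Matrix (Fin n) (Fin n) R) =
      ((m.1 : GL (Fin n) R) : Matrix (Fin n) (Fin n) R) *
        ((g.1 : GL (Fin n) R) : Matrix (Fin n) (Fin n) R) *
        ((m.1⁻¹ : GL (Fin n) R) : Matrix (Fin n) (Fin n) R) := rfl
  rw [h2, hm, hmi, Finset.sum_mul, Finset.sum_mul]
  unfold Grading.fam
  refine Finset.sum_congr rfl fun a _ => ?_
  rw [Finset.mul_sum]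
  refine Finset.sum_congr rfl fun b _ => ?_
  rw [Matrix.smul_mul, Matrix.smul_mul, Matrix.mul_smul, smul_smul]
  by_cases hab : b ≤ a
  · rw [if_pos hab]
    congr 1
    rw [← map_mul, ← map_pow, ← Units.val_mul, ← zpow_add, ← Units.val_pow_eq_pow_val,
      ← zpow_natCast]
    congr 3
    omega
  · rw [if_neg hab, (hg a b (not_le.1 hab)).1, smul_zero]

/-- The value at `t = 0` is the Levi part `∑ p_a g p_a` (`0 ^ 0 = 1`, `0 ^ k = 0` for `k > 0`). -/
theorem Grading.fam_zero {R : Type} [CommRing R] (φ : F →+* R) (g : Matrix (Fin n) (Fin n) R) :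
    μ.fam φ g 0 = ∑ a ∈ μ.J, (μ.p a).map φ * g * (μ.p a).map φ := by
  unfold Grading.fam
  refine Finset.sum_congr rfl fun a ha => ?_
  rw [Finset.sum_eq_single_of_mem a ha]
  · rw [if_pos le_rfl, sub_self, Int.toNat_zero, pow_zero, one_smul]
  · intro b _ hb
    by_cases hab : b ≤ a
    · rw [if_pos hab, zero_pow, zero_smul]
      omega
    · rw [if_neg hab]

private theorem G1_fam_map (μ : Grading D) {S R : Type} [CommRing S] [CommRing R] (ψ : F →+* S)
    (f : S →+* R) (g : Matrix (Fin n) (Fin n) S) (t : S) :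
    (μ.fam ψ g t).map f = μ.fam (f.comp ψ) (g.map f) (f t) := by
  have h : ∀ M : Matrix (Fin n) (Fin n) S, M.map f = RingHom.mapMatrix f M := fun _ => rfl
  unfold Grading.fam
  rw [h, map_sum]
  refine Finset.sum_congr rfl fun a _ => ?_
  rw [map_sum]
  refine Finset.sum_congr rfl fun b _ => ?_
  split_ifs
  · have h1 : ∀ (c : S) (M : Matrix (Fin n) (Fin n) S), RingHom.mapMatrix f (c • M) =
        f c • RingHom.mapMatrix f M := by
      intro c M
      ext i j
      simp
    rw [h1, map_pow, map_mul, map_mul]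
    rfl
  · exact map_zero _

/-- **Levi parts exist.**
Proof: put `m₀ = ∑ p_a g p_a`, `m₁ = ∑ p_a g⁻¹ p_a`. `m₀ m₁ = 1`: `m₀ m₁ = ∑ p_a g p_a g⁻¹ p_a` and `1 = ∑ p_a g g⁻¹ p_a`, `p_a g p_b g⁻¹ p_a = 0` for
`b ≠ a` (`p_a g p_b = 0` if `a < b`, `p_b g⁻¹ p_a = 0` if `b < a`). So `m₀` is a unit. The equations of `D.points`:
`mᵀ q m = q` and `tensAct m w = w`: for the matrix `fam g t` each entry of the left minus the right side is a polynomial in `t` with coefficients in `R`
(apply the equations over `R[X]` to the matrix `fam` with `t = X`, for the structure map `C ∘ φ`: it is a matrix over `R[X]` whose evaluation at `r` is `fam g r`), which vanishes at all `φ t`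
(`fam_mem`), so it is zero (`poly_eq_zero`), and its value at `0` is the entry for `m₀` (`fam_zero`). So `m₀ ∈ D.points φ`, and it commutes
with the projectors `p_a` (`orth`, `idem`), so it is in `D'.points φ` by `hM`. -/
theorem exists_leviPart (hM : μ.IsLevi D') {R : Type} [CommRing R] (φ : F →+* R)
    {g : D.points φ} (hg : g ∈ μ.parab φ) : ∃ m : D'.points φ, μ.IsLeviPart φ g.1 m.1 := by
  classical
  set G : Matrix (Fin n) (Fin n) R := ((g.1 : GL (Fin n) R) : Matrix (Fin n) (Fin n) R) with hG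
  set H : Matrix (Fin n) (Fin n) R := ((g.1⁻¹ : GL (Fin n) R) : Matrix (Fin n) (Fin n) R) with hH
  have hGH : G * H = 1 := by
    rw [hG, hH, ← Units.val_mul, mul_inv_cancel, Units.val_one]
  have hcomm1 : ∀ a, (∑ b ∈ μ.J, (μ.p b).map φ * G * (μ.p b).map φ) * (μ.p a).map φ =
      (μ.p a).map φ * G * (μ.p a).map φ := by
    intro a
    rw [Finset.sum_mul]
    by_cases ha : a ∈ μ.J
    · rw [Finset.sum_eq_single_of_mem a ha]
      · rw [Matrix.mul_assoc, G1_idem]
      · intro b _ hb
        rw [Matrix.mul_assoc, G1_orth φ μ hb, Matrix.mul_zero]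
    · have h0 : (μ.p a).map φ = 0 := by
        rw [μ.zero a ha]
        exact Matrix.map_zero φ (map_zero φ)
      rw [h0, Matrix.mul_zero]
      exact Finset.sum_eq_zero fun b _ => Matrix.mul_zero _
  have hcomm2 : ∀ a, (μ.p a).map φ * (∑ b ∈ μ.J, (μ.p b).map φ * G * (μ.p b).map φ) =
      (μ.p a).map φ * G * (μ.p a).map φ := by
    intro a
    rw [Finset.mul_sum]
    by_cases ha : a ∈ μ.J
    · rw [Finset.sum_eq_single_of_mem a ha]
      · rw [← Matrix.mul_assoc, ← Matrix.mul_assoc, G1_idem]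
      · intro b _ hb
        rw [← Matrix.mul_assoc, ← Matrix.mul_assoc, G1_orth φ μ hb.symm, Matrix.zero_mul,
          Matrix.zero_mul]
    · have h0 : (μ.p a).map φ = 0 := by
        rw [μ.zero a ha]
        exact Matrix.map_zero φ (map_zero φ)
      rw [h0, Matrix.zero_mul, Matrix.zero_mul]
      exact Finset.sum_eq_zero fun b _ => Matrix.zero_mul _
  have hone : (∑ a ∈ μ.J, (μ.p a).map φ * G * (μ.p a).map φ) *
      (∑ b ∈ μ.J, (μ.p b).map φ * H * (μ.p b).map φ) = 1 := by
    rw [Finset.mul_sum, ← G1_sum φ μ]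
    refine Finset.sum_congr rfl fun b hb => ?_
    rw [← Matrix.mul_assoc, ← Matrix.mul_assoc, hcomm1]
    have h1 : (μ.p b).map φ = ∑ c ∈ μ.J, (μ.p b).map φ * G * (μ.p c).map φ *
        (H * (μ.p b).map φ) := by
      rw [← Finset.sum_mul, ← Finset.mul_sum, G1_sum, Matrix.mul_one, Matrix.mul_assoc,
        ← Matrix.mul_assoc G, hGH, Matrix.one_mul, G1_idem]
    rw [Finset.sum_eq_single_of_mem b hb] at h1
    · rw [Matrix.mul_assoc]
      exact h1.symm
    · intro c _ hc
      rcases lt_or_gt_of_ne hc with h | h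
      · have h2 := (hg c b h).2
        rw [Matrix.mul_assoc ((μ.p b).map φ * G), ← Matrix.mul_assoc ((μ.p c).map φ), ← hH] at *
        rw [h2, Matrix.mul_zero]
      · have h2 := (hg b c h).1
        rw [← hG] at h2
        rw [h2, Matrix.zero_mul]
  let m₀ : GL (Fin n) R := ⟨∑ a ∈ μ.J, (μ.p a).map φ * G * (μ.p a).map φ,
    ∑ b ∈ μ.J, (μ.p b).map φ * H * (μ.p b).map φ, hone, mul_eq_one_comm.1 hone⟩
  -- the family over the ring of polynomials
  let ψ : F →+* Polynomial R := Polynomial.C.comp φ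
  let FX : Matrix (Fin n) (Fin n) (Polynomial R) := μ.fam ψ (G.map Polynomial.C) Polynomial.X
  have hψ : ∀ r : R, (Polynomial.evalRingHom r).comp ψ = φ := by
    intro r
    ext x
    simp [ψ]
  have hFX : ∀ r : R, FX.map (Polynomial.evalRingHom r) = μ.fam φ G r := by
    intro r
    have h1 := G1_fam_map μ ψ (Polynomial.evalRingHom r) (G.map Polynomial.C) Polynomial.X
    rw [hψ r] at h1
    have h2 : (G.map Polynomial.C).map (Polynomial.evalRingHom r) = G := by
      ext i j
      simp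
    rw [h2, Polynomial.coe_evalRingHom, Polynomial.eval_X] at h1
    exact h1
  have hq : ∀ r : R, (FX.transpose * D.q.map ψ * FX - D.q.map ψ).map (Polynomial.evalRingHom r) =
      (μ.fam φ G r).transpose * D.q.map φ * μ.fam φ G r - D.q.map φ := by
    intro r
    have h1 : (D.q.map ψ).map (Polynomial.evalRingHom r) = D.q.map φ := by
      rw [Matrix.map_map]
      congr 1
      funext x
      simp [ψ]
    rw [Matrix.map_sub _ (map_sub _), Matrix.map_mul, Matrix.map_mul, h1, Matrix.transpose_map,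
      hFX r]
  have hq0 : FX.transpose * D.q.map ψ * FX - D.q.map ψ = 0 := by
    ext1 i j
    refine poly_eq_zero φ _ fun t => ?_
    have h1 := congrFun (congrFun (hq (φ t)) i) j
    obtain ⟨h, hh⟩ := μ.fam_mem φ hg t
    rw [← hG] at hh
    have h2 := h.2.1
    rw [hh] at h2
    rw [h2, sub_self] at h1
    exact h1
  have hm0 : (m₀ : Matrix (Fin n) (Fin n) R) = μ.fam φ G 0 := (μ.fam_zero φ G).symm
  have hmem : m₀ ∈ D.points φ := by
    refine ⟨?_, fun i => ?_⟩
    · rw [hm0]
      have h1 := hq 0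
      rw [hq0] at h1
      have h2 : (0 : Matrix (Fin n) (Fin n) (Polynomial R)).map (Polynomial.evalRingHom (0 : R)) = 0 :=
        Matrix.map_zero _ (map_zero _)
      rw [h2] at h1
      exact (sub_eq_zero.1 h1.symm)
    · rw [hm0]
      have hw : ∀ r : R, ∀ I, Polynomial.evalRingHom r
          (tensAct FX (fun I => ψ (D.w i I)) I - ψ (D.w i I)) =
          tensAct (μ.fam φ G r) (fun I => φ (D.w i I)) I - φ (D.w i I) := by
        intro r I
        have h1 := congrFun (tensAct_map (Polynomial.evalRingHom r) FX (fun I => ψ (D.w i I))) I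
        have h3 : ∀ x : F, Polynomial.evalRingHom r (ψ x) = φ x := by
          intro x
          simp [ψ]
        rw [hFX r] at h1
        simp only [h3] at h1
        rw [map_sub, h3, h1]
      funext I
      have h0 : tensAct FX (fun I => ψ (D.w i I)) I - ψ (D.w i I) = 0 := by
        refine poly_eq_zero φ _ fun t => ?_
        have h1 := hw (φ t) I
        obtain ⟨h, hh⟩ := μ.fam_mem φ hg t
        rw [← hG] at hh
        have h2 := congrFun (h.2.2 i) I
        rw [hh] at h2
        rw [h2, sub_self] at h1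
        exact h1
      have h1 := hw 0 I
      rw [h0, map_zero] at h1
      exact sub_eq_zero.1 h1.symm
  refine ⟨⟨m₀, (hM R φ m₀).2 ⟨hmem, fun a => ?_⟩⟩, rfl⟩
  exact (hcomm1 a).trans (hcomm2 a).symm

end Pool.Agent.Lib.MP_666dc0_nt.TP
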