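import Pool.Agent.Lib.MP_666dc0_nt.TP.Defs

/-!
# TP, G2: properties of Levi parts
-/

open NumberField IsDedekindDomain
open scoped NumberField

namespace Pool.Agent.Lib.MP_666dc0_nt.TP

open WL

variable {F : Type} [Field F] [NumberField F] {n : ℕ} {D D' : Datum F n} {μ : Grading D}
  {R : Type} [CommRing R] {φ : F →+* R}

omit [NumberField F] in
private theorem G2_sum (μ : Grading D) (φ : F →+* R) : ∑ c ∈ μ.J, (μ.p c).map φ = 1 := by
  have h2 := congrArg (fun M => RingHom.mapMatrix φ M) μ.sum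
  simpa only [map_sum, map_one, RingHom.mapMatrix_apply] using h2

omit [NumberField F] in
private theorem G2_orth (μ : Grading D) (φ : F →+* R) {a b : ℤ} (h : a ≠ b) :
    (μ.p a).map φ * (μ.p b).map φ = 0 := by
  rw [← Matrix.map_mul, μ.orth a b h]
  exact Matrix.map_zero φ (map_zero φ)

omit [NumberField F] in
private theorem G2_idem (μ : Grading D) (φ : F →+* R) (a : ℤ) :
    (μ.p a).map φ * (μ.p a).map φ = (μ.p a).map φ := by
  by_cases ha : a ∈ μ.J
  · have h1 : (μ.p a).map φ * ∑ c ∈ μ.J, (μ.p c).map φ = (μ.p a).map φ := by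
      rw [G2_sum, Matrix.mul_one]
    rw [Finset.mul_sum, Finset.sum_eq_single a (fun c _ hc => G2_orth μ φ hc.symm)
      (fun h => absurd ha h)] at h1
    exact h1
  · rw [μ.zero a ha, Matrix.map_zero φ (map_zero φ), Matrix.mul_zero]

/-- The Levi part is unique. -/
theorem Grading.IsLeviPart.unique {g m m' : GL (Fin n) R} (h : μ.IsLeviPart φ g m)
    (h' : μ.IsLeviPart φ g m') : m = m' :=
  Units.ext (Eq.trans h (Eq.symm h'))

/-- Levi parts are multiplicative on `P`: `p_a g h p_a = ∑_c p_a g p_c h p_a`, and the term is zero unless `c = a`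
(`p_a g p_c = 0` for `a < c`, `p_c h p_a = 0` for `c < a`); and `p_a p_c = 0` for `a ≠ c`, `p_a p_a = p_a`. -/
theorem Grading.IsLeviPart.mul {g h : D.points φ} (hg : g ∈ μ.parab φ) (hh : h ∈ μ.parab φ)
    {m m' : GL (Fin n) R} (h1 : μ.IsLeviPart φ g.1 m) (h2 : μ.IsLeviPart φ h.1 m') :
    μ.IsLeviPart φ (g * h).1 (m * m') := by
  unfold Grading.IsLeviPart at h1 h2 ⊢
  have hgh : (((g * h).1 : GL (Fin n) R) : Matrix (Fin n) (Fin n) R) =
      ((g.1 : GL (Fin n) R) : Matrix (Fin n) (Fin n) R) *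
        ((h.1 : GL (Fin n) R) : Matrix (Fin n) (Fin n) R) := rfl
  rw [hgh, Units.val_mul, h1, h2, Finset.sum_mul]
  have hA : ∀ a b, a < b → (μ.p a).map φ * ((g.1 : GL (Fin n) R) : Matrix (Fin n) (Fin n) R) *
      (μ.p b).map φ = 0 := fun a b hab => (hg a b hab).1
  have hB : ∀ a b, a < b → (μ.p a).map φ * ((h.1 : GL (Fin n) R) : Matrix (Fin n) (Fin n) R) *
      (μ.p b).map φ = 0 := fun a b hab => (hh a b hab).1
  clear h1 h2 hgh hg hh
  revert hA hB
  generalize ((g.1 : GL (Fin n) R) : Matrix (Fin n) (Fin n) R) = A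
  generalize ((h.1 : GL (Fin n) R) : Matrix (Fin n) (Fin n) R) = B
  intro hA hB
  refine Finset.sum_congr rfl fun a ha => ?_
  have hl : (μ.p a).map φ * A * (μ.p a).map φ *
      ∑ b ∈ μ.J, (μ.p b).map φ * B * (μ.p b).map φ =
      (μ.p a).map φ * A * (μ.p a).map φ * B * (μ.p a).map φ := by
    rw [Finset.mul_sum, Finset.sum_eq_single a]
    · calc (μ.p a).map φ * A * (μ.p a).map φ * ((μ.p a).map φ * B * (μ.p a).map φ)
          = (μ.p a).map φ * A * ((μ.p a).map φ * (μ.p a).map φ) * B * (μ.p a).map φ := by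
            simp only [Matrix.mul_assoc]
        _ = _ := by rw [G2_idem]
    · intro b _ hb
      calc (μ.p a).map φ * A * (μ.p a).map φ * ((μ.p b).map φ * B * (μ.p b).map φ)
          = (μ.p a).map φ * A * ((μ.p a).map φ * (μ.p b).map φ) * B * (μ.p b).map φ := by
            simp only [Matrix.mul_assoc]
        _ = 0 := by rw [G2_orth μ φ hb.symm, Matrix.mul_zero, Matrix.zero_mul, Matrix.zero_mul]
    · intro h
      exact absurd ha h
  rw [hl]
  have hr : (μ.p a).map φ * (A * B) * (μ.p a).map φ =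
      ∑ c ∈ μ.J, (μ.p a).map φ * A * (μ.p c).map φ * (B * (μ.p a).map φ) := by
    rw [← Finset.sum_mul, ← Finset.mul_sum, G2_sum, Matrix.mul_one]
    simp only [Matrix.mul_assoc]
  rw [hr, Finset.sum_eq_single a]
  · simp only [Matrix.mul_assoc]
  · intro c _ hc
    rcases lt_or_gt_of_ne hc with h | h
    · rw [Matrix.mul_assoc ((μ.p a).map φ * A), ← Matrix.mul_assoc ((μ.p c).map φ), hB c a h,
        Matrix.mul_zero]
    · rw [hA a c h, Matrix.zero_mul]
  · intro h
    exact absurd ha h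

/-- The inclusion of the points of `M` in those of `G`. -/
def inclM (hM : μ.IsLevi D') (φ : F →+* R) : D'.points φ →* D.points φ where
  toFun g := ⟨g.1, ((hM R φ g.1).1 g.2).1⟩
  map_one' := rfl
  map_mul' _ _ := rfl

private theorem G2_coe (hM : μ.IsLevi D') (φ : F →+* R) (g : D'.points φ) :
    (inclM hM φ g).1 = g.1 := rfl

omit [NumberField F] in
private theorem G2_mapPoints {S : Type} [CommRing S] (D : Datum F n) (f : R →+* S)
    (g : D.points φ) : (D.mapPoints φ f g).1 = Matrix.GeneralLinearGroup.map f g.1 := rfl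

theorem inclM_mem (hM : μ.IsLevi D') (φ : F →+* R) (g : D'.points φ) :
    inclM hM φ g ∈ μ.parab φ := by
  have key : ∀ g : D'.points φ, ∀ a b, a < b →
      (μ.p a).map φ * ((g.1 : GL (Fin n) R) : Matrix (Fin n) (Fin n) R) * (μ.p b).map φ = 0 := by
    intro g a b hab
    rw [Matrix.mul_assoc, ((hM R φ g.1).1 g.2).2 b, ← Matrix.mul_assoc, G2_orth μ φ hab.ne,
      Matrix.zero_mul]
  intro a b hab
  exact ⟨key g a b hab, key g⁻¹ a b hab⟩

theorem isLeviPart_inclM (hM : μ.IsLevi D') (φ : F →+* R) (g : D'.points φ) :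
    μ.IsLeviPart φ (inclM hM φ g).1 g.1 := by
  show ((g.1 : GL (Fin n) R) : Matrix (Fin n) (Fin n) R) = ∑ a ∈ μ.J, (μ.p a).map φ *
    ((g.1 : GL (Fin n) R) : Matrix (Fin n) (Fin n) R) * (μ.p a).map φ
  have h1 : ∀ a ∈ μ.J, (μ.p a).map φ *
      ((g.1 : GL (Fin n) R) : Matrix (Fin n) (Fin n) R) * (μ.p a).map φ =
      ((g.1 : GL (Fin n) R) : Matrix (Fin n) (Fin n) R) * (μ.p a).map φ := by
    intro a _
    rw [← ((hM R φ g.1).1 g.2).2 a, Matrix.mul_assoc, G2_idem]
  rw [Finset.sum_congr rfl h1, ← Finset.mul_sum, G2_sum, Matrix.mul_one]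

omit [NumberField F] in
private theorem G2_map {S : Type} [CommRing S] (f : R →+* S) (a b : ℤ)
    (g : Matrix (Fin n) (Fin n) R) :
    (μ.p a).map (f.comp φ) * g.map f * (μ.p b).map (f.comp φ) =
      ((μ.p a).map φ * g * (μ.p b).map φ).map f := by
  rw [Matrix.map_mul, Matrix.map_mul, Matrix.map_map, Matrix.map_map]
  rfl

/-- Functoriality in `R` of `parab`, of Levi parts and of the inclusion. -/
theorem parab_map {S : Type} [CommRing S] (f : R →+* S) {g : D.points φ} (hg : g ∈ μ.parab φ) :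
    D.mapPoints φ f g ∈ μ.parab (f.comp φ) := by
  have key : ∀ g : D.points φ, ∀ a b, (μ.p a).map φ *
      ((g.1 : GL (Fin n) R) : Matrix (Fin n) (Fin n) R) * (μ.p b).map φ = 0 →
      (μ.p a).map (f.comp φ) *
        (((D.mapPoints φ f g).1 : GL (Fin n) S) : Matrix (Fin n) (Fin n) S) *
          (μ.p b).map (f.comp φ) = 0 := by
    intro g a b h
    have h1 : (((D.mapPoints φ f g).1 : GL (Fin n) S) : Matrix (Fin n) (Fin n) S) =
        ((g.1 : GL (Fin n) R) : Matrix (Fin n) (Fin n) R).map f := rfl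
    rw [h1, G2_map, h]
    exact Matrix.map_zero f (map_zero f)
  intro a b hab
  refine ⟨key g a b (hg a b hab).1, ?_⟩
  have h2 := key g⁻¹ a b (hg a b hab).2
  rw [map_inv] at h2
  exact h2

theorem Grading.IsLeviPart.map {S : Type} [CommRing S] (f : R →+* S) {g m : GL (Fin n) R}
    (h : μ.IsLeviPart φ g m) : μ.IsLeviPart (f.comp φ) (Matrix.GeneralLinearGroup.map f g)
      (Matrix.GeneralLinearGroup.map f m) := by
  show (m : Matrix (Fin n) (Fin n) R).map f = ∑ a ∈ μ.J, (μ.p a).map (f.comp φ) *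
    (g : Matrix (Fin n) (Fin n) R).map f * (μ.p a).map (f.comp φ)
  have h1 : (m : Matrix (Fin n) (Fin n) R) = ∑ a ∈ μ.J, (μ.p a).map φ *
    (g : Matrix (Fin n) (Fin n) R) * (μ.p a).map φ := h
  rw [h1]
  have h2 : (∑ a ∈ μ.J, (μ.p a).map φ * (g : Matrix (Fin n) (Fin n) R) * (μ.p a).map φ).map f =
      RingHom.mapMatrix f (∑ a ∈ μ.J, (μ.p a).map φ * (g : Matrix (Fin n) (Fin n) R) *
        (μ.p a).map φ) := rfl
  rw [h2, map_sum]
  exact Finset.sum_congr rfl fun a _ => (G2_map f a a _).symm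

theorem inclM_toAd (hM : μ.IsLevi D') (γ : D'.Rat) :
    inclM hM (algebraMap F (FiniteAdeleRing (𝓞 F) F)) (D'.toAd γ) =
      D.toAd (inclM hM (RingHom.id F) γ) := by
  apply Subtype.ext
  rw [G2_coe]
  have h2 : (D'.toAd γ).1 = Matrix.GeneralLinearGroup.map
      (algebraMap F (FiniteAdeleRing (𝓞 F) F)) γ.1 :=
    G2_mapPoints D' (algebraMap F (FiniteAdeleRing (𝓞 F) F)) γ
  have h3 : (D.toAd (inclM hM (RingHom.id F) γ)).1 = Matrix.GeneralLinearGroup.map
      (algebraMap F (FiniteAdeleRing (𝓞 F) F)) (inclM hM (RingHom.id F) γ).1 :=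
    G2_mapPoints D (algebraMap F (FiniteAdeleRing (𝓞 F) F)) (inclM hM (RingHom.id F) γ)
  rw [h2, h3, G2_coe]

/-- The local subgroups. -/
theorem trivialAt_inclM (hM : μ.IsLevi D') (v : HeightOneSpectrum (𝓞 F)) (g : D'.Ad) :
    TrivialAt v (inclM hM (algebraMap F (FiniteAdeleRing (𝓞 F) F)) g) ↔ TrivialAt v g := by
  unfold TrivialAt
  rw [G2_coe]

/-- If `q` is trivial at `v`, so is its Levi part (`∑ p_a p_a = 1`). -/
theorem Grading.IsLeviPart.trivialAt {q : D.Ad} {m : D'.Ad}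
    (h : μ.IsLeviPart (algebraMap F (FiniteAdeleRing (𝓞 F) F)) q.1 m.1)
    {v : HeightOneSpectrum (𝓞 F)} (hq : TrivialAt v q) : TrivialAt v m := by
  have h1 := Grading.IsLeviPart.map (evalAt F v) h
  have h2 := (trivialAt_iff v q).1 hq
  rw [h2] at h1
  have h3 : ((Matrix.GeneralLinearGroup.map (evalAt F v) m.1 : GL (Fin n) (v.adicCompletion F)) :
      Matrix (Fin n) (Fin n) (v.adicCompletion F)) = 1 := by
    have h4 : ((Matrix.GeneralLinearGroup.map (evalAt F v) m.1 :
        GL (Fin n) (v.adicCompletion F)) : Matrix (Fin n) (Fin n) (v.adicCompletion F)) =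
        ∑ a ∈ μ.J, (μ.p a).map ((evalAt F v).comp (algebraMap F (FiniteAdeleRing (𝓞 F) F))) *
          ((1 : GL (Fin n) (v.adicCompletion F)) : Matrix (Fin n) (Fin n) (v.adicCompletion F)) *
          (μ.p a).map ((evalAt F v).comp (algebraMap F (FiniteAdeleRing (𝓞 F) F))) := h1
    rw [h4]
    simp only [Units.val_one, Matrix.mul_one, G2_idem]
    exact G2_sum μ _
  exact (trivialAt_iff v m).2 (Units.ext h3)

theorem mem_restr (hM : μ.IsLevi D') {U : Subgroup D.Ad} (g : D'.Ad) :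
    g ∈ restr D' U ↔ inclM hM (algebraMap F (FiniteAdeleRing (𝓞 F) F)) g ∈ U := by
  constructor
  · rintro ⟨u, hu, h⟩
    have h1 : inclM hM (algebraMap F (FiniteAdeleRing (𝓞 F) F)) g = u := Subtype.ext h.symm
    rw [h1]
    exact hu
  · intro h
    exact ⟨_, h, rfl⟩

end Pool.Agent.Lib.MP_666dc0_nt.TP
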