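import Pool.Agent.Lib.MP_666dc0_nt.TP.G1
import Pool.Agent.Lib.MP_666dc0_nt.TP.G2
import Pool.Agent.Lib.MP_666dc0_nt.TP.E0

/-!
# TP, G3: the parabolic data of a grading
-/

open NumberField IsDedekindDomain
open scoped NumberField

namespace Pool.Agent.Lib.MP_666dc0_nt.TP

open WL

variable {F : Type} [Field F] [NumberField F] {n : ℕ} {D D' : Datum F n} {μ : Grading D}

open Classical in
/-- The Levi projection (`1` outside of `P`). -/
noncomputable def leviM (hM : μ.IsLevi D') {R : Type} [CommRing R] (φ : F →+* R) (g : D.points φ) :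
    D'.points φ :=
  if h : g ∈ μ.parab φ then (exists_leviPart hM φ h).choose else 1

theorem leviM_spec (hM : μ.IsLevi D') {R : Type} [CommRing R] {φ : F →+* R} {g : D.points φ}
    (h : g ∈ μ.parab φ) : μ.IsLeviPart φ g.1 (leviM hM φ g).1 := by
  unfold leviM
  rw [dif_pos h]
  exact (exists_leviPart hM φ h).choose_spec

theorem leviM_eq (hM : μ.IsLevi D') {R : Type} [CommRing R] {φ : F →+* R} {g : D.points φ}
    (h : g ∈ μ.parab φ) {m : D'.points φ} (hm : μ.IsLeviPart φ g.1 m.1) : leviM hM φ g = m :=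
  Subtype.ext ((leviM_spec hM h).unique hm)

theorem leviM_mul (hM : μ.IsLevi D') {R : Type} [CommRing R] {φ : F →+* R} {g h : D.points φ}
    (hg : g ∈ μ.parab φ) (hh : h ∈ μ.parab φ) :
    leviM hM φ (g * h) = leviM hM φ g * leviM hM φ h :=
  leviM_eq hM ((μ.parab φ).mul_mem hg hh) ((leviM_spec hM hg).mul hg hh (leviM_spec hM hh))

theorem leviM_inclM (hM : μ.IsLevi D') {R : Type} [CommRing R] (φ : F →+* R) (g : D'.points φ) :
    leviM hM φ (inclM hM φ g) = g :=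
  leviM_eq hM (inclM_mem hM φ g) (isLeviPart_inclM hM φ g)

theorem parab_toAd {γ : D.Rat} (hγ : γ ∈ μ.parab (RingHom.id F)) :
    D.toAd γ ∈ μ.parab (algebraMap F (FiniteAdeleRing (𝓞 F) F)) := by
  have h1 := parab_map (algebraMap F (FiniteAdeleRing (𝓞 F) F)) hγ
  exact h1

theorem isLeviPart_toAd {γ : D.Rat} {γ' : D'.Rat} (h : μ.IsLeviPart (RingHom.id F) γ.1 γ'.1) :
    μ.IsLeviPart (algebraMap F (FiniteAdeleRing (𝓞 F) F)) (D.toAd γ).1 (D'.toAd γ').1 := by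
  have h1 := h.map (algebraMap F (FiniteAdeleRing (𝓞 F) F))
  exact h1

theorem leviM_toAd (hM : μ.IsLevi D') {γ : D.Rat} (hγ : γ ∈ μ.parab (RingHom.id F)) :
    leviM hM (algebraMap F (FiniteAdeleRing (𝓞 F) F)) (D.toAd γ) =
      D'.toAd (leviM hM (RingHom.id F) γ) :=
  leviM_eq hM (parab_toAd hγ) (isLeviPart_toAd (leviM_spec hM hγ))

/-- The parabolic data (hypotheses as in the main theorem). -/
noncomputable def mkPD (hM : μ.IsLevi D') {Q Q' : Type} [PartialOrder Q] [OrderTop Q]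
    [PartialOrder Q'] [OrderTop Q'] (a : D.Rat →* (Q ≃o Q)) (a' : D'.Rat →* (Q' ≃o Q'))
    (j : Q' ↪o Q) (hj : ∀ x, x ≤ j ⊤ → x ∈ Set.range j) (hP : IsCoatom (j ⊤))
    (hst : ∀ γ, a γ (j ⊤) = j ⊤ ↔ γ ∈ μ.parab (RingHom.id F))
    (hact : ∀ γ ∈ μ.parab (RingHom.id F), ∀ γ' : D'.Rat, μ.IsLeviPart (RingHom.id F) γ.1 γ'.1 →
      ∀ x, a γ (j x) = j (a' γ' x)) : PD D.Rat D.Ad Q D'.Rat D'.Ad Q' where
  τ := D.toAd
  τ' := D'.toAd
  a := a
  a' := a'
  j := j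
  PΓ := μ.parab (RingHom.id F)
  P := μ.parab (algebraMap F (FiniteAdeleRing (𝓞 F) F))
  πΓ := leviM hM (RingHom.id F)
  π := leviM hM (algebraMap F (FiniteAdeleRing (𝓞 F) F))
  ιΓ := inclM hM (RingHom.id F)
  ι := inclM hM (algebraMap F (FiniteAdeleRing (𝓞 F) F))
  πΓ_mul γ hγ η hη := leviM_mul hM hγ hη
  π_mul g hg h hh := leviM_mul hM hg hh
  ιΓ_mem := inclM_mem hM (RingHom.id F)
  ι_mem := inclM_mem hM (algebraMap F (FiniteAdeleRing (𝓞 F) F))
  πΓ_ι := leviM_inclM hM (RingHom.id F)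
  π_ι := leviM_inclM hM (algebraMap F (FiniteAdeleRing (𝓞 F) F))
  τ_mem γ hγ := parab_toAd hγ
  π_τ γ hγ := leviM_toAd hM hγ
  τ_ι γ := (inclM_toAd hM γ).symm
  j_mem := hj
  coatom := hP
  stab := hst
  act γ hγ x := hact γ hγ (leviM hM (RingHom.id F) γ) (leviM_spec hM hγ) x

end Pool.Agent.Lib.MP_666dc0_nt.TP
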