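import Pool.Agent.Lib.MP_666dc0_nt.TP.G3
import Pool.Agent.Lib.MP_666dc0_nt.WL.C5a
import Pool.Agent.Lib.MP_666dc0_nt.Mg.G003

/-!
# TP, G4: levels of the group and of its Levi subgroup
-/

open NumberField IsDedekindDomain
open scoped NumberField

namespace Pool.Agent.Lib.MP_666dc0_nt.TP

open WL

variable {F : Type} [Field F] [NumberField F] {n : ℕ} {D D' : Datum F n} {μ : Grading D}
  {ℓ : ℕ} {U K : Subgroup D.Ad}

/-- A tame level commutes with a group supported above `ℓ` (`mul_comm_of_disjoint`). -/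
theorem level_comm (hU : IsTame ℓ U)
    (hK : ∀ g ∈ K, ∀ v : HeightOneSpectrum (𝓞 F), (ℓ : 𝓞 F) ∉ v.asIdeal → TrivialAt v g) :
    ∀ u ∈ U, ∀ k ∈ K, u * k = k * u := by
  intro u hu k hk
  refine mul_comm_of_disjoint fun v => ?_
  by_cases h : (ℓ : 𝓞 F) ∈ v.asIdeal
  · exact Or.inl (hU u hu v h)
  · exact Or.inr (hK k hk v h)

/-- They intersect trivially (`eq_one_of_trivialAt`). -/
theorem level_disj (hU : IsTame ℓ U)
    (hK : ∀ g ∈ K, ∀ v : HeightOneSpectrum (𝓞 F), (ℓ : 𝓞 F) ∉ v.asIdeal → TrivialAt v g) :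
    ∀ u ∈ U, u ∈ K → u = 1 := by
  intro u hu huK
  refine eq_one_of_trivialAt fun v => ?_
  by_cases h : (ℓ : 𝓞 F) ∈ v.asIdeal
  · exact hU u hu v h
  · exact hK u huK v h

/-- `restr D' U` is tame (`mem_restr`, `trivialAt_inclM`). -/
theorem isTame_restr (hM : μ.IsLevi D') (hU : IsTame ℓ U) : IsTame ℓ (restr D' U) := by
  intro g hg v hv
  rw [← trivialAt_inclM hM]
  exact hU _ ((mem_restr hM g).1 hg) v hv

/-- The equations of the parabolic subgroup at the place `v`. -/
private def G4_PV (μ : Grading D) (v : HeightOneSpectrum (𝓞 F)) (x : GL (Fin n) (v.adicCompletion F)) :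
    Prop :=
  ∀ a b, a < b →
    ((μ.p a).map (algebraMap F (FiniteAdeleRing (𝓞 F) F))).map (evalAt F v) *
      (x : Matrix (Fin n) (Fin n) (v.adicCompletion F)) *
      ((μ.p b).map (algebraMap F (FiniteAdeleRing (𝓞 F) F))).map (evalAt F v) = 0 ∧
    ((μ.p a).map (algebraMap F (FiniteAdeleRing (𝓞 F) F))).map (evalAt F v) *
      ((x⁻¹ : GL (Fin n) (v.adicCompletion F)) : Matrix (Fin n) (Fin n) (v.adicCompletion F)) *
      ((μ.p b).map (algebraMap F (FiniteAdeleRing (𝓞 F) F))).map (evalAt F v) = 0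

private theorem G4_one (μ : Grading D) (v : HeightOneSpectrum (𝓞 F)) : G4_PV μ v 1 := by
  intro a b hab
  have h1 : ((μ.p a).map (algebraMap F (FiniteAdeleRing (𝓞 F) F))).map (evalAt F v) *
      ((μ.p b).map (algebraMap F (FiniteAdeleRing (𝓞 F) F))).map (evalAt F v) = 0 := by
    rw [← Matrix.map_mul, ← Matrix.map_mul, μ.orth a b hab.ne, Matrix.map_zero _ (map_zero _),
      Matrix.map_zero _ (map_zero _)]
  rw [inv_one, Units.val_one, Matrix.mul_one]
  exact ⟨h1, h1⟩

private theorem G4_zero (M : Matrix (Fin n) (Fin n) (FiniteAdeleRing (𝓞 F) F))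
    (h : ∀ v : HeightOneSpectrum (𝓞 F), M.map (evalAt F v) = 0) : M = 0 := by
  refine Matrix.ext fun i j => FiniteAdeleRing.ext _ fun v => ?_
  exact congrFun (congrFun (h v) i) j

private theorem G4_mem (g : D.Ad) : g ∈ μ.parab (algebraMap F (FiniteAdeleRing (𝓞 F) F)) ↔
    ∀ v, G4_PV μ v (Matrix.GeneralLinearGroup.map (evalAt F v) g.1) := by
  have hinv : ∀ v : HeightOneSpectrum (𝓞 F),
      (((Matrix.GeneralLinearGroup.map (evalAt F v) g.1)⁻¹ : GL (Fin n) (v.adicCompletion F)) :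
        Matrix (Fin n) (Fin n) (v.adicCompletion F)) =
      ((g.1⁻¹ : GL (Fin n) (FiniteAdeleRing (𝓞 F) F)) :
        Matrix (Fin n) (Fin n) (FiniteAdeleRing (𝓞 F) F)).map (evalAt F v) := by
    intro v
    rw [← map_inv]
    rfl
  constructor
  · intro h v a b hab
    obtain ⟨h1, h2⟩ := h a b hab
    refine ⟨?_, ?_⟩
    · have h3 := congrArg (fun M => M.map (evalAt F v)) h1
      simp only [Matrix.map_mul] at h3
      exact h3.trans (Matrix.map_zero _ (map_zero _))
    · rw [hinv]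
      have h3 := congrArg (fun M => M.map (evalAt F v)) h2
      simp only [Matrix.map_mul] at h3
      exact h3.trans (Matrix.map_zero _ (map_zero _))
  · intro h a b hab
    refine ⟨G4_zero _ fun v => ?_, G4_zero _ fun v => ?_⟩
    · rw [Matrix.map_mul, Matrix.map_mul]
      exact (h v a b hab).1
    · have h2 := (h v a b hab).2
      rw [hinv] at h2
      rw [Matrix.map_mul, Matrix.map_mul]
      exact h2

/-- If `u k ∈ P(𝔸_f)`, `u` in the tame level and `k` supported above `ℓ`, then `u, k ∈ P(𝔸_f)`.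
Proof: the equations `p_a g p_b = 0 = p_a g⁻¹ p_b` hold if and only if they hold at each place `v` (entries of adeles are equal if all their components are:
`FiniteAdeleRing.ext`; the component at `v` of `p_a g p_b` is `p_a g_v p_b`, `evalAt F v` is a ring homomorphism). At the places above
`ℓ`: `u_v = 1`, where the equations hold (`p_a p_b = 0`), and `k_v = (u k)_v`; at the other places `k_v = 1` and `u_v = (u k)_v`
(`trivialAt_iff`; the same for the inverses). -/
theorem parab_comp (hU : IsTame ℓ U)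
    (hK : ∀ g ∈ K, ∀ v : HeightOneSpectrum (𝓞 F), (ℓ : 𝓞 F) ∉ v.asIdeal → TrivialAt v g)
    {u k : D.Ad} (hu : u ∈ U) (hk : k ∈ K)
    (h : u * k ∈ μ.parab (algebraMap F (FiniteAdeleRing (𝓞 F) F))) :
    u ∈ μ.parab (algebraMap F (FiniteAdeleRing (𝓞 F) F)) ∧
      k ∈ μ.parab (algebraMap F (FiniteAdeleRing (𝓞 F) F)) := by
  have hA : ∀ g : D.Ad, g ∈ μ.parab (algebraMap F (FiniteAdeleRing (𝓞 F) F)) ↔
      ∀ v, G4_PV μ v (Matrix.GeneralLinearGroup.map (evalAt F v) g.1) := fun g => G4_mem g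
  have h' := (hA _).1 h
  have hmul : ∀ v : HeightOneSpectrum (𝓞 F), Matrix.GeneralLinearGroup.map (evalAt F v) (u * k).1 =
      Matrix.GeneralLinearGroup.map (evalAt F v) u.1 *
        Matrix.GeneralLinearGroup.map (evalAt F v) k.1 := by
    intro v
    rw [← map_mul]
    rfl
  have key : ∀ v, G4_PV μ v (Matrix.GeneralLinearGroup.map (evalAt F v) u.1) ∧
      G4_PV μ v (Matrix.GeneralLinearGroup.map (evalAt F v) k.1) := by
    intro v
    have h1 := h' v
    rw [hmul] at h1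
    by_cases hv : (ℓ : 𝓞 F) ∈ v.asIdeal
    · have h2 := (trivialAt_iff v u).1 (hU u hu v hv)
      rw [h2, one_mul] at h1
      rw [h2]
      exact ⟨G4_one μ v, h1⟩
    · have h2 := (trivialAt_iff v k).1 (hK k hk v hv)
      rw [h2, mul_one] at h1
      rw [h2]
      exact ⟨h1, G4_one μ v⟩
  exact ⟨(hA u).2 fun v => (key v).1, (hA k).2 fun v => (key v).2⟩

/-- The level structure for the parabolic data `mkPD` (`level_comm`, `level_disj`, `parab_comp`, `hUP` with `leviM_spec`, `mem_restr`).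
The conclusion is the structure `PD.Lev` for `mkPD ...` unfolded. -/
theorem mkPD_lev (hM : μ.IsLevi D') {Q Q' : Type} [PartialOrder Q] [OrderTop Q]
    [PartialOrder Q'] [OrderTop Q'] (a : D.Rat →* (Q ≃o Q)) (a' : D'.Rat →* (Q' ≃o Q'))
    (j : Q' ↪o Q) (hj : ∀ x, x ≤ j ⊤ → x ∈ Set.range j) (hP : IsCoatom (j ⊤))
    (hst : ∀ γ, a γ (j ⊤) = j ⊤ ↔ γ ∈ μ.parab (RingHom.id F))
    (hact : ∀ γ ∈ μ.parab (RingHom.id F), ∀ γ' : D'.Rat, μ.IsLeviPart (RingHom.id F) γ.1 γ'.1 →
      ∀ x, a γ (j x) = j (a' γ' x)) (hU : IsTame ℓ U)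
    (hUP : ∀ u ∈ U, u ∈ μ.parab (algebraMap F (FiniteAdeleRing (𝓞 F) F)) → ∀ m : D'.Ad,
      μ.IsLeviPart (algebraMap F (FiniteAdeleRing (𝓞 F) F)) u.1 m.1 → m ∈ restr D' U)
    (hK : ∀ g ∈ K, ∀ v : HeightOneSpectrum (𝓞 F), (ℓ : 𝓞 F) ∉ v.asIdeal → TrivialAt v g)
    {K' : Subgroup D'.Ad}
    (hπ : ∀ k ∈ K, k ∈ μ.parab (algebraMap F (FiniteAdeleRing (𝓞 F) F)) →
      leviM hM (algebraMap F (FiniteAdeleRing (𝓞 F) F)) k ∈ K')
    (hι : ∀ k ∈ K', inclM hM (algebraMap F (FiniteAdeleRing (𝓞 F) F)) k ∈ K) :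
    (mkPD hM a a' j hj hP hst hact).Lev U K (restr D' U) K' := by
  exact
    { comm := level_comm hU hK
      disj := level_disj hU hK
      comp := fun u hu k hk h => parab_comp hU hK hu hk h
      πU := fun u hu hP' => hUP u hu hP' _ (leviM_spec hM hP')
      πK := hπ
      ιU := fun u hu => (mem_restr hM u).1 hu
      ιK := hι }

/-- The inclusion `M(𝔸_f) → G(𝔸_f)` is continuous (both have the topology induced by `GL_n(𝔸_f)`). -/
theorem continuous_inclM (hM : μ.IsLevi D') :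
    Continuous (inclM hM (algebraMap F (FiniteAdeleRing (𝓞 F) F))) := by
  have h1 : Continuous (fun g : D'.Ad => (g.1 : GL (Fin n) (FiniteAdeleRing (𝓞 F) F))) :=
    continuous_subtype_val
  exact h1.subtype_mk _

/-- The projection `P(𝔸_f) → M(𝔸_f)` is continuous.
Proof: `isEmbedding_entries` (for `D'`): the entries of `leviM g` and of its inverse are the entries of `∑ p_a g p_a` and of
`∑ p_a g⁻¹ p_a` (`leviM_spec`, `leviM_mul`: `leviM g⁻¹ = (leviM g)⁻¹` for `g ∈ P`), polynomials in the entries of `g` and `g⁻¹`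
(`isEmbedding_entries` for `D`, continuity of the ring operations of the finite adeles). -/
theorem continuous_leviM (hM : μ.IsLevi D') :
    Continuous fun g : μ.parab (algebraMap F (FiniteAdeleRing (𝓞 F) F)) =>
      leviM hM (algebraMap F (FiniteAdeleRing (𝓞 F) F)) (g : D.Ad) := by
  have hc := (isEmbedding_entries (D := D)).continuous.comp (continuous_subtype_val
    (p := fun g : D.Ad => g ∈ μ.parab (algebraMap F (FiniteAdeleRing (𝓞 F) F))))
  have c1 : Continuous (fun g : μ.parab (algebraMap F (FiniteAdeleRing (𝓞 F) F)) =>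
      (mat (g : D.Ad) : Matrix (Fin n) (Fin n) (FiniteAdeleRing (𝓞 F) F))) := continuous_fst.comp hc
  have c2 : Continuous (fun g : μ.parab (algebraMap F (FiniteAdeleRing (𝓞 F) F)) =>
      (mat (g : D.Ad)⁻¹ : Matrix (Fin n) (Fin n) (FiniteAdeleRing (𝓞 F) F))) := continuous_snd.comp hc
  have hs : ∀ f : μ.parab (algebraMap F (FiniteAdeleRing (𝓞 F) F)) →
      Matrix (Fin n) (Fin n) (FiniteAdeleRing (𝓞 F) F), Continuous f →
      Continuous (fun g => ∑ a ∈ μ.J, (μ.p a).map (algebraMap F (FiniteAdeleRing (𝓞 F) F)) * f g *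
        (μ.p a).map (algebraMap F (FiniteAdeleRing (𝓞 F) F))) := by
    intro f hf
    refine continuous_finsetSum _ fun a _ => ?_
    exact (continuous_const.matrix_mul hf).matrix_mul continuous_const
  rw [(isEmbedding_entries (D := D')).continuous_iff]
  have hone : leviM hM (algebraMap F (FiniteAdeleRing (𝓞 F) F)) 1 = 1 := by
    have h1 := leviM_inclM hM (algebraMap F (FiniteAdeleRing (𝓞 F) F)) 1
    rwa [map_one] at h1
  have hinv : ∀ g : μ.parab (algebraMap F (FiniteAdeleRing (𝓞 F) F)),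
      (leviM hM (algebraMap F (FiniteAdeleRing (𝓞 F) F)) (g : D.Ad))⁻¹ =
        leviM hM (algebraMap F (FiniteAdeleRing (𝓞 F) F)) ((g : D.Ad)⁻¹) := by
    intro g
    have h1 := leviM_mul hM g.2 ((μ.parab (algebraMap F (FiniteAdeleRing (𝓞 F) F))).inv_mem g.2)
    rw [mul_inv_cancel, hone] at h1
    exact inv_eq_of_mul_eq_one_right h1.symm
  have e1 : ∀ g : μ.parab (algebraMap F (FiniteAdeleRing (𝓞 F) F)),
      mat (leviM hM (algebraMap F (FiniteAdeleRing (𝓞 F) F)) (g : D.Ad)) =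
        ∑ a ∈ μ.J, (μ.p a).map (algebraMap F (FiniteAdeleRing (𝓞 F) F)) * mat (g : D.Ad) *
          (μ.p a).map (algebraMap F (FiniteAdeleRing (𝓞 F) F)) := fun g => leviM_spec hM g.2
  have e2 : ∀ g : μ.parab (algebraMap F (FiniteAdeleRing (𝓞 F) F)),
      mat (leviM hM (algebraMap F (FiniteAdeleRing (𝓞 F) F)) (g : D.Ad))⁻¹ =
        ∑ a ∈ μ.J, (μ.p a).map (algebraMap F (FiniteAdeleRing (𝓞 F) F)) * mat (g : D.Ad)⁻¹ *
          (μ.p a).map (algebraMap F (FiniteAdeleRing (𝓞 F) F)) := by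
    intro g
    rw [hinv g]
    exact leviM_spec hM ((μ.parab (algebraMap F (FiniteAdeleRing (𝓞 F) F))).inv_mem g.2)
  have d1 := hs _ c1
  have d2 := hs _ c2
  simp only [← e1] at d1
  simp only [← e2] at d2
  exact d1.prodMk d2

end Pool.Agent.Lib.MP_666dc0_nt.TP
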