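import Mathlib

/-!
# TP, H1: a lemma on double complexes
-/

namespace Pool.Agent.Lib.MP_666dc0_nt.TP

/-- **Staircase lemma.** `D p q` a double complex with differentials `d : D p q → D p (q+1)` and
`s : D p q → D (p+1) q` that commute, with exact rows `s` at all `(p+1, q)`, and an endomorphism `t` that
commutes with `d` and `s`. If `t` maps the `d`-cocycles of `D p q` to `d`-coboundaries, for all `p` and all
`q ≤ m`, then for `q ≤ m`, `t^(q+1)` maps an element `z` with `d z = 0`, `s z = 0` to `d w` for an element `w` with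
`s w = 0`.
Proof: induction on `q`, for all `p`. For `q = 0`: `t z = 0` (`h0`). Step `q → q + 1`: by `h1`, `t z = d c`. Put `z' = s c`: `d z' = s (d c) =
s (t z) = t (s z) = 0` and `s z' = 0` (`ss`). By induction for `(p+1, q)`: if `q = 0`, `t^1 z' = 0`, put `w = t c`: `s w = t z' = 0` and
`d w = t d c = t^2 z`. If `q = q' + 1`: `t^(q+1) z' = d w'`, `w' ∈ D (p+1) q'`, `s w' = 0`, so `w' = s w''` by exactness, and
`s (t^(q+1) c - d w'') = t^(q+1) z' - d s w'' = 0`; put `w = t^(q+1) c - d w''`; `d w = t^(q+1) d c = t^(q+2) z` (`dd`). -/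
theorem staircase {R : Type} [CommRing R] (D : ℕ → ℕ → Type) [∀ p q, AddCommGroup (D p q)]
    [∀ p q, Module R (D p q)] (d : ∀ p q, D p q →ₗ[R] D p (q + 1))
    (s : ∀ p q, D p q →ₗ[R] D (p + 1) q) (t : ∀ p q, Module.End R (D p q))
    (hds : ∀ p q z, d (p + 1) q (s p q z) = s p (q + 1) (d p q z))
    (hdd : ∀ p q z, d p (q + 1) (d p q z) = 0) (hss : ∀ p q z, s (p + 1) q (s p q z) = 0)
    (hex : ∀ p q z, s (p + 1) q z = 0 → ∃ w, s p q w = z)
    (htd : ∀ p q z, d p q (t p q z) = t p (q + 1) (d p q z))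
    (hts : ∀ p q z, s p q (t p q z) = t (p + 1) q (s p q z)) (m : ℕ)
    (h0 : ∀ p z, d p 0 z = 0 → t p 0 z = 0)
    (h1 : ∀ p q z, q + 1 ≤ m → d p (q + 1) z = 0 → ∃ c, t p (q + 1) z = d p q c) :
    (∀ p z, d p 0 z = 0 → s p 0 z = 0 → (t p 0 ^ 1) z = 0) ∧
    ∀ p q z, q + 1 ≤ m → d p (q + 1) z = 0 → s p (q + 1) z = 0 →
      ∃ w, s p q w = 0 ∧ (t p (q + 1) ^ (q + 2)) z = d p q w := by
  have dpow : ∀ (k p q : ℕ) (z : D p q), d p q ((t p q ^ k) z) = (t p (q + 1) ^ k) (d p q z) := by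
    intro k
    induction k with
    | zero => intro p q z; simp
    | succ k ih =>
      intro p q z
      rw [pow_succ', pow_succ', Module.End.mul_apply, Module.End.mul_apply, htd, ih]
  have spow : ∀ (k p q : ℕ) (z : D p q), s p q ((t p q ^ k) z) = (t (p + 1) q ^ k) (s p q z) := by
    intro k
    induction k with
    | zero => intro p q z; simp
    | succ k ih =>
      intro p q z
      rw [pow_succ', pow_succ', Module.End.mul_apply, Module.End.mul_apply, hts, ih]
  refine ⟨fun p z hz _ => ?_, ?_⟩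
  · rw [pow_one]
    exact h0 p z hz
  · intro p q
    induction q generalizing p with
    | zero =>
      intro z hm hz hsz
      obtain ⟨c, hc⟩ := h1 p 0 z hm hz
      have h2 : d (p + 1) 0 (s p 0 c) = 0 := by
        rw [hds, ← hc, hts, hsz, map_zero]
      have h3 := h0 (p + 1) _ h2
      refine ⟨t p 0 c, ?_, ?_⟩
      · rw [hts, h3]
      · rw [htd, ← hc, pow_succ', Module.End.mul_apply, pow_one]
    | succ q ih =>
      intro z hm hz hsz
      obtain ⟨c, hc⟩ := h1 p (q + 1) z hm hz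
      have h2 : d (p + 1) (q + 1) (s p (q + 1) c) = 0 := by
        rw [hds, ← hc, hts, hsz, map_zero]
      obtain ⟨w', hw1, hw2⟩ := ih (p + 1) (s p (q + 1) c) (by omega) h2 (hss p (q + 1) c)
      obtain ⟨w, hw⟩ := hex p q w' hw1
      refine ⟨(t p (q + 1) ^ (q + 2)) c - d p q w, ?_, ?_⟩
      · rw [map_sub, spow, hw2, ← hw, hds, sub_self]
      · rw [map_sub, hdd, sub_zero, dpow, ← hc, ← Module.End.mul_apply, ← pow_succ]

end Pool.Agent.Lib.MP_666dc0_nt.TP
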