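import Pool.Agent.Lib.MP_666dc0_nt.TP.A2

/-!
# TP, H2: the double complex of a normal subgroup of the level
-/

namespace Pool.Agent.Lib.MP_666dc0_nt.TP

variable {Γ G Q X R : Type} [Group Γ] [Group G] [PartialOrder Q] [OrderTop Q] [CommRing R]
  [AddCommGroup X] [Module R X]

/-- The functions of `κ_0, …, κ_p ∈ K` with values in the cochains of degree `q`. -/
abbrev DC (Γ G Q X : Type) [Group G] [PartialOrder Q] (K : Subgroup G) (p q : ℕ) : Type :=
  (Fin (p + 1) → K) → Coch Γ G Q X q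

/-- The elements of the double complex: functions that depend only on the classes of the `κ_i` modulo
`K'`, are equivariant for `Γ`, `U` and `K`, and have compact support. -/
def IsD (τ : Γ →* G) (a : Γ →* (Q ≃o Q)) (U K K' : Subgroup G) (ρ : Representation R K X) {p q : ℕ}
    (f : DC Γ G Q X K p q) : Prop :=
  (∀ κ κ' : Fin (p + 1) → K, (∀ i, (κ i : G)⁻¹ * κ' i ∈ K') → f κ = f κ') ∧
  (∀ κ, IsRel (f κ)) ∧
  ∀ (γ : Γ) (κ : Fin (p + 1) → K) (e : Fin (q + 1) → Γ) (x : Fin (q + 1) →o Q) (g : G), ∀ u ∈ U,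
    ∀ k : K, ρ k (f (fun i => k⁻¹ * κ i) (fun i => γ * e i) (flagMap (a γ) x) (τ γ * g * u * k)) =
      f κ e x g

/-- The differential in the direction of the `κ_i`. -/
def dK {K : Subgroup G} {p q : ℕ} (f : DC Γ G Q X K p q) : DC Γ G Q X K (p + 1) q := fun κ =>
  ∑ i : Fin (p + 2), (-1 : ℤ) ^ (i : ℕ) • f (fun l => κ (i.succAbove l))

/-- The differential in the direction of the cochains. -/
def dC {K : Subgroup G} {p q : ℕ} (f : DC Γ G Q X K p q) : DC Γ G Q X K p (q + 1) := fun κ =>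
  del (f κ)

variable {τ : Γ →* G} {a : Γ →* (Q ≃o Q)} {U K K' : Subgroup G} {ρ : Representation R K X}
  {p q : ℕ}

private theorem H2_dK_apply (f : DC Γ G Q X K p q) (κ : Fin (p + 2) → K) (e : Fin (q + 1) → Γ)
    (x : Fin (q + 1) →o Q) (g : G) : dK f κ e x g =
      ∑ i : Fin (p + 2), (-1 : ℤ) ^ (i : ℕ) • f (fun l => κ (i.succAbove l)) e x g := by
  unfold dK
  simp only [Finset.sum_apply, Pi.smul_apply]

private theorem H2_dC_apply (f : DC Γ G Q X K p q) (κ : Fin (p + 1) → K) (e : Fin (q + 2) → Γ)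
    (x : Fin (q + 2) →o Q) (g : G) : dC f κ e x g =
      ∑ i : Fin (q + 2), (-1 : ℤ) ^ (i : ℕ) • f κ (fun j => e (i.succAbove j)) (face i x) g := rfl

/-- `dK`, `dC` and good operators preserve `IsD` (for the operators: as in `IsCoch.opOn`; `f (k⁻¹ κ) (γ e) (γ x)` in the
role of `f'`; it is right `U`-invariant: the third condition with `γ = 1`, `k = 1`). -/
theorem IsD.dK {f : DC Γ G Q X K p q} (hf : IsD τ a U K K' ρ f) : IsD τ a U K K' ρ (dK f) := by
  refine ⟨fun κ κ' h => ?_, fun κ e x g hx => ?_, fun γ κ e x g u hu k => ?_⟩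
  · unfold TP.dK
    refine Finset.sum_congr rfl fun i _ => ?_
    rw [hf.1 (fun l => κ (i.succAbove l)) (fun l => κ' (i.succAbove l)) fun l => h _]
  · rw [H2_dK_apply]
    refine Finset.sum_eq_zero fun i _ => ?_
    rw [hf.2.1 _ e x g hx, smul_zero]
  · rw [H2_dK_apply, H2_dK_apply, map_sum]
    refine Finset.sum_congr rfl fun i _ => ?_
    rw [map_zsmul, hf.2.2 γ (fun l => κ (i.succAbove l)) e x g u hu k]

theorem IsD.dC {f : DC Γ G Q X K p q} (hf : IsD τ a U K K' ρ f) : IsD τ a U K K' ρ (dC f) := by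
  refine ⟨fun κ κ' h => ?_, fun κ => ?_, fun γ κ e x g u hu k => ?_⟩
  · unfold TP.dC
    rw [hf.1 κ κ' h]
  · exact IsRel.del (hf.2.1 κ)
  · rw [H2_dC_apply, H2_dC_apply, map_sum]
    refine Finset.sum_congr rfl fun i _ => ?_
    rw [map_zsmul]
    congr 1
    exact hf.2.2 γ κ (fun j => e (i.succAbove j)) (face i x) g u hu k

private theorem H2_right {f : DC Γ G Q X K p q} (hf : IsD τ a U K K' ρ f) (κ : Fin (p + 1) → K)
    (e : Fin (q + 1) → Γ) (x : Fin (q + 1) →o Q) (g : G) {u : G} (hu : u ∈ U) :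
    f κ e x (g * u) = f κ e x g := by
  have h := hf.2.2 1 κ e x g u hu 1
  have h1 : flagMap (a 1) x = x := by
    rw [map_one]
    rfl
  simp only [inv_one, one_mul, map_one, OneMemClass.coe_one, mul_one, Module.End.one_apply] at h
  rw [map_one] at h1
  rw [h1] at h
  exact h

theorem IsD.opOn (hUK : ∀ u ∈ U, ∀ k ∈ K, u * k = k * u) {T : Module.End R (G → X)}
    (hT : IsGoodOp U K T) {f : DC Γ G Q X K p q} (hf : IsD τ a U K K' ρ f) :
    IsD τ a U K K' ρ fun κ => opOn T (f κ) := by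
  refine ⟨fun κ κ' h => ?_, fun κ => ?_, fun γ κ e x g u hu k => ?_⟩
  · beta_reduce
    rw [hf.1 κ κ' h]
  · exact IsRel.opOn T (hf.2.1 κ)
  · set f' : G → X := f (fun i => k⁻¹ * κ i) (fun i => γ * e i) (flagMap (a γ) x) with hf'
    have hinv : ∀ g, ∀ u ∈ U, f' (g * u) = f' g := fun g u hu => H2_right hf _ _ _ g hu
    have hk1 : ∀ y : X, ρ k⁻¹ (ρ k y) = y := by
      intro y
      have h1 : (ρ k⁻¹ * ρ k) y = y := by
        rw [← map_mul, inv_mul_cancel, map_one, Module.End.one_apply]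
      exact h1
    have hk2 : ∀ y : X, ρ k (ρ k⁻¹ y) = y := by
      intro y
      have h1 : (ρ k * ρ k⁻¹) y = y := by
        rw [← map_mul, mul_inv_cancel, map_one, Module.End.one_apply]
      exact h1
    have hval : ∀ h : G, f' (τ γ * (h * k)) = ρ k⁻¹ (f κ e x h) := by
      intro h
      have h1 := hf.2.2 γ κ e x h 1 U.one_mem k
      rw [mul_one, mul_assoc] at h1
      rw [← h1, hk1]
    show ρ k (T f' (τ γ * g * u * k)) = T (f κ e x) g
    have e1 : τ γ * g * u * (k : G) = τ γ * (g * k) * u := by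
      rw [mul_assoc (τ γ * g), hUK u hu k k.2]
      group
    have hinv2 : ∀ g, ∀ u ∈ U, (fun h => f' (τ γ * h)) (g * u) = (fun h => f' (τ γ * h)) g := by
      intro g u hu
      show f' (τ γ * (g * u)) = f' (τ γ * g)
      rw [← mul_assoc]
      exact hinv _ u hu
    have e2 : T f' (τ γ * (g * k)) = T (fun h => f' (τ γ * h)) (g * k) := by
      rw [hT.left]
    have e3 : T (fun h => f' (τ γ * h)) (g * k) = T (fun h => f' (τ γ * (h * k))) g := by
      have h1 := hT.rightK (fun h => f' (τ γ * h)) hinv2 k k.2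
      exact (congrFun h1 g).symm
    have e4 : (fun h => f' (τ γ * (h * k))) = fun h => ρ k⁻¹ (f κ e x h) := funext hval
    rw [e1, hT.right f' hinv _ u hu, e2, e3, e4, hT.coeff (ρ k⁻¹) (f κ e x), hk2]

/-- `dK dK = 0` (as `del_del`: apply `del_del` to the cochain `(κ, _, _) ↦ f κ` on the group `K` and the ordered set
`Unit`, `z κ _ _ := f κ : Coch K Unit Unit (Coch Γ G Q X q) p`, up to `Subsingleton` of the flags in `Unit`). -/
theorem dK_dK (f : DC Γ G Q X K p q) : dK (dK f) = 0 := by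
  funext κ
  let z : Coch K Unit Unit (Coch Γ G Q X q) p := fun κ _ _ => f κ
  have h := congrFun (congrFun (congrFun (del_del z) κ) (cst ())) ()
  exact h

theorem dC_dC (f : DC Γ G Q X K p q) : dC (dC f) = 0 := by
  funext κ
  exact del_del (f κ)

theorem dC_dK (f : DC Γ G Q X K p q) : dC (dK f) = dK (dC f) := by
  funext κ e x g
  rw [H2_dC_apply, H2_dK_apply]
  simp only [H2_dK_apply, H2_dC_apply, Finset.smul_sum]
  rw [Finset.sum_comm]
  refine Finset.sum_congr rfl fun i _ => Finset.sum_congr rfl fun j _ => ?_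
  rw [smul_comm]

end Pool.Agent.Lib.MP_666dc0_nt.TP
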