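import Pool.Agent.Lib.MP_666dc0_nt.TP.H2

/-!
# TP, H3: the rows of the double complex are exact
-/

namespace Pool.Agent.Lib.MP_666dc0_nt.TP

variable {Γ G Q X R : Type} [Group Γ] [Group G] [PartialOrder Q] [OrderTop Q] [CommRing R]
  [AddCommGroup X] [Module R X] {τ : Γ →* G} {a : Γ →* (Q ≃o Q)} {U K K' : Subgroup G}
  {ρ : Representation R K X}

/-- A function `κ : G → K` with `κ(g u k) = κ(g) k`: choose a representative `s` of each left coset of `U K`
(`U ⊔ K = U K` as `U` and `K` commute; or choose representatives for the relation `g ~ g u k`, an equivalence relation) and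
write `g = s u k`; `k =: κ(g)` is unique by `hd` (`u k = u' k'` gives `u'⁻¹ u = k' k⁻¹`, both `1`). -/
theorem exists_kappa (hUK : ∀ u ∈ U, ∀ k ∈ K, u * k = k * u) (hd : ∀ u ∈ U, u ∈ K → u = 1) :
    ∃ κ : G → K, ∀ g, ∀ u ∈ U, ∀ k : K, κ (g * u * k) = κ g * k := by
  classical
  let r : Setoid G :=
    { r := fun g g' => ∃ u ∈ U, ∃ k ∈ K, g' = g * u * k
      iseqv := by
        refine ⟨fun g => ⟨1, U.one_mem, 1, K.one_mem, by simp⟩, ?_, ?_⟩
        · rintro g g' ⟨u, hu, k, hk, rfl⟩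
          refine ⟨u⁻¹, U.inv_mem hu, k⁻¹, K.inv_mem hk, ?_⟩
          have h1 := hUK u⁻¹ (U.inv_mem hu) k⁻¹ (K.inv_mem hk)
          rw [mul_assoc (g * u * k), h1]
          group
        · rintro g g' g'' ⟨u, hu, k, hk, rfl⟩ ⟨u', hu', k', hk', rfl⟩
          refine ⟨u * u', U.mul_mem hu hu', k * k', K.mul_mem hk hk', ?_⟩
          have h1 := hUK u' hu' k hk
          calc g * u * k * u' * k' = g * u * (k * u') * k' := by group
            _ = g * u * (u' * k) * k' := by rw [h1]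
            _ = g * (u * u') * (k * k') := by group }
  have hex : ∀ g : G, ∃ k : K, ∃ u ∈ U, g = (Quotient.out (Quotient.mk r g)) * u * k := by
    intro g
    have h1 : r (Quotient.out (Quotient.mk r g)) g := Quotient.mk_out (s := r) g
    obtain ⟨u, hu, k, hk, h2⟩ := h1
    exact ⟨⟨k, hk⟩, u, hu, h2⟩
  choose κ hκ using hex
  refine ⟨κ, fun g u hu k => ?_⟩
  obtain ⟨u1, hu1, h1⟩ := hκ g
  obtain ⟨u2, hu2, h2⟩ := hκ (g * u * k)
  have hcl : Quotient.mk r (g * u * k) = Quotient.mk r g := by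
    apply Quotient.sound
    exact r.iseqv.symm ⟨u, hu, k, k.2, rfl⟩
  rw [hcl] at h2
  set s := Quotient.out (Quotient.mk r g) with hs
  have h3 : s * u2 * (κ (g * u * k) : G) = s * (u1 * u) * ((κ g : G) * k) := by
    rw [← h2]
    have h4 := hUK u hu (κ g) (κ g).2
    calc g * u * k = s * u1 * (κ g : G) * u * k := by rw [← h1]
      _ = s * u1 * ((κ g : G) * u) * k := by group
      _ = s * u1 * (u * (κ g : G)) * k := by rw [h4]
      _ = s * (u1 * u) * ((κ g : G) * k) := by group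
  have h5 : (u1 * u)⁻¹ * u2 = ((κ g : G) * k) * (κ (g * u * k) : G)⁻¹ := by
    have h6 : u2 * (κ (g * u * k) : G) = (u1 * u) * ((κ g : G) * k) := by
      apply mul_left_cancel (a := s)
      rw [← mul_assoc, h3]
      exact mul_assoc _ _ _
    calc (u1 * u)⁻¹ * u2 = (u1 * u)⁻¹ * (u2 * (κ (g * u * k) : G)) * (κ (g * u * k) : G)⁻¹ := by group
      _ = (u1 * u)⁻¹ * ((u1 * u) * ((κ g : G) * k)) * (κ (g * u * k) : G)⁻¹ := by rw [h6]
      _ = _ := by group
  have h8 : ((κ g : G) * k) * (κ (g * u * k) : G)⁻¹ = 1 := by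
    refine hd _ ?_ ?_
    · rw [← h5]
      exact U.mul_mem (U.inv_mem (U.mul_mem hu1 hu)) hu2
    · exact K.mul_mem (K.mul_mem (κ g).2 k.2) (K.inv_mem (κ (g * u * k)).2)
  apply Subtype.ext
  rw [Subgroup.coe_mul]
  exact (mul_inv_eq_one.1 h8).symm

/-- Exactness of the rows at `(p + 1, q)`.
Proof: with `κ` from `exists_kappa` put `κ₀ e g := κ ((τ (e 0))⁻¹ * g)`; `κ₀ (γ e) (τ γ g u k) = κ₀ e g * k`. The function
`w κ_1..κ_{p+1} e x g := f (Fin.cons (κ₀ e g)⁻¹ κ) e x g` is in `IsD`: first condition clear; third: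
`ρ k (f (Fin.cons (κ₀ (γ e) (τ γ g u k))⁻¹ (k⁻¹ κ)) (γ e) (γ x) (τ γ g u k))`, `(κ₀ e g * k)⁻¹ = k⁻¹ (κ₀ e g)⁻¹`, so
this is the third condition of `f` for the tuple `Fin.cons (κ₀ e g)⁻¹ κ`. Finally `dK w = f`: from `dK f = 0` at the tuple
`Fin.cons (κ₀ e g)⁻¹ κ` (evaluate at `(e, x, g)`; split off the term `i = 0`, `Fin.sum_univ_succ`,
`Fin.succAbove_zero`, `Fin.cons_succ`, and `Fin.cons c κ ∘ i.succ.succAbove = Fin.cons c (κ ∘ i.succAbove)`):
`f κ e x g = ∑ i, (-1)^i f (Fin.cons (κ₀ e g)⁻¹ (κ ∘ i.succAbove)) e x g`. -/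
theorem dK_exact (hUK : ∀ u ∈ U, ∀ k ∈ K, u * k = k * u) (hd : ∀ u ∈ U, u ∈ K → u = 1) {p q : ℕ}
    {f : DC Γ G Q X K (p + 1) q} (hf : IsD τ a U K K' ρ f) (h : dK f = 0) :
    ∃ w : DC Γ G Q X K p q, IsD τ a U K K' ρ w ∧ dK w = f := by
  obtain ⟨κf, hκf⟩ := exists_kappa (G := G) hUK hd
  obtain ⟨hf1, hf2, hf3⟩ := hf
  let κ₀ : (Fin (q + 1) → Γ) → G → K := fun e g => κf ((τ (e 0))⁻¹ * g)
  have hκ₀ : ∀ (γ : Γ) (e : Fin (q + 1) → Γ) (g : G), ∀ u ∈ U, ∀ k : K,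
      κ₀ (fun i => γ * e i) (τ γ * g * u * k) = κ₀ e g * k := by
    intro γ e g u hu k
    show κf ((τ (γ * e 0))⁻¹ * (τ γ * g * u * k)) = κf ((τ (e 0))⁻¹ * g) * k
    rw [← hκf _ u hu k, map_mul]
    congr 1
    group
  let w : DC Γ G Q X K p q := fun κ e x g => f (Fin.cons (κ₀ e g)⁻¹ κ) e x g
  refine ⟨w, ⟨?_, ?_, ?_⟩, ?_⟩
  · intro κ κ' hκ
    funext e x g
    show f (Fin.cons (κ₀ e g)⁻¹ κ) e x g = f (Fin.cons (κ₀ e g)⁻¹ κ') e x g
    rw [hf1 (Fin.cons (κ₀ e g)⁻¹ κ) (Fin.cons (κ₀ e g)⁻¹ κ') ?_]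
    intro i
    refine Fin.cases ?_ (fun j => ?_) i
    · rw [Fin.cons_zero, Fin.cons_zero, inv_mul_cancel]
      exact K'.one_mem
    · rw [Fin.cons_succ, Fin.cons_succ]
      exact hκ j
  · intro κ e x g hx
    exact hf2 _ e x g hx
  · intro γ κ e x g u hu k
    show ρ k (f (Fin.cons (κ₀ (fun i => γ * e i) (τ γ * g * u * k))⁻¹ (fun i => k⁻¹ * κ i))
      (fun i => γ * e i) (flagMap (a γ) x) (τ γ * g * u * k)) = f (Fin.cons (κ₀ e g)⁻¹ κ) e x g
    rw [← hf3 γ (Fin.cons (κ₀ e g)⁻¹ κ) e x g u hu k]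
    have h1 : (Fin.cons (κ₀ (fun i => γ * e i) (τ γ * g * u * k))⁻¹ (fun i => k⁻¹ * κ i) :
        Fin (p + 1 + 1) → K) = fun i => k⁻¹ * (Fin.cons (κ₀ e g)⁻¹ κ : Fin (p + 1 + 1) → K) i := by
      funext i
      refine Fin.cases ?_ (fun j => ?_) i
      · rw [Fin.cons_zero, Fin.cons_zero, hκ₀ γ e g u hu k, mul_inv_rev]
      · rw [Fin.cons_succ, Fin.cons_succ]
    rw [h1]
  · funext κ e x g
    have h1 := congrFun (congrFun (congrFun (congrFun h (Fin.cons (κ₀ e g)⁻¹ κ)) e) x) g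
    have h2 : (dK f (Fin.cons (κ₀ e g)⁻¹ κ)) e x g = ∑ i : Fin (p + 1 + 2), (-1 : ℤ) ^ (i : ℕ) •
        f (fun l => (Fin.cons (κ₀ e g)⁻¹ κ : Fin (p + 1 + 2) → K) (i.succAbove l)) e x g := by
      unfold dK
      simp only [Finset.sum_apply, Pi.smul_apply]
    have h3 : (dK w κ) e x g = ∑ i : Fin (p + 2), (-1 : ℤ) ^ (i : ℕ) •
        f (Fin.cons (κ₀ e g)⁻¹ (fun l => κ (i.succAbove l))) e x g := by
      unfold dK
      simp only [Finset.sum_apply, Pi.smul_apply]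
      rfl
    rw [h2, Fin.sum_univ_succ] at h1
    simp only [Fin.val_zero, pow_zero, one_smul, Fin.val_succ, Pi.zero_apply] at h1
    have h4 : (fun l => (Fin.cons (κ₀ e g)⁻¹ κ : Fin (p + 1 + 2) → K) ((0 : Fin (p + 1 + 2)).succAbove l))
        = κ := by
      funext l
      rw [Fin.succAbove_zero]
      exact Fin.cons_succ _ _ _
    have h5 : ∀ i : Fin (p + 2),
        (fun l => (Fin.cons (κ₀ e g)⁻¹ κ : Fin (p + 1 + 2) → K) (i.succ.succAbove l))
        = Fin.cons (κ₀ e g)⁻¹ (fun l => κ (i.succAbove l)) := by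
      intro i
      funext l
      refine Fin.cases ?_ (fun j => ?_) l
      · rw [Fin.succ_succAbove_zero, Fin.cons_zero, Fin.cons_zero]
      · rw [Fin.succ_succAbove_succ, Fin.cons_succ, Fin.cons_succ]
    rw [h4] at h1
    simp only [h5] at h1
    rw [h3]
    have h6 : ∀ i : Fin (p + 2), (-1 : ℤ) ^ ((i : ℕ) + 1) •
        f (Fin.cons (κ₀ e g)⁻¹ (fun l => κ (i.succAbove l))) e x g =
        - ((-1 : ℤ) ^ (i : ℕ) • f (Fin.cons (κ₀ e g)⁻¹ (fun l => κ (i.succAbove l))) e x g) := by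
      intro i
      rw [pow_succ, mul_neg, mul_one, neg_smul]
    simp only [h6, Finset.sum_neg_distrib] at h1
    exact (add_neg_eq_zero.1 h1).symm

/-- The elements `f` of the double complex with `p = 0` and `dK f = 0` are the constant functions of `κ_0`, with values
the cochains of level `U K` with compact support: `dK f κ = f (κ 1) - f (κ 0)` up to the identification of functions
on `Fin 1` with elements. -/
theorem exists_of_dK_eq_zero {q : ℕ} {f : DC Γ G Q X K 0 q} (hf : IsD τ a U K K' ρ f)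
    (h : dK f = 0) : ∃ z : Coch Γ G Q X q, IsCoch τ a U K ρ z ∧ IsRel z ∧ f = fun _ => z := by
  obtain ⟨hf1, hf2, hf3⟩ := hf
  have hc : ∀ κ : Fin 1 → K, f κ = f (fun _ => 1) := by
    intro κ
    have h1 := congrFun h (Fin.cons 1 κ : Fin 2 → K)
    have h2 : dK f (Fin.cons 1 κ : Fin 2 → K) = f κ - f (fun _ => 1) := by
      unfold dK
      rw [Fin.sum_univ_two]
      have e1 : (fun l => (Fin.cons 1 κ : Fin 2 → K) ((0 : Fin 2).succAbove l)) = κ := by
        funext l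
        rw [Fin.succAbove_zero]
        exact Fin.cons_succ _ _ _
      have e2 : (fun l => (Fin.cons 1 κ : Fin 2 → K) ((1 : Fin 2).succAbove l)) = fun _ => 1 := by
        funext l
        have hl : l = 0 := Subsingleton.elim _ _
        subst hl
        rfl
      rw [e1, e2]
      simp [sub_eq_add_neg]
    rw [h2] at h1
    exact sub_eq_zero.1 h1
  refine ⟨f (fun _ => 1), ?_, hf2 _, funext hc⟩
  intro γ e x g u hu k
  have h1 := hf3 γ (fun _ => 1) e x g u hu k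
  rw [hc (fun i => k⁻¹ * (fun _ => (1 : K)) i)] at h1
  exact h1

theorem isD_const {q : ℕ} {z : Coch Γ G Q X q} (hz : IsCoch τ a U K ρ z) (hr : IsRel z) :
    IsD τ a U K K' ρ (fun _ => z : DC Γ G Q X K 0 q) ∧
      dK (fun _ => z : DC Γ G Q X K 0 q) = 0 := by
  refine ⟨⟨fun _ _ _ => rfl, fun _ => hr, fun γ _ e x g u hu k => hz γ e x g u hu k⟩, ?_⟩
  funext κ
  unfold dK
  rw [Fin.sum_univ_two]
  simp

end Pool.Agent.Lib.MP_666dc0_nt.TP
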