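import Pool.Agent.Lib.MP_666dc0_nt.TP.H2

/-!
# TP, H4: the columns of the double complex are killed
-/

namespace Pool.Agent.Lib.MP_666dc0_nt.TP

variable {Γ G Q X R : Type} [Group Γ] [Group G] [PartialOrder Q] [OrderTop Q] [CommRing R]
  [AddCommGroup X] [Module R X] {τ : Γ →* G} {a : Γ →* (Q ≃o Q)} {U K K' : Subgroup G}
  {ρ : Representation R K X}

private theorem H4_flag_one {m : ℕ} (x : Fin (m + 1) →o Q) : flagMap (a 1) x = x := by
  rw [map_one]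
  rfl

private theorem H4_one (k : K') (v : X) : (1 : Representation R K' X) k v = v := rfl

/-- The cochain condition for trivial coefficients, `γ = 1`, `u = 1`. -/
private theorem H4_right {m : ℕ} {z : Coch Γ G Q X m}
    (hz : IsCoch τ a U K' (1 : Representation R K' X) z) (e : Fin (m + 1) → Γ)
    (x : Fin (m + 1) →o Q) (g : G) {k : G} (hk : k ∈ K') : z e x (g * k) = z e x g := by
  have h := hz 1 e x g 1 (one_mem U) ⟨k, hk⟩
  rw [H4_one, H4_flag_one, map_one] at h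
  simpa only [one_mul, mul_one] using h

/-- Let `K' ≤ K` be normal and `ρ` trivial on `K'`. For `f` in the double complex and fixed `κ_1, …, κ_p`, the cochain
`f (1, κ_1, …, κ_p)` is a cochain of level `U K'` with trivial coefficients: the third condition of `IsD` for `k ∈ K'`
gives it for the tuple `k⁻¹ (1, κ)`, whose components are congruent to those of `(1, κ)` modulo `K'`:
`κ_i⁻¹ (k⁻¹ κ_i) ∈ K'` by normality (first condition). `ρ k = 1` by `ht`. -/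
theorem isCoch_slice (hK : K' ≤ K) (hn : ∀ k ∈ K, ∀ k' ∈ K', k * k' * k⁻¹ ∈ K')
    (ht : ∀ k : K, (k : G) ∈ K' → ρ k = 1) {p q : ℕ} {f : DC Γ G Q X K p q}
    (hf : IsD τ a U K K' ρ f) (κ : Fin (p + 1) → K) (h0 : κ 0 = 1) :
    IsCoch τ a U K' (1 : Representation R K' X) (f κ) := by
  intro γ e x g u hu k
  rw [H4_one]
  have h1 := hf.2.2 γ κ e x g u hu ⟨(k : G), hK k.2⟩
  rw [ht ⟨(k : G), hK k.2⟩ k.2] at h1
  have h2 : f (fun i => (⟨(k : G), hK k.2⟩ : K)⁻¹ * κ i) = f κ := by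
    apply hf.1
    intro i
    have h3 := hn ((κ i : G)⁻¹) (K.inv_mem (κ i).2) k k.2
    rw [inv_inv] at h3
    have h4 : (((⟨(k : G), hK k.2⟩ : K)⁻¹ * κ i : K) : G)⁻¹ * κ i = (κ i : G)⁻¹ * k * κ i := by
      rw [Subgroup.coe_mul, Subgroup.coe_inv, mul_inv_rev, inv_inv]
    rw [h4]
    exact h3
  rw [h2] at h1
  exact h1

/-- Conversely, a family `y` of cochains with compact support of level `U K'` with trivial coefficients, indexed by the tuples `κ` with first component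
`1`, which depends only on the classes modulo `K'`, gives the element
`ψ κ e x g = ρ (κ 0) (y ((κ 0)⁻¹ κ) e x (g * κ 0))` of the double complex. (Third condition: for the tuple `k⁻¹ κ`:
`(k⁻¹ κ 0)⁻¹ (k⁻¹ κ i) = (κ 0)⁻¹ κ i`, the point is `τ γ g u k (k⁻¹ κ 0) = τ γ (g κ 0) u` up to `u` commuting with `K`, and
`ρ k (ρ (k⁻¹ κ 0)) = ρ (κ 0)`. First condition: if `κ_0' = κ_0 k'`, then `ρ κ_0' = ρ κ_0`, `y (..) e x (g κ_0 k') = y (..) e x (g κ_0)` by
`hy` with `k'`, and `κ_0'⁻¹ κ_i'` is congruent to `κ_0⁻¹ κ_i` modulo `K'`: `(κ_0⁻¹ κ_i)⁻¹ (κ_0'⁻¹ κ_i') =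
κ_i⁻¹ κ_0 k'⁻¹ κ_0⁻¹ κ_i'`, use normality; for the component `0` both are `1`.) -/
theorem isD_glue (hUK : ∀ u ∈ U, ∀ k ∈ K, u * k = k * u) (hK : K' ≤ K)
    (hn : ∀ k ∈ K, ∀ k' ∈ K', k * k' * k⁻¹ ∈ K')
    (ht : ∀ k : K, (k : G) ∈ K' → ρ k = 1) {p q : ℕ} (y : DC Γ G Q X K p q)
    (hy : ∀ κ, IsCoch τ a U K' (1 : Representation R K' X) (y κ)) (hr : ∀ κ, IsRel (y κ))
    (hc : ∀ κ κ' : Fin (p + 1) → K, κ 0 = 1 → κ' 0 = 1 → (∀ i, (κ i : G)⁻¹ * κ' i ∈ K') →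
      y κ = y κ') :
    IsD τ a U K K' ρ (fun κ e x g => ρ (κ 0) (y (fun i => (κ 0)⁻¹ * κ i) e x (g * κ 0)) :
      DC Γ G Q X K p q) := by
  refine ⟨fun κ κ' h => ?_, fun κ e x g hx => ?_, fun γ κ e x g u hu k => ?_⟩
  · funext e x g
    beta_reduce
    have h0 : (κ 0 : G)⁻¹ * κ' 0 ∈ K' := h 0
    have h1 : ρ (κ' 0) = ρ (κ 0) := by
      have h2 : κ' 0 = κ 0 * ((κ 0)⁻¹ * κ' 0) := by rw [mul_inv_cancel_left]
      have h3 : ρ ((κ 0)⁻¹ * κ' 0) = 1 :=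
        ht _ (by rw [Subgroup.coe_mul, Subgroup.coe_inv]; exact h0)
      rw [h2, map_mul, h3, mul_one]
    have h3 : y (fun i => (κ 0)⁻¹ * κ i) = y (fun i => (κ' 0)⁻¹ * κ' i) := by
      apply hc
      · exact inv_mul_cancel _
      · exact inv_mul_cancel _
      · intro i
        have h4 : (κ 0 : G) * (κ' 0 : G)⁻¹ ∈ K' := by
          have h5 := hn (κ 0) (κ 0).2 _ (K'.inv_mem h0)
          rw [mul_inv_rev, inv_inv] at h5
          have h6 : (κ 0 : G) * ((κ' 0 : G)⁻¹ * κ 0) * (κ 0 : G)⁻¹ = (κ 0 : G) * (κ' 0 : G)⁻¹ := by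
            group
          rw [h6] at h5
          exact h5
        have h7 := hn ((κ i : G)⁻¹) (K.inv_mem (κ i).2) _ h4
        have h8 := K'.mul_mem h7 (h i)
        have h9 : (κ i : G)⁻¹ * ((κ 0 : G) * (κ' 0 : G)⁻¹) * ((κ i : G)⁻¹)⁻¹ *
            ((κ i : G)⁻¹ * κ' i) = (((κ 0)⁻¹ * κ i : K) : G)⁻¹ * (((κ' 0)⁻¹ * κ' i : K) : G) := by
          rw [Subgroup.coe_mul, Subgroup.coe_mul, Subgroup.coe_inv, Subgroup.coe_inv]
          group
        rw [← h9]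
        exact h8
    rw [h1, h3]
    have h10 : g * (κ' 0 : G) = g * (κ 0 : G) * ((κ 0 : G)⁻¹ * κ' 0) := by group
    rw [h10, H4_right (hy _) e x _ h0]
  · show ρ (κ 0) (y (fun i => (κ 0)⁻¹ * κ i) e x (g * κ 0)) = 0
    rw [hr _ e x _ hx, map_zero]
  · show ρ k (ρ (k⁻¹ * κ 0) (y (fun i => (k⁻¹ * κ 0)⁻¹ * (k⁻¹ * κ i)) (fun i => γ * e i)
      (flagMap (a γ) x) (τ γ * g * u * k * ((k⁻¹ * κ 0 : K) : G)))) =
      ρ (κ 0) (y (fun i => (κ 0)⁻¹ * κ i) e x (g * κ 0))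
    have h1 : (fun i => (k⁻¹ * κ 0)⁻¹ * (k⁻¹ * κ i)) = fun i => (κ 0)⁻¹ * κ i := by
      funext i
      group
    have h2 : τ γ * g * u * k * ((k⁻¹ * κ 0 : K) : G) = τ γ * (g * κ 0) * u * (1 : K') := by
      rw [Subgroup.coe_mul, Subgroup.coe_inv, Subgroup.coe_one, mul_one, mul_assoc _ (k : G),
        mul_inv_cancel_left, mul_assoc _ u, hUK u hu (κ 0) (κ 0).2]
      simp only [mul_assoc]
    have h3 := hy (fun i => (κ 0)⁻¹ * κ i) γ e x (g * κ 0) u hu 1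
    rw [H4_one] at h3
    rw [h1, h2, h3, ← Module.End.mul_apply, ← map_mul, mul_inv_cancel_left]

/-- The recovery formula: `f κ e x g = ρ (κ 0) (f ((κ 0)⁻¹ κ) e x (g * κ 0))` (third condition with `γ = 1`, `u = 1`,
`k = κ 0`). -/
theorem IsD.eq_slice {p q : ℕ} {f : DC Γ G Q X K p q} (hf : IsD τ a U K K' ρ f)
    (κ : Fin (p + 1) → K) (e : Fin (q + 1) → Γ) (x : Fin (q + 1) →o Q) (g : G) :
    f κ e x g = ρ (κ 0) (f (fun i => (κ 0)⁻¹ * κ i) e x (g * κ 0)) := by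
  have h := hf.2.2 1 κ e x g 1 (one_mem U) (κ 0)
  rw [H4_flag_one, map_one] at h
  simp only [one_mul, mul_one] at h
  exact h.symm

/-- The operator `T` and the recovery formula. -/
private theorem H4_T (hK : K' ≤ K)
    (hn : ∀ k ∈ K, ∀ k' ∈ K', k * k' * k⁻¹ ∈ K') (ht : ∀ k : K, (k : G) ∈ K' → ρ k = 1)
    {T : Module.End R (G → X)} (hT : IsGoodOp U K T) {p q : ℕ} {f : DC Γ G Q X K p q}
    (hf : IsD τ a U K K' ρ f) (κ : Fin (p + 1) → K) (e : Fin (q + 1) → Γ)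
    (x : Fin (q + 1) →o Q) :
    T (f κ e x) = fun g => ρ (κ 0) (T (f (fun i => (κ 0)⁻¹ * κ i) e x) (g * κ 0)) := by
  have h1 : f κ e x = fun g => ρ (κ 0) (f (fun i => (κ 0)⁻¹ * κ i) e x (g * κ 0)) :=
    funext fun g => hf.eq_slice κ e x g
  have hs := isCoch_slice hK hn ht hf (fun i => (κ 0)⁻¹ * κ i) (inv_mul_cancel _)
  have h2 : ∀ g, ∀ u ∈ U, f (fun i => (κ 0)⁻¹ * κ i) e x (g * u) =
      f (fun i => (κ 0)⁻¹ * κ i) e x g := fun g u hu => hs.right e x g hu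
  have h3 := hT.coeff (ρ (κ 0)) (fun g => f (fun i => (κ 0)⁻¹ * κ i) e x (g * κ 0))
  have h4 := hT.rightK (f (fun i => (κ 0)⁻¹ * κ i) e x) h2 (κ 0) (κ 0).2
  rw [h1, h3, h4]

/-- If `T` kills the cohomology with compact support of level `U K'` with trivial coefficients in degree `0`, it kills the
`dC`-cocycles of the double complex in degree `0`: `T` applied to `f κ`, `κ 0 = 1`, is zero (`isCoch_slice`, `IsCob` in degree
`0`), and `T (f κ) = 0` for all `κ` by `IsD.eq_slice` and `coeff`, `rightK`: with `f₁ = f ((κ 0)⁻¹ κ) e x`,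
`f κ e x = fun g => ρ (κ 0) (f₁ (g * κ 0))`, `T` of this is `ρ (κ 0) (T f₁ (g * κ 0))`. -/
theorem column_zero (hUK : ∀ u ∈ U, ∀ k ∈ K, u * k = k * u) (hK : K' ≤ K)
    (hn : ∀ k ∈ K, ∀ k' ∈ K', k * k' * k⁻¹ ∈ K') (ht : ∀ k : K, (k : G) ∈ K' → ρ k = 1)
    {T : Module.End R (G → X)} (hT : IsGoodOp U K T)
    (hk : Kills τ a U K' (1 : Representation R K' X) T 0) {p : ℕ} {f : DC Γ G Q X K p 0}
    (hf : IsD τ a U K K' ρ f) (h : dC f = 0) (κ : Fin (p + 1) → K) : opOn T (f κ) = 0 := by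
  have h1 : opOn T (f (fun i => (κ 0)⁻¹ * κ i)) = 0 :=
    hk _ (isCoch_slice hK hn ht hf _ (inv_mul_cancel _)) (hf.2.1 _) (congrFun h _)
  funext e x
  show T (f κ e x) = 0
  rw [H4_T hK hn ht hT hf κ e x]
  funext g
  have h2 : T (f (fun i => (κ 0)⁻¹ * κ i) e x) = 0 := congrFun (congrFun h1 e) x
  rw [h2]
  exact map_zero _

/-- In degree `q + 1`: for each tuple `κ` choose (depending only on the class modulo `K'`: use
`Quotient.out` of the classes `κ i mod K'`, with `κ 0 = 1` kept, or choose for each tuple of classes a representative tuple) a cochain `y κ` with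
compact support of level `U K'` and `opOn T (f κ) = del (y κ)` when `κ 0 = 1` (`isCoch_slice`, `hk`; `y κ := 0` if there is none); glue them by
`isD_glue`; `dC ψ = T f` by `IsD.eq_slice` (for `T f`, or for `f` and `coeff`, `rightK` as in `column_zero`). -/
theorem column_succ (hUK : ∀ u ∈ U, ∀ k ∈ K, u * k = k * u) (hK : K' ≤ K)
    (hn : ∀ k ∈ K, ∀ k' ∈ K', k * k' * k⁻¹ ∈ K') (ht : ∀ k : K, (k : G) ∈ K' → ρ k = 1)
    {T : Module.End R (G → X)} (hT : IsGoodOp U K T) {q : ℕ}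
    (hk : Kills τ a U K' (1 : Representation R K' X) T (q + 1)) {p : ℕ}
    {f : DC Γ G Q X K p (q + 1)} (hf : IsD τ a U K K' ρ f) (h : dC f = 0) :
    ∃ ψ : DC Γ G Q X K p q, IsD τ a U K K' ρ ψ ∧ (fun κ => opOn T (f κ)) = dC ψ := by
  classical
  -- the chosen primitives
  obtain ⟨Y, hY1, hY2, hY3⟩ : ∃ Y : Coch Γ G Q X (q + 1) → Coch Γ G Q X q,
      (∀ z, IsCoch τ a U K' (1 : Representation R K' X) (Y z)) ∧ (∀ z, IsRel (Y z)) ∧
      ∀ z, IsCob τ a U K' (1 : Representation R K' X) (opOn T z) → opOn T z = del (Y z) := by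
    refine ⟨fun z => if h : ∃ y : Coch Γ G Q X q,
      IsCoch τ a U K' (1 : Representation R K' X) y ∧ IsRel y ∧ opOn T z = del y
        then h.choose else 0, fun z => ?_, fun z => ?_, fun z hz => ?_⟩
    · beta_reduce
      split_ifs with h
      · exact h.choose_spec.1
      · exact IsCoch.zero
    · beta_reduce
      split_ifs with h
      · exact h.choose_spec.2.1
      · intro e x g _
        rfl
    · have h : ∃ y : Coch Γ G Q X q,
        IsCoch τ a U K' (1 : Representation R K' X) y ∧ IsRel y ∧ opOn T z = del y := hz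
      beta_reduce
      rw [dif_pos h]
      exact h.choose_spec.2.2
  refine ⟨fun κ e x g => ρ (κ 0) (Y (f (fun i => (κ 0)⁻¹ * κ i)) e x (g * κ 0)),
    isD_glue hUK hK hn ht (fun κ => Y (f κ)) (fun κ => hY1 _) (fun κ => hY2 _)
      (fun κ κ' _ _ hc => by rw [hf.1 κ κ' hc]), ?_⟩
  funext κ e x g
  have h1 : opOn T (f (fun i => (κ 0)⁻¹ * κ i)) = del (Y (f (fun i => (κ 0)⁻¹ * κ i))) :=
    hY3 _ (hk _ (isCoch_slice hK hn ht hf _ (inv_mul_cancel _)) (hf.2.1 _) (congrFun h _))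
  show T (f κ e x) g = ∑ i : Fin (q + 2), (-1 : ℤ) ^ (i : ℕ) •
    ρ (κ 0) (Y (f (fun i => (κ 0)⁻¹ * κ i)) (fun j => e (i.succAbove j)) (face i x) (g * κ 0))
  rw [H4_T hK hn ht hT hf κ e x]
  have h2 : T (f (fun i => (κ 0)⁻¹ * κ i) e x) (g * κ 0) = ∑ i : Fin (q + 2),
      (-1 : ℤ) ^ (i : ℕ) • Y (f (fun i => (κ 0)⁻¹ * κ i)) (fun j => e (i.succAbove j))
        (face i x) (g * κ 0) := congrFun (congrFun (congrFun h1 e) x) (g * κ 0)
  beta_reduce
  rw [h2, map_sum]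
  exact Finset.sum_congr rfl fun i _ => map_zsmul _ _ _

end Pool.Agent.Lib.MP_666dc0_nt.TP
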