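import Pool.Agent.Lib.MP_666dc0_nt.TP.H1
import Pool.Agent.Lib.MP_666dc0_nt.TP.H3
import Pool.Agent.Lib.MP_666dc0_nt.TP.H4

/-!
# TP, H5: killing the cohomology of a larger level
-/

namespace Pool.Agent.Lib.MP_666dc0_nt.TP

variable {Γ G Q X R : Type} [Group Γ] [Group G] [PartialOrder Q] [OrderTop Q] [CommRing R]
  [AddCommGroup X] [Module R X] {τ : Γ →* G} {a : Γ →* (Q ≃o Q)} {U K K' : Subgroup G}
  {ρ : Representation R K X}

/-- the elements of the double complex as a submodule -/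
private def H5_DD (τ : Γ →* G) (a : Γ →* (Q ≃o Q)) (U K K' : Subgroup G) (ρ : Representation R K X)
    (p q : ℕ) : Submodule R (DC Γ G Q X K p q) where
  carrier := {f | IsD τ a U K K' ρ f}
  add_mem' {f f'} hf hf' := by
    refine ⟨fun κ κ' h => ?_, fun κ => ?_, fun γ κ e x g u hu k => ?_⟩
    · rw [Pi.add_apply, Pi.add_apply, hf.1 κ κ' h, hf'.1 κ κ' h]
    · exact (hf.2.1 κ).add (hf'.2.1 κ)
    · simp only [Pi.add_apply]
      rw [map_add, hf.2.2 γ κ e x g u hu k, hf'.2.2 γ κ e x g u hu k]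
  zero_mem' := by
    refine ⟨fun κ κ' h => rfl, fun κ e x g _ => rfl, fun γ κ e x g u hu k => ?_⟩
    simp only [Pi.zero_apply]
    rw [map_zero]
  smul_mem' r f hf := by
    refine ⟨fun κ κ' h => ?_, fun κ => ?_, fun γ κ e x g u hu k => ?_⟩
    · rw [Pi.smul_apply, Pi.smul_apply, hf.1 κ κ' h]
    · exact (hf.2.1 κ).smul r
    · simp only [Pi.smul_apply]
      rw [map_smul, hf.2.2 γ κ e x g u hu k]

private theorem H5_del_add {m : ℕ} (z z' : Coch Γ G Q X m) : del (z + z') = del z + del z' := by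
  funext e x g
  simp only [del, Pi.add_apply, smul_add, Finset.sum_add_distrib]

private theorem H5_del_smul {m : ℕ} (r : R) (z : Coch Γ G Q X m) : del (r • z) = r • del z := by
  funext e x g
  simp only [del, Pi.smul_apply, Finset.smul_sum]
  exact Finset.sum_congr rfl fun i _ => smul_comm _ _ _

private def H5_d (τ : Γ →* G) (a : Γ →* (Q ≃o Q)) (U K K' : Subgroup G) (ρ : Representation R K X)
    (p q : ℕ) : H5_DD τ a U K K' ρ p q →ₗ[R] H5_DD τ a U K K' ρ p (q + 1) where
  toFun f := ⟨dC f.1, IsD.dC f.2⟩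
  map_add' f f' := by
    apply Subtype.ext
    funext κ
    exact H5_del_add _ _
  map_smul' r f := by
    apply Subtype.ext
    funext κ
    exact H5_del_smul _ _

private def H5_s (τ : Γ →* G) (a : Γ →* (Q ≃o Q)) (U K K' : Subgroup G) (ρ : Representation R K X)
    (p q : ℕ) : H5_DD τ a U K K' ρ p q →ₗ[R] H5_DD τ a U K K' ρ (p + 1) q where
  toFun f := ⟨dK f.1, IsD.dK f.2⟩
  map_add' f f' := by
    apply Subtype.ext
    funext κ
    change ∑ i : Fin (p + 2), (-1 : ℤ) ^ (i : ℕ) • (f.1 + f'.1) (fun l => κ (i.succAbove l)) =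
      (∑ i : Fin (p + 2), (-1 : ℤ) ^ (i : ℕ) • f.1 (fun l => κ (i.succAbove l))) +
        ∑ i : Fin (p + 2), (-1 : ℤ) ^ (i : ℕ) • f'.1 (fun l => κ (i.succAbove l))
    rw [← Finset.sum_add_distrib]
    exact Finset.sum_congr rfl fun i _ => by rw [Pi.add_apply, smul_add]
  map_smul' r f := by
    apply Subtype.ext
    funext κ
    change ∑ i : Fin (p + 2), (-1 : ℤ) ^ (i : ℕ) • (r • f.1) (fun l => κ (i.succAbove l)) =
      r • ∑ i : Fin (p + 2), (-1 : ℤ) ^ (i : ℕ) • f.1 (fun l => κ (i.succAbove l))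
    rw [Finset.smul_sum]
    exact Finset.sum_congr rfl fun i _ => by rw [Pi.smul_apply, smul_comm]

private def H5_t (τ : Γ →* G) (a : Γ →* (Q ≃o Q)) (U K K' : Subgroup G) (ρ : Representation R K X)
    (hUK : ∀ u ∈ U, ∀ k ∈ K, u * k = k * u) (T : Module.End R (G → X)) (hT : IsGoodOp U K T)
    (p q : ℕ) : Module.End R (H5_DD τ a U K K' ρ p q) where
  toFun f := ⟨fun κ => opOn T (f.1 κ), IsD.opOn hUK hT f.2⟩
  map_add' f f' := by
    apply Subtype.ext
    funext κ e x
    exact map_add T _ _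
  map_smul' r f := by
    apply Subtype.ext
    funext κ e x
    exact map_smul T _ _

private theorem H5_t_pow (hUK : ∀ u ∈ U, ∀ k ∈ K, u * k = k * u) (T : Module.End R (G → X))
    (hT : IsGoodOp U K T) (p q n : ℕ) (f : H5_DD τ a U K K' ρ p q) (κ : Fin (p + 1) → K) :
    (((H5_t τ a U K K' ρ hUK T hT p q) ^ n) f).1 κ = opOn (T ^ n) (f.1 κ) := by
  induction n with
  | zero => rfl
  | succ n ih =>
    rw [pow_succ', pow_succ', Module.End.mul_apply]
    funext e x
    change T ((((H5_t τ a U K K' ρ hUK T hT p q) ^ n) f).1 κ e x) = (T * T ^ n) (f.1 κ e x)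
    rw [ih]
    rfl

/-- **Hochschild-Serre.** If `K' ≤ K` is normal, `ρ` is trivial on `K'` and `T` kills the cohomology with compact
support of level `U K'` with trivial coefficients in all degrees `≤ m`, then `T^(m+1)` kills the cohomology with compact
support of level `U K` with coefficients in `ρ` in degree `m`.
Proof: `staircase` for `D p q` = the submodule of `DC Γ G Q X K p q` of the elements with `IsD` (it is a submodule: the
three conditions are linear; build `Submodule R (DC Γ G Q X K p q)` with this carrier), `d = dC`, `s = dK`,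
`t = opOn T` (restrictions, `IsD.dC`, `IsD.dK`, `IsD.opOn`), `hex` from `dK_exact`, `h0`, `h1` from `column_zero`, `column_succ`. Apply it to the
constant function `z` (`isD_const`), and read the result with `exists_of_dK_eq_zero`: in degree `0`, `T z = 0`; in degree
`q + 1`, `T^(q+2) z = del w` with `w` a cochain with compact support of level `U K`. -/
theorem hochschild_serre (hUK : ∀ u ∈ U, ∀ k ∈ K, u * k = k * u) (hd : ∀ u ∈ U, u ∈ K → u = 1)
    (hK : K' ≤ K) (hn : ∀ k ∈ K, ∀ k' ∈ K', k * k' * k⁻¹ ∈ K')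
    (ht : ∀ k : K, (k : G) ∈ K' → ρ k = 1) {T : Module.End R (G → X)} (hT : IsGoodOp U K T) (m : ℕ)
    (hk : ∀ q ≤ m, Kills τ a U K' (1 : Representation R K' X) T q) :
    Kills τ a U K ρ (T ^ (m + 1)) m := by
  obtain ⟨r0, r1⟩ := staircase (fun p q => H5_DD τ a U K K' ρ p q) (H5_d τ a U K K' ρ)
    (H5_s τ a U K K' ρ) (H5_t τ a U K K' ρ hUK T hT)
    (fun p q z => Subtype.ext (dC_dK z.1)) (fun p q z => Subtype.ext (dC_dC z.1))
    (fun p q z => Subtype.ext (dK_dK z.1))
    (fun p q z hz => by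
      obtain ⟨w, hw, hw'⟩ := dK_exact hUK hd z.2 (congrArg Subtype.val hz)
      exact ⟨⟨w, hw⟩, Subtype.ext hw'⟩)
    (fun p q z => by
      apply Subtype.ext
      funext κ
      exact (opOn_del T (z.1 κ)).symm)
    (fun p q z => by
      apply Subtype.ext
      funext κ e x
      change (∑ i : Fin (p + 2), (-1 : ℤ) ^ (i : ℕ) • opOn T (z.1 fun l => κ (i.succAbove l))) e x =
        T ((∑ i : Fin (p + 2), (-1 : ℤ) ^ (i : ℕ) • (z.1 fun l => κ (i.succAbove l))) e x)
      rw [Finset.sum_apply, Finset.sum_apply, Finset.sum_apply, Finset.sum_apply, map_sum]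
      refine Finset.sum_congr rfl fun i _ => ?_
      simp only [Pi.smul_apply]
      rw [map_zsmul]
      rfl) m
    (fun p z hz => by
      apply Subtype.ext
      funext κ
      exact column_zero hUK hK hn ht hT (hk 0 (Nat.zero_le m)) z.2 (congrArg Subtype.val hz) κ)
    (fun p q z hq hz => by
      obtain ⟨ψ, hψ, hψ'⟩ := column_succ hUK hK hn ht hT (hk (q + 1) hq) z.2
        (congrArg Subtype.val hz)
      exact ⟨⟨ψ, hψ⟩, Subtype.ext hψ'⟩)
  intro z hz hr hdz
  obtain ⟨c1, c2⟩ := isD_const (K' := K') hz hr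
  have hZ : H5_d τ a U K K' ρ 0 m ⟨fun _ => z, c1⟩ = 0 := by
    apply Subtype.ext
    funext κ
    exact hdz
  have hZ' : H5_s τ a U K K' ρ 0 m ⟨fun _ => z, c1⟩ = 0 := Subtype.ext c2
  cases m with
  | zero =>
    have h := r0 0 ⟨fun _ => z, c1⟩ hZ hZ'
    have h2 := H5_t_pow hUK T hT 0 0 1 (⟨fun _ => z, c1⟩ : H5_DD τ a U K K' ρ 0 0) (fun _ => 1)
    rw [h] at h2
    exact h2.symm
  | succ q =>
    obtain ⟨w, hw, hw'⟩ := r1 0 q ⟨fun _ => z, c1⟩ le_rfl hZ hZ'
    obtain ⟨z', hz', hr', hwz⟩ := exists_of_dK_eq_zero w.2 (congrArg Subtype.val hw)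
    refine ⟨z', hz', hr', ?_⟩
    have h2 := H5_t_pow hUK T hT 0 (q + 1) (q + 2) (⟨fun _ => z, c1⟩ : H5_DD τ a U K K' ρ 0 (q + 1))
      (fun _ => 1)
    rw [hw'] at h2
    have h3 : (H5_d τ a U K K' ρ 0 q w).1 (fun _ => 1) = del z' := by
      change del (w.1 fun _ => 1) = del z'
      rw [hwz]
    exact h2.symm.trans h3

end Pool.Agent.Lib.MP_666dc0_nt.TP
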