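import Pool.Agent.Lib.MP_666dc0_nt.TP.A2
import Pool.Agent.Lib.MP_666dc0_nt.TP.G4
import Pool.Agent.Lib.MP_666dc0_nt.Mg.G006

/-!
# TP, K1: coefficients modulo `ℓ^k`
-/

open NumberField IsDedekindDomain
open scoped NumberField

namespace Pool.Agent.Lib.MP_666dc0_nt.TP

open WL

section pi

variable {Γ G Q X R : Type} [Group Γ] [Group G] [PartialOrder Q] [OrderTop Q] [CommRing R]
  [AddCommGroup X] [Module R X] {m d : ℕ} {τ : Γ →* G} {a : Γ →* (Q ≃o Q)} {U K : Subgroup G}

/-- The component `l` of a cochain. -/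
private def k1_comp (l : Fin d) (z : Coch Γ G Q (Fin d → X) m) : Coch Γ G Q X m :=
  fun e x g => z e x g l

omit [OrderTop Q] [Group Γ] [Group G] in
private theorem k1_del_comp (l : Fin d) (z : Coch Γ G Q (Fin d → X) m) :
    del (k1_comp l z) = k1_comp l (del z) := by
  funext e x g
  simp only [k1_comp, del, Finset.sum_apply, Pi.smul_apply]

omit [OrderTop Q] in
private theorem k1_isCoch_iff (z : Coch Γ G Q (Fin d → X) m) :
    IsCoch τ a U K (1 : Representation R K (Fin d → X)) z ↔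
      ∀ l, IsCoch τ a U K (1 : Representation R K X) (k1_comp l z) := by
  constructor
  · intro h l γ e x g u hu k
    have h1 := congrFun (h γ e x g u hu k) l
    exact h1
  · intro h γ e x g u hu k
    funext l
    exact h l γ e x g u hu k

omit [Group Γ] [Group G] in
private theorem k1_isRel_iff (z : Coch Γ G Q (Fin d → X) m) :
    IsRel z ↔ ∀ l, IsRel (k1_comp l z) := by
  constructor
  · intro h l e x g hx
    exact congrFun (h e x g hx) l
  · intro h e x g hx
    funext l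
    exact h l e x g hx

omit [OrderTop Q] [Group Γ] [Group G] [AddCommGroup X] in
private theorem k1_ext {z z' : Coch Γ G Q (Fin d → X) m} (h : ∀ l, k1_comp l z = k1_comp l z') :
    z = z' := by
  funext e x g l
  exact congrFun (congrFun (congrFun (h l) e) x) g

private theorem k1_isCob {z : Coch Γ G Q (Fin d → X) m}
    (h : ∀ l, IsCob τ a U K (1 : Representation R K X) (k1_comp l z)) :
    IsCob τ a U K (1 : Representation R K (Fin d → X)) z := by
  cases m with
  | zero =>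
    change z = 0
    exact k1_ext fun l => (h l : k1_comp l z = 0)
  | succ m =>
    have h1 : ∀ l, ∃ y : Coch Γ G Q X m, IsCoch τ a U K (1 : Representation R K X) y ∧
        IsRel y ∧ k1_comp l z = del y := fun l => h l
    choose y hy1 hy2 hy3 using h1
    refine ⟨fun e x g l => y l e x g, (k1_isCoch_iff _).2 fun l => hy1 l,
      (k1_isRel_iff _).2 fun l => hy2 l, k1_ext fun l => ?_⟩
    rw [hy3, ← k1_del_comp]
    rfl

/-- Trivial coefficients `X^d`: componentwise. (The component `fun e x g => z e x g l` of a cochain, relative cochain, cocycle with values in `Fin d → X` is one with values in `X`, and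
conversely; in degree `0` the coboundaries are zero; in degree `m + 1` choose a primitive for each component `l`.) -/
theorem Kills.pi {T : Module.End R (G → X)} {T' : Module.End R (G → Fin d → X)}
    (hT : ∀ f g l, T' f g l = T (fun h => f h l) g)
    (hk : Kills τ a U K (1 : Representation R K X) T m) :
    Kills τ a U K (1 : Representation R K (Fin d → X)) T' m := by
  intro z hz1 hz2 hz3
  refine k1_isCob fun l => ?_
  have h1 : k1_comp l (opOn T' z) = opOn T (k1_comp l z) := by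
    funext e x g
    exact hT (z e x) g l
  rw [h1]
  refine hk _ ((k1_isCoch_iff z).1 hz1 l) ((k1_isRel_iff z).1 hz2 l) ?_
  rw [k1_del_comp, hz3]
  rfl

end pi

variable {F : Type} [Field F] [NumberField F] {n : ℕ} {D' : Datum F n} {ℓ : ℕ} [Fact ℓ.Prime]
  {U' K' : Subgroup D'.Ad} {d : ℕ}

/-- Reduction modulo `ℓ^k`. -/
noncomputable def red (ℓ d k : ℕ) [Fact ℓ.Prime] :
    (Fin d → ℤ_[ℓ]) →ₗ[ℤ_[ℓ]] (Fin d → Zk ℓ k) :=
  LinearMap.pi fun l => (Ideal.Quotient.mkₐ ℤ_[ℓ] (Ideal.span {(ℓ : ℤ_[ℓ]) ^ k})).toLinearMap ∘ₗ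
    LinearMap.proj l

theorem red_surjective (k : ℕ) : Function.Surjective (red ℓ d k) := by
  intro w
  choose w' hw' using fun l => Ideal.Quotient.mk_surjective (w l)
  exact ⟨w', funext fun l => hw' l⟩

/-- The kernel of the reduction is `ℓ^k V` (`Ideal.Quotient.eq_zero_iff_mem`, `Ideal.mem_span_singleton`). -/
theorem red_eq_zero_iff (k : ℕ) (w : Fin d → ℤ_[ℓ]) :
    red ℓ d k w = 0 ↔ ∃ w', w = (ℓ : ℤ_[ℓ]) ^ k • w' := by
  constructor
  · intro h
    have h1 : ∀ l, ∃ c, w l = (ℓ : ℤ_[ℓ]) ^ k * c := by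
      intro l
      have h2 : Ideal.Quotient.mk (Ideal.span {(ℓ : ℤ_[ℓ]) ^ k}) (w l) = 0 := congrFun h l
      exact Ideal.mem_span_singleton.1 (Ideal.Quotient.eq_zero_iff_mem.1 h2)
    choose c hc using h1
    exact ⟨c, funext fun l => hc l⟩
  · rintro ⟨w', rfl⟩
    funext l
    change Ideal.Quotient.mk (Ideal.span {(ℓ : ℤ_[ℓ]) ^ k}) ((ℓ : ℤ_[ℓ]) ^ k * w' l) = 0
    exact Ideal.Quotient.eq_zero_iff_mem.2
      (Ideal.mul_mem_right _ _ (Ideal.mem_span_singleton_self _))

private theorem k1_isOpen_mk (k : ℕ) (c : Zk ℓ k) :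
    IsOpen {z : ℤ_[ℓ] | Ideal.Quotient.mk (Ideal.span {(ℓ : ℤ_[ℓ]) ^ k}) z = c} := by
  obtain ⟨z0, rfl⟩ := Ideal.Quotient.mk_surjective c
  have h1 : {z : ℤ_[ℓ] | Ideal.Quotient.mk (Ideal.span {(ℓ : ℤ_[ℓ]) ^ k}) z =
      Ideal.Quotient.mk (Ideal.span {(ℓ : ℤ_[ℓ]) ^ k}) z0} =
      Metric.closedBall z0 ((ℓ : ℝ) ^ (-(k : ℤ))) := by
    ext z
    rw [Set.mem_ofPred_eq, Metric.mem_closedBall, dist_eq_norm,
      PadicInt.norm_le_pow_iff_mem_span_pow]
    exact Ideal.Quotient.eq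
  rw [h1]
  have h2 : (0 : ℝ) < (ℓ : ℝ) := by exact_mod_cast (Fact.out : ℓ.Prime).pos
  exact IsUltrametricDist.isOpen_closedBall z0 (zpow_pos h2 _).ne'

private theorem k1_isOpen_red (k : ℕ) (c : Fin d → Zk ℓ k) :
    IsOpen {w : Fin d → ℤ_[ℓ] | red ℓ d k w = c} := by
  have h1 : {w : Fin d → ℤ_[ℓ] | red ℓ d k w = c} = ⋂ l : Fin d, (fun w : Fin d → ℤ_[ℓ] => w l) ⁻¹'
      {z : ℤ_[ℓ] | Ideal.Quotient.mk (Ideal.span {(ℓ : ℤ_[ℓ]) ^ k}) z = c l} := by
    ext w
    rw [Set.mem_ofPred_eq, Set.mem_iInter]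
    exact funext_iff
  rw [h1]
  exact isOpen_iInter_of_finite fun l => (k1_isOpen_mk k (c l)).preimage (continuous_apply l)

private theorem k1_red_congr (k : ℕ) (α : (Fin d → ℤ_[ℓ]) →ₗ[ℤ_[ℓ]] (Fin d → ℤ_[ℓ]))
    {w w' : Fin d → ℤ_[ℓ]} (h : red ℓ d k w = red ℓ d k w') :
    red ℓ d k (α w) = red ℓ d k (α w') := by
  rw [← sub_eq_zero, ← map_sub, ← map_sub]
  rw [← sub_eq_zero, ← map_sub] at h
  obtain ⟨v, hv⟩ := (red_eq_zero_iff k _).1 h
  rw [hv, map_smul]
  exact (red_eq_zero_iff k _).2 ⟨_, rfl⟩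

/-- The endomorphism of `V / ℓ^k` induced by one of `V`. -/
private noncomputable def k1_ind (k : ℕ) (α : (Fin d → ℤ_[ℓ]) →ₗ[ℤ_[ℓ]] (Fin d → ℤ_[ℓ])) :
    (Fin d → Zk ℓ k) →ₗ[ℤ_[ℓ]] (Fin d → Zk ℓ k) where
  toFun w := red ℓ d k (α (Function.surjInv (red_surjective k) w))
  map_add' w w' := by
    rw [← map_add, ← map_add]
    refine k1_red_congr k α ?_
    rw [map_add, Function.surjInv_eq (red_surjective k), Function.surjInv_eq (red_surjective k),
      Function.surjInv_eq (red_surjective k)]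
  map_smul' r w := by
    rw [RingHom.id_apply, ← map_smul, ← map_smul]
    refine k1_red_congr k α ?_
    rw [map_smul, Function.surjInv_eq (red_surjective k), Function.surjInv_eq (red_surjective k)]

private theorem k1_ind_red (k : ℕ) (α : (Fin d → ℤ_[ℓ]) →ₗ[ℤ_[ℓ]] (Fin d → ℤ_[ℓ]))
    (w : Fin d → ℤ_[ℓ]) : k1_ind k α (red ℓ d k w) = red ℓ d k (α w) :=
  k1_red_congr k α (Function.surjInv_eq (red_surjective k) _)

/-- **Reduction of the coefficients.**
Proof: `ρ x` maps `ker red = ℓ^k V` to itself, so it induces an endomorphism of `V / ℓ^k` (`red_surjective`; choose preimages, `Function.surjInv`, or `Submodule.liftQ`), a representation by surjectivity. Let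
`W = {x ∈ K' | red (ρ x e_i) = red e_i for all i}` (`e_i` the standard basis), the subgroup of the `x` with `ρ_k x = 1` mapped to `M(𝔸_f)`. It is relatively open in `K'`: the map `x ↦ ρ x e_i` is continuous, and `{w | red w = red e_i}` is open in
`Fin d → ℤ_[ℓ]` (a coset of `ℓ^k V`; `{z : ℤ_[ℓ] | ℓ^k ∣ z}` is a ball, `PadicInt.norm_le_pow_iff_mem_span_pow`). `isLevel_of_isOpen` (`WL/F1.lean`). -/
theorem exists_rhok (hU : IsTame ℓ U') (hK' : IsLevel ℓ U' K')
    (ρ : Representation ℤ_[ℓ] K' (Fin d → ℤ_[ℓ])) (hρ : ∀ w, Continuous fun x : K' => ρ x w)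
    (k : ℕ) : ∃ (ρk : Representation ℤ_[ℓ] K' (Fin d → Zk ℓ k)) (W : Subgroup D'.Ad), W ≤ K' ∧
      IsLevel ℓ U' W ∧ (∀ x w, ρk x (red ℓ d k w) = red ℓ d k (ρ x w)) ∧
      ∀ x : K', (x : D'.Ad) ∈ W → ρk x = 1 := by
  classical
  let ρk : Representation ℤ_[ℓ] K' (Fin d → Zk ℓ k) :=
    { toFun := fun x => k1_ind k (ρ x)
      map_one' := by
        refine LinearMap.ext fun w => ?_
        obtain ⟨w, rfl⟩ := red_surjective k w
        rw [k1_ind_red, map_one]
        rfl
      map_mul' := fun x y => by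
        refine LinearMap.ext fun w => ?_
        obtain ⟨w, rfl⟩ := red_surjective k w
        rw [k1_ind_red, map_mul, Module.End.mul_apply, Module.End.mul_apply, k1_ind_red,
          k1_ind_red] }
  have hred : ∀ x w, ρk x (red ℓ d k w) = red ℓ d k (ρ x w) := fun x w => k1_ind_red k (ρ x) w
  have hker : ∀ x, ρk x = 1 ↔
      ∀ i, red ℓ d k (ρ x (Pi.single i 1)) = red ℓ d k (Pi.single i 1) := by
    intro x
    constructor
    · intro h i
      rw [← hred, h]
      rfl
    · intro h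
      have h1 : red ℓ d k ∘ₗ ρ x = red ℓ d k := by
        refine (Pi.basisFun ℤ_[ℓ] (Fin d)).ext fun i => ?_
        rw [Pi.basisFun_apply]
        exact h i
      refine LinearMap.ext fun w => ?_
      obtain ⟨w, rfl⟩ := red_surjective k w
      rw [hred]
      exact LinearMap.congr_fun h1 w
  have hmem : ∀ x : K', (x : D'.Ad) ∈ (MonoidHom.ker ρk).map K'.subtype ↔ ρk x = 1 := by
    intro x
    constructor
    · rintro ⟨y, hy, hyx⟩
      have h1 : y = x := Subtype.ext hyx
      rw [← h1]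
      exact hy
    · intro h
      exact ⟨x, h, rfl⟩
  refine ⟨ρk, (MonoidHom.ker ρk).map K'.subtype, Subgroup.map_subtype_le _, ?_, hred,
    fun x hx => (hmem x).1 hx⟩
  refine isLevel_of_isOpen hU hK' (Subgroup.map_subtype_le _) ?_
  have h1 : {x : K' | (x : D'.Ad) ∈ (MonoidHom.ker ρk).map K'.subtype} =
      ⋂ i : Fin d, (fun x : K' => ρ x (Pi.single i 1)) ⁻¹'
        {w : Fin d → ℤ_[ℓ] | red ℓ d k w = red ℓ d k (Pi.single i 1)} := by
    ext x
    rw [Set.mem_ofPred_eq, hmem, hker, Set.mem_iInter]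
    rfl
  rw [h1]
  exact isOpen_iInter_of_finite fun i => (k1_isOpen_red k _).preimage (hρ _)

end Pool.Agent.Lib.MP_666dc0_nt.TP
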