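import Mathlib

/-!
# TP, L1: lattices over `ℤ_ℓ`
-/

namespace Pool.Agent.Lib.MP_666dc0_nt.TP

variable {ℓ : ℕ} [Fact ℓ.Prime]

/-- An Artin-Rees lemma: for submodules `W` of a finitely generated torsion free `ℤ_ℓ`-module `H` (indeed of any finitely generated module) there is `a` with `W ∩ ℓ^k H ⊆ ℓ^(k-a) W` for all `k ≥ a`.
Proof: the torsion of the finitely generated module `H ⧸ W` is killed by `ℓ^a` for some `a` (it is finitely generated, `ℤ_ℓ` noetherian, and each element is killed by a power of `ℓ`: a nonzero element of `ℤ_ℓ` is a unit times a power of `ℓ`,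
`PadicInt.unitCoeff_spec`). If `w = ℓ^k h ∈ W`, then the class of `h` is torsion, so `ℓ^a h ∈ W` and `w = ℓ^(k-a) (ℓ^a h)`. -/
theorem exists_artinRees {H : Type} [AddCommGroup H] [Module ℤ_[ℓ] H] [Module.Finite ℤ_[ℓ] H]
    (W : Submodule ℤ_[ℓ] H) : ∃ a : ℕ, ∀ k : ℕ, a ≤ k → ∀ w ∈ W, ∀ h : H,
      w = (ℓ : ℤ_[ℓ]) ^ k • h → ∃ w' ∈ W, w = (ℓ : ℤ_[ℓ]) ^ (k - a) • w' := by
  have hN : IsNoetherian ℤ_[ℓ] H := inferInstance
  let f : ℕ →o Submodule ℤ_[ℓ] H :=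
    { toFun := fun a => W.comap ((ℓ : ℤ_[ℓ]) ^ a • (LinearMap.id : H →ₗ[ℤ_[ℓ]] H))
      monotone' := by
        intro a b hab x hx
        rw [Submodule.mem_comap, LinearMap.smul_apply, LinearMap.id_apply] at hx ⊢
        have h1 : (ℓ : ℤ_[ℓ]) ^ b • x = (ℓ : ℤ_[ℓ]) ^ (b - a) • (ℓ : ℤ_[ℓ]) ^ a • x := by
          rw [smul_smul, ← pow_add, Nat.sub_add_cancel hab]
        rw [h1]
        exact W.smul_mem _ hx }
  obtain ⟨a, ha⟩ := monotone_stabilizes_iff_noetherian.mpr hN f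
  refine ⟨a, fun k hk w hw h hwh => ⟨(ℓ : ℤ_[ℓ]) ^ a • h, ?_, ?_⟩⟩
  · have h1 : h ∈ f k := by
      change (ℓ : ℤ_[ℓ]) ^ k • h ∈ W
      rw [← hwh]
      exact hw
    rw [← ha k hk] at h1
    exact h1
  · rw [hwh, smul_smul, ← pow_add, Nat.sub_add_cancel hk]

/-- A torsion free quotient: let `B ≤ Z` be submodules of `M` and `m₀ Z ⊆ Y + B`, `Y` finitely generated, `m₀ > 0`. There are a finitely generated torsion free module `H` and a linear map `p : Z → H` onto `H` such that `p z = 0` if and only if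
`ℓ^r z ∈ B` for some `r`.
Proof: `Bs = {z ∈ Z | ∃ r, ℓ^r z ∈ B}` is a submodule of `Z`, `H = Z ⧸ Bs`; it is torsion free (`PadicInt.unitCoeff_spec` again). For `z ∈ Z`, `m₀ z = y + b` with `y = m₀ z - b ∈ Z ∩ Y`; the image in `H` of the module `Z ∩ Y`, finitely generated since `ℤ_ℓ` is noetherian, contains `m₀ H`,
so `m₀ H` is finitely generated, and `H ≅ m₀ H` by multiplication with `m₀ ≠ 0` (torsion free). -/
theorem exists_quotient {M : Type} [AddCommGroup M] [Module ℤ_[ℓ] M] {Z B Y : Submodule ℤ_[ℓ] M}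
    (hB : B ≤ Z) (hY : Y.FG) {m₀ : ℕ} (hm : 0 < m₀)
    (h : ∀ z ∈ Z, ∃ y ∈ Y, ∃ b ∈ B, (m₀ : ℤ_[ℓ]) • z = y + b) :
    ∃ (H : Type) (_ : AddCommGroup H) (_ : Module ℤ_[ℓ] H) (p : Z →ₗ[ℤ_[ℓ]] H),
      Module.Finite ℤ_[ℓ] H ∧ (∀ (r : ℤ_[ℓ]) (x : H), r ≠ 0 → r • x = 0 → x = 0) ∧
      Function.Surjective p ∧ ∀ z : Z, p z = 0 ↔ ∃ r : ℕ, (ℓ : ℤ_[ℓ]) ^ r • (z : M) ∈ B := by
  let Bs : Submodule ℤ_[ℓ] Z :=
    { carrier := {z | ∃ r : ℕ, (ℓ : ℤ_[ℓ]) ^ r • (z : M) ∈ B}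
      zero_mem' := ⟨0, by rw [Submodule.coe_zero, smul_zero]; exact B.zero_mem⟩
      add_mem' := by
        rintro x y ⟨r, hr⟩ ⟨s, hs⟩
        refine ⟨r + s, ?_⟩
        rw [Submodule.coe_add, smul_add]
        refine B.add_mem ?_ ?_
        · rw [add_comm r s, pow_add, mul_smul]
          exact B.smul_mem _ hr
        · rw [pow_add, mul_smul]
          exact B.smul_mem _ hs
      smul_mem' := by
        rintro c x ⟨r, hr⟩
        refine ⟨r, ?_⟩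
        rw [Submodule.coe_smul, smul_comm]
        exact B.smul_mem _ hr }
  have hBs : ∀ z : Z, Bs.mkQ z = 0 ↔ ∃ r : ℕ, (ℓ : ℤ_[ℓ]) ^ r • (z : M) ∈ B := by
    intro z
    rw [Submodule.mkQ_apply, Submodule.Quotient.mk_eq_zero]
    exact Iff.rfl
  have htf : ∀ (r : ℤ_[ℓ]) (x : Z ⧸ Bs), r ≠ 0 → r • x = 0 → x = 0 := by
    intro r x hr hx
    obtain ⟨z, rfl⟩ := Bs.mkQ_surjective x
    rw [← map_smul, hBs] at hx
    obtain ⟨k, hk⟩ := hx
    rw [hBs]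
    refine ⟨k + r.valuation, ?_⟩
    have h1 := PadicInt.unitCoeff_spec hr
    have h2 : (ℓ : ℤ_[ℓ]) ^ (k + r.valuation) • (z : M) =
        (((PadicInt.unitCoeff hr)⁻¹ : ℤ_[ℓ]ˣ) : ℤ_[ℓ]) • ((ℓ : ℤ_[ℓ]) ^ k • ((r • z : Z) : M)) := by
      rw [Submodule.coe_smul, smul_smul, smul_smul]
      congr 1
      rw [pow_add]
      have h3 : (((PadicInt.unitCoeff hr)⁻¹ : ℤ_[ℓ]ˣ) : ℤ_[ℓ]) * (PadicInt.unitCoeff hr : ℤ_[ℓ]) = 1 :=
        Units.inv_mul _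
      linear_combination (-((ℓ : ℤ_[ℓ]) ^ k * (ℓ : ℤ_[ℓ]) ^ r.valuation)) * h3 -
        (((PadicInt.unitCoeff hr)⁻¹ : ℤ_[ℓ]ˣ) : ℤ_[ℓ]) * (ℓ : ℤ_[ℓ]) ^ k * h1
    rw [h2]
    exact B.smul_mem _ hk
  have hYn : IsNoetherian ℤ_[ℓ] Y := by
    have : Module.Finite ℤ_[ℓ] Y := Module.Finite.iff_fg.mpr hY
    infer_instance
  let W : Submodule ℤ_[ℓ] Z := Y.comap Z.subtype
  have hWn : IsNoetherian ℤ_[ℓ] W := by
    let i : W →ₗ[ℤ_[ℓ]] Y :=
      { toFun := fun w => ⟨((w : Z) : M), w.2⟩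
        map_add' := fun _ _ => rfl
        map_smul' := fun _ _ => rfl }
    refine isNoetherian_of_injective i ?_
    intro a b hab
    apply Subtype.ext
    apply Subtype.ext
    exact congrArg (fun y : Y => (y : M)) hab
  let g : W →ₗ[ℤ_[ℓ]] (Z ⧸ Bs) := Bs.mkQ.comp W.subtype
  have hgn : IsNoetherian ℤ_[ℓ] (LinearMap.range g) :=
    isNoetherian_of_surjective (f := g.rangeRestrict) (LinearMap.range_eq_top.mpr g.surjective_rangeRestrict)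
  have hm0 : (m₀ : ℤ_[ℓ]) ≠ 0 := Nat.cast_ne_zero.mpr hm.ne'
  have hmem : ∀ x : Z ⧸ Bs, (m₀ : ℤ_[ℓ]) • x ∈ LinearMap.range g := by
    intro x
    obtain ⟨z, rfl⟩ := Bs.mkQ_surjective x
    obtain ⟨y, hy, b, hb, hyb⟩ := h z z.2
    have hyZ : y ∈ Z := by
      have h1 : y = (m₀ : ℤ_[ℓ]) • (z : M) - b := by rw [hyb]; abel
      rw [h1]
      exact Z.sub_mem (Z.smul_mem _ z.2) (hB hb)
    refine ⟨⟨⟨y, hyZ⟩, hy⟩, ?_⟩
    change Bs.mkQ (⟨y, hyZ⟩ : Z) = (m₀ : ℤ_[ℓ]) • Bs.mkQ z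
    have h2 : (⟨y, hyZ⟩ : Z) = (m₀ : ℤ_[ℓ]) • z - ⟨b, hB hb⟩ := by
      apply Subtype.ext
      change y = (m₀ : ℤ_[ℓ]) • (z : M) - b
      rw [hyb]
      abel
    have h3 : Bs.mkQ (⟨b, hB hb⟩ : Z) = 0 := by
      rw [hBs]
      exact ⟨0, by rw [pow_zero, one_smul]; exact hb⟩
    rw [h2, map_sub, map_smul, h3, sub_zero]
  have hfin : Module.Finite ℤ_[ℓ] (Z ⧸ Bs) := by
    let j : (Z ⧸ Bs) →ₗ[ℤ_[ℓ]] LinearMap.range g :=
      LinearMap.codRestrict (LinearMap.range g) ((m₀ : ℤ_[ℓ]) • LinearMap.id) hmem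
    refine Module.Finite.of_injective j ?_
    rw [injective_iff_map_eq_zero]
    intro x hx
    apply htf _ x hm0
    exact congrArg (fun y : LinearMap.range g => (y : Z ⧸ Bs)) hx
  exact ⟨Z ⧸ Bs, inferInstance, inferInstance, Bs.mkQ, hfin, htf, Bs.mkQ_surjective, hBs⟩

/-- A finitely generated `ℤ_ℓ`-submodule of `ℚ̄_ℓ` is compact: it is the image of `ℤ_ℓ^N` under a continuous map (`Submodule.fg_iff_exists_fin_linearMap`; the map `(r_i) ↦ ∑ r_i • x_i` is continuous: `r • x = algebraMap r * x`). -/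
theorem isCompact_of_fg {N : Submodule ℤ_[ℓ] (PadicAlgCl ℓ)} (hN : N.FG) :
    IsCompact (N : Set (PadicAlgCl ℓ)) := by
  obtain ⟨n, f, hf⟩ := N.fg_iff_exists_fin_linearMap.mp hN
  have hc : Continuous f := by
    have h1 : (f : (Fin n → ℤ_[ℓ]) → PadicAlgCl ℓ) =
        fun x => ∑ i, ((x i : ℤ_[ℓ]) : ℚ_[ℓ]) • f (Pi.single i 1) := by
      funext x
      conv_lhs => rw [pi_eq_sum_univ' x, map_sum]
      refine Finset.sum_congr rfl fun i _ => ?_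
      rw [map_smul, algebra_compatible_smul ℚ_[ℓ] (x i)]
      rfl
    rw [h1]
    refine continuous_finsetSum _ fun i _ => ?_
    have h3 : Continuous (fun y : ℤ_[ℓ] => (y : ℚ_[ℓ])) := continuous_subtype_val
    have h4 : Continuous (fun x : Fin n → ℤ_[ℓ] => ((x i : ℤ_[ℓ]) : ℚ_[ℓ])) :=
      h3.comp (continuous_apply i)
    exact h4.smul continuous_const
  have h2 : (N : Set (PadicAlgCl ℓ)) = Set.range f := by
    rw [← hf]
    exact LinearMap.coe_range f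
  rw [h2]
  exact isCompact_range hc

end Pool.Agent.Lib.MP_666dc0_nt.TP
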