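import Pool.Agent.Lib.MP_666dc0_nt.TP.L1

/-!
# TP, L2: characters of an algebra acting on a lattice
-/

namespace Pool.Agent.Lib.MP_666dc0_nt.TP

variable {ℓ : ℕ} [Fact ℓ.Prime]

/-- The module of linear maps between finitely generated modules is noetherian. -/
private theorem L2noeth {Q H : Type} [AddCommGroup Q] [Module ℤ_[ℓ] Q] [AddCommGroup H]
    [Module ℤ_[ℓ] H] [Module.Finite ℤ_[ℓ] Q] [Module.Finite ℤ_[ℓ] H] :
    IsNoetherian ℤ_[ℓ] (Q →ₗ[ℤ_[ℓ]] H) := by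
  obtain ⟨n, g, hg⟩ := Module.Finite.exists_fin (R := ℤ_[ℓ]) (M := Q)
  let F : (Q →ₗ[ℤ_[ℓ]] H) →ₗ[ℤ_[ℓ]] (Fin n → H) :=
    { toFun := fun φ i => φ (g i)
      map_add' := fun _ _ => rfl
      map_smul' := fun _ _ => rfl }
  refine isNoetherian_of_injective F fun φ ψ h => ?_
  refine LinearMap.ext_on_range hg fun i => ?_
  exact congrFun h i

/-- **Characters are integral and continuous.** Let the algebra `E` act on the module `M`, preserving the submodules `B, W ≤ Z`, with `m₀ Z ⊆ Y + B`, `Y` finitely generated. Let `c : E → ℚ̄_ℓ` be a character such that `c t = 0` if `t` kills the image of `W` in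
`(Z / B) ⊗ ℚ`. Then (1) the values of `c` are in a compact set and of norm `≤ 1`; (2) if `t W ⊆ B + ℓ^k Z` then `‖c t‖ ≤ ℓ^(a - k)`, `a` a constant.
Proof: let `p : Z → H` be as in `exists_quotient`. `E` acts on `H` (`p` is surjective, its kernel is stable: `ℓ^r t z = t (ℓ^r z) ∈ B`); let `W' = p(W)`, a finitely generated torsion free module (`H` is noetherian) stable under `E`, and `e : E → Module.End ℤ_[ℓ] W'` the action, a linear
(ring) homomorphism to a finitely generated module (`Module.Finite` of `Module.End`: `W'` is free by `Module.free_of_finite_type_torsion_free'`). If `e t = 0`, then for `w ∈ W`, `p (t w) = 0`, so `ℓ^r t w ∈ B` for some `r`, and `c t = 0` by `hc`. So `c t` depends only on `e t`: `c = c' ∘ e` with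
`c'` a linear map on the range `R_e` of `e` (`LinearMap.range`, finitely generated). (1) The range of `c` is a finitely generated submodule `N` of `ℚ̄_ℓ` (compact: `isCompact_of_fg`), closed under products; all powers of `c t` are in the bounded set `N`, so `‖c t‖ ≤ 1`.
(2) Let `a₁` be the constant of `exists_artinRees` for `W' ≤ H` and `a₂` that for `R_e ≤ Module.End ℤ_[ℓ] W'`, `a = a₁ + a₂`. For `k < a` use `‖c t‖ ≤ 1`. For `k ≥ a`: `t w = b + ℓ^k z` gives `p (t w) = ℓ^k p z ∈ ℓ^(k - a₁) W'`; so `e t` maps `W'` to `ℓ^(k-a₁) W'` and is `ℓ^(k - a₁)` times an endomorphism of `W'`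
(`W'` is torsion free: divide the values; additivity and linearity by uniqueness), so `e t = ℓ^(k - a) e t'` for some `t' ∈ E` (Artin-Rees), `c t = ℓ^(k - a) c t'`, of norm at most `ℓ^(-(k-a))`. -/
theorem character_bounds {M E : Type} [AddCommGroup M] [Module ℤ_[ℓ] M] [Ring E]
    [Algebra ℤ_[ℓ] E] (act : E →ₐ[ℤ_[ℓ]] Module.End ℤ_[ℓ] M) {Z B W Y : Submodule ℤ_[ℓ] M}
    (hB : B ≤ Z) (hW : W ≤ Z) (hZt : ∀ t, ∀ z ∈ Z, act t z ∈ Z) (hBt : ∀ t, ∀ z ∈ B, act t z ∈ B)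
    (hWt : ∀ t, ∀ z ∈ W, act t z ∈ W) (hY : Y.FG) {m₀ : ℕ} (hm : 0 < m₀)
    (h : ∀ z ∈ Z, ∃ y ∈ Y, ∃ b ∈ B, (m₀ : ℤ_[ℓ]) • z = y + b)
    (c : E →ₐ[ℤ_[ℓ]] PadicAlgCl ℓ)
    (hc : ∀ t, (∀ w ∈ W, ∃ r : ℕ, (ℓ : ℤ_[ℓ]) ^ r • act t w ∈ B) → c t = 0) :
    (∃ C : Set (PadicAlgCl ℓ), IsCompact C ∧ ∀ t, c t ∈ C) ∧ (∀ t, ‖c t‖ ≤ 1) ∧
    ∃ a : ℕ, ∀ (k : ℕ) (t : E),
      (∀ w ∈ W, ∃ b ∈ B, ∃ z ∈ Z, act t w = b + (ℓ : ℤ_[ℓ]) ^ k • z) →
      ‖c t‖ ≤ (ℓ : ℝ) ^ (a : ℤ) * (ℓ : ℝ) ^ (-(k : ℤ)) := by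
  classical
  obtain ⟨H, _, _, p, hfin, htf, hsurj, hp⟩ := exists_quotient hB hY hm h
  have hpB : ∀ (b : M) (hb : b ∈ B), p ⟨b, hB hb⟩ = 0 := fun b hb =>
    (hp _).2 ⟨0, by rw [pow_zero, one_smul]; exact hb⟩
  -- the maps `W → H`
  let q : W →ₗ[ℤ_[ℓ]] H := p.comp (Submodule.inclusion hW)
  let f : E → (W →ₗ[ℤ_[ℓ]] H) := fun t => p.comp ((act t).restrict (fun w hw => hZt t w (hW hw)))
  have hle : ∀ t, LinearMap.ker q ≤ LinearMap.ker (f t) := by
    intro t w hw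
    have h1 : p ⟨(w : M), hW w.2⟩ = 0 := hw
    obtain ⟨r, hr⟩ := (hp _).1 h1
    have h2 : p ⟨act t (w : M), hZt t w (hW w.2)⟩ = 0 := by
      refine (hp _).2 ⟨r, ?_⟩
      show (ℓ : ℤ_[ℓ]) ^ r • act t (w : M) ∈ B
      rw [← map_smul]
      exact hBt t _ hr
    exact h2
  have hQ : Module.Finite ℤ_[ℓ] (W ⧸ LinearMap.ker q) :=
    Module.Finite.equiv (LinearMap.quotKerEquivRange q).symm
  let e : E →ₗ[ℤ_[ℓ]] ((W ⧸ LinearMap.ker q) →ₗ[ℤ_[ℓ]] H) :=
    { toFun := fun t => (LinearMap.ker q).liftQ (f t) (hle t)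
      map_add' := fun t t' => by
        refine Submodule.linearMap_qext _ (LinearMap.ext fun w => ?_)
        have h1 : f (t + t') w = f t w + f t' w := by
          show p _ = p _ + p _
          rw [← map_add]
          congr 1
          refine Subtype.ext ?_
          show act (t + t') (w : M) = act t (w : M) + act t' (w : M)
          rw [map_add]
          rfl
        exact h1
      map_smul' := fun r t => by
        refine Submodule.linearMap_qext _ (LinearMap.ext fun w => ?_)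
        have h1 : f (r • t) w = r • f t w := by
          show p _ = r • p _
          rw [← map_smul]
          congr 1
          refine Subtype.ext ?_
          show act (r • t) (w : M) = r • act t (w : M)
          rw [map_smul]
          rfl
        exact h1 }
  have hnoe : IsNoetherian ℤ_[ℓ] ((W ⧸ LinearMap.ker q) →ₗ[ℤ_[ℓ]] H) := L2noeth
  have hfinHom : Module.Finite ℤ_[ℓ] ((W ⧸ LinearMap.ker q) →ₗ[ℤ_[ℓ]] H) := inferInstance
  have hker : ∀ t, e t = 0 → c t = 0 := by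
    intro t ht
    refine hc t fun w hw => ?_
    have h1 : e t (Submodule.Quotient.mk ⟨w, hw⟩) = 0 := by rw [ht]; rfl
    have h2 : p ⟨act t w, hZt t w (hW hw)⟩ = 0 := h1
    exact (hp _).1 h2
  -- the range of `c`
  have hN : (LinearMap.range c.toLinearMap).FG := by
    have h1 : LinearMap.ker e ≤ LinearMap.ker c.toLinearMap := fun t ht => hker t ht
    have h2 := Submodule.range_liftQ (LinearMap.ker e) c.toLinearMap h1
    rw [← h2]
    have h3 : Module.Finite ℤ_[ℓ] (E ⧸ LinearMap.ker e) :=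
      Module.Finite.equiv (LinearMap.quotKerEquivRange e).symm
    rw [LinearMap.range_eq_map]
    exact h3.fg_top.map _
  have hcomp := isCompact_of_fg hN
  have hmem : ∀ t, c t ∈ ((LinearMap.range c.toLinearMap : Submodule ℤ_[ℓ] (PadicAlgCl ℓ)) :
      Set (PadicAlgCl ℓ)) := fun t => ⟨t, rfl⟩
  have hone : ∀ t, ‖c t‖ ≤ 1 := by
    intro t
    obtain ⟨R, hR⟩ := hcomp.isBounded.exists_norm_le
    by_contra hgt
    rw [not_le] at hgt
    obtain ⟨k, hk⟩ := pow_unbounded_of_one_lt R hgt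
    have h1 := hR _ (hmem (t ^ k))
    rw [map_pow, norm_pow] at h1
    exact absurd h1 (not_le.2 hk)
  refine ⟨⟨_, hcomp, hmem⟩, hone, ?_⟩
  obtain ⟨a, ha⟩ := exists_artinRees (LinearMap.range e)
  have hℓ : (1 : ℝ) < ℓ := by exact_mod_cast (Fact.out : ℓ.Prime).one_lt
  have hℓ0 : (0 : ℝ) < ℓ := one_pos.trans hℓ
  refine ⟨a, fun k t ht => ?_⟩
  rw [← zpow_add₀ hℓ0.ne']
  rcases lt_or_ge k a with hka | hka
  · refine (hone t).trans (one_le_zpow₀ hℓ.le ?_)
    omega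
  · have hpow : (ℓ : ℤ_[ℓ]) ^ k ≠ 0 := pow_ne_zero _ (by
      exact_mod_cast (Fact.out : ℓ.Prime).ne_zero)
    let μ : H →ₗ[ℤ_[ℓ]] H := LinearMap.lsmul ℤ_[ℓ] H ((ℓ : ℤ_[ℓ]) ^ k)
    have hμ : Function.Injective μ := by
      rw [injective_iff_map_eq_zero]
      intro x hx
      exact htf _ x hpow hx
    have hval : ∀ x, e t x ∈ LinearMap.range μ := by
      intro x
      obtain ⟨w, rfl⟩ := Submodule.Quotient.mk_surjective _ x
      obtain ⟨b, hb, z, hz, hbz⟩ := ht w w.2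
      refine ⟨p ⟨z, hz⟩, ?_⟩
      have h1 : e t (Submodule.Quotient.mk w) = p ⟨act t (w : M), hZt t w (hW w.2)⟩ := rfl
      rw [h1]
      have h2 : (⟨act t (w : M), hZt t w (hW w.2)⟩ : Z) =
          ⟨b, hB hb⟩ + (ℓ : ℤ_[ℓ]) ^ k • ⟨z, hz⟩ := Subtype.ext hbz
      rw [h2, map_add, hpB b hb, zero_add, map_smul]
      rfl
    let φ : (W ⧸ LinearMap.ker q) →ₗ[ℤ_[ℓ]] H :=
      (LinearEquiv.ofInjective μ hμ).symm.toLinearMap.comp ((e t).codRestrict _ hval)
    have hφ : e t = (ℓ : ℤ_[ℓ]) ^ k • φ := by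
      refine LinearMap.ext fun x => ?_
      have h1 := LinearEquiv.ofInjective_symm_apply (f := μ) (h := hμ) ((e t).codRestrict _ hval x)
      exact h1.symm
    obtain ⟨_, ⟨t', rfl⟩, ht'⟩ := ha k hka (e t) ⟨t, rfl⟩ φ hφ
    have h1 : c (t - (ℓ : ℤ_[ℓ]) ^ (k - a) • t') = 0 := by
      refine hker _ ?_
      rw [map_sub, map_smul, ht', sub_self]
    rw [map_sub, map_smul, sub_eq_zero] at h1
    rw [h1]
    have h2 : ‖(ℓ : ℤ_[ℓ]) ^ (k - a) • c t'‖ = ((ℓ : ℝ)⁻¹) ^ (k - a) * ‖c t'‖ := by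
      rw [Algebra.smul_def, norm_mul, map_pow, norm_pow, map_natCast]
      congr 2
      have h3 := PadicAlgCl.norm_extends ℓ (ℓ : ℚ_[ℓ])
      rw [Padic.norm_p] at h3
      rw [← h3]
      exact congrArg norm (map_natCast (algebraMap ℚ_[ℓ] (PadicAlgCl ℓ)) ℓ).symm
    rw [h2]
    have h4 : (ℓ : ℝ) ^ ((a : ℤ) + -(k : ℤ)) = ((ℓ : ℝ)⁻¹) ^ (k - a) := by
      rw [inv_pow, ← zpow_natCast, ← zpow_neg]
      congr 1
      push_cast [hka]
      ring
    rw [h4]
    exact mul_le_of_le_one_right (by positivity) (hone t')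

end Pool.Agent.Lib.MP_666dc0_nt.TP
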