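import Pool.Agent.Lib.MP_666dc0_nt.TP.G4
import Pool.Agent.Lib.MP_666dc0_nt.Mg.G005
import Pool.Agent.Lib.MP_666dc0_nt.Mg.G006

/-!
# TP, N1: small levels of the group normalised by a level of the Levi subgroup
-/

open NumberField IsDedekindDomain
open scoped NumberField

namespace Pool.Agent.Lib.MP_666dc0_nt.TP

open WL

variable {F : Type} [Field F] [NumberField F] {n : ℕ} {D D' : Datum F n} {μ : Grading D}
  {ℓ : ℕ} [Fact ℓ.Prime] {U K L₁ : Subgroup D.Ad}

private theorem n1_isClosed_trivialAt (v : HeightOneSpectrum (𝓞 F)) :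
    IsClosed {g : D.Ad | TrivialAt v g} := by
  have h1 : Continuous (fun g : D.Ad => (mat g).map
      (fun a : FiniteAdeleRing (𝓞 F) F => (a v : v.adicCompletion F))) := by
    apply continuous_matrix
    intro i j
    have h2 : Continuous (fun g : D.Ad => mat g i j) := by
      have h3 := (isEmbedding_entries (D := D)).continuous.fst
      exact (continuous_apply j).comp ((continuous_apply i).comp h3)
    exact (RestrictedProduct.continuous_eval v).comp h2
  have h4 : {g : D.Ad | TrivialAt v g} = (fun g : D.Ad => (mat g).map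
      (fun a : FiniteAdeleRing (𝓞 F) F => (a v : v.adicCompletion F))) ⁻¹'
      {(1 : Matrix (Fin n) (Fin n) (v.adicCompletion F))} := by
    ext g
    exact Iff.rfl
  rw [h4]
  exact isClosed_singleton.preimage h1

private theorem n1_exists_open {G : Type*} [Group G] [TopologicalSpace G]
    [IsTopologicalGroup G] (V : Subgroup G) (hV : IsOpen (V : Set G)) (C : Subgroup G)
    (hC : IsCompact (C : Set G)) :
    ∃ W : Subgroup G, (∀ x, x ∈ W ↔ ∀ c ∈ C, c⁻¹ * x * c ∈ V) ∧ IsOpen (W : Set G) := by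
  let W : Subgroup G :=
    { carrier := {x | ∀ c ∈ C, c⁻¹ * x * c ∈ V}
      mul_mem' := by
        intro x y hx hy c hc
        have h1 : c⁻¹ * (x * y) * c = (c⁻¹ * x * c) * (c⁻¹ * y * c) := by group
        rw [h1]
        exact V.mul_mem (hx c hc) (hy c hc)
      one_mem' := by
        intro c _
        have h1 : c⁻¹ * 1 * c = 1 := by group
        rw [h1]
        exact V.one_mem
      inv_mem' := by
        intro x hx c hc
        have h1 : c⁻¹ * x⁻¹ * c = (c⁻¹ * x * c)⁻¹ := by group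
        rw [h1]
        exact V.inv_mem (hx c hc) }
  refine ⟨W, fun x => Iff.rfl, ?_⟩
  have hO : IsOpen {x : G × G | x.1⁻¹ * x.2 * x.1 ∈ (V : Set G)} :=
    hV.preimage ((continuous_fst.inv.mul continuous_snd).mul continuous_fst)
  have hsub : (C : Set G) ×ˢ ({1} : Set G) ⊆ {x : G × G | x.1⁻¹ * x.2 * x.1 ∈ (V : Set G)} := by
    rintro ⟨c, x⟩ ⟨_, hx⟩
    have hx' : x = 1 := hx
    show c⁻¹ * x * c ∈ V
    have h1 : c⁻¹ * 1 * c = 1 := by group
    rw [hx', h1]
    exact V.one_mem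
  obtain ⟨u, v, _, hv, hVu, h1v, huv⟩ := generalized_tube_lemma hC isCompact_singleton hO hsub
  apply Subgroup.isOpen_of_mem_nhds W (g := 1)
  refine Filter.mem_of_superset (hv.mem_nhds (h1v rfl)) fun w hw => ?_
  intro c hc
  have h1 : (c, w) ∈ u ×ˢ v := ⟨hVu hc, hw⟩
  exact huv h1

/-- A level at `ℓ` is compact: it is the closed subset `{g | g trivial at all places not above ℓ}` of the compact set `U ⊔ K`.
(`f1_isCompact_K` in `WL/F1.lean`, private there: copy the proof.) -/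
theorem isCompact_level (hU : IsTame ℓ U) (hK : IsLevel ℓ U K) : IsCompact (K : Set D.Ad) := by
  have h1 : (K : Set D.Ad) = ((U ⊔ K : Subgroup D.Ad) : Set D.Ad) ∩
      ⋂ v : HeightOneSpectrum (𝓞 F), {g | (ℓ : 𝓞 F) ∉ v.asIdeal → TrivialAt v g} := by
    ext g
    constructor
    · intro hg
      refine ⟨(le_sup_right : K ≤ U ⊔ K) hg, ?_⟩
      rw [Set.mem_iInter]
      exact fun v hv => hK.supp g hg v hv
    · rintro ⟨h2, h3⟩
      rw [Set.mem_iInter] at h3
      obtain ⟨u, hu, k, hk, rfl⟩ := (mem_sup_iff hU hK.supp).1 h2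
      have h4 : u = 1 := by
        apply eq_one_of_trivialAt
        intro v
        by_cases hv : (ℓ : 𝓞 F) ∈ v.asIdeal
        · exact hU u hu v hv
        · have h5 : TrivialAt v (u * k) := h3 v hv
          have h6 := h5.mul (hK.supp k hk v hv).inv
          rwa [mul_inv_cancel_right] at h6
      rw [h4, one_mul]
      exact hk
  rw [h1]
  apply hK.isCompact.inter_right
  apply isClosed_iInter
  intro v
  by_cases hv : (ℓ : 𝓞 F) ∈ v.asIdeal
  · have h2 : {g : D.Ad | (ℓ : 𝓞 F) ∉ v.asIdeal → TrivialAt v g} = Set.univ := by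
      ext g
      exact ⟨fun _ => trivial, fun _ h => absurd hv h⟩
    rw [h2]
    exact isClosed_univ
  · have h2 : {g : D.Ad | (ℓ : 𝓞 F) ∉ v.asIdeal → TrivialAt v g} = {g : D.Ad | TrivialAt v g} := by
      ext g
      exact ⟨fun h => h hv, fun h _ => h⟩
    rw [h2]
    exact n1_isClosed_trivialAt v

/-- If `g ∈ U ⊔ K` is trivial at the places not above `ℓ` then `g ∈ K` (`mem_sup_iff`, `g = u k`, and `u = g k⁻¹` is trivial everywhere). -/
theorem mem_of_mem_sup (hU : IsTame ℓ U) (hK : IsLevel ℓ U K) {g : D.Ad} (hg : g ∈ U ⊔ K)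
    (ht : ∀ v : HeightOneSpectrum (𝓞 F), (ℓ : 𝓞 F) ∉ v.asIdeal → TrivialAt v g) : g ∈ K := by
  obtain ⟨u, hu, k, hk, rfl⟩ := (mem_sup_iff hU hK.supp).1 hg
  have h4 : u = 1 := by
    apply eq_one_of_trivialAt
    intro v
    by_cases hv : (ℓ : 𝓞 F) ∈ v.asIdeal
    · exact hU u hu v hv
    · have h5 : TrivialAt v (u * k) := ht v hv
      have h6 := h5.mul (hK.supp k hk v hv).inv
      rwa [mul_inv_cancel_right] at h6
  rw [h4, one_mul]
  exact hk

/-- A level can be shrunk to be normalised by a given compact group supported above `ℓ`.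
Proof: `V = U ⊔ L₁` is an open subgroup. The map `(c, x) ↦ c⁻¹ x c` is continuous and maps `C × {1}` to `1 ∈ V`; by the tube lemma (`generalized_tube_lemma`) there
is a neighbourhood `N` of `1` with `c⁻¹ x c ∈ V` for all `c ∈ C`, `x ∈ N`. So the subgroup `W = {x | ∀ c ∈ C, c⁻¹ x c ∈ V}` is open
(`Subgroup.isOpen_of_mem_nhds`), and `L = L₁ ⊓ W` is a level (`isLevel_inf`). If `l ∈ L` and `c ∈ C`, then `c⁻¹ l c ∈ V` is trivial at the places not above `ℓ`, so it is in
`L₁` (`mem_of_mem_sup`); hence `L = {l ∈ L₁ | ∀ c ∈ C, c⁻¹ l c ∈ L₁}`, which is normalised by `C` (`1 ∈ C`): for `c ∈ C`, `c l c⁻¹ = (c⁻¹)⁻¹ l c⁻¹ ∈ L₁`, and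
`c'⁻¹ (c l c⁻¹) c' = (c⁻¹ c')⁻¹ l (c⁻¹ c') ∈ L₁`. -/
theorem exists_level_normal (hU : IsTame ℓ U) (hL : IsLevel ℓ U L₁) (C : Subgroup D.Ad)
    (hC : ∀ g ∈ C, ∀ v : HeightOneSpectrum (𝓞 F), (ℓ : 𝓞 F) ∉ v.asIdeal → TrivialAt v g)
    (hCc : IsCompact (C : Set D.Ad)) :
    ∃ L : Subgroup D.Ad, L ≤ L₁ ∧ IsLevel ℓ U L ∧ ∀ c ∈ C, ∀ l ∈ L, c * l * c⁻¹ ∈ L := by
  obtain ⟨W, hW, hWo⟩ := n1_exists_open (U ⊔ L₁) hL.isOpen C hCc
  have hchar : ∀ l ∈ L₁ ⊓ W, ∀ c ∈ C, c⁻¹ * l * c ∈ L₁ := by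
    intro l hl c hc
    apply mem_of_mem_sup hU hL ((hW l).1 hl.2 c hc)
    intro v hv
    exact ((hC c hc v hv).inv.mul (hL.supp l hl.1 v hv)).mul (hC c hc v hv)
  refine ⟨L₁ ⊓ W, inf_le_left, isLevel_inf hU hL W hWo, ?_⟩
  intro c hc l hl
  refine ⟨?_, ?_⟩
  · have h1 := hchar l hl c⁻¹ (C.inv_mem hc)
    rwa [inv_inv] at h1
  · show c * l * c⁻¹ ∈ W
    rw [hW]
    intro c' hc'
    have h1 := hchar l hl (c⁻¹ * c') (C.mul_mem (C.inv_mem hc) hc')
    have h2 : (c⁻¹ * c')⁻¹ * l * (c⁻¹ * c') = c'⁻¹ * (c * l * c⁻¹) * c' := by group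
    rw [h2] at h1
    exact (le_sup_right : L₁ ≤ U ⊔ L₁) h1

/-- There are levels of `G` whose image in `M` is contained in a given level.
Proof: `W U'` (`U' = restr D' U`) is an open subgroup of `M(𝔸_f)` and `leviM` is continuous on `P(𝔸_f)` (`continuous_leviM`) with `leviM 1 = 1`, so there is an
open neighbourhood `Ω` of `1` in `D.Ad` with `leviM g ∈ U' ⊔ W` for `g ∈ Ω ∩ P(𝔸_f)`. The open compact subgroup `V = U ⊔ K` is a compact totally disconnected
topological group (`totallyDisconnected_Ad` of `WL/F1.lean`, `t2Space_Ad`), so there is an open subgroup `N` of `D.Ad` with `N ≤ V`, `N ⊆ Ω`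
(`exist_openSubgroup_sub_clopen_nhds_of_one` or the corresponding statement of Mathlib for compact totally disconnected groups, applied to `V`; the image in `D.Ad` of an open subgroup of
the open subgroup `V` is open). `L₁ = K ⊓ N` is a level (`isLevel_inf`). For `l ∈ L₁ ∩ P(𝔸_f)` the element `leviM l` is in `U' ⊔ W` and trivial at the places not above
`ℓ` (`Grading.IsLeviPart.trivialAt`), so it is in `W` (`mem_of_mem_sup` for `D'`, `isTame_restr`). -/
theorem exists_level_into (hM : μ.IsLevi D') (hU : IsTame ℓ U) (hK : IsLevel ℓ U K)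
    {W : Subgroup D'.Ad} (hW : IsLevel ℓ (restr D' U) W) :
    ∃ L : Subgroup D.Ad, IsLevel ℓ U L ∧
      ∀ l ∈ L, l ∈ μ.parab (algebraMap F (FiniteAdeleRing (𝓞 F) F)) →
        leviM hM (algebraMap F (FiniteAdeleRing (𝓞 F) F)) l ∈ W := by
  classical
  have hT2 : T2Space D.Ad := t2Space_Ad
  obtain ⟨Ω, hΩ, hΩ'⟩ := hW.isOpen.preimage (continuous_leviM hM)
  have hmemΩ : ∀ g (hg : g ∈ μ.parab (algebraMap F (FiniteAdeleRing (𝓞 F) F))), g ∈ Ω →
      leviM hM (algebraMap F (FiniteAdeleRing (𝓞 F) F)) g ∈ restr D' U ⊔ W := by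
    intro g hg hgΩ
    have h1 : (⟨g, hg⟩ : μ.parab (algebraMap F (FiniteAdeleRing (𝓞 F) F))) ∈
        (Subtype.val ⁻¹' Ω : Set (μ.parab (algebraMap F (FiniteAdeleRing (𝓞 F) F)))) := hgΩ
    rw [hΩ'] at h1
    exact h1
  have h1Ω : (1 : D.Ad) ∈ Ω := by
    have h1 : (⟨1, (μ.parab (algebraMap F (FiniteAdeleRing (𝓞 F) F))).one_mem⟩ :
        μ.parab (algebraMap F (FiniteAdeleRing (𝓞 F) F))) ∈
        (Subtype.val ⁻¹' Ω : Set (μ.parab (algebraMap F (FiniteAdeleRing (𝓞 F) F)))) := by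
      rw [hΩ']
      show leviM hM (algebraMap F (FiniteAdeleRing (𝓞 F) F)) (1 : D.Ad) ∈ restr D' U ⊔ W
      have h2 := leviM_inclM hM (algebraMap F (FiniteAdeleRing (𝓞 F) F)) 1
      rw [map_one] at h2
      rw [h2]
      exact (restr D' U ⊔ W).one_mem
    exact h1
  have hKc := isCompact_level hU hK
  have hKcs : CompactSpace K := isCompact_iff_compactSpace.1 hKc
  have hKtd : TotallyDisconnectedSpace K := by
    have := totallyDisconnected_Ad (D := D)
    exact Subtype.totallyDisconnectedSpace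
  have hO : IsOpen {k : K | (k : D.Ad) ∈ Ω} := hΩ.preimage continuous_subtype_val
  have h1O : (1 : K) ∈ {k : K | (k : D.Ad) ∈ Ω} := h1Ω
  obtain ⟨H, hH⟩ := ProfiniteGrp.exist_openNormalSubgroup_sub_open_nhds_of_one hO h1O
  have hmem : ∀ k : K, (k : D.Ad) ∈ H.toSubgroup.map K.subtype ↔ k ∈ H.toSubgroup := by
    intro k
    constructor
    · rintro ⟨k', hk', he⟩
      have h3 : k' = k := Subtype.ext he
      exact h3 ▸ hk'
    · intro hk
      exact ⟨k, hk, rfl⟩
  have hK'K : H.toSubgroup.map K.subtype ≤ K := by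
    rintro _ ⟨k, _, rfl⟩
    exact k.2
  have hlev : IsLevel ℓ U (H.toSubgroup.map K.subtype) := by
    apply isLevel_of_isOpen hU hK hK'K
    have h4 : {k : K | (k : D.Ad) ∈ H.toSubgroup.map K.subtype} = (H.toSubgroup : Set K) := by
      ext k
      exact hmem k
    rw [h4]
    exact H.toOpenSubgroup.isOpen
  refine ⟨H.toSubgroup.map K.subtype, hlev, ?_⟩
  intro l hl hlP
  obtain ⟨k, hk, he⟩ := hl
  have hkΩ : (k : D.Ad) ∈ Ω := hH hk
  have hlk : (k : D.Ad) = l := he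
  have h5 := hmemΩ l hlP (hlk ▸ hkΩ)
  apply mem_of_mem_sup (isTame_restr hM hU) hW h5
  intro v hv
  have h6 : TrivialAt v l := hK.supp l (hlk ▸ k.2) v hv
  exact (leviM_spec hM hlP).trivialAt h6

/-- **Small levels.** (`exists_level_into`, then `exists_level_normal` for the image `C` of `K'` in `G(𝔸_f)`, which is compact by `isCompact_level` and
`continuous_inclM`; supports by `trivialAt_inclM`.) -/
theorem exists_level (hM : μ.IsLevi D') (hU : IsTame ℓ U) (hK : ∃ K, IsLevel ℓ U K)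
    {K' W : Subgroup D'.Ad} (hK' : IsLevel ℓ (restr D' U) K') (hW : IsLevel ℓ (restr D' U) W) :
    ∃ L : Subgroup D.Ad, IsLevel ℓ U L ∧
      (∀ k ∈ K', ∀ l ∈ L, inclM hM (algebraMap F (FiniteAdeleRing (𝓞 F) F)) k * l *
        (inclM hM (algebraMap F (FiniteAdeleRing (𝓞 F) F)) k)⁻¹ ∈ L) ∧
      ∀ l ∈ L, l ∈ μ.parab (algebraMap F (FiniteAdeleRing (𝓞 F) F)) →
        leviM hM (algebraMap F (FiniteAdeleRing (𝓞 F) F)) l ∈ W := by
  obtain ⟨K, hK⟩ := hK
  obtain ⟨L₁, hL₁, hL₁'⟩ := exists_level_into hM hU hK hW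
  have hC : ∀ g ∈ K'.map (inclM hM (algebraMap F (FiniteAdeleRing (𝓞 F) F))),
      ∀ v : HeightOneSpectrum (𝓞 F), (ℓ : 𝓞 F) ∉ v.asIdeal → TrivialAt v g := by
    rintro _ ⟨k, hk, rfl⟩ v hv
    exact (trivialAt_inclM hM v k).2 (hK'.supp k hk v hv)
  have hCc : IsCompact ((K'.map (inclM hM (algebraMap F (FiniteAdeleRing (𝓞 F) F))) :
      Subgroup D.Ad) : Set D.Ad) := by
    rw [Subgroup.coe_map]
    exact (isCompact_level (isTame_restr hM hU) hK').image (continuous_inclM hM)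
  obtain ⟨L, hLL, hL, hn⟩ := exists_level_normal hU hL₁ _ hC hCc
  exact ⟨L, hL, fun k hk l hl => hn _ ⟨k, hk, rfl⟩ l hl, fun l hl => hL₁' l (hLL hl)⟩

end Pool.Agent.Lib.MP_666dc0_nt.TP
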