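import Pool.Agent.Lib.MP_666dc0_nt.TP.E0

/-!
# TP, N2: extension of the coefficients
-/

namespace Pool.Agent.Lib.MP_666dc0_nt.TP

variable {Γ G Q Γ' G' Q' R X : Type} [Group Γ] [Group G] [PartialOrder Q] [OrderTop Q] [Group Γ']
  [Group G'] [PartialOrder Q'] [OrderTop Q'] [CommRing R] [AddCommGroup X] [Module R X]
  (d : PD Γ G Q Γ' G' Q') {K' W : Subgroup G'} {L : Subgroup G}

/-- If `ι(K')` normalises `L`, then `L` is normal in `ι(K') L`, whose elements are the products `ι(k) l`.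
(The set of products is a subgroup: `ι(k) l ι(k') l' = ι(k k') (ι(k')⁻¹ l ι(k')) l'`; or `Subgroup.mem_sup_of_normal_right`-type lemmas.) -/
theorem PD.mem_level (hn : ∀ k ∈ K', ∀ l ∈ L, d.ι k * l * (d.ι k)⁻¹ ∈ L) {x : G} :
    x ∈ K'.map d.ι ⊔ L ↔ ∃ k ∈ K', ∃ l ∈ L, x = d.ι k * l := by
  have hn' : ∀ k ∈ K', ∀ l ∈ L, (d.ι k)⁻¹ * l * d.ι k ∈ L := by
    intro k hk l hl
    have h := hn k⁻¹ (K'.inv_mem hk) l hl
    rwa [map_inv, inv_inv] at h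
  constructor
  · intro hx
    let H : Subgroup G :=
      { carrier := {x | ∃ k ∈ K', ∃ l ∈ L, x = d.ι k * l}
        one_mem' := ⟨1, K'.one_mem, 1, L.one_mem, by rw [map_one, one_mul]⟩
        mul_mem' := by
          rintro x y ⟨k, hk, l, hl, rfl⟩ ⟨k', hk', l', hl', rfl⟩
          refine ⟨k * k', K'.mul_mem hk hk', (d.ι k')⁻¹ * l * d.ι k' * l',
            L.mul_mem (hn' k' hk' l hl) hl', ?_⟩
          rw [map_mul]
          group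
        inv_mem' := by
          rintro x ⟨k, hk, l, hl, rfl⟩
          refine ⟨k⁻¹, K'.inv_mem hk, d.ι k * l⁻¹ * (d.ι k)⁻¹, hn k hk _ (L.inv_mem hl), ?_⟩
          rw [map_inv]
          group }
    have hle : K'.map d.ι ⊔ L ≤ H := by
      refine sup_le ?_ ?_
      · rintro y ⟨k, hk, rfl⟩
        exact ⟨k, hk, 1, L.one_mem, by rw [mul_one]⟩
      · intro l hl
        exact ⟨1, K'.one_mem, l, hl, by rw [map_one, one_mul]⟩
    exact hle hx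
  · rintro ⟨k, hk, l, hl, rfl⟩
    exact Subgroup.mul_mem _ ((le_sup_left : K'.map d.ι ≤ _) (Subgroup.mem_map_of_mem _ hk))
      ((le_sup_right : L ≤ _) hl)

theorem PD.level_normal (hn : ∀ k ∈ K', ∀ l ∈ L, d.ι k * l * (d.ι k)⁻¹ ∈ L) :
    ∀ k ∈ K'.map d.ι ⊔ L, ∀ l ∈ L, k * l * k⁻¹ ∈ L := by
  intro k hk l hl
  obtain ⟨a, ha, b, hb, rfl⟩ := (d.mem_level hn).1 hk
  have h1 := hn a ha (b * l * b⁻¹) (L.mul_mem (L.mul_mem hb hl) (L.inv_mem hb))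
  have h2 : d.ι a * b * l * (d.ι a * b)⁻¹ = d.ι a * (b * l * b⁻¹) * (d.ι a)⁻¹ := by group
  rw [h2]
  exact h1

private theorem PD.N2_split {a : G'} {l : G} (h : d.ι a * l ∈ d.P) :
    l ∈ d.P ∧ d.π (d.ι a * l) = a * d.π l := by
  have hl : l ∈ d.P := by
    have h1 : l = (d.ι a)⁻¹ * (d.ι a * l) := by group
    rw [h1]
    exact d.P.mul_mem (d.P.inv_mem (d.ι_mem a)) h
  exact ⟨hl, by rw [d.π_mul _ (d.ι_mem a) _ hl, d.π_ι]⟩

/-- If moreover `π(L ∩ P) ⊆ W ⊆ K'`, then `π(ι(K') L ∩ P) ⊆ K'`: `x = ι(k) l ∈ P` gives `l = ι(k)⁻¹ x ∈ P` (`ι_mem`), `π x = k π(l)` (`π_mul`, `π_ι`). -/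
theorem PD.π_level (hn : ∀ k ∈ K', ∀ l ∈ L, d.ι k * l * (d.ι k)⁻¹ ∈ L) (hW : W ≤ K')
    (hL : ∀ l ∈ L, l ∈ d.P → d.π l ∈ W) : ∀ k ∈ K'.map d.ι ⊔ L, k ∈ d.P → d.π k ∈ K' := by
  intro k hk hkP
  obtain ⟨a, ha, b, hb, rfl⟩ := (d.mem_level hn).1 hk
  obtain ⟨hbP, hπ⟩ := d.N2_split hkP
  rw [hπ]
  exact K'.mul_mem ha (hW (hL b hb hbP))

/-- **Extension of the coefficients**: `ρ(ι(k) l) = ρ'(k)`.
Proof: well defined: if `ι(k) l = ι(k') l'`, then `ι(k'⁻¹ k) = l' l⁻¹ ∈ L` is in `P` (`ι_mem`), so `k'⁻¹ k = π(ι(k'⁻¹ k)) ∈ W`, and `ρ' (k'⁻¹ k) = 1`. A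
homomorphism: `ι(k) l ι(k') l' = ι(k k') (ι(k')⁻¹ l ι(k')) l'`. Trivial on `L` (`k = 1`). `Compat`, first part: `x = ι(k) l ∈ P` (as in `π_level`), `π x = k π(l)`, `π(l) ∈ W`, so
`ρ' (π x) = ρ' k ρ' (π l) = ρ' k = ρ x`. Second part: `x = ι(k')`, `l = 1`. -/
theorem PD.exists_rep (hn : ∀ k ∈ K', ∀ l ∈ L, d.ι k * l * (d.ι k)⁻¹ ∈ L) (hW : W ≤ K')
    (hL : ∀ l ∈ L, l ∈ d.P → d.π l ∈ W) (ρ' : Representation R K' X)
    (hρ : ∀ k : K', (k : G') ∈ W → ρ' k = 1) :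
    ∃ ρ : Representation R (K'.map d.ι ⊔ L : Subgroup G) X,
      (∀ k : (K'.map d.ι ⊔ L : Subgroup G), (k : G) ∈ L → ρ k = 1) ∧ d.Compat ρ ρ' := by
  classical
  have hwd : ∀ (a a' : K') (l l' : G), l ∈ L → l' ∈ L → d.ι a * l = d.ι a' * l' →
      ρ' a = ρ' a' := by
    intro a a' l l' hl hl' h
    have h1 : d.ι ((a' : G')⁻¹ * a) = l' * l⁻¹ := by
      rw [map_mul, map_inv, inv_mul_eq_iff_eq_mul, ← mul_assoc, ← h]
      group
    have h2 : d.ι ((a' : G')⁻¹ * a) ∈ L := by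
      rw [h1]
      exact L.mul_mem hl' (L.inv_mem hl)
    have h3 := hL _ h2 (d.ι_mem _)
    rw [d.π_ι] at h3
    have h4 : ρ' (a'⁻¹ * a) = 1 := hρ _ h3
    calc ρ' a = ρ' (a' * (a'⁻¹ * a)) := by rw [mul_inv_cancel_left]
      _ = ρ' a' := by rw [map_mul, h4, mul_one]
  have hex : ∀ x : (K'.map d.ι ⊔ L : Subgroup G), ∃ a : K', ∃ l ∈ L, (x : G) = d.ι a * l := by
    intro x
    obtain ⟨a, ha, l, hl, h⟩ := (d.mem_level hn).1 x.2
    exact ⟨⟨a, ha⟩, l, hl, h⟩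
  choose f g hg hfg using hex
  have hval : ∀ (x : (K'.map d.ι ⊔ L : Subgroup G)) (a : K') (l : G), l ∈ L →
      (x : G) = d.ι a * l → ρ' (f x) = ρ' a := by
    intro x a l hl h
    exact hwd _ _ _ _ (hg x) hl ((hfg x).symm.trans h)
  have hn' : ∀ k ∈ K', ∀ l ∈ L, (d.ι k)⁻¹ * l * d.ι k ∈ L := by
    intro k hk l hl
    have h := hn k⁻¹ (K'.inv_mem hk) l hl
    rwa [map_inv, inv_inv] at h
  let ρ : Representation R (K'.map d.ι ⊔ L : Subgroup G) X :=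
    { toFun := fun x => ρ' (f x)
      map_one' := by
        rw [hval 1 1 1 L.one_mem (by simp), map_one]
      map_mul' := by
        intro x y
        rw [hval (x * y) (f x * f y) ((d.ι (f y))⁻¹ * g x * d.ι (f y) * g y)
          (L.mul_mem (hn' _ (f y).2 _ (hg x)) (hg y)) ?_, map_mul]
        rw [Subgroup.coe_mul, Subgroup.coe_mul, map_mul, hfg x, hfg y]
        group }
  have hρval : ∀ x, ρ x = ρ' (f x) := fun _ => rfl
  refine ⟨ρ, ?_, ?_, ?_⟩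
  · intro k hk
    rw [hρval, hval k 1 (k : G) hk (by simp), map_one]
  · intro k hk k' hk'
    rw [hρval]
    have h1 : d.ι (f k) * g k ∈ d.P := by
      rw [← hfg k]
      exact hk
    obtain ⟨hgP, hπ⟩ := d.N2_split h1
    rw [← hfg k, ← hk'] at hπ
    have hw := hL _ (hg k) hgP
    have h2 : k' = f k * ⟨d.π (g k), hW hw⟩ := Subtype.ext hπ
    rw [h2, map_mul, hρ ⟨d.π (g k), hW hw⟩ hw, mul_one]
  · intro k k' h
    rw [hρval, hval k k' 1 L.one_mem (by rw [h, mul_one])]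

end Pool.Agent.Lib.MP_666dc0_nt.TP
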