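import Pool.Agent.Lib.MP_666dc0_nt.TP.A2
import Pool.Agent.Lib.MP_666dc0_nt.WL.C5a

/-!
# TP, R1: Hecke operators of the group are good operators
-/

open NumberField IsDedekindDomain
open scoped NumberField

namespace Pool.Agent.Lib.MP_666dc0_nt.TP

open WL

variable {F : Type} [Field F] [NumberField F] {n : ℕ} {D : Datum F n}
  {ℓ : ℕ} [Fact ℓ.Prime] {U K : Subgroup D.Ad} {v : HeightOneSpectrum (𝓞 F)}
  {B : Type} [CommRing B] {O : Type} [CommRing O] [HopfAlgebra B O]
  {A : OverB.HopfAction B Gal(AlgebraicClosure F/F) O} {S : Finset (HeightOneSpectrum (𝓞 F))}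
  {φ : HeightOneSpectrum (𝓞 F) → Gal(AlgebraicClosure F/F)} {X Y : Type} [AddCommGroup X]
  [Module ℤ_[ℓ] X] [AddCommGroup Y] [Module ℤ_[ℓ] Y]

private theorem R1_op_apply (h : Hk ℓ U v) (f : D.Ad → X) (g : D.Ad) :
    h.op X f g = h.1.sum fun c r => r • f (g * ((Quotient.out c : locSub D v) : D.Ad)) := rfl

private theorem R1_comm {b : D.Ad} (hb : TrivialAt v b) (c : Loc D v) : (c : D.Ad) * b = b * (c : D.Ad) := by
  apply mul_comm_of_disjoint
  intro w
  by_cases hw : w = v
  · right
    rw [hw]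
    exact hb
  · left
    exact c.2 w hw

private theorem R1_out (f : D.Ad → X) (hf : ∀ g, ∀ u ∈ U, f (g * u) = f g) (g : D.Ad) (a : Loc D v)
    (c : LocQuot U v) :
    f (g * ((Quotient.out (a • c) : locSub D v) : D.Ad)) =
      f (g * (a : D.Ad) * ((Quotient.out c : locSub D v) : D.Ad)) := by
  have h1 : a • c = QuotientGroup.mk (a * (Quotient.out c : locSub D v)) := by
    conv_lhs => rw [← QuotientGroup.out_eq' c]
    rfl
  obtain ⟨s, hs⟩ := QuotientGroup.mk_out_eq_mul (U.subgroupOf (locSub D v))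
    (a * (Quotient.out c : locSub D v))
  rw [h1, hs]
  have h2 : ((a * (Quotient.out c : locSub D v) * (s : locSub D v) : locSub D v) : D.Ad) =
      (a : D.Ad) * ((Quotient.out c : locSub D v) : D.Ad) * ((s : locSub D v) : D.Ad) := rfl
  rw [h2, ← mul_assoc, ← mul_assoc]
  exact hf _ _ s.2

/-- The Hecke operators are good operators.
Proof: write `c̃ = Quotient.out c ∈ locSub D v`. `left`, `coeff`: clear (`mul_assoc`; `α` is linear, `map_finsuppSum`). `right`: let `u ∈ U` and `a` from `hs`: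
`u = a b`, `a ∈ U ∩ locSub D v`, `b = a⁻¹ u ∈ U` trivial at `v`. `b` commutes with `c̃` (`mul_comm_of_disjoint`: outside of `v` the component of `c̃` is
trivial), so `f(g u c̃) = f(g a c̃ b) = f(g a c̃)`; `a c̃` and the representative of `a • c` differ by an element of `U` on the right
(`QuotientGroup.mk_out_eq_mul` or `Quotient.exact`), so this is `f(g * out (a • c))`. So `T f (g u) = ∑ h(c) f(g * out (a • c))`, and substituting `c ↦ a⁻¹ • c` (a bijection of `LocQuot U v`;
`Finsupp.sum` over the support, or `finsum`/`Finsupp.sum_of_support_subset`, `Finset.sum_bij`) with `h (a⁻¹ • c) = h c` (`h.2`) gives `T f g`. `rightK`: `k` is trivial at `v`, `c̃` outside of `v`, so they commute. -/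
theorem Hk.isGoodOp (hs : ∀ u ∈ U, ∃ a ∈ U, a ∈ locSub D v ∧ TrivialAt v (a⁻¹ * u))
    (hK : ∀ k ∈ K, TrivialAt v k) (h : Hk ℓ U v) : IsGoodOp U K (h.op X) := by
  refine ⟨?_, ?_, ?_, ?_⟩
  · intro x f
    funext g
    rw [R1_op_apply, R1_op_apply]
    refine Finsupp.sum_congr fun c _ => ?_
    rw [mul_assoc]
  · intro f hf g u hu
    obtain ⟨a, haU, hav, hab⟩ := hs u hu
    obtain ⟨a', ha'⟩ : ∃ a' : Loc D v, (a' : D.Ad) = a := ⟨⟨a, hav⟩, rfl⟩
    have hb : a⁻¹ * u ∈ U := U.mul_mem (U.inv_mem haU) hu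
    have h1 : ∀ c : LocQuot U v, f (g * u * ((Quotient.out c : locSub D v) : D.Ad)) =
        f (g * ((Quotient.out (a' • c) : locSub D v) : D.Ad)) := by
      intro c
      rw [R1_out f hf g a' c, ha']
      have h2 : g * u * ((Quotient.out c : locSub D v) : D.Ad) =
          g * a * ((Quotient.out c : locSub D v) : D.Ad) * (a⁻¹ * u) := by
        have h3 := R1_comm hab (Quotient.out c : locSub D v)
        calc g * u * ((Quotient.out c : locSub D v) : D.Ad)
            = g * a * ((a⁻¹ * u) * ((Quotient.out c : locSub D v) : D.Ad)) := by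
              simp only [mul_assoc, mul_inv_cancel_left]
          _ = g * a * (((Quotient.out c : locSub D v) : D.Ad) * (a⁻¹ * u)) := by rw [h3]
          _ = _ := by rw [← mul_assoc]
      rw [h2]
      exact hf _ _ hb
    rw [R1_op_apply, R1_op_apply]
    have haa : (a' : D.Ad) ∈ U := by rw [ha']; exact haU
    have hinv : ((a'⁻¹ : Loc D v) : D.Ad) ∈ U := by
      have : ((a'⁻¹ : Loc D v) : D.Ad) = (a' : D.Ad)⁻¹ := rfl
      rw [this]
      exact U.inv_mem haa
    rw [Finsupp.sum, Finsupp.sum]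
    refine Finset.sum_nbij' (fun c => a' • c) (fun c => a'⁻¹ • c) ?_ ?_ ?_ ?_ ?_
    · intro c hc
      rw [Finsupp.mem_support_iff] at hc ⊢
      rw [h.2 a' haa c]
      exact hc
    · intro c hc
      rw [Finsupp.mem_support_iff] at hc ⊢
      rw [h.2 a'⁻¹ hinv c]
      exact hc
    · intro c _
      exact inv_smul_smul a' c
    · intro c _
      exact smul_inv_smul a' c
    · intro c _
      rw [h1 c, h.2 a' haa c]
  · intro f _ k hk
    funext g
    rw [R1_op_apply, R1_op_apply]
    refine Finsupp.sum_congr fun c _ => ?_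
    have h3 := R1_comm (hK k hk) (Quotient.out c : locSub D v)
    rw [mul_assoc, h3, ← mul_assoc]
  · intro α f
    funext g
    rw [R1_op_apply, R1_op_apply, map_finsuppSum]
    refine Finsupp.sum_congr fun c _ => ?_
    rw [map_smul]

/-- So are all polynomials in them (`FreeAlgebra.induction`; `IsGoodOp.one`, `.smul`, `.mul`, `.add`; `actG` of `algebraMap r` is `r • 1`). -/
theorem actG_isGoodOp
    (hs : ∀ v, v ∉ S → ∀ u ∈ U, ∃ a ∈ U, a ∈ locSub D v ∧ TrivialAt v (a⁻¹ * u))
    (hK : ∀ v, v ∉ S → ∀ k ∈ K, TrivialAt v k) (sat : ∀ v, A.inv (φ v) → Hk ℓ U v)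
    (t : FreeAlgebra ℤ_[ℓ] (Ix A S φ)) : IsGoodOp U K (actG sat X t) := by
  induction t using FreeAlgebra.induction with
  | grade0 r =>
    rw [AlgHom.commutes, Algebra.algebraMap_eq_smul_one]
    exact IsGoodOp.one.smul r
  | grade1 i =>
    rw [actG, FreeAlgebra.lift_ι_apply]
    exact Hk.isGoodOp (hs i.1.1 i.1.2) (hK i.1.1 i.1.2) _
  | mul a b ha hb =>
    rw [map_mul]
    exact ha.mul hb
  | add a b ha hb =>
    rw [map_add]
    exact ha.add hb

/-- Naturality in the coefficients: for one operator (linearity of `α`). -/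
theorem Hk.op_natural (h : Hk ℓ U v) (α : X →ₗ[ℤ_[ℓ]] Y) (f : D.Ad → X) :
    h.op Y (fun g => α (f g)) = fun g => α (h.op X f g) := by
  funext g
  rw [R1_op_apply, R1_op_apply, map_finsuppSum]
  refine Finsupp.sum_congr fun c _ => ?_
  rw [map_smul]

/-- Naturality for all polynomials (`FreeAlgebra.induction`). -/
theorem actG_natural (sat : ∀ v, A.inv (φ v) → Hk ℓ U v) (t : FreeAlgebra ℤ_[ℓ] (Ix A S φ))
    (α : X →ₗ[ℤ_[ℓ]] Y) (f : D.Ad → X) :
    actG sat Y t (fun g => α (f g)) = fun g => α (actG sat X t f g) := by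
  induction t using FreeAlgebra.induction generalizing f with
  | grade0 r =>
    rw [AlgHom.commutes, AlgHom.commutes, Algebra.algebraMap_eq_smul_one, Algebra.algebraMap_eq_smul_one]
    funext g
    change r • α (f g) = α (r • f g)
    rw [map_smul]
  | grade1 i =>
    rw [actG, actG, FreeAlgebra.lift_ι_apply, FreeAlgebra.lift_ι_apply]
    exact Hk.op_natural _ α f
  | mul a b ha hb =>
    rw [map_mul, map_mul]
    change actG sat Y a (actG sat Y b (fun g => α (f g))) = fun g => α (actG sat X a (actG sat X b f) g)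
    rw [hb f]
    exact ha (actG sat X b f)
  | add a b ha hb =>
    rw [map_add, map_add]
    funext g
    change actG sat Y a (fun g => α (f g)) g + actG sat Y b (fun g => α (f g)) g =
      α (actG sat X a f g + actG sat X b f g)
    rw [ha f, hb f, map_add]

end Pool.Agent.Lib.MP_666dc0_nt.TP
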