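import Pool.Agent.Lib.MP_666dc0_nt.TP.R2
import Pool.Agent.Lib.MP_666dc0_nt.TP.A2

/-!
# TP, R3: constant terms of Hecke operators are good operators
-/

open NumberField IsDedekindDomain
open scoped NumberField

namespace Pool.Agent.Lib.MP_666dc0_nt.TP

open WL

variable {F : Type} [Field F] [NumberField F] {n : ℕ} {D D' : Datum F n}
  {ℓ : ℕ} [Fact ℓ.Prime] {U : Subgroup D.Ad} {K' : Subgroup D'.Ad} {v : HeightOneSpectrum (𝓞 F)}
  {B : Type} [CommRing B] {O : Type} [CommRing O] [HopfAlgebra B O]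
  {A : OverB.HopfAction B Gal(AlgebraicClosure F/F) O} {S : Finset (HeightOneSpectrum (𝓞 F))}
  {φ : HeightOneSpectrum (𝓞 F) → Gal(AlgebraicClosure F/F)} {X Y : Type} [AddCommGroup X]
  [Module ℤ_[ℓ] X] [AddCommGroup Y] [Module ℤ_[ℓ] Y]

/-- The operator `f ↦ (g ↦ ∑ h(c) f(g m_c))` on functions on `M(𝔸_f)`. -/
noncomputable def wop (h : LocQuot U v →₀ ℤ_[ℓ]) (μ : Grading D) (D' : Datum F n) (X : Type)
    [AddCommGroup X] [Module ℤ_[ℓ] X] : Module.End ℤ_[ℓ] (D'.Ad → X) where
  toFun f g := h.sum fun c s => s • f (g * leviRep μ D' c)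
  map_add' f f' := by
    funext g
    simp only [Pi.add_apply, smul_add]
    exact Finsupp.sum_add
  map_smul' r f := by
    funext g
    simp only [Pi.smul_apply, RingHom.id_apply, Finsupp.smul_sum]
    exact Finset.sum_congr rfl fun c _ => smul_comm _ _ _

/-- The action of the polynomials in the symbols `(v, f)` on functions on `M(𝔸_f)` by the constant terms of the Hecke operators. -/
noncomputable def actC (μ : Grading D) (D' : Datum F n) (sat : ∀ v, A.inv (φ v) → Hk ℓ U v)
    (X : Type) [AddCommGroup X] [Module ℤ_[ℓ] X] :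
    FreeAlgebra ℤ_[ℓ] (Ix A S φ) →ₐ[ℤ_[ℓ]] Module.End ℤ_[ℓ] (D'.Ad → X) :=
  FreeAlgebra.lift ℤ_[ℓ] fun i => wop (sat i.1.1 i.2).1 μ D' X

variable {μ : Grading D}

open Classical in
/-- `Finsupp.sum_filter_index` or a direct comparison of the sums. -/
theorem ct_eq_wop (h : Hk ℓ U v) (a₀ r : ℤ) :
    h.ct μ D' a₀ r X = wop (h.1.filter fun c => HasDeg μ D' a₀ c r) μ D' X := by
  refine LinearMap.ext fun f => ?_
  funext g
  change (∑ c ∈ h.1.support, if HasDeg μ D' a₀ c r then h.1 c • f (g * leviRep μ D' c) else 0) =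
    ∑ c ∈ (h.1.filter fun c => HasDeg μ D' a₀ c r).support,
      (h.1.filter fun c => HasDeg μ D' a₀ c r) c • f (g * leviRep μ D' c)
  rw [← Finset.sum_filter, Finsupp.support_filter]
  refine Finset.sum_congr rfl fun c hc => ?_
  exact congrArg (fun z : ℤ_[ℓ] => z • f (g * leviRep μ D' c))
    (Finsupp.filter_apply_pos (fun c => HasDeg μ D' a₀ c r) h.1 (Finset.mem_filter.1 hc).2).symm

/-- **Good operators.** `h` is invariant under `ι(restr D' U) ∩ G(F_v)`.
Proof: as for `Hk.isGoodOp` in `TP/R1.lean`. `right`: for `u ∈ restr D' U` take `b` from `restr_split`: `b⁻¹ u ∈ restr D' U` is trivial at `v` and commutes with `m_c ∈ M(F_v)`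
(`leviRep_mem_locSub`, `mul_comm_of_disjoint`), so `f(g u m_c) = f(g b m_c)`; with `b' = ι(b) ∈ G(F_v) ∩ U` (`mem_restr`, `trivialAt_inclM`), `m_(b' c) = b m_c u'`, `u' ∈ restr D' U`
(`leviRep_smul`), so `f(g b m_c) = f(g m_(b' c))`; substitute `c ↦ b'⁻¹ • c` and use `hinv`. `rightK`: `k ∈ K'` is trivial at `v` and commutes with `m_c`. -/
theorem wop_isGoodOp (hM : μ.IsLevi D') (hg : IsGood μ U v)
    (hUP : ∀ u ∈ U, u ∈ μ.parab (algebraMap F (FiniteAdeleRing (𝓞 F) F)) → ∀ m : D'.Ad,
      μ.IsLeviPart (algebraMap F (FiniteAdeleRing (𝓞 F) F)) u.1 m.1 → m ∈ restr D' U)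
    (hK : ∀ k ∈ K', TrivialAt v k) (h : LocQuot U v →₀ ℤ_[ℓ])
    (hinv : ∀ b ∈ restr D' U, ∀ b' : Loc D v,
      (b' : D.Ad) = inclM hM (algebraMap F (FiniteAdeleRing (𝓞 F) F)) b →
      ∀ c, h (b' • c) = h c) : IsGoodOp (restr D' U) K' (wop h μ D' X) := by
  refine ⟨?_, ?_, ?_, ?_⟩
  · intro x f
    funext g
    change (∑ c ∈ h.support, h c • f (x * (g * leviRep μ D' c))) =
      ∑ c ∈ h.support, h c • f (x * g * leviRep μ D' c)
    simp only [mul_assoc]
  · intro f hf g u hu
    obtain ⟨b, hbU, hbv, hbt⟩ := restr_split hM hg.split u hu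
    have hw : b⁻¹ * u ∈ restr D' U := mul_mem (inv_mem hbU) hu
    have hcomm : ∀ c : LocQuot U v,
        (b⁻¹ * u) * leviRep μ D' c = leviRep μ D' c * (b⁻¹ * u) := by
      intro c
      refine mul_comm_of_disjoint fun w => ?_
      by_cases hwv : w = v
      · subst hwv
        exact Or.inl hbt
      · exact Or.inr (leviRep_mem_locSub hM hg c w hwv)
    have h1 : ∀ c : LocQuot U v,
        f (g * u * leviRep μ D' c) = f (g * b * leviRep μ D' c) := by
      intro c
      have h2 : g * u * leviRep μ D' c = g * b * leviRep μ D' c * (b⁻¹ * u) := by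
        rw [mul_assoc (g * b), ← hcomm c]
        group
      rw [h2, hf _ _ hw]
    let b' : Loc D v := ⟨inclM hM (algebraMap F (FiniteAdeleRing (𝓞 F) F)) b,
      fun w hwv => (trivialAt_inclM hM w b).2 (hbv w hwv)⟩
    have h3 : ∀ c : LocQuot U v,
        f (g * b * leviRep μ D' c) = f (g * leviRep μ D' (b' • c)) := by
      intro c
      obtain ⟨u', hu', -, he⟩ := leviRep_smul hM hg hUP c b b' rfl
      rw [he, ← mul_assoc, ← mul_assoc, hf _ _ hu']
    change (∑ c ∈ h.support, h c • f (g * u * leviRep μ D' c)) =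
      ∑ c ∈ h.support, h c • f (g * leviRep μ D' c)
    have h4 : ∀ c, h (b' • c) = h c := hinv b hbU b' rfl
    have h5 : ∀ c, h (b'⁻¹ • c) = h c := by
      intro c
      have h6 := h4 (b'⁻¹ • c)
      rw [smul_inv_smul] at h6
      exact h6.symm
    refine Finset.sum_bij' (fun c _ => b' • c) (fun c _ => b'⁻¹ • c) ?_ ?_ ?_ ?_ ?_
    · intro c hc
      rw [Finsupp.mem_support_iff] at hc ⊢
      rw [h4]
      exact hc
    · intro c hc
      rw [Finsupp.mem_support_iff] at hc ⊢
      rw [h5]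
      exact hc
    · intro c _
      exact inv_smul_smul b' c
    · intro c _
      exact smul_inv_smul b' c
    · intro c _
      rw [h1, h3, h4]
  · intro f hf k hk
    funext g
    change (∑ c ∈ h.support, h c • f (g * leviRep μ D' c * k)) =
      ∑ c ∈ h.support, h c • f (g * k * leviRep μ D' c)
    refine Finset.sum_congr rfl fun c _ => ?_
    have hcomm : leviRep μ D' c * k = k * leviRep μ D' c := by
      refine mul_comm_of_disjoint fun w => ?_
      by_cases hwv : w = v
      · subst hwv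
        exact Or.inr (hK k hk)
      · exact Or.inl (leviRep_mem_locSub hM hg c w hwv)
    rw [mul_assoc, hcomm, mul_assoc]
  · intro α f
    funext g
    change (∑ c ∈ h.support, h c • α (f (g * leviRep μ D' c))) =
      α (∑ c ∈ h.support, h c • f (g * leviRep μ D' c))
    rw [map_sum]
    exact Finset.sum_congr rfl fun c _ => (map_smul α _ _).symm

end Pool.Agent.Lib.MP_666dc0_nt.TP
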