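import Pool.Agent.Lib.MP_666dc0_nt.TP.R3

/-!
# TP, R4: polynomials in the constant terms are good operators
-/

open NumberField IsDedekindDomain
open scoped NumberField

namespace Pool.Agent.Lib.MP_666dc0_nt.TP

open WL

variable {F : Type} [Field F] [NumberField F] {n : ℕ} {D D' : Datum F n}
  {ℓ : ℕ} [Fact ℓ.Prime] {U : Subgroup D.Ad} {K' : Subgroup D'.Ad} {v : HeightOneSpectrum (𝓞 F)}
  {B : Type} [CommRing B] {O : Type} [CommRing O] [HopfAlgebra B O]
  {A : OverB.HopfAction B Gal(AlgebraicClosure F/F) O} {S : Finset (HeightOneSpectrum (𝓞 F))}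
  {φ : HeightOneSpectrum (𝓞 F) → Gal(AlgebraicClosure F/F)} {X Y : Type} [AddCommGroup X]
  [Module ℤ_[ℓ] X] [AddCommGroup Y] [Module ℤ_[ℓ] Y]

variable {μ : Grading D}

/-- For all polynomials in the constant terms (`FreeAlgebra.induction`; `h.2` and `mem_restr` for the invariance). -/
theorem actC_isGoodOp (hM : μ.IsLevi D') (hgood : ∀ v, v ∉ S → IsGood μ U v)
    (hUP : ∀ u ∈ U, u ∈ μ.parab (algebraMap F (FiniteAdeleRing (𝓞 F) F)) → ∀ m : D'.Ad,
      μ.IsLeviPart (algebraMap F (FiniteAdeleRing (𝓞 F) F)) u.1 m.1 → m ∈ restr D' U)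
    (hK : ∀ v, v ∉ S → ∀ k ∈ K', TrivialAt v k) (sat : ∀ v, A.inv (φ v) → Hk ℓ U v)
    (t : FreeAlgebra ℤ_[ℓ] (Ix A S φ)) : IsGoodOp (restr D' U) K' (actC μ D' sat X t) := by
  induction t using FreeAlgebra.induction with
  | grade0 r =>
    rw [AlgHom.commutes, Algebra.algebraMap_eq_smul_one]
    exact IsGoodOp.one.smul r
  | grade1 i =>
    have h1 : actC μ D' sat X (FreeAlgebra.ι ℤ_[ℓ] i) = wop (sat i.1.1 i.2).1 μ D' X :=
      FreeAlgebra.lift_ι_apply _ _
    rw [h1]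
    refine wop_isGoodOp hM (hgood i.1.1 i.1.2) hUP (hK i.1.1 i.1.2) _ ?_
    intro b hb b' hb' c
    refine (sat i.1.1 i.2).2 b' ?_ c
    rw [hb']
    exact (mem_restr hM b).1 hb
  | mul x y hx hy =>
    rw [map_mul]
    exact hx.mul hy
  | add x y hx hy =>
    rw [map_add]
    exact hx.add hy

/-- For all polynomials in the graded pieces (`ct_eq_wop`; the filtered function is invariant by `h.2`, `mem_restr` and `hasDeg_smul`). -/
theorem actM_isGoodOp (hM : μ.IsLevi D') (hgood : ∀ v, v ∉ S → IsGood μ U v)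
    (hUP : ∀ u ∈ U, u ∈ μ.parab (algebraMap F (FiniteAdeleRing (𝓞 F) F)) → ∀ m : D'.Ad,
      μ.IsLeviPart (algebraMap F (FiniteAdeleRing (𝓞 F) F)) u.1 m.1 → m ∈ restr D' U)
    (hK : ∀ v, v ∉ S → ∀ k ∈ K', TrivialAt v k) {V : Subgroup D'.Ad}
    (hV : IsCompact (V : Set D'.Ad)) (hUV : restr D' U ≤ V) (a₀ : ℤ)
    (sat : ∀ v, A.inv (φ v) → Hk ℓ U v) (t : FreeAlgebra ℤ_[ℓ] (IxM A S φ)) :
    IsGoodOp (restr D' U) K' (actM μ D' a₀ sat X t) := by
  classical
  induction t using FreeAlgebra.induction with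
  | grade0 r =>
    rw [AlgHom.commutes, Algebra.algebraMap_eq_smul_one]
    exact IsGoodOp.one.smul r
  | grade1 i =>
    have h1 : actM μ D' a₀ sat X (FreeAlgebra.ι ℤ_[ℓ] i) =
        (sat i.1.1.1 i.1.2).ct μ D' a₀ i.2 X :=
      FreeAlgebra.lift_ι_apply _ _
    rw [h1, ct_eq_wop]
    refine wop_isGoodOp hM (hgood i.1.1.1 i.1.1.2) hUP (hK i.1.1.1 i.1.1.2) _ ?_
    intro b hb b' hb' c
    have h2 : (sat i.1.1.1 i.1.2).1 (b' • c) = (sat i.1.1.1 i.1.2).1 c := by
      refine (sat i.1.1.1 i.1.2).2 b' ?_ c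
      rw [hb']
      exact (mem_restr hM b).1 hb
    have h3 := hasDeg_smul hM (hgood i.1.1.1 i.1.1.2) hUP hV hUV a₀ c hb b' hb' i.2
    rw [Finsupp.filter_apply, Finsupp.filter_apply, h2]
    by_cases h4 : HasDeg μ D' a₀ c i.2
    · rw [if_pos h4, if_pos (h3.2 h4)]
    · rw [if_neg h4, if_neg (fun h5 => h4 (h3.1 h5))]
  | mul x y hx hy =>
    rw [map_mul]
    exact hx.mul hy
  | add x y hx hy =>
    rw [map_add]
    exact hx.add hy

/-- Naturality in the coefficients (`FreeAlgebra.induction`, linearity of `α`). -/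
theorem actC_natural (sat : ∀ v, A.inv (φ v) → Hk ℓ U v) (t : FreeAlgebra ℤ_[ℓ] (Ix A S φ))
    (α : X →ₗ[ℤ_[ℓ]] Y) (f : D'.Ad → X) :
    actC μ D' sat Y t (fun g => α (f g)) = fun g => α (actC μ D' sat X t f g) := by
  induction t using FreeAlgebra.induction generalizing f with
  | grade0 r =>
    rw [AlgHom.commutes, AlgHom.commutes, Algebra.algebraMap_eq_smul_one,
      Algebra.algebraMap_eq_smul_one]
    funext g
    change r • α (f g) = α (r • f g)
    rw [map_smul]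
  | grade1 i =>
    have h1 : actC μ D' sat X (FreeAlgebra.ι ℤ_[ℓ] i) = wop (sat i.1.1 i.2).1 μ D' X :=
      FreeAlgebra.lift_ι_apply _ _
    have h2 : actC μ D' sat Y (FreeAlgebra.ι ℤ_[ℓ] i) = wop (sat i.1.1 i.2).1 μ D' Y :=
      FreeAlgebra.lift_ι_apply _ _
    rw [h1, h2]
    funext g
    change ((sat i.1.1 i.2).1.sum fun c s => s • α (f (g * leviRep μ D' c))) =
      α ((sat i.1.1 i.2).1.sum fun c s => s • f (g * leviRep μ D' c))
    rw [map_finsuppSum]
    refine Finset.sum_congr rfl fun c _ => ?_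
    exact (map_smul α _ _).symm
  | mul x y hx hy =>
    rw [map_mul, map_mul, Module.End.mul_apply, Module.End.mul_apply, hy f, hx]
  | add x y hx hy =>
    rw [map_add, map_add, LinearMap.add_apply, LinearMap.add_apply, hx f, hy f]
    funext g
    change α (actC μ D' sat X x f g) + α (actC μ D' sat X y f g) =
      α (actC μ D' sat X x f g + actC μ D' sat X y f g)
    rw [map_add]

end Pool.Agent.Lib.MP_666dc0_nt.TP
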