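import Pool.Agent.Lib.MP_666dc0_nt.TP.R3

/-!
# TP, R5: Hecke operators and their constant terms on the parabolic subgroup
-/

open NumberField IsDedekindDomain
open scoped NumberField

namespace Pool.Agent.Lib.MP_666dc0_nt.TP

open WL

variable {F : Type} [Field F] [NumberField F] {n : ℕ} {D D' : Datum F n}
  {ℓ : ℕ} [Fact ℓ.Prime] {U : Subgroup D.Ad} {K' : Subgroup D'.Ad} {v : HeightOneSpectrum (𝓞 F)}
  {B : Type} [CommRing B] {O : Type} [CommRing O] [HopfAlgebra B O]
  {A : OverB.HopfAction B Gal(AlgebraicClosure F/F) O} {S : Finset (HeightOneSpectrum (𝓞 F))}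
  {φ : HeightOneSpectrum (𝓞 F) → Gal(AlgebraicClosure F/F)} {X Y : Type} [AddCommGroup X]
  [Module ℤ_[ℓ] X] [AddCommGroup Y] [Module ℤ_[ℓ] Y]

variable {μ : Grading D}

private theorem R5_one (hM : μ.IsLevi D') (hg : IsGood μ U v) (h : Hk ℓ U v)
    (f : D.Ad → X) (f' : D'.Ad → X)
    (hf : ∀ g, ∀ u ∈ U, f (g * u) = f g)
    (hff : ∀ p ∈ μ.parab (algebraMap F (FiniteAdeleRing (𝓞 F) F)),
      f p = f' (leviM hM (algebraMap F (FiniteAdeleRing (𝓞 F) F)) p))
    (p : D.Ad) (hp : p ∈ μ.parab (algebraMap F (FiniteAdeleRing (𝓞 F) F))) :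
    h.op X f p = wop h.1 μ D' X f'
      (leviM hM (algebraMap F (FiniteAdeleRing (𝓞 F) F)) p) := by
  change (h.1.sum fun c r => r • f (p * ((Quotient.out c : locSub D v) : D.Ad))) =
    h.1.sum fun c s => s • f' (leviM hM (algebraMap F (FiniteAdeleRing (𝓞 F) F)) p *
      leviRep μ D' c)
  refine Finset.sum_congr rfl fun c _ => ?_
  beta_reduce
  obtain ⟨q, hq, hqc, hqm⟩ := leviRep_spec hM hg c
  have h1 : (QuotientGroup.mk q : LocQuot U v) =
      QuotientGroup.mk (Quotient.out c : locSub D v) := by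
    rw [hqc]
    exact (QuotientGroup.out_eq' c).symm
  have h2 : q⁻¹ * (Quotient.out c : locSub D v) ∈ U.subgroupOf (locSub D v) :=
    QuotientGroup.eq.1 h1
  have h3 : (q : D.Ad)⁻¹ * ((Quotient.out c : locSub D v) : D.Ad) ∈ U := h2
  have h4 : p * ((Quotient.out c : locSub D v) : D.Ad) =
      p * (q : D.Ad) * ((q : D.Ad)⁻¹ * ((Quotient.out c : locSub D v) : D.Ad)) := by
    rw [mul_assoc, mul_inv_cancel_left]
  rw [h4, hf _ _ h3, hff _ (Subgroup.mul_mem _ hp hq), leviM_mul hM hp hq, hqm]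

/-- **Compatibility on `P(𝔸_f)`.** If `f` is right `U`-invariant and `f(p) = f'(π(p))` on `P(𝔸_f)`, then `(T f)(p) = (T' f')(π(p))` for all polynomials.
Proof: `FreeAlgebra.induction`. For a Hecke function `h`: `(T_h f)(p) = ∑ h(c) f(p c̃)`, `c̃ = Quotient.out c`, and with `q ∈ P(F_v)` from `leviRep_spec`, `c̃` and `q` have the same
class, so `f(p c̃) = f(p q) = f'(π(p q)) = f'(π(p) m_c)` (`leviM_mul`). For a product `t t'`: the function `actG t' f` is right `U`-invariant (`hT`), so the induction hypotheses for `t'` and then `t` apply. -/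
theorem actG_compat (hM : μ.IsLevi D') (hgood : ∀ v, v ∉ S → IsGood μ U v)
    (sat : ∀ v, A.inv (φ v) → Hk ℓ U v)
    (hT : ∀ t : FreeAlgebra ℤ_[ℓ] (Ix A S φ), ∀ f : D.Ad → X, (∀ g, ∀ u ∈ U, f (g * u) = f g) →
      ∀ g, ∀ u ∈ U, actG sat X t f (g * u) = actG sat X t f g)
    (t : FreeAlgebra ℤ_[ℓ] (Ix A S φ)) (f : D.Ad → X) (f' : D'.Ad → X)
    (hf : ∀ g, ∀ u ∈ U, f (g * u) = f g)
    (hff : ∀ p ∈ μ.parab (algebraMap F (FiniteAdeleRing (𝓞 F) F)),
      f p = f' (leviM hM (algebraMap F (FiniteAdeleRing (𝓞 F) F)) p)) :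
    ∀ p ∈ μ.parab (algebraMap F (FiniteAdeleRing (𝓞 F) F)),
      actG sat X t f p =
        actC μ D' sat X t f' (leviM hM (algebraMap F (FiniteAdeleRing (𝓞 F) F)) p) := by
  revert f f'
  induction t using FreeAlgebra.induction with
  | grade0 r =>
    intro f f' _ hff p hp
    rw [AlgHom.commutes, AlgHom.commutes, Algebra.algebraMap_eq_smul_one,
      Algebra.algebraMap_eq_smul_one]
    simp only [LinearMap.smul_apply, Module.End.one_apply, Pi.smul_apply]
    rw [hff p hp]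
  | grade1 i =>
    intro f f' hf hff p hp
    unfold actG actC
    rw [FreeAlgebra.lift_ι_apply, FreeAlgebra.lift_ι_apply]
    exact R5_one hM (hgood i.1.1 i.1.2) (sat i.1.1 i.2) f f' hf hff p hp
  | mul t t' h1 h2 =>
    intro f f' hf hff p hp
    rw [map_mul, map_mul, Module.End.mul_apply, Module.End.mul_apply]
    exact h1 (actG sat X t' f) (actC μ D' sat X t' f') (hT t' f hf)
      (h2 f f' hf hff) p hp
  | add t t' h1 h2 =>
    intro f f' hf hff p hp
    rw [map_add, map_add, LinearMap.add_apply, LinearMap.add_apply, Pi.add_apply, Pi.add_apply,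
      h1 f f' hf hff p hp, h2 f f' hf hff p hp]

end Pool.Agent.Lib.MP_666dc0_nt.TP
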