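import Pool.Agent.Lib.MP_666dc0_nt.TP.T2
import Pool.Agent.Lib.MP_666dc0_nt.Mg.G002

/-!
# TP, T3: the cyclotomic character of the finite ideles
-/

open NumberField IsDedekindDomain
open scoped NumberField

namespace Pool.Agent.Lib.MP_666dc0_nt.TP

open WL

variable {F : Type} [Field F] [NumberField F] {ℓ : ℕ} [Fact ℓ.Prime]

/-- Evaluation of a finite adele at a place. -/
private noncomputable def tpT3ev (v : HeightOneSpectrum (𝓞 F)) :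
    FiniteAdeleRing (𝓞 F) F →+* v.adicCompletion F where
  toFun a := a v
  map_one' := rfl
  map_mul' _ _ := rfl
  map_zero' := rfl
  map_add' _ _ := rfl

private theorem tpT3ev_apply (v : HeightOneSpectrum (𝓞 F)) (a : FiniteAdeleRing (𝓞 F) F) :
    tpT3ev v a = a v := rfl

omit [Fact ℓ.Prime] in
private theorem tpT3val_ell {v : HeightOneSpectrum (𝓞 F)} (hv : (ℓ : 𝓞 F) ∈ v.asIdeal) :
    Valued.v ((ℓ : ℕ) : v.adicCompletion F) < 1 := by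
  have h1 : Valued.v (algebraMap F (v.adicCompletion F) ((ℓ : 𝓞 F) : F)) =
      v.valuation F ((ℓ : 𝓞 F) : F) :=
    HeightOneSpectrum.valuedAdicCompletion_eq_valuation' v _
  have h2 : algebraMap F (v.adicCompletion F) ((ℓ : 𝓞 F) : F) =
      ((ℓ : ℕ) : v.adicCompletion F) := by
    rw [show ((ℓ : 𝓞 F) : F) = ((ℓ : ℕ) : F) from map_natCast (algebraMap (𝓞 F) F) ℓ,
      map_natCast]
  rw [← h2, h1]
  exact (HeightOneSpectrum.valuation_lt_one_iff_mem v _).2 hv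

omit [Fact ℓ.Prime] in
private theorem tpT3val_one {v : HeightOneSpectrum (𝓞 F)} (hv : (ℓ : 𝓞 F) ∈ v.asIdeal) (m : ℕ)
    {c : FiniteAdeleRing (𝓞 F) F} (hc : c ∈ Ohat F) :
    Valued.v ((1 + (ℓ : FiniteAdeleRing (𝓞 F) F) ^ (m + 1) * c) v) = 1 := by
  have h1 : (1 + (ℓ : FiniteAdeleRing (𝓞 F) F) ^ (m + 1) * c) v =
      1 + (ℓ : v.adicCompletion F) ^ (m + 1) * c v := by
    rw [← tpT3ev_apply, map_add, map_one, map_mul, map_pow, map_natCast, tpT3ev_apply]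
  rw [h1]
  apply Valuation.map_one_add_of_lt
  rw [map_mul, map_pow]
  have h2 : Valued.v (c v) ≤ 1 := (HeightOneSpectrum.mem_adicCompletionIntegers _ _ _).1 (hc v)
  have h3 : Valued.v ((ℓ : ℕ) : v.adicCompletion F) ^ (m + 1) < 1 :=
    pow_lt_one₀ zero_le (tpT3val_ell hv) (by omega)
  calc Valued.v ((ℓ : ℕ) : v.adicCompletion F) ^ (m + 1) * Valued.v (c v)
      ≤ Valued.v ((ℓ : ℕ) : v.adicCompletion F) ^ (m + 1) * 1 := by gcongr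
    _ < 1 := by rwa [mul_one]

private theorem tpT3exists_above (F : Type) [Field F] [NumberField F] (ℓ : ℕ) [Fact ℓ.Prime] :
    ∃ v : HeightOneSpectrum (𝓞 F), (ℓ : 𝓞 F) ∈ v.asIdeal := by
  let σ : F →ₐ[ℚ] PadicAlgCl ℓ := IsAlgClosed.lift
  obtain ⟨v, hv, -⟩ := sig_place (σ : F →+* PadicAlgCl ℓ)
  exact ⟨v, hv⟩

/-- Approximation of an idele: for every `m` there is `y ∈ Fˣ` with `y = x (1 + ℓ^m b)`, `b ∈ Ô`.
Proof: `N x⁻¹ ∈ Ô` for some integer `N > 0` (`exists_mul_mem_Ohat`), and `exists_sub_mem` for `x` and the integer `ℓ^(m+1) N` gives `y ∈ F`, `b₀ ∈ Ô` with `y - x = ℓ^(m+1) N b₀`, so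
`y = x (1 + ℓ^m b)` with `b = ℓ N x⁻¹ b₀ ∈ Ô`. `y ≠ 0`: at a place `v` above `ℓ` the component of `1 + ℓ^m b = 1 + ℓ (ℓ^m N x⁻¹ b₀)` is not `0` (valuation `1`), nor is that of `x`. -/
theorem exists_approx (x : (FiniteAdeleRing (𝓞 F) F)ˣ) (m : ℕ) :
    ∃ y : Fˣ, ∃ b ∈ Ohat F, algebraMap F (FiniteAdeleRing (𝓞 F) F) y =
      x * (1 + (ℓ : FiniteAdeleRing (𝓞 F) F) ^ m * b) ∧
      ∀ v : HeightOneSpectrum (𝓞 F), (ℓ : 𝓞 F) ∈ v.asIdeal →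
        Valued.v ((1 + (ℓ : FiniteAdeleRing (𝓞 F) F) ^ m * b) v) = 1 := by
  obtain ⟨N, hN, hNx⟩ := exists_mul_mem_Ohat F
    ((x⁻¹ : (FiniteAdeleRing (𝓞 F) F)ˣ) : FiniteAdeleRing (𝓞 F) F)
  have hℓ : 0 < ℓ := (Fact.out : ℓ.Prime).pos
  obtain ⟨y, b₀, hb₀, hy⟩ := exists_sub_mem F (x : FiniteAdeleRing (𝓞 F) F) (ℓ ^ (m + 1) * N)
    (Nat.mul_pos (pow_pos hℓ _) hN)
  have hx : (x : FiniteAdeleRing (𝓞 F) F) *
      ((x⁻¹ : (FiniteAdeleRing (𝓞 F) F)ˣ) : FiniteAdeleRing (𝓞 F) F) = 1 := x.mul_inv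
  set X : FiniteAdeleRing (𝓞 F) F :=
    ((x⁻¹ : (FiniteAdeleRing (𝓞 F) F)ˣ) : FiniteAdeleRing (𝓞 F) F) with hX
  have hc : ((N : FiniteAdeleRing (𝓞 F) F) * X) * b₀ ∈ Ohat F := mul_mem hNx hb₀
  have hb : (ℓ : FiniteAdeleRing (𝓞 F) F) * (((N : FiniteAdeleRing (𝓞 F) F) * X) * b₀) ∈ Ohat F :=
    mul_mem (natCast_mem _ ℓ) hc
  have hpow : (ℓ : FiniteAdeleRing (𝓞 F) F) ^ m *
      ((ℓ : FiniteAdeleRing (𝓞 F) F) * (((N : FiniteAdeleRing (𝓞 F) F) * X) * b₀)) =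
      (ℓ : FiniteAdeleRing (𝓞 F) F) ^ (m + 1) * (((N : FiniteAdeleRing (𝓞 F) F) * X) * b₀) := by
    ring
  have hval : ∀ v : HeightOneSpectrum (𝓞 F), (ℓ : 𝓞 F) ∈ v.asIdeal →
        Valued.v ((1 + (ℓ : FiniteAdeleRing (𝓞 F) F) ^ m *
      ((ℓ : FiniteAdeleRing (𝓞 F) F) * (((N : FiniteAdeleRing (𝓞 F) F) * X) * b₀))) v) = 1 := by
    intro v hv
    rw [hpow]
    exact tpT3val_one hv m hc
  have hy' : algebraMap F (FiniteAdeleRing (𝓞 F) F) y = (x : FiniteAdeleRing (𝓞 F) F) *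
      (1 + (ℓ : FiniteAdeleRing (𝓞 F) F) ^ m *
      ((ℓ : FiniteAdeleRing (𝓞 F) F) * (((N : FiniteAdeleRing (𝓞 F) F) * X) * b₀))) := by
    rw [hpow]
    have h1 : algebraMap F (FiniteAdeleRing (𝓞 F) F) y = (x : FiniteAdeleRing (𝓞 F) F) +
        ((ℓ ^ (m + 1) * N : ℕ) : FiniteAdeleRing (𝓞 F) F) * b₀ := by
      rw [← hy]
      ring
    have h2 : (x : FiniteAdeleRing (𝓞 F) F) * (1 + (ℓ : FiniteAdeleRing (𝓞 F) F) ^ (m + 1) *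
        (((N : FiniteAdeleRing (𝓞 F) F) * X) * b₀)) = (x : FiniteAdeleRing (𝓞 F) F) +
        ((x : FiniteAdeleRing (𝓞 F) F) * X) *
        ((ℓ : FiniteAdeleRing (𝓞 F) F) ^ (m + 1) * (N : FiniteAdeleRing (𝓞 F) F) * b₀) := by
      ring
    rw [h1, h2, hx, one_mul, Nat.cast_mul, Nat.cast_pow]
  have hy0 : y ≠ 0 := by
    intro h0
    obtain ⟨v, hv⟩ := tpT3exists_above F ℓ
    rw [h0, map_zero] at hy'
    have h1 := congrArg (tpT3ev v) hy'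
    rw [map_zero, map_mul, tpT3ev_apply, tpT3ev_apply] at h1
    have h2 := congrArg (Valued.v (R := v.adicCompletion F)) h1
    rw [map_zero, map_mul, hval v hv, mul_one] at h2
    exact valued_ne_zero x v h2.symm
  exact ⟨Units.mk0 y hy0, _, hb, hy', hval⟩

/-- The product of the absolute value and of the norm above `ℓ`. -/
noncomputable def Psi (ℓ : ℕ) [Fact ℓ.Prime] (x : (FiniteAdeleRing (𝓞 F) F)ˣ) : PadicAlgCl ℓ :=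
  ((absf x : ℚ) : PadicAlgCl ℓ) * nrm ℓ (x : FiniteAdeleRing (𝓞 F) F)

theorem Psi_mul (x y : (FiniteAdeleRing (𝓞 F) F)ˣ) : Psi ℓ (x * y) = Psi ℓ x * Psi ℓ y := by
  rw [Psi, Psi, Psi, absf_mul, Units.val_mul, map_mul, Rat.cast_mul]
  ring

/-- On `Fˣ` it is `±1` (`absf_algebraMap`, `nrm_algebraMap`). -/
theorem Psi_algebraMap (x : Fˣ) : Psi ℓ
    (Units.map (algebraMap F (FiniteAdeleRing (𝓞 F) F) : F →* FiniteAdeleRing (𝓞 F) F) x) = 1 ∨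
    Psi ℓ (Units.map (algebraMap F (FiniteAdeleRing (𝓞 F) F) : F →* FiniteAdeleRing (𝓞 F) F) x) =
      -1 := by
  have hN : Algebra.norm ℚ (x : F) ≠ 0 := Algebra.norm_ne_zero_iff.2 x.ne_zero
  have h1 : Psi ℓ (Units.map (algebraMap F (FiniteAdeleRing (𝓞 F) F) :
      F →* FiniteAdeleRing (𝓞 F) F) x) =
      ((|Algebra.norm ℚ (x : F)|⁻¹ * Algebra.norm ℚ (x : F) : ℚ) : PadicAlgCl ℓ) := by
    rw [Psi, absf_algebraMap, Rat.cast_mul, ← nrm_algebraMap]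
    rfl
  rw [h1]
  rcases abs_choice (Algebra.norm ℚ (x : F)) with h | h
  · left
    rw [h, inv_mul_cancel₀ hN, Rat.cast_one]
  · right
    rw [h, inv_neg, neg_mul, inv_mul_cancel₀ hN, Rat.cast_neg, Rat.cast_one]

/-- Continuity: a homomorphism (to the multiplicative monoid `PadicAlgCl ℓ`) that is continuous at `1`: near `1` (for `x, x⁻¹ ∈ Ô`, an open condition for the topology of the units:
`isOpen_Ohat`) `absf x = 1` (`lg_eq_zero`, `absf_eq_one`) and `Psi = nrm` is continuous. -/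
theorem continuous_Psi : Continuous (Psi (F := F) ℓ) := by
  rw [continuous_iff_continuousAt]
  intro x₀
  have hc1 : Continuous fun x : (FiniteAdeleRing (𝓞 F) F)ˣ =>
      ((x₀⁻¹ * x : (FiniteAdeleRing (𝓞 F) F)ˣ) : FiniteAdeleRing (𝓞 F) F) :=
    Units.continuous_val.comp (continuous_const.mul continuous_id)
  have hc2 : Continuous fun x : (FiniteAdeleRing (𝓞 F) F)ˣ =>
      (((x₀⁻¹ * x)⁻¹ : (FiniteAdeleRing (𝓞 F) F)ˣ) : FiniteAdeleRing (𝓞 F) F) :=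
    Units.continuous_val.comp (continuous_const.mul continuous_id).inv
  have hU1 := (isOpen_Ohat F).preimage hc1
  have hU2 := (isOpen_Ohat F).preimage hc2
  have hU := (hU1.inter hU2).mem_nhds (x := x₀) (by
    refine ⟨?_, ?_⟩
    · show ((x₀⁻¹ * x₀ : (FiniteAdeleRing (𝓞 F) F)ˣ) : FiniteAdeleRing (𝓞 F) F) ∈ Ohat F
      rw [inv_mul_cancel, Units.val_one]
      exact one_mem _
    · show (((x₀⁻¹ * x₀)⁻¹ : (FiniteAdeleRing (𝓞 F) F)ˣ) : FiniteAdeleRing (𝓞 F) F) ∈ Ohat F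
      rw [inv_mul_cancel, inv_one, Units.val_one]
      exact one_mem _)
  have hEq : (fun x : (FiniteAdeleRing (𝓞 F) F)ˣ => Psi ℓ x₀ *
      nrm ℓ ((x₀⁻¹ * x : (FiniteAdeleRing (𝓞 F) F)ˣ) : FiniteAdeleRing (𝓞 F) F))
      =ᶠ[nhds x₀] Psi ℓ := by
    filter_upwards [hU] with x hx
    have h1 : absf (x₀⁻¹ * x) = 1 := absf_eq_one fun v => lg_eq_zero hx.1 hx.2 v
    have h2 : Psi ℓ (x₀⁻¹ * x) =
        nrm ℓ ((x₀⁻¹ * x : (FiniteAdeleRing (𝓞 F) F)ˣ) : FiniteAdeleRing (𝓞 F) F) := by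
      rw [Psi, h1, Rat.cast_one, one_mul]
    rw [← h2, ← Psi_mul, mul_inv_cancel_left]
  exact (continuous_const.mul (continuous_nrm.comp hc1)).continuousAt.congr hEq

/-- The map `ℤ_ℓ → ℚ̄_ℓ`. -/
private noncomputable def tpT3J (ℓ : ℕ) [Fact ℓ.Prime] : ℤ_[ℓ] →+* PadicAlgCl ℓ :=
  (algebraMap ℚ_[ℓ] (PadicAlgCl ℓ)).comp PadicInt.Coe.ringHom

private theorem tpT3J_norm (w : ℤ_[ℓ]) : ‖tpT3J ℓ w‖ = ‖w‖ := by
  show ‖algebraMap ℚ_[ℓ] (PadicAlgCl ℓ) (w : ℚ_[ℓ])‖ = ‖w‖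
  rw [PadicAlgCl.norm_extends]
  rfl

private theorem tpT3J_isometry (ℓ : ℕ) [Fact ℓ.Prime] : Isometry (tpT3J ℓ) :=
  AddMonoidHomClass.isometry_of_norm _ tpT3J_norm

/-- The values are in `ℤ_ℓˣ`.
Proof: for all `m`, `y = x z` with `z = 1 + ℓ^m b` (`exists_approx`, `z` is an idele), `Psi x * Psi z = Psi y = ±1`, `Psi z = absf z * nrm z`, where `absf z` is (the image of) a unit `u_m` of `ℤ_ℓ`
(`exists_absf_unit`: `lg z v = 0` above `ℓ` by `valued_eq`) and `‖nrm z - 1‖ ≤ ‖ℓ‖^m` (`norm_nrm_sub_one`). So `Psi x = ± u_m⁻¹ (nrm z)⁻¹` has distance at most `‖ℓ‖^m` (for `m ≥ 1`, `‖nrm z‖ = 1`) from the image of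
`± u_m⁻¹`. The image of `ℤ_ℓ` in `PadicAlgCl ℓ` is closed (compact), so `Psi x` is the image of some `u ∈ ℤ_ℓ`, and the same for `x⁻¹`, `Psi x * Psi x⁻¹ = 1`. -/
theorem exists_Psi_eq (x : (FiniteAdeleRing (𝓞 F) F)ˣ) :
    ∃ u : ℤ_[ℓ]ˣ, Psi ℓ x = algebraMap ℚ_[ℓ] (PadicAlgCl ℓ) ((u : ℤ_[ℓ]) : ℚ_[ℓ]) := by
  have hℓ1 : ‖((ℓ : ℕ) : PadicAlgCl ℓ)‖ < 1 := norm_ell_lt_one
  have key : ∀ m : ℕ, ‖Psi ℓ x‖ = 1 ∧ ∃ w : ℤ_[ℓ]ˣ,
      ‖Psi ℓ x - tpT3J ℓ (w : ℤ_[ℓ])‖ ≤ ‖((ℓ : ℕ) : PadicAlgCl ℓ)‖ ^ (m + 1) := by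
    intro m
    obtain ⟨y, b, hb, hy, hv⟩ := exists_approx (ℓ := ℓ) x (m + 1)
    set Y : (FiniteAdeleRing (𝓞 F) F)ˣ :=
      Units.map (algebraMap F (FiniteAdeleRing (𝓞 F) F) : F →* FiniteAdeleRing (𝓞 F) F) y with hYd
    have hz : ((x⁻¹ * Y : (FiniteAdeleRing (𝓞 F) F)ˣ) : FiniteAdeleRing (𝓞 F) F) =
        1 + (ℓ : FiniteAdeleRing (𝓞 F) F) ^ (m + 1) * b := by
      have h1 : (Y : FiniteAdeleRing (𝓞 F) F) = algebraMap F (FiniteAdeleRing (𝓞 F) F) y := rfl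
      rw [Units.val_mul, h1, hy, ← mul_assoc, Units.inv_mul, one_mul]
    have hlg : ∀ v : HeightOneSpectrum (𝓞 F), (ℓ : 𝓞 F) ∈ v.asIdeal → lg (x⁻¹ * Y) v = 0 := by
      intro v hvℓ
      rw [← valued_eq, hz, hv v hvℓ]
      rfl
    obtain ⟨u, hu⟩ := exists_absf_unit ℓ hlg
    have hJu : tpT3J ℓ (u : ℤ_[ℓ]) = ((absf (x⁻¹ * Y) : ℚ) : PadicAlgCl ℓ) := by
      show algebraMap ℚ_[ℓ] (PadicAlgCl ℓ) ((u : ℤ_[ℓ]) : ℚ_[ℓ]) = _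
      rw [hu, map_ratCast]
    set ν : PadicAlgCl ℓ := nrm ℓ (1 + (ℓ : FiniteAdeleRing (𝓞 F) F) ^ (m + 1) * b) with hν
    have hν1 : ‖ν - 1‖ ≤ ‖((ℓ : ℕ) : PadicAlgCl ℓ)‖ ^ (m + 1) := norm_nrm_sub_one (m + 1) hb
    have hν2 : ‖ν - 1‖ < 1 :=
      hν1.trans_lt (pow_lt_one₀ (norm_nonneg _) hℓ1 (by omega))
    have hν3 : ‖ν‖ = 1 := by
      have h1 : ‖(ν - 1) + 1‖ = max ‖ν - 1‖ ‖(1 : PadicAlgCl ℓ)‖ :=
        IsUltrametricDist.norm_add_eq_max_of_norm_ne_norm (by rw [norm_one]; exact hν2.ne)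
      rw [sub_add_cancel, norm_one, max_eq_right hν2.le] at h1
      exact h1
    have hprod : Psi ℓ x * (tpT3J ℓ (u : ℤ_[ℓ]) * ν) = Psi ℓ Y := by
      have h1 : tpT3J ℓ (u : ℤ_[ℓ]) * ν = Psi ℓ (x⁻¹ * Y) := by
        rw [Psi, hz, hJu]
      rw [h1, ← Psi_mul, mul_inv_cancel_left]
    have huu : tpT3J ℓ (u : ℤ_[ℓ]) * tpT3J ℓ ((u⁻¹ : ℤ_[ℓ]ˣ) : ℤ_[ℓ]) = 1 := by
      rw [← map_mul, Units.mul_inv, map_one]
    obtain ⟨w, hw⟩ : ∃ w : ℤ_[ℓ]ˣ, Psi ℓ x * ν = tpT3J ℓ (w : ℤ_[ℓ]) := by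
      have h2 : Psi ℓ x * ν = Psi ℓ Y * tpT3J ℓ ((u⁻¹ : ℤ_[ℓ]ˣ) : ℤ_[ℓ]) := by
        rw [← hprod]
        linear_combination (-(Psi ℓ x * ν)) * huu
      rcases Psi_algebraMap (ℓ := ℓ) y with h | h
      · refine ⟨u⁻¹, ?_⟩
        rw [h2, hYd, h, one_mul]
      · refine ⟨-u⁻¹, ?_⟩
        rw [h2, hYd, h, Units.val_neg, map_neg, neg_one_mul]
    have hnx : ‖Psi ℓ x‖ = 1 := by
      have h1 := congrArg norm hw
      rw [norm_mul, hν3, mul_one, tpT3J_norm, PadicInt.norm_units] at h1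
      exact h1
    refine ⟨hnx, w, ?_⟩
    have h3 : Psi ℓ x - tpT3J ℓ (w : ℤ_[ℓ]) = -(Psi ℓ x * (ν - 1)) := by
      rw [← hw]
      ring
    rw [h3, norm_neg, norm_mul, hnx, one_mul]
    exact hν1
  have hcl : IsClosed (Set.range (tpT3J ℓ)) :=
    (isCompact_range (tpT3J_isometry ℓ).continuous).isClosed
  have hmem : Psi ℓ x ∈ Set.range (tpT3J ℓ) := by
    rw [← hcl.closure_eq, Metric.mem_closure_iff]
    intro ε hε
    obtain ⟨k, hk⟩ := exists_pow_lt_of_lt_one hε hℓ1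
    obtain ⟨-, w, hw⟩ := key k
    refine ⟨_, ⟨(w : ℤ_[ℓ]), rfl⟩, ?_⟩
    rw [dist_eq_norm]
    refine hw.trans_lt (lt_of_le_of_lt ?_ hk)
    exact pow_le_pow_of_le_one (norm_nonneg _) hℓ1.le (Nat.le_succ k)
  obtain ⟨w, hw⟩ := hmem
  have hw1 : IsUnit w := by
    rw [PadicInt.isUnit_iff, ← tpT3J_norm, hw]
    exact (key 0).1
  obtain ⟨u, rfl⟩ := hw1
  exact ⟨u, hw.symm⟩

/-- The number of elements of the residue field as a unit of `ℤ_ℓ` (for `v` not above `ℓ`). -/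
noncomputable def qU (ℓ : ℕ) [Fact ℓ.Prime] (v : HeightOneSpectrum (𝓞 F)) : ℤ_[ℓ]ˣ := by
  classical
  exact if h : IsUnit ((Nat.card (𝓞 F ⧸ v.asIdeal) : ℕ) : ℤ_[ℓ]) then h.unit else 1

/-- See `exists_absf_unit`. -/
theorem qU_val {v : HeightOneSpectrum (𝓞 F)} (hv : (ℓ : 𝓞 F) ∉ v.asIdeal) :
    ((qU ℓ v : ℤ_[ℓ]ˣ) : ℤ_[ℓ]) = ((Nat.card (𝓞 F ⧸ v.asIdeal) : ℕ) : ℤ_[ℓ]) := by
  have h : IsUnit ((Nat.card (𝓞 F ⧸ v.asIdeal) : ℕ) : ℤ_[ℓ]) := by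
    rw [PadicInt.isUnit_iff, PadicInt.norm_natCast_eq_one_iff,
      Nat.Prime.coprime_iff_not_dvd Fact.out]
    intro hdvd
    have hfin : Finite (𝓞 F ⧸ v.asIdeal) :=
      Ideal.finiteQuotientOfFreeOfNeBot v.asIdeal v.ne_bot
    have hpr : v.asIdeal.IsPrime := v.isPrime
    have hdom : IsDomain (𝓞 F ⧸ v.asIdeal) := Ideal.Quotient.isDomain v.asIdeal
    obtain ⟨a, ha⟩ := exists_prime_addOrderOf_dvd_card' ℓ hdvd
    have ha0 : a ≠ 0 := by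
      rintro rfl
      rw [addOrderOf_zero] at ha
      exact (Fact.out : ℓ.Prime).one_lt.ne ha
    have h1 : ℓ • a = 0 := by
      rw [← ha]
      exact addOrderOf_nsmul_eq_zero a
    rw [nsmul_eq_mul] at h1
    have h2 : ((ℓ : ℕ) : 𝓞 F ⧸ v.asIdeal) = 0 := (mul_eq_zero.1 h1).resolve_right ha0
    apply hv
    rw [← Ideal.Quotient.eq_zero_iff_mem, map_natCast]
    exact h2
  unfold qU
  rw [dif_pos h]
  exact h.unit_spec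

/-- **The cyclotomic character.** Proof: `ψ x` = the unit of `exists_Psi_eq`; a homomorphism by injectivity of `ℤ_ℓ → ℚ̄_ℓ` and `Psi_mul`; continuous since this map is an isometry (`PadicAlgCl.norm_extends`), and for the inverses
`ψ(x)⁻¹ = ψ(x⁻¹)` (`Units.continuous_iff`); the values: `Psi_algebraMap`; `nrm_eq_one`, `absf_eq_one`, `absf_single`, `valued_eq`, `qU_val`. -/
theorem exists_psi (F : Type) [Field F] [NumberField F] (ℓ : ℕ) [Fact ℓ.Prime] :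
    ∃ ψ : (FiniteAdeleRing (𝓞 F) F)ˣ →* ℤ_[ℓ]ˣ, Continuous ψ ∧
      (∀ x : Fˣ, ψ (Units.map (algebraMap F (FiniteAdeleRing (𝓞 F) F) :
        F →* FiniteAdeleRing (𝓞 F) F) x) ^ 2 = 1) ∧
      (∀ x : (FiniteAdeleRing (𝓞 F) F)ˣ, (∀ v : HeightOneSpectrum (𝓞 F), (ℓ : 𝓞 F) ∈ v.asIdeal →
        (x : FiniteAdeleRing (𝓞 F) F) v = 1) →
        (∀ v, Valued.v ((x : FiniteAdeleRing (𝓞 F) F) v) = 1) → ψ x = 1) ∧
      ∀ v : HeightOneSpectrum (𝓞 F), (ℓ : 𝓞 F) ∉ v.asIdeal →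
        ∀ (x : (FiniteAdeleRing (𝓞 F) F)ˣ) (r : ℤ),
        (∀ w, w ≠ v → (x : FiniteAdeleRing (𝓞 F) F) w = 1) →
        Valued.v ((x : FiniteAdeleRing (𝓞 F) F) v) =
          ((Multiplicative.ofAdd r : Multiplicative ℤ) : WithZero (Multiplicative ℤ)) →
        ψ x = qU ℓ v ^ r := by
  choose u hu using exists_Psi_eq (F := F) (ℓ := ℓ)
  have hu' : ∀ x, Psi ℓ x = tpT3J ℓ (u x : ℤ_[ℓ]) := hu
  have hJ : Function.Injective (tpT3J ℓ) := (tpT3J_isometry ℓ).injective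
  have hinj : ∀ a b : ℤ_[ℓ]ˣ, tpT3J ℓ (a : ℤ_[ℓ]) = tpT3J ℓ (b : ℤ_[ℓ]) → a = b :=
    fun a b h => Units.ext (hJ h)
  let ψ : (FiniteAdeleRing (𝓞 F) F)ˣ →* ℤ_[ℓ]ˣ := MonoidHom.mk' u fun x y => hinj _ _ (by
    rw [← hu', Psi_mul, hu', hu', Units.val_mul, map_mul])
  have hψ : ∀ x, tpT3J ℓ (ψ x : ℤ_[ℓ]) = Psi ℓ x := fun x => (hu' x).symm
  have hc : Continuous fun x : (FiniteAdeleRing (𝓞 F) F)ˣ => ((ψ x : ℤ_[ℓ]ˣ) : ℤ_[ℓ]) := by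
    rw [(tpT3J_isometry ℓ).isEmbedding.continuous_iff]
    have h1 : (tpT3J ℓ ∘ fun x : (FiniteAdeleRing (𝓞 F) F)ˣ => ((ψ x : ℤ_[ℓ]ˣ) : ℤ_[ℓ])) =
        Psi ℓ := by
      funext x
      exact hψ x
    rw [h1]
    exact continuous_Psi
  have hone : ∀ x : (FiniteAdeleRing (𝓞 F) F)ˣ, (∀ v : HeightOneSpectrum (𝓞 F),
      (ℓ : 𝓞 F) ∈ v.asIdeal → (x : FiniteAdeleRing (𝓞 F) F) v = 1) →
      Psi ℓ x = ((absf x : ℚ) : PadicAlgCl ℓ) := by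
    intro x hx
    rw [Psi, nrm_eq_one hx, mul_one]
  refine ⟨ψ, ?_, ?_, ?_, ?_⟩
  · rw [Units.continuous_iff]
    refine ⟨hc, ?_⟩
    have h1 : (fun x : (FiniteAdeleRing (𝓞 F) F)ˣ => (((ψ x)⁻¹ : ℤ_[ℓ]ˣ) : ℤ_[ℓ])) =
        (fun x : (FiniteAdeleRing (𝓞 F) F)ˣ => ((ψ x : ℤ_[ℓ]ˣ) : ℤ_[ℓ])) ∘ fun x => x⁻¹ := by
      funext x
      show (((ψ x)⁻¹ : ℤ_[ℓ]ˣ) : ℤ_[ℓ]) = ((ψ x⁻¹ : ℤ_[ℓ]ˣ) : ℤ_[ℓ])
      rw [map_inv]
    rw [h1]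
    exact hc.comp continuous_inv
  · intro x
    apply hinj
    rw [Units.val_pow_eq_pow_val, map_pow, hψ, Units.val_one, map_one]
    rcases Psi_algebraMap (ℓ := ℓ) x with h | h
    · rw [h, one_pow]
    · rw [h, neg_one_sq]
  · intro x hx hx1
    apply hinj
    rw [hψ, hone x hx, Units.val_one, map_one, absf_eq_one, Rat.cast_one]
    intro v
    rw [← valued_eq, hx1 v]
    rfl
  · intro v hv x r hx hxr
    apply hinj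
    have hx' : ∀ w : HeightOneSpectrum (𝓞 F), (ℓ : 𝓞 F) ∈ w.asIdeal →
        (x : FiniteAdeleRing (𝓞 F) F) w = 1 := by
      intro w hw
      apply hx
      rintro rfl
      exact hv hw
    have hl : ∀ w, w ≠ v → lg x w = 0 := by
      intro w hw
      rw [← valued_eq, hx w hw, map_one]
      rfl
    have hr : lg x v = r := (valued_eq x v r).1 hxr
    rw [hψ, hone x hx', absf_single hl, hr, Rat.cast_zpow, Rat.cast_natCast]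
    have h1 : tpT3J ℓ ((qU ℓ v ^ r : ℤ_[ℓ]ˣ) : ℤ_[ℓ]) =
        ((Units.map (tpT3J ℓ : ℤ_[ℓ] →* PadicAlgCl ℓ) (qU ℓ v ^ r) : (PadicAlgCl ℓ)ˣ) :
          PadicAlgCl ℓ) := rfl
    have h2 : ((Units.map (tpT3J ℓ : ℤ_[ℓ] →* PadicAlgCl ℓ) (qU ℓ v) : (PadicAlgCl ℓ)ˣ) :
          PadicAlgCl ℓ) = ((Nat.card (𝓞 F ⧸ v.asIdeal) : ℕ) : PadicAlgCl ℓ) := by
      show tpT3J ℓ ((qU ℓ v : ℤ_[ℓ]ˣ) : ℤ_[ℓ]) = _
      rw [qU_val hv, map_natCast]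
    rw [h1, map_zpow, Units.val_zpow_eq_zpow_val, h2]

end Pool.Agent.Lib.MP_666dc0_nt.TP
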