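import Pool.Agent.Lib.MP_666dc0_nt.TP.R3
import Pool.Agent.Lib.MP_666dc0_nt.TP.T3

/-!
# TP, R6: twisting by the cyclotomic character and the grading of the constant terms
-/

open NumberField IsDedekindDomain
open scoped NumberField

namespace Pool.Agent.Lib.MP_666dc0_nt.TP

open WL

variable {F : Type} [Field F] [NumberField F] {n : ℕ} {D D' : Datum F n}
  {ℓ : ℕ} [Fact ℓ.Prime] {U : Subgroup D.Ad}
  {B : Type} [CommRing B] {O : Type} [CommRing O] [HopfAlgebra B O]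
  {A : OverB.HopfAction B Gal(AlgebraicClosure F/F) O} {S : Finset (HeightOneSpectrum (𝓞 F))}
  {φ : HeightOneSpectrum (𝓞 F) → Gal(AlgebraicClosure F/F)} {X : Type} [AddCommGroup X]
  [Module ℤ_[ℓ] X]

/-- The substitution `(v, f) ↦ ∑_{r ∈ Rs (v, f)} q_v^(2 j r) (v, f, r)`. -/
noncomputable def subst (ℓ : ℕ) [Fact ℓ.Prime] (Rs : Ix A S φ → Finset ℤ) (j : ℤ) :
    FreeAlgebra ℤ_[ℓ] (Ix A S φ) →ₐ[ℤ_[ℓ]] FreeAlgebra ℤ_[ℓ] (IxM A S φ) :=
  FreeAlgebra.lift ℤ_[ℓ] fun i =>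
    ∑ r ∈ Rs i, ((qU ℓ i.1.1 ^ (2 * j * r) : ℤ_[ℓ]ˣ) : ℤ_[ℓ]) • FreeAlgebra.ι ℤ_[ℓ] (i, r)

/-- There are finite sets `Rs i` that contain the given finite sets `E i` and all degrees of the cosets in the support of the Hecke function (`HasDeg.unique`: each coset has at most one degree). -/
theorem exists_Rs (μ : Grading D) (D' : Datum F n) (a₀ : ℤ) (sat : ∀ v, A.inv (φ v) → Hk ℓ U v)
    (E : Ix A S φ → Finset ℤ) : ∃ Rs : Ix A S φ → Finset ℤ, (∀ i, E i ⊆ Rs i) ∧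
      ∀ i (c : LocQuot U i.1.1), (sat i.1.1 i.2).1 c ≠ 0 → ∀ r, HasDeg μ D' a₀ c r → r ∈ Rs i := by
  classical
  refine ⟨fun i => E i ∪ (sat i.1.1 i.2).1.support.image
    (fun c => if h : ∃ r, HasDeg μ D' a₀ c r then h.choose else 0), ?_, ?_⟩
  · intro i
    exact Finset.subset_union_left
  · intro i c hc r hr
    refine Finset.mem_union_right _ (Finset.mem_image.2 ⟨c, Finsupp.mem_support_iff.2 hc, ?_⟩)
    have h : ∃ r, HasDeg μ D' a₀ c r := ⟨r, hr⟩
    rw [dif_pos h]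
    exact h.choose_spec.unique hr

/-- **The twist.** `T (θ^j f) = θ^j (T_j f)`, where `T_j` is the action of the substituted polynomial by the graded pieces.
Proof: `FreeAlgebra.induction` (the statement for all `f`; it is stable under sums and products, and `algebraMap r` acts by `r`). For `(v, f₀)`, with `h = sat v f₀`: the left side at `g` is
`∑ h(c) θ(g m_c)^j f(g m_c) = θ(g)^j ∑ h(c) θ(m_c)^j f(g m_c)`; each `c` in the support has exactly one degree `r` (`exists_hasDeg`, `HasDeg.unique`), it is in `Rs`, and `θ(m_c)^j = q_v^(2 r j)` (`hθ`); the right side is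
`θ(g)^j ∑_{r ∈ Rs} q_v^(2jr) ∑_c (if HasDeg c r then h(c) f(g m_c) else 0)`; exchange the sums (`Finsupp.sum` over the support of `h`, `Finset.sum_comm`, `Finset.sum_eq_single`). -/
theorem actC_twist {μ : Grading D} (hM : μ.IsLevi D') (a₀ : ℤ) (θ : D'.Ad →* ℤ_[ℓ]ˣ)
    (hθ : ∀ v, v ∉ S → ∀ (c : LocQuot U v) (r : ℤ), HasDeg μ D' a₀ c r →
      θ (leviRep μ D' c) = qU ℓ v ^ (2 * r))
    (sat : ∀ v, A.inv (φ v) → Hk ℓ U v) {Rs : Ix A S φ → Finset ℤ}
    (hRs : ∀ i (c : LocQuot U i.1.1), (sat i.1.1 i.2).1 c ≠ 0 → ∀ r, HasDeg μ D' a₀ c r →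
      r ∈ Rs i) (j : ℤ) (t : FreeAlgebra ℤ_[ℓ] (Ix A S φ)) (f : D'.Ad → X) :
    actC μ D' sat X t (fun g => ((θ g ^ j : ℤ_[ℓ]ˣ) : ℤ_[ℓ]) • f g) =
      fun g => ((θ g ^ j : ℤ_[ℓ]ˣ) : ℤ_[ℓ]) • actM μ D' a₀ sat X (subst ℓ Rs j t) f g := by
  classical
  induction t using FreeAlgebra.induction generalizing f with
  | grade0 r =>
    rw [AlgHom.commutes, AlgHom.commutes, AlgHom.commutes]
    funext g
    rw [Module.algebraMap_end_apply, Module.algebraMap_end_apply, Pi.smul_apply, Pi.smul_apply]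
    exact smul_comm _ _ _
  | grade1 i =>
    funext g
    have hL : actC μ D' sat X (FreeAlgebra.ι ℤ_[ℓ] i) = wop (sat i.1.1 i.2).1 μ D' X := by
      unfold actC
      exact FreeAlgebra.lift_ι_apply _ _
    have hS : subst ℓ Rs j (FreeAlgebra.ι ℤ_[ℓ] i) =
        ∑ r ∈ Rs i, ((qU ℓ i.1.1 ^ (2 * j * r) : ℤ_[ℓ]ˣ) : ℤ_[ℓ]) •
          FreeAlgebra.ι ℤ_[ℓ] (i, r) := by
      unfold subst
      exact FreeAlgebra.lift_ι_apply _ _
    have hR : ∀ r : ℤ, actM μ D' a₀ sat X (FreeAlgebra.ι ℤ_[ℓ] (i, r)) =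
        (sat i.1.1 i.2).ct μ D' a₀ r X := by
      intro r
      unfold actM
      exact FreeAlgebra.lift_ι_apply _ _
    rw [hL, hS, map_sum]
    simp only [map_smul, hR]
    rw [LinearMap.sum_apply, Finset.sum_apply]
    simp only [LinearMap.smul_apply, Pi.smul_apply]
    show ((sat i.1.1 i.2).1.sum fun c s => s •
        (((θ (g * leviRep μ D' c) ^ j : ℤ_[ℓ]ˣ) : ℤ_[ℓ]) • f (g * leviRep μ D' c))) =
      ((θ g ^ j : ℤ_[ℓ]ˣ) : ℤ_[ℓ]) • ∑ r ∈ Rs i, ((qU ℓ i.1.1 ^ (2 * j * r) : ℤ_[ℓ]ˣ) : ℤ_[ℓ]) •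
        ((sat i.1.1 i.2).1.sum fun c s =>
          if HasDeg μ D' a₀ c r then s • f (g * leviRep μ D' c) else 0)
    simp only [Finsupp.sum, Finset.smul_sum]
    rw [Finset.sum_comm]
    refine Finset.sum_congr rfl fun c hc => ?_
    obtain ⟨r, hr⟩ := exists_hasDeg hM a₀ c
    have hrR : r ∈ Rs i := hRs i c (Finsupp.mem_support_iff.1 hc) r hr
    rw [Finset.sum_eq_single r]
    · rw [if_pos hr, map_mul, mul_zpow, Units.val_mul, hθ i.1.1 i.1.2 c r hr, ← zpow_mul,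
        show 2 * r * j = 2 * j * r by ring]
      rw [smul_smul, smul_smul, smul_smul]
      congr 1
      ring
    · intro r' _ hne
      rw [if_neg (fun h => hne (h.unique hr)), smul_zero, smul_zero]
    · intro h
      exact absurd hrR h
  | mul a b ha hb =>
    rw [map_mul, map_mul, map_mul, Module.End.mul_apply, Module.End.mul_apply, hb, ha]
  | add a b ha hb =>
    rw [map_add, map_add, map_add, LinearMap.add_apply, LinearMap.add_apply, ha, hb]
    funext g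
    simp only [Pi.add_apply, smul_add]

/-- Values of the substituted polynomial (both sides are algebra homomorphisms in `t`: `FreeAlgebra.hom_ext`). -/
theorem lift_subst (Rs : Ix A S φ → Finset ℤ) (j : ℤ) (c : IxM A S φ → PadicAlgCl ℓ)
    (t : FreeAlgebra ℤ_[ℓ] (Ix A S φ)) : FreeAlgebra.lift ℤ_[ℓ] c (subst ℓ Rs j t) =
      FreeAlgebra.lift ℤ_[ℓ] (fun i => ∑ r ∈ Rs i,
        ((qU ℓ i.1.1 ^ (2 * j * r) : ℤ_[ℓ]ˣ) : ℤ_[ℓ]) • c (i, r)) t := by
  have h : (FreeAlgebra.lift ℤ_[ℓ] c).comp (subst ℓ Rs j) =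
      FreeAlgebra.lift ℤ_[ℓ] (fun i => ∑ r ∈ Rs i,
        ((qU ℓ i.1.1 ^ (2 * j * r) : ℤ_[ℓ]ˣ) : ℤ_[ℓ]) • c (i, r)) := by
    refine FreeAlgebra.hom_ext ?_
    funext i
    simp only [Function.comp_apply, AlgHom.comp_apply, subst, FreeAlgebra.lift_ι_apply, map_sum,
      map_smul]
  exact DFunLike.congr_fun h t

/-- Polynomials with integral coefficients: `toZl` (`FreeAlgebra.hom_ext` over `ℤ`, or induction). -/
theorem lift_toZl {I : Type} (c : I → PadicAlgCl ℓ) (t : FreeAlgebra ℤ I) :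
    FreeAlgebra.lift ℤ_[ℓ] c (toZl ℓ I t) = FreeAlgebra.lift ℤ c t := by
  induction t using FreeAlgebra.induction with
  | grade0 r =>
    rw [AlgHom.commutes, AlgHom.commutes, eq_intCast, eq_intCast, map_intCast]
  | grade1 i =>
    simp only [toZl, FreeAlgebra.lift_ι_apply]
  | mul a b ha hb =>
    rw [map_mul, map_mul, map_mul, ha, hb]
  | add a b ha hb =>
    rw [map_add, map_add, map_add, ha, hb]

end Pool.Agent.Lib.MP_666dc0_nt.TP
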