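import Pool.Agent.Lib.MP_666dc0_nt.TP.T3

/-!
# TP, R7: values of regular functions along the cocharacter
-/

open NumberField IsDedekindDomain LaurentPolynomial
open scoped NumberField

namespace Pool.Agent.Lib.MP_666dc0_nt.TP

variable {O O' : Type} [CommRing O] [HopfAlgebra ℚ O] [CommRing O'] [HopfAlgebra ℚ O']
  (π : O →ₐc[ℚ] O') (ν : O →ₐc[ℚ] ℚ[T;T⁻¹])

/-- Evaluation of a Laurent polynomial as a sum over a finite set containing the support. -/
private theorem r7_eval {K : Type} [Field K] (p : K[T;T⁻¹]) (s : Kˣ) {R : Finset ℤ}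
    (hR : ∀ r, p.coeff r ≠ 0 → r ∈ R) :
    LaurentPolynomial.eval₂ (RingHom.id K) s p = ∑ r ∈ R, ((s ^ r : Kˣ) : K) * p.coeff r := by
  have h1 : ∀ q : K[T;T⁻¹], LaurentPolynomial.eval₂ (RingHom.id K) s q =
      q.coeff.sum fun r x => ((s ^ r : Kˣ) : K) * x := by
    intro q
    induction q using LaurentPolynomial.induction_on' with
    | add p q hp hq =>
      rw [map_add, hp, hq, AddMonoidAlgebra.coeff_add, Finsupp.sum_add_index']
      · intro r
        exact mul_zero _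
      · intro r x y
        exact mul_add _ _ _
    | C_mul_T n a =>
      rw [LaurentPolynomial.eval₂_C_mul_T, ← LaurentPolynomial.single_eq_C_mul_T,
        AddMonoidAlgebra.coeff_single, Finsupp.sum_single_index (mul_zero _), RingHom.id_apply,
        mul_comm]
  rw [h1, Finsupp.sum]
  refine Finset.sum_subset (fun r hr => hR r (Finsupp.mem_support_iff.1 hr)) ?_
  intro r _ hr
  rw [Finsupp.notMem_support_iff.1 hr, mul_zero]

/-- The evaluation at the unit `s`, as a homomorphism of `ℚ`-algebras. -/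
private noncomputable def r7_ev {K : Type} [Field K] [CharZero K] (s : Kˣ) :
    K[T;T⁻¹] →ₐ[ℚ] K :=
  (LaurentPolynomial.eval₂ (RingHom.id K) s).toRatAlgHom

private theorem r7_ev_apply {K : Type} [Field K] [CharZero K] (s : Kˣ) (p : K[T;T⁻¹]) :
    r7_ev s p = LaurentPolynomial.eval₂ (RingHom.id K) s p := rfl

/-- Homomorphisms of `ℚ`-algebras on `ℚ[T, T⁻¹]` that agree at `T` are equal. -/
private theorem r7_evalUnit {R S : Type} [CommRing R] [Algebra ℚ R] [CommRing S] [Algebra ℚ S]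
    (ψ : R →ₐ[ℚ] S) (t : Rˣ) (u : Sˣ) (h : ψ t = u) (p : ℚ[T;T⁻¹]) :
    ψ (evalUnit t p) = evalUnit u p := by
  have hu : Units.map (ψ : R →* S) t = u := by
    ext
    exact h
  induction p using LaurentPolynomial.induction_on' with
  | add p q hp hq => rw [map_add, map_add, map_add, hp, hq]
  | C_mul_T n a =>
    have h1 : evalUnit t (LaurentPolynomial.C a * LaurentPolynomial.T n) =
        algebraMap ℚ R a * ((t ^ n : Rˣ) : R) :=
      LaurentPolynomial.eval₂_C_mul_T (algebraMap ℚ R) t a n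
    have h2 : evalUnit u (LaurentPolynomial.C a * LaurentPolynomial.T n) =
        algebraMap ℚ S a * ((u ^ n : Sˣ) : S) :=
      LaurentPolynomial.eval₂_C_mul_T (algebraMap ℚ S) u a n
    rw [h1, h2, map_mul, AlgHom.commutes, ← hu, ← map_zpow]
    rfl

/-- The evaluation of the point `m ν(T)` over `K[T, T⁻¹]` is `m ν(s)`. -/
private theorem r7_point {K : Type} [Field K] [CharZero K] (m : Pts O' K) (s : Kˣ) :
    Pts.map (r7_ev s) (Pts.incl π (Pts.map (C : K →+* K[T;T⁻¹]).toRatAlgHom m) *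
      Pts.cochar ν (unitT K)) = Pts.incl π m * Pts.cochar ν s := by
  rw [map_mul]
  congr 1
  · ext f
    rw [Pts.map_hom_apply]
    change r7_ev s (C (m.hom (π f))) = m.hom (π f)
    rw [r7_ev_apply, LaurentPolynomial.eval₂_C, RingHom.id_apply]
  · ext f
    rw [Pts.map_hom_apply]
    change r7_ev s (evalUnit (unitT K) (ν f)) = evalUnit s (ν f)
    refine r7_evalUnit _ _ _ ?_ _
    rw [r7_ev_apply]
    change LaurentPolynomial.eval₂ (RingHom.id K) s (T 1) = s
    rw [LaurentPolynomial.eval₂_T, zpow_one]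

/-- Laurent polynomials have finitely many coefficients. -/
theorem coef_finite {K : Type} [Field K] [CharZero K] (m : Pts O' K) (f : O) :
    {r | coef π ν m f r ≠ 0}.Finite := by
  refine (Finset.finite_toSet ((Pts.incl π (Pts.map (C : K →+* K[T;T⁻¹]).toRatAlgHom m) *
    Pts.cochar ν (unitT K)).hom f).coeff.support).subset ?_
  intro r hr
  exact Finset.mem_coe.2 (Finsupp.mem_support_iff.2 hr)

/-- **Evaluation.** `f(m ν(s)) = ∑ s^r f_r(m)`.
Proof: the evaluation `ev : K[T, T⁻¹] → K` at the unit `s` (`LaurentPolynomial.eval₂ (RingHom.id K) s`, a `ℚ`-algebra homomorphism `ψ`) maps the point `incl π (map C m) * cochar ν (unitT K)` over `K[T, T⁻¹]` to the point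
`incl π m * cochar ν s`: `Pts.map ψ` is multiplicative, `Pts.map ψ (incl π (map C m)) = incl π m` (`ψ ∘ C = id`), `Pts.map ψ (cochar ν (unitT K)) = cochar ν s` (`Pts.cochar`, `evalUnit`: both are algebra homomorphisms on `ℚ[T, T⁻¹]`
with value `s` at `T`). So the right side is `ψ p`, `p` the Laurent polynomial whose coefficients are the `coef π ν m f r`, and `ψ p = ∑_r p_r s^r` (`LaurentPolynomial` sums: `eval₂` of a finite sum; enlarge the support to `R`). -/
theorem sum_coef {K : Type} [Field K] [CharZero K] (m : Pts O' K) (f : O) (s : Kˣ)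
    {R : Finset ℤ} (hR : ∀ r, coef π ν m f r ≠ 0 → r ∈ R) :
    ∑ r ∈ R, ((s ^ r : Kˣ) : K) * coef π ν m f r =
      (Pts.incl π m * Pts.cochar ν s).hom f := by
  rw [← r7_point, Pts.map_hom_apply, r7_ev_apply]
  exact (r7_eval _ s hR).symm

variable {F : Type} [Field F] [NumberField F] {ℓ : ℕ} [Fact ℓ.Prime]

/-- `sum_coef` for `s = N(v)^(2j)` (`qU_val`: the images of `qU ℓ v` and of `normUnit` agree). -/
theorem sum_coef_qU {v : HeightOneSpectrum (𝓞 F)} (hv : (ℓ : 𝓞 F) ∉ v.asIdeal) (j : ℤ)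
    (m : Pts O' (PadicAlgCl ℓ)) (f : O) {R : Finset ℤ}
    (hR : ∀ r, coef π ν m f r ≠ 0 → r ∈ R) :
    ∑ r ∈ R, ((qU ℓ v ^ (2 * j * r) : ℤ_[ℓ]ˣ) : ℤ_[ℓ]) • coef π ν m f r =
      (Pts.incl π m * Pts.cochar ν (normUnit (PadicAlgCl ℓ) v ^ (2 * j))).hom f := by
  rw [← sum_coef π ν m f _ hR]
  refine Finset.sum_congr rfl fun r _ => ?_
  rw [Algebra.smul_def]
  congr 1
  have h1 : Units.map (algebraMap ℤ_[ℓ] (PadicAlgCl ℓ) : ℤ_[ℓ] →* PadicAlgCl ℓ) (qU ℓ v) =
      normUnit (PadicAlgCl ℓ) v := by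
    ext
    change algebraMap ℤ_[ℓ] (PadicAlgCl ℓ) (qU ℓ v : ℤ_[ℓ]) =
      ((Nat.card (𝓞 F ⧸ v.asIdeal) : ℕ) : PadicAlgCl ℓ)
    rw [qU_val hv, map_natCast]
  rw [← zpow_mul, ← h1, ← map_zpow]
  rfl

end Pool.Agent.Lib.MP_666dc0_nt.TP
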