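import Pool.Agent.Lib.MP_666dc0_nt.TP.Defs
import Pool.Agent.Lib.MP_666dc0_nt.Mg.G002

/-!
# TP, T1: the absolute value of a finite idele
-/

open NumberField IsDedekindDomain
open scoped NumberField

namespace Pool.Agent.Lib.MP_666dc0_nt.TP

open WL

variable {F : Type} [Field F] [NumberField F]

/-- The exponent `r` with `Valued.v (x_v) = ofAdd r`, for a finite idele `x`. -/
noncomputable def lg (x : (FiniteAdeleRing (𝓞 F) F)ˣ) (v : HeightOneSpectrum (𝓞 F)) : ℤ :=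
  WithZero.log (Valued.v ((x : FiniteAdeleRing (𝓞 F) F) v))

/-- The components of an idele are units: `x_v (x⁻¹)_v = 1`. -/
theorem valued_ne_zero (x : (FiniteAdeleRing (𝓞 F) F)ˣ) (v : HeightOneSpectrum (𝓞 F)) :
    Valued.v ((x : FiniteAdeleRing (𝓞 F) F) v) ≠ 0 := by
  intro h
  have h1 : ((x : FiniteAdeleRing (𝓞 F) F) *
      ((x⁻¹ : (FiniteAdeleRing (𝓞 F) F)ˣ) : FiniteAdeleRing (𝓞 F) F)) v = 1 := by
    rw [Units.mul_inv]
    rfl
  have h2 : (x : FiniteAdeleRing (𝓞 F) F) v *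
      ((x⁻¹ : (FiniteAdeleRing (𝓞 F) F)ˣ) : FiniteAdeleRing (𝓞 F) F) v = 1 := h1
  have h3 := congrArg Valued.v h2
  rw [map_mul, h, zero_mul, map_one] at h3
  exact zero_ne_one h3

theorem valued_eq (x : (FiniteAdeleRing (𝓞 F) F)ˣ) (v : HeightOneSpectrum (𝓞 F)) (r : ℤ) :
    Valued.v ((x : FiniteAdeleRing (𝓞 F) F) v) =
      ((Multiplicative.ofAdd r : Multiplicative ℤ) : WithZero (Multiplicative ℤ)) ↔ lg x v = r := by
  constructor
  · intro h
    unfold lg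
    rw [h]
    rfl
  · intro h
    rw [← h]
    exact (WithZero.exp_log (valued_ne_zero x v)).symm

theorem lg_mul (x y : (FiniteAdeleRing (𝓞 F) F)ˣ) (v : HeightOneSpectrum (𝓞 F)) :
    lg (x * y) v = lg x v + lg y v := by
  have h1 : Valued.v (((x * y : (FiniteAdeleRing (𝓞 F) F)ˣ) : FiniteAdeleRing (𝓞 F) F) v) =
      Valued.v ((x : FiniteAdeleRing (𝓞 F) F) v) * Valued.v ((y : FiniteAdeleRing (𝓞 F) F) v) := by
    rw [← map_mul]
    rfl
  unfold lg
  rw [h1]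
  exact WithZero.log_mul (valued_ne_zero x v) (valued_ne_zero y v)

theorem lg_one (v : HeightOneSpectrum (𝓞 F)) : lg (1 : (FiniteAdeleRing (𝓞 F) F)ˣ) v = 0 := by
  have h1 : Valued.v (((1 : (FiniteAdeleRing (𝓞 F) F)ˣ) : FiniteAdeleRing (𝓞 F) F) v) = 1 :=
    map_one _
  unfold lg
  rw [h1]
  exact WithZero.log_one

private theorem T1a {x : (FiniteAdeleRing (𝓞 F) F)ˣ} {v : HeightOneSpectrum (𝓞 F)}
    (h : (x : FiniteAdeleRing (𝓞 F) F) v ∈ v.adicCompletionIntegers F)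
    (h' : ((x⁻¹ : (FiniteAdeleRing (𝓞 F) F)ˣ) : FiniteAdeleRing (𝓞 F) F) v ∈
      v.adicCompletionIntegers F) : lg x v = 0 := by
  have h1 : ((x : FiniteAdeleRing (𝓞 F) F) *
      ((x⁻¹ : (FiniteAdeleRing (𝓞 F) F)ˣ) : FiniteAdeleRing (𝓞 F) F)) v = 1 := by
    rw [Units.mul_inv]
    rfl
  have h2 : (x : FiniteAdeleRing (𝓞 F) F) v *
      ((x⁻¹ : (FiniteAdeleRing (𝓞 F) F)ˣ) : FiniteAdeleRing (𝓞 F) F) v = 1 := h1
  have h3 := congrArg Valued.v h2
  rw [map_mul, map_one] at h3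
  rw [HeightOneSpectrum.mem_adicCompletionIntegers] at h h'
  have h4 : Valued.v ((x : FiniteAdeleRing (𝓞 F) F) v) = 1 := by
    refine le_antisymm h ?_
    rw [← h3]
    exact mul_le_of_le_one_right' h'
  unfold lg
  rw [h4]
  exact WithZero.log_one

/-- `x_v` and `(x⁻¹)_v` are integral for almost all `v` (restricted product), so `Valued.v (x_v) ≤ 1` and `≥ 1`. -/
theorem lg_finite (x : (FiniteAdeleRing (𝓞 F) F)ˣ) : {v | lg x v ≠ 0}.Finite := by
  have h1 : {v | (x : FiniteAdeleRing (𝓞 F) F) v ∉ v.adicCompletionIntegers F}.Finite :=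
    (x : FiniteAdeleRing (𝓞 F) F).2
  have h2 : {v | ((x⁻¹ : (FiniteAdeleRing (𝓞 F) F)ˣ) : FiniteAdeleRing (𝓞 F) F) v ∉
      v.adicCompletionIntegers F}.Finite :=
    ((x⁻¹ : (FiniteAdeleRing (𝓞 F) F)ˣ) : FiniteAdeleRing (𝓞 F) F).2
  refine (h1.union h2).subset fun v hv => ?_
  by_contra hc
  rw [Set.mem_union, not_or] at hc
  exact hv (T1a (not_not.1 hc.1) (not_not.1 hc.2))

/-- If `x` and `x⁻¹` are in `Ô` then all exponents are zero. -/
theorem lg_eq_zero {x : (FiniteAdeleRing (𝓞 F) F)ˣ} (h : (x : FiniteAdeleRing (𝓞 F) F) ∈ Ohat F)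
    (h' : ((x⁻¹ : (FiniteAdeleRing (𝓞 F) F)ˣ) : FiniteAdeleRing (𝓞 F) F) ∈ Ohat F)
    (v : HeightOneSpectrum (𝓞 F)) : lg x v = 0 := by
  exact T1a (h v) (h' v)

/-- The absolute value `|x| = ∏ N(v)^r` of a finite idele, a positive rational number. -/
noncomputable def absf (x : (FiniteAdeleRing (𝓞 F) F)ˣ) : ℚ :=
  ∏ᶠ v : HeightOneSpectrum (𝓞 F), (Nat.card (𝓞 F ⧸ v.asIdeal) : ℚ) ^ lg x v

private theorem T1b (v : HeightOneSpectrum (𝓞 F)) : (0 : ℚ) < (Nat.card (𝓞 F ⧸ v.asIdeal) : ℚ) := by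
  have hfin : Finite (𝓞 F ⧸ v.asIdeal) :=
    Ideal.finiteQuotientOfFreeOfNeBot v.asIdeal v.ne_bot
  exact_mod_cast Nat.card_pos

private theorem T1c (x : (FiniteAdeleRing (𝓞 F) F)ˣ) :
    (Function.mulSupport fun v : HeightOneSpectrum (𝓞 F) =>
      (Nat.card (𝓞 F ⧸ v.asIdeal) : ℚ) ^ lg x v).Finite := by
  refine (lg_finite x).subset fun v hv => ?_
  intro h0
  apply hv
  show (Nat.card (𝓞 F ⧸ v.asIdeal) : ℚ) ^ lg x v = 1
  rw [h0, zpow_zero]

theorem absf_mul (x y : (FiniteAdeleRing (𝓞 F) F)ˣ) : absf (x * y) = absf x * absf y := by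
  unfold absf
  rw [← finprod_mul_distrib (T1c x) (T1c y)]
  refine finprod_congr fun v => ?_
  rw [lg_mul, zpow_add₀ (T1b v).ne']

theorem absf_pos (x : (FiniteAdeleRing (𝓞 F) F)ˣ) : 0 < absf x := by
  unfold absf
  refine finprod_induction (fun q : ℚ => 0 < q) one_pos (fun _ _ h h' => mul_pos h h') fun v => ?_
  exact zpow_pos (T1b v) _

theorem absf_eq_one {x : (FiniteAdeleRing (𝓞 F) F)ˣ} (h : ∀ v, lg x v = 0) : absf x = 1 := by
  unfold absf
  refine finprod_eq_one_of_forall_eq_one fun v => ?_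
  rw [h v, zpow_zero]

theorem absf_single {x : (FiniteAdeleRing (𝓞 F) F)ˣ} {v : HeightOneSpectrum (𝓞 F)}
    (h : ∀ w, w ≠ v → lg x w = 0) :
    absf x = (Nat.card (𝓞 F ⧸ v.asIdeal) : ℚ) ^ lg x v := by
  unfold absf
  refine finprod_eq_single _ v fun w hw => ?_
  rw [h w hw, zpow_zero]

/-- Product formula: `NumberField.FinitePlace.prod_eq_inv_abs_norm`, with `FinitePlace.equivHeightOneSpectrum`, `FinitePlace.norm_def` or `norm_embedding'` (`Nat.card (𝓞 F ⧸ v.asIdeal)` is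
`Ideal.absNorm v.asIdeal`; see the proof of `FinitePlace.prod_eq_inv_abs_norm_int` in `Mathlib/NumberTheory/NumberField/ProductFormula.lean`). -/
theorem absf_algebraMap (x : Fˣ) : absf
    (Units.map (algebraMap F (FiniteAdeleRing (𝓞 F) F) : F →* FiniteAdeleRing (𝓞 F) F) x) =
      |Algebra.norm ℚ (x : F)|⁻¹ := by
  have h0 : (x : F) ≠ 0 := x.ne_zero
  have h1 := NumberField.FinitePlace.prod_eq_inv_abs_norm h0
  rw [← finprod_comp_equiv NumberField.FinitePlace.equivHeightOneSpectrum.symm] at h1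
  have h2 : ((absf (Units.map (algebraMap F (FiniteAdeleRing (𝓞 F) F) :
      F →* FiniteAdeleRing (𝓞 F) F) x) : ℚ) : ℝ) = ∏ᶠ v : HeightOneSpectrum (𝓞 F),
        (NumberField.FinitePlace.equivHeightOneSpectrum.symm v) (x : F) := by
    unfold absf
    have h3 := MonoidHom.map_finprod (Rat.castHom ℝ : ℚ →* ℝ)
      (T1c (Units.map (algebraMap F (FiniteAdeleRing (𝓞 F) F) : F →* FiniteAdeleRing (𝓞 F) F) x))
    refine h3.trans (finprod_congr fun v => ?_)
    rw [NumberField.FinitePlace.equivHeightOneSpectrum_symm_apply,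
      NumberField.FinitePlace.norm_def]
    have h4 : Valued.v ((NumberField.FinitePlace.embedding v) (x : F)) ≠ 0 := by
      exact valued_ne_zero (Units.map (algebraMap F (FiniteAdeleRing (𝓞 F) F) :
        F →* FiniteAdeleRing (𝓞 F) F) x) v
    rw [WithZeroMulInt.toNNReal_neg_apply _ h4, WithZero.toAdd_unzero_eq_log, NNReal.coe_zpow,
      NNReal.coe_natCast]
    show ((((Nat.card (𝓞 F ⧸ v.asIdeal) : ℕ) : ℚ) ^ lg _ v : ℚ) : ℝ) = _
    rw [Rat.cast_zpow, Rat.cast_natCast]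
    rfl
  have h5 := h2.trans h1
  exact_mod_cast h5

/-- If all exponents at the places above `ℓ` are zero then `|x|` is an `ℓ`-adic unit: `N(v)` is a power of the rational prime below `v`, which is not `ℓ`
(`ℓ` does not divide `N(v)`: otherwise `ℓ ∈ v.asIdeal`, since `N(v) ∈ v.asIdeal` is a power of a prime `p`, or: an element of order `ℓ` in `𝓞 F ⧸ v.asIdeal`, a field of
characteristic `p`, gives `ℓ = 0` there). -/
theorem exists_absf_unit (ℓ : ℕ) [Fact ℓ.Prime] {x : (FiniteAdeleRing (𝓞 F) F)ˣ}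
    (h : ∀ v : HeightOneSpectrum (𝓞 F), (ℓ : 𝓞 F) ∈ v.asIdeal → lg x v = 0) :
    ∃ u : ℤ_[ℓ]ˣ, ((u : ℤ_[ℓ]) : ℚ_[ℓ]) = (absf x : ℚ_[ℓ]) := by
  have h1 : ‖((absf x : ℚ) : ℚ_[ℓ])‖ = 1 := by
    unfold absf
    refine finprod_induction (fun q : ℚ => ‖((q : ℚ) : ℚ_[ℓ])‖ = 1) (by simp) ?_ fun v => ?_
    · intro a b ha hb
      rw [Rat.cast_mul, norm_mul, ha, hb, one_mul]
    · by_cases hv : (ℓ : 𝓞 F) ∈ v.asIdeal
      · rw [h v hv, zpow_zero]
        simp
      · have hfin : Finite (𝓞 F ⧸ v.asIdeal) :=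
          Ideal.finiteQuotientOfFreeOfNeBot v.asIdeal v.ne_bot
        have hN : ¬ ℓ ∣ Nat.card (𝓞 F ⧸ v.asIdeal) := by
          intro hd
          obtain ⟨y, hy⟩ := exists_prime_addOrderOf_dvd_card' (G := 𝓞 F ⧸ v.asIdeal) ℓ hd
          have hy0 : y ≠ 0 := by
            rintro rfl
            rw [addOrderOf_zero] at hy
            exact (Fact.out : ℓ.Prime).one_lt.ne hy
          have h2 : (ℓ : 𝓞 F ⧸ v.asIdeal) * y = 0 := by
            rw [← nsmul_eq_mul, ← hy]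
            exact addOrderOf_nsmul_eq_zero y
          have := v.isPrime
          rcases mul_eq_zero.1 h2 with h3 | h3
          · apply hv
            rw [← Ideal.Quotient.eq_zero_iff_mem, map_natCast]
            exact h3
          · exact hy0 h3
        have h4 : ‖((Nat.card (𝓞 F ⧸ v.asIdeal) : ℕ) : ℚ_[ℓ])‖ = 1 := by
          rw [Padic.norm_natCast_eq_one_iff]
          exact (Nat.Prime.coprime_iff_not_dvd Fact.out).2 hN
        rw [Rat.cast_zpow, Rat.cast_natCast, norm_zpow, h4, one_zpow]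
  let z : ℤ_[ℓ] := ⟨((absf x : ℚ) : ℚ_[ℓ]), h1.le⟩
  have h2 : IsUnit z := PadicInt.isUnit_iff.2 h1
  obtain ⟨u, hu⟩ := h2
  exact ⟨u, by rw [hu]⟩

end Pool.Agent.Lib.MP_666dc0_nt.TP
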