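import Pool.Agent.Lib.MP_666dc0_nt.TP.T1
import Pool.Agent.Lib.MP_666dc0_nt.Mg.G009

/-!
# TP, T2: the norm of the finite adeles at the places above `ℓ`
-/

open NumberField IsDedekindDomain
open scoped NumberField

namespace Pool.Agent.Lib.MP_666dc0_nt.TP

open WL

variable {F : Type} [Field F] [NumberField F] {ℓ : ℕ} [Fact ℓ.Prime]

/-- Evaluation of a finite adele at a place. -/
private noncomputable def T2_eval (F : Type) [Field F] [NumberField F]
    (v : HeightOneSpectrum (𝓞 F)) : FiniteAdeleRing (𝓞 F) F →+* v.adicCompletion F where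
  toFun a := a v
  map_one' := rfl
  map_mul' _ _ := rfl
  map_zero' := rfl
  map_add' _ _ := rfl

/-- The extension of `σ : F → ℚ̄_ℓ` to the finite adeles (`exists_place`, `exists_extension`, evaluation at the place, which is above `ℓ` by `norm_ell_lt_one`; see `d0_key` in
`WL/D0.lean`). -/
theorem exists_sig (σ : F →+* PadicAlgCl ℓ) :
    ∃ s : FiniteAdeleRing (𝓞 F) F →+* PadicAlgCl ℓ, Continuous s ∧
      (∀ x : F, s (algebraMap F (FiniteAdeleRing (𝓞 F) F) x) = σ x) ∧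
      ∃ v : HeightOneSpectrum (𝓞 F), (ℓ : 𝓞 F) ∈ v.asIdeal ∧
        ∀ a b : FiniteAdeleRing (𝓞 F) F, a v = b v → s a = s b := by
  obtain ⟨v, hv⟩ := exists_place σ
  obtain ⟨e, he, hex⟩ := exists_extension σ hv
  refine ⟨e.comp (T2_eval F v), he.comp (RestrictedProduct.continuous_eval v), fun x => hex x,
    v, ?_, ?_⟩
  · rw [hv]
    have h2 : σ (((ℓ : 𝓞 F) : 𝓞 F) : F) = ((ℓ : ℕ) : PadicAlgCl ℓ) := by simp
    rw [h2]
    exact norm_ell_lt_one
  · intro a b hab
    change e (a v) = e (b v)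
    rw [hab]

/-- The chosen extension. -/
noncomputable def sig (σ : F →+* PadicAlgCl ℓ) : FiniteAdeleRing (𝓞 F) F →+* PadicAlgCl ℓ :=
  (exists_sig σ).choose

theorem continuous_sig (σ : F →+* PadicAlgCl ℓ) : Continuous (sig σ) :=
  (exists_sig σ).choose_spec.1

theorem sig_algebraMap (σ : F →+* PadicAlgCl ℓ) (x : F) :
    sig σ (algebraMap F (FiniteAdeleRing (𝓞 F) F) x) = σ x :=
  (exists_sig σ).choose_spec.2.1 x

theorem sig_place (σ : F →+* PadicAlgCl ℓ) : ∃ v : HeightOneSpectrum (𝓞 F),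
    (ℓ : 𝓞 F) ∈ v.asIdeal ∧ ∀ a b : FiniteAdeleRing (𝓞 F) F, a v = b v → sig σ a = sig σ b :=
  (exists_sig σ).choose_spec.2.2

/-- `‖s(a)‖ ≤ 1` for `a ∈ Ô`: the compact set `s(Ô)` (`isCompact_Ohat`) is bounded and closed under powers. -/
theorem norm_sig_le_one (σ : F →+* PadicAlgCl ℓ) {a : FiniteAdeleRing (𝓞 F) F}
    (ha : a ∈ Ohat F) : ‖sig σ a‖ ≤ 1 := by
  by_contra hcon
  push Not at hcon
  obtain ⟨C, hC⟩ := ((isCompact_Ohat (F := F)).image ((continuous_sig σ).norm)).bddAbove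
  have h1 : ∀ j : ℕ, ‖sig σ a‖ ^ j ≤ C := fun j => by
    rw [← norm_pow, ← map_pow]
    exact hC ⟨a ^ j, pow_mem ha j, rfl⟩
  obtain ⟨j, hj⟩ := pow_unbounded_of_one_lt C hcon
  exact absurd (h1 j) (not_le.2 hj)

/-- The norm at the places above `ℓ`: the product over all embeddings (there are finitely many: `F` is a number field). -/
noncomputable def nrm (ℓ : ℕ) [Fact ℓ.Prime] : FiniteAdeleRing (𝓞 F) F →* PadicAlgCl ℓ where
  toFun a := ∏ᶠ σ : F →+* PadicAlgCl ℓ, sig σ a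
  map_one' := by
    simp only [map_one]
    exact finprod_one
  map_mul' a b := by
    have : Finite (F →+* PadicAlgCl ℓ) := Finite.of_fintype _
    simp only [map_mul]
    exact finprod_mul_distrib (Set.toFinite _) (Set.toFinite _)

private theorem T2_nrm_eq (a : FiniteAdeleRing (𝓞 F) F) :
    nrm ℓ a = ∏ σ : F →+* PadicAlgCl ℓ, sig σ a :=
  finprod_eq_prod_of_fintype _

theorem continuous_nrm : Continuous (nrm (F := F) ℓ) := by
  have h1 : (nrm (F := F) ℓ : FiniteAdeleRing (𝓞 F) F → PadicAlgCl ℓ) =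
      fun a => ∏ σ : F →+* PadicAlgCl ℓ, sig σ a := funext T2_nrm_eq
  rw [h1]
  exact continuous_finsetProd _ fun σ _ => continuous_sig σ

/-- On `F` this is the norm of `F` over `ℚ` (`Algebra.norm_eq_prod_embeddings`; the ring homomorphisms `F → ℚ̄_ℓ` are the `ℚ`-algebra homomorphisms). -/
theorem nrm_algebraMap (x : F) : nrm ℓ (algebraMap F (FiniteAdeleRing (𝓞 F) F) x) =
    ((Algebra.norm ℚ x : ℚ) : PadicAlgCl ℓ) := by
  rw [T2_nrm_eq]
  have h1 := Algebra.norm_eq_prod_embeddings ℚ (PadicAlgCl ℓ) x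
  rw [eq_ratCast] at h1
  rw [h1, ← (RingHom.equivRatAlgHom (R := F) (S := PadicAlgCl ℓ)).prod_comp]
  refine Finset.prod_congr rfl fun σ _ => ?_
  rw [sig_algebraMap]
  rfl

private theorem T2_prod {r : ℝ} (hr0 : 0 ≤ r) (hr : r ≤ 1) {I : Type} (s : Finset I)
    (x : I → PadicAlgCl ℓ) (hx : ∀ i ∈ s, ‖x i - 1‖ ≤ r) : ‖∏ i ∈ s, x i - 1‖ ≤ r := by
  classical
  induction s using Finset.induction_on with
  | empty => simpa using hr0
  | insert i s hi ih =>
    have h1 := ih fun j hj => hx j (Finset.mem_insert_of_mem hj)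
    have h2 := hx i (Finset.mem_insert_self i s)
    have h3 : ‖∏ j ∈ s, x j‖ ≤ 1 := by
      have h4 := IsUltrametricDist.norm_add_le_max (∏ j ∈ s, x j - 1) (1 : PadicAlgCl ℓ)
      rw [sub_add_cancel, norm_one] at h4
      exact h4.trans (max_le (h1.trans hr) le_rfl)
    rw [Finset.prod_insert hi]
    have h5 : x i * ∏ j ∈ s, x j - 1 = (x i - 1) * ∏ j ∈ s, x j + (∏ j ∈ s, x j - 1) := by ring
    rw [h5]
    refine (IsUltrametricDist.norm_add_le_max _ _).trans (max_le ?_ h1)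
    rw [norm_mul]
    exact (mul_le_of_le_one_right (norm_nonneg _) h3).trans h2

/-- `‖N(1 + ℓ^m b) - 1‖ ≤ ‖ℓ‖^m` for `b ∈ Ô`: each factor is `1 + ℓ^m s(b)`, `norm_sig_le_one`, and a product of elements of the ball of radius `‖ℓ‖^m ≤ 1` around `1`
is in this ball (ultrametric inequality, induction over a finite set). -/
theorem norm_nrm_sub_one (m : ℕ) {b : FiniteAdeleRing (𝓞 F) F} (hb : b ∈ Ohat F) :
    ‖nrm ℓ (1 + (ℓ : FiniteAdeleRing (𝓞 F) F) ^ m * b) - 1‖ ≤ ‖((ℓ : ℕ) : PadicAlgCl ℓ)‖ ^ m := by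
  rw [T2_nrm_eq]
  refine T2_prod (by positivity) (pow_le_one₀ (norm_nonneg _) norm_ell_lt_one.le) Finset.univ _ fun σ _ => ?_
  rw [map_add, map_one, map_mul, map_pow, map_natCast, add_sub_cancel_left, norm_mul, norm_pow]
  exact mul_le_of_le_one_right (by positivity) (norm_sig_le_one σ hb)

/-- If all components of `a` above `ℓ` are `1` then the norm is `1` (`sig_place`). -/
theorem nrm_eq_one {a : FiniteAdeleRing (𝓞 F) F}
    (ha : ∀ v : HeightOneSpectrum (𝓞 F), (ℓ : 𝓞 F) ∈ v.asIdeal → a v = 1) : nrm ℓ a = 1 := by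
  rw [T2_nrm_eq]
  refine Finset.prod_eq_one fun σ _ => ?_
  obtain ⟨v, hv, h⟩ := sig_place σ
  rw [h a 1 (ha v hv), map_one]

end Pool.Agent.Lib.MP_666dc0_nt.TP
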