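import Pool.Agent.Lib.MP_666dc0_nt.TP.T3
import Pool.Agent.Lib.MP_666dc0_nt.TP.C1
import Pool.Agent.Lib.MP_666dc0_nt.TP.G4

/-!
# TP, T4: the cyclotomic character of the Levi subgroup
-/

open NumberField IsDedekindDomain
open scoped NumberField

namespace Pool.Agent.Lib.MP_666dc0_nt.TP

open WL

variable {F : Type} [Field F] [NumberField F] {n : ℕ} {D D' : Datum F n} {μ : Grading D}
  {ℓ : ℕ} [Fact ℓ.Prime] {U : Subgroup D.Ad}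

/-- Proof: `θ(m) = ψ(χ(m))^2`, `ψ` from `exists_psi`, `χ = chiU hM a₀`: `continuous_chiU`, `chiU_toAd`; for `u ∈ restr D' U`: `u` is trivial above `ℓ`
(`isTame_restr`), so `χ(u)_v = 1` there (`chiU_trivialAt`), and `valued_chiU_eq_one` (`V`); for `g ∈ M(F_v)`: `χ(g)_w = 1` for `w ≠ v` (`chiU_trivialAt`). -/
theorem exists_theta (hM : μ.IsLevi D') (a₀ : ℤ) (hU : IsTame ℓ U) {V : Subgroup D'.Ad}
    (hV : IsCompact (V : Set D'.Ad)) (hUV : restr D' U ≤ V) :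
    ∃ θ : D'.Ad →* ℤ_[ℓ]ˣ, Continuous θ ∧ (∀ γ : D'.Rat, θ (D'.toAd γ) = 1) ∧
      (∀ u ∈ restr D' U, θ u = 1) ∧
      ∀ v : HeightOneSpectrum (𝓞 F), (ℓ : 𝓞 F) ∉ v.asIdeal → ∀ g ∈ locSub D' v, ∀ r : ℤ,
        Valued.v ((μ.chi a₀ (algebraMap F (FiniteAdeleRing (𝓞 F) F))
          (g.1 : Matrix (Fin n) (Fin n) (FiniteAdeleRing (𝓞 F) F))) v) =
          ((Multiplicative.ofAdd r : Multiplicative ℤ) : WithZero (Multiplicative ℤ)) →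
        θ g = qU ℓ v ^ (2 * r) := by
  obtain ⟨ψ, hψc, hψF, hψ1, hψv⟩ := exists_psi F ℓ
  have hθ : ∀ m : D'.Ad, ((powMonoidHom 2 : ℤ_[ℓ]ˣ →* ℤ_[ℓ]ˣ).comp (ψ.comp (chiU hM a₀))) m =
      ψ (chiU hM a₀ m) ^ 2 := fun m => rfl
  refine ⟨(powMonoidHom 2 : ℤ_[ℓ]ˣ →* ℤ_[ℓ]ˣ).comp (ψ.comp (chiU hM a₀)), ?_, ?_, ?_, ?_⟩
  · exact (hψc.comp (continuous_chiU a₀ hM)).pow 2
  · intro γ
    obtain ⟨x, hx⟩ := chiU_toAd a₀ hM γ
    rw [hθ, hx]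
    exact hψF x
  · intro u hu
    rw [hθ, hψ1 (chiU hM a₀ u) (fun v hv => chiU_trivialAt a₀ hM (isTame_restr hM hU u hu v hv))
      (fun v => valued_chiU_eq_one a₀ hM hV (hUV hu) v)]
    exact one_pow 2
  · intro v hv g hg r hr
    rw [hθ, hψv v hv (chiU hM a₀ g) r (fun w hw => chiU_trivialAt a₀ hM (hg w hw)) hr,
      mul_comm, zpow_mul]
    exact (zpow_natCast _ 2).symm

end Pool.Agent.Lib.MP_666dc0_nt.TP
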