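import Pool.Agent.Lib.MP_666dc0_nt.TP.K1

/-!
# TP, V1: lifting of cochains modulo `ℓ^k`
-/

namespace Pool.Agent.Lib.MP_666dc0_nt.TP

variable {Γ G X Y R : Type} [Group Γ] [Group G] [CommRing R] [AddCommGroup X] [Module R X]
  [AddCommGroup Y] [Module R Y] {τ : Γ →* G} {U K : Subgroup G}

/-- **Lifting of cochains.** Along a surjection `α : X → Y` of coefficients.
Proof: the group `Γ × U × K` acts on the pairs `(e, g)` by `(γ e, τ γ g u⁻¹ k⁻¹)`-type translations, freely: let `(e, g) ~ (e', g')` if `e' = γ e`, `g' = τ γ g u k` for some `γ, u, k`, an equivalence relation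
(`hUK`); `γ`, `u`, `k` are determined by `(e, g)`, `(e', g')`: `γ = e' 0 (e 0)⁻¹` and `u k = u' k'` gives `u'⁻¹ u = k' k⁻¹ = 1` (`hd`). Choose a representative of each class (`Quotient.out`) and for each
representative `(e₀, g₀)` some `b₀ ∈ X` with `α b₀ = b' e₀ _ g₀`, and put `b (γ e₀) (τ γ g₀ u k) = ρ k⁻¹ b₀`. (`x : Fin (m+1) →o Unit` is unique, a `Subsingleton`.) The equivariance of `b` follows from uniqueness; `α (b ..) = ρk k⁻¹ (b' e₀ _ g₀) = b' ..`. -/
theorem exists_lift_coch (hUK : ∀ u ∈ U, ∀ k ∈ K, u * k = k * u)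
    (hd : ∀ u ∈ U, u ∈ K → u = 1) {ρ : Representation R K X} {ρk : Representation R K Y}
    {α : X →ₗ[R] Y} (hα : Function.Surjective α) (hρ : ∀ x w, ρk x (α w) = α (ρ x w)) {m : ℕ}
    {b' : Coch Γ G Unit Y m} (hb : IsCoch τ (1 : Γ →* (Unit ≃o Unit)) U K ρk b') :
    ∃ b : Coch Γ G Unit X m, IsCoch τ (1 : Γ →* (Unit ≃o Unit)) U K ρ b ∧
      ∀ e x g, α (b e x g) = b' e x g := by
  classical
  let r : ((Fin (m + 1) → Γ) × G) → ((Fin (m + 1) → Γ) × G) → Prop := fun p q =>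
    ∃ γ : Γ, ∃ u ∈ U, ∃ k : K, q.1 = (fun i => γ * p.1 i) ∧ q.2 = τ γ * p.2 * u * k
  have r_symm : ∀ p q, r p q → r q p := by
    rintro p q ⟨γ, u, hu, k, h1, h2⟩
    refine ⟨γ⁻¹, u⁻¹, U.inv_mem hu, k⁻¹, ?_, ?_⟩
    · funext i
      rw [h1]
      simp
    · have h3 : (u⁻¹ : G) * ((k⁻¹ : K) : G) = ((k⁻¹ : K) : G) * u⁻¹ := hUK _ (U.inv_mem hu) _ (k⁻¹).2
      rw [h2, mul_assoc (τ γ⁻¹ * _), h3, Subgroup.coe_inv, map_inv]
      group
  have r_trans : ∀ p q t, r p q → r q t → r p t := by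
    rintro p q t ⟨γ, u, hu, k, h1, h2⟩ ⟨γ', u', hu', k', h1', h2'⟩
    refine ⟨γ' * γ, u * u', U.mul_mem hu hu', k * k', ?_, ?_⟩
    · funext i
      rw [h1', h1]
      simp [mul_assoc]
    · have h3 : u' * (k : G) = (k : G) * u' := hUK _ hu' _ k.2
      rw [h2', h2, map_mul, Subgroup.coe_mul]
      calc τ γ' * (τ γ * p.2 * u * (k : G)) * u' * (k' : G)
          = τ γ' * τ γ * p.2 * u * ((k : G) * u') * (k' : G) := by group
        _ = τ γ' * τ γ * p.2 * u * (u' * (k : G)) * (k' : G) := by rw [h3]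
        _ = τ γ' * τ γ * p.2 * (u * u') * ((k : G) * (k' : G)) := by group
  have r_refl : ∀ p, r p p := fun p => ⟨1, 1, U.one_mem, 1, by simp, by simp⟩
  let S : Setoid ((Fin (m + 1) → Γ) × G) := ⟨r, ⟨r_refl, fun {p q} => r_symm p q, fun {p q t} => r_trans p q t⟩⟩
  let o : ((Fin (m + 1) → Γ) × G) → ((Fin (m + 1) → Γ) × G) := fun p => (Quotient.out (Quotient.mk S p))
  have ho : ∀ p, r (o p) p := fun p => Quotient.exact (Quotient.out_eq (Quotient.mk S p))
  have ho' : ∀ p q, r p q → o p = o q := by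
    intro p q h
    have h1 : Quotient.mk S p = Quotient.mk S q := Quotient.sound h
    show Quotient.out _ = Quotient.out _
    rw [h1]
  choose cγ cu hcu ck h1 h2 using ho
  obtain ⟨s, hs⟩ := hα.hasRightInverse
  have hflag : ∀ (γ : Γ) (x : Fin (m + 1) →o Unit), flagMap ((1 : Γ →* (Unit ≃o Unit)) γ) x = x := by
    intro γ x
    ext i
  refine ⟨fun e x g => ρ (ck (e, g))⁻¹ (s (b' (o (e, g)).1 x (o (e, g)).2)), ?_, ?_⟩
  · intro γ e x g u hu k
    rw [hflag]
    show ρ k (ρ (ck ((fun i => γ * e i), τ γ * g * u * k))⁻¹ (s (b' (o ((fun i => γ * e i), τ γ * g * u * k)).1 x (o ((fun i => γ * e i), τ γ * g * u * k)).2))) = ρ (ck (e, g))⁻¹ (s (b' (o (e, g)).1 x (o (e, g)).2))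
    have hr : r (e, g) ((fun i => γ * e i), τ γ * g * u * k) := ⟨γ, u, hu, k, rfl, rfl⟩
    have hoo := ho' _ _ hr
    rw [← hoo]
    set p := (e, g) with hp
    set q := ((fun i => γ * e i), τ γ * g * u * (k : G)) with hq
    have a1 : e = fun i => cγ p * (o p).1 i := h1 p
    have a2 : g = τ (cγ p) * (o p).2 * cu p * (ck p : G) := h2 p
    have b1 : (fun i => γ * e i) = fun i => cγ q * (o p).1 i := by rw [hoo]; exact h1 q
    have b2 : τ γ * g * u * (k : G) = τ (cγ q) * (o p).2 * cu q * (ck q : G) := by rw [hoo]; exact h2 q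
    have c1 : cγ q = γ * cγ p := by
      have h3 : γ * e 0 = cγ q * (o p).1 0 := congrFun b1 0
      have h4 : e 0 = cγ p * (o p).1 0 := congrFun a1 0
      rw [h4, ← mul_assoc] at h3
      exact (mul_right_cancel h3).symm
    have c2 : (cu p) * (ck p : G) * u * (k : G) = cu q * (ck q : G) := by
      rw [c1, map_mul, a2] at b2
      have h5 : τ γ * τ (cγ p) * (o p).2 * ((cu p) * (ck p : G) * u * (k : G)) = τ γ * τ (cγ p) * (o p).2 * (cu q * (ck q : G)) := by
        calc τ γ * τ (cγ p) * (o p).2 * ((cu p) * (ck p : G) * u * (k : G))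
            = τ γ * (τ (cγ p) * (o p).2 * cu p * (ck p : G)) * u * (k : G) := by group
          _ = τ γ * τ (cγ p) * (o p).2 * cu q * (ck q : G) := b2
          _ = τ γ * τ (cγ p) * (o p).2 * (cu q * (ck q : G)) := by group
      exact mul_left_cancel h5
    have c3 : u * (ck p : G) = (ck p : G) * u := hUK u hu _ (ck p).2
    have c4 : (cu q)⁻¹ * (cu p * u) = (ck q : G) * ((ck p * k : K) : G)⁻¹ := by
      have h6 : cu p * u * ((ck p : G) * (k : G)) = cu q * (ck q : G) := by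
        rw [← c2]
        calc cu p * u * ((ck p : G) * (k : G)) = cu p * (u * (ck p : G)) * (k : G) := by group
          _ = cu p * ((ck p : G) * u) * (k : G) := by rw [c3]
          _ = cu p * (ck p : G) * u * (k : G) := by group
      rw [Subgroup.coe_mul]
      rw [eq_mul_inv_iff_mul_eq, mul_assoc, inv_mul_eq_iff_eq_mul]
      exact h6
    have c5 : (cu q)⁻¹ * (cu p * u) = 1 := by
      refine hd _ (U.mul_mem (U.inv_mem (hcu q)) (U.mul_mem (hcu p) hu)) ?_
      rw [c4]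
      exact K.mul_mem (ck q).2 (K.inv_mem (ck p * k).2)
    have c6 : ck q = ck p * k := by
      rw [c5] at c4
      exact Subtype.ext (mul_inv_eq_one.mp c4.symm)
    rw [c6, ← Module.End.mul_apply, ← map_mul]
    congr 2
    group
  · intro e x g
    show α (ρ (ck (e, g))⁻¹ (s (b' (o (e, g)).1 x (o (e, g)).2))) = b' e x g
    rw [← hρ, hs]
    set p := (e, g) with hp
    have a1 : e = fun i => cγ p * (o p).1 i := h1 p
    have a2 : g = τ (cγ p) * (o p).2 * cu p * (ck p : G) := h2 p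
    have h3 := hb (cγ p) (o p).1 x (o p).2 (cu p) (hcu p) (ck p)
    rw [hflag, ← a1, ← a2] at h3
    rw [← h3, ← Module.End.mul_apply, ← map_mul, inv_mul_cancel, map_one, Module.End.one_apply]

variable {ℓ : ℕ} [Fact ℓ.Prime] {d : ℕ}

/-- **Coboundaries modulo `ℓ^k`.** A cocycle whose reduction is a coboundary is a coboundary plus `ℓ^k` times a cocycle.
Proof: degree `0`: the reduction is zero, `w = ℓ^k w''` (`red_eq_zero_iff`, choice), `w''` unique as `V` is torsion free, so it is equivariant and `del w'' = 0` (`ℓ^k del w'' = del w = 0`). Degree `m + 1`: the reduction of `w` is `del b'`;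
lift `b'` to `b` (`exists_lift_coch`, `red_surjective`); `w' = del b` (a coboundary; `isRel_unit`); `w - w'` has reduction zero (`red` is additive, `del` commutes with it), so `w - w' = ℓ^k w''`, and `w''` is an equivariant cocycle as before. -/
theorem exists_cob_add (hUK : ∀ u ∈ U, ∀ k ∈ K, u * k = k * u) (hd : ∀ u ∈ U, u ∈ K → u = 1)
    {ρ : Representation ℤ_[ℓ] K (Fin d → ℤ_[ℓ])} {k : ℕ}
    {ρk : Representation ℤ_[ℓ] K (Fin d → Zk ℓ k)}
    (hρ : ∀ x w, ρk x (red ℓ d k w) = red ℓ d k (ρ x w)) {m : ℕ}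
    {w : Coch Γ G Unit (Fin d → ℤ_[ℓ]) m} (hw : IsCoch τ (1 : Γ →* (Unit ≃o Unit)) U K ρ w)
    (hdw : del w = 0)
    (h : IsCob τ (1 : Γ →* (Unit ≃o Unit)) U K ρk
      (fun e x g => red ℓ d k (w e x g) : Coch Γ G Unit (Fin d → Zk ℓ k) m)) :
    ∃ w' w'' : Coch Γ G Unit (Fin d → ℤ_[ℓ]) m,
      IsCob τ (1 : Γ →* (Unit ≃o Unit)) U K ρ w' ∧
      IsCoch τ (1 : Γ →* (Unit ≃o Unit)) U K ρ w'' ∧ del w'' = 0 ∧
      w = w' + (ℓ : ℤ_[ℓ]) ^ k • w'' := by
  have hpow : ((ℓ : ℤ_[ℓ]) ^ k) ≠ 0 := pow_ne_zero _ (by exact_mod_cast (Fact.out : ℓ.Prime).ne_zero)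
  have hinj : ∀ v v' : Fin d → ℤ_[ℓ], (ℓ : ℤ_[ℓ]) ^ k • v = (ℓ : ℤ_[ℓ]) ^ k • v' → v = v' := by
    intro v v' hv
    funext i
    have h1 := congrFun hv i
    simp only [Pi.smul_apply, smul_eq_mul] at h1
    exact mul_left_cancel₀ hpow h1
  have hdiv : ∀ z : Coch Γ G Unit (Fin d → ℤ_[ℓ]) m, IsCoch τ (1 : Γ →* (Unit ≃o Unit)) U K ρ z → del z = 0 →
      (∀ e x g, red ℓ d k (z e x g) = 0) → ∃ w'' : Coch Γ G Unit (Fin d → ℤ_[ℓ]) m,
        IsCoch τ (1 : Γ →* (Unit ≃o Unit)) U K ρ w'' ∧ del w'' = 0 ∧ z = (ℓ : ℤ_[ℓ]) ^ k • w'' := by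
    intro z hz hdz h0
    have h1 : ∀ e x g, ∃ v, z e x g = (ℓ : ℤ_[ℓ]) ^ k • v := fun e x g => (red_eq_zero_iff k _).mp (h0 e x g)
    choose w'' hw'' using h1
    refine ⟨w'', ?_, ?_, ?_⟩
    · intro γ e x g u hu κ
      apply hinj
      rw [← map_smul, ← hw'', ← hw'']
      exact hz γ e x g u hu κ
    · funext e x g
      apply hinj
      have h2 := congrFun (congrFun (congrFun hdz e) x) g
      simp only [del, Pi.zero_apply] at h2
      simp only [del, Pi.zero_apply, smul_zero, Finset.smul_sum]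
      rw [← h2]
      refine Finset.sum_congr rfl fun i _ => ?_
      rw [hw'', smul_comm]
    · funext e x g
      exact hw'' e x g
  obtain _ | m := m
  · have h0 : ∀ e x g, red ℓ d k (w e x g) = 0 := by
      intro e x g
      exact congrFun (congrFun (congrFun (show (fun e x g => red ℓ d k (w e x g) : Coch Γ G Unit (Fin d → Zk ℓ k) 0) = 0 from h) e) x) g
    obtain ⟨w'', h1, h2, h3⟩ := hdiv w hw hdw h0
    exact ⟨0, w'', show (0 : Coch Γ G Unit (Fin d → ℤ_[ℓ]) 0) = 0 from rfl, h1, h2, by rw [zero_add]; exact h3⟩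
  · obtain ⟨y', hy', -, hy⟩ := h
    obtain ⟨y, hy1, hy2⟩ := exists_lift_coch (τ := τ) hUK hd (red_surjective (ℓ := ℓ) (d := d) k) hρ hy'
    have hred : ∀ e x g, red ℓ d k (del y e x g) = del y' e x g := by
      intro e x g
      simp only [del, map_sum, map_zsmul, hy2]
    have h0 : ∀ e x g, red ℓ d k ((w - del y) e x g) = 0 := by
      intro e x g
      have h1 : red ℓ d k (w e x g) = del y' e x g := congrFun (congrFun (congrFun hy e) x) g
      show red ℓ d k (w e x g - del y e x g) = 0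
      rw [map_sub, hred, h1, sub_self]
    obtain ⟨w'', h1, h2, h3⟩ := hdiv (w - del y) (hw.sub hy1.del) (by rw [del_sub, hdw, del_del, sub_zero]) h0
    exact ⟨del y, w'', ⟨y, hy1, isRel_unit y, rfl⟩, h1, h2, by rw [← h3]; abel⟩

end Pool.Agent.Lib.MP_666dc0_nt.TP
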