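import Pool.Agent.Lib.MP_666dc0_nt.TP.A2

/-!
# TP, W1: twisting by a character
-/

namespace Pool.Agent.Lib.MP_666dc0_nt.TP

variable {Γ G Q X R : Type} [Group Γ] [Group G] [PartialOrder Q] [CommRing R] [AddCommGroup X]
  [Module R X] {m : ℕ} {τ : Γ →* G} {a : Γ →* (Q ≃o Q)} {U K : Subgroup G} (θ : G →* Rˣ)

/-- The twist of a cochain by the character `θ`. -/
def tw (z : Coch Γ G Q X m) : Coch Γ G Q X m := fun e x g => (θ g : R) • z e x g

/-- The twist of the coefficients: `k ↦ θ(k)⁻¹ ρ(k)`. -/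
noncomputable def twRep (ρ : Representation R K X) : Representation R K X where
  toFun k := ((θ (k : G))⁻¹ : Rˣ).1 • ρ k
  map_one' := by
    rw [Subgroup.coe_one, map_one, inv_one, Units.val_one, one_smul, map_one]
  map_mul' k k' := by
    rw [Subgroup.coe_mul, map_mul, map_mul, mul_inv, Units.val_mul, smul_mul_smul_comm]

theorem tw_add (z z' : Coch Γ G Q X m) : tw θ (z + z') = tw θ z + tw θ z' := by
  funext e x g
  exact smul_add _ _ _

theorem tw_smul (r : R) (z : Coch Γ G Q X m) : tw θ (r • z) = r • tw θ z := by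
  funext e x g
  exact smul_comm _ _ _

theorem del_tw (z : Coch Γ G Q X m) : del (tw θ z) = tw θ (del z) := by
  funext e x g
  show ∑ i : Fin (m + 2), (-1 : ℤ) ^ (i : ℕ) •
      ((θ g : R) • z (fun j => e (i.succAbove j)) (face i x) g) =
    (θ g : R) • ∑ i : Fin (m + 2), (-1 : ℤ) ^ (i : ℕ) •
      z (fun j => e (i.succAbove j)) (face i x) g
  rw [Finset.smul_sum]
  refine Finset.sum_congr rfl fun i _ => ?_
  exact smul_comm _ _ _

theorem tw_inv_tw (z : Coch Γ G Q X m) : tw θ⁻¹ (tw θ z) = z := by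
  funext e x g
  show ((θ⁻¹ g : Rˣ) : R) • ((θ g : Rˣ) : R) • z e x g = z e x g
  rw [smul_smul, MonoidHom.inv_apply, Units.inv_mul, one_smul]

theorem twRep_inv_twRep (ρ : Representation R K X) : twRep θ⁻¹ (twRep θ ρ) = ρ := by
  ext k w
  show ((θ⁻¹ (k : G))⁻¹ : Rˣ).1 • (((θ (k : G))⁻¹ : Rˣ).1 • ρ k w) = ρ k w
  rw [smul_smul, MonoidHom.inv_apply, inv_inv, Units.mul_inv, one_smul]

theorem topVal_tw [OrderTop Q] (z : Coch Γ G Q X m) : topVal (tw θ z) = tw θ (topVal z) := by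
  rfl

variable {θ}

/-- `θ (τ γ g u k) = θ g θ k`. -/
theorem IsCoch.tw (hΓ : ∀ γ, θ (τ γ) = 1) (hU : ∀ u ∈ U, θ u = 1) {ρ : Representation R K X}
    {z : Coch Γ G Q X m} (hz : IsCoch τ a U K ρ z) : IsCoch τ a U K (twRep θ ρ) (tw θ z) := by
  intro γ e x g u hu k
  show ((θ (k : G))⁻¹ : Rˣ).1 • ρ k (((θ (τ γ * g * u * k) : Rˣ) : R) •
    z (fun i => γ * e i) (flagMap (a γ) x) (τ γ * g * u * k)) = ((θ g : Rˣ) : R) • z e x g
  rw [map_smul, hz γ e x g u hu k, smul_smul]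
  congr 1
  rw [map_mul, map_mul, map_mul, hΓ, hU u hu, one_mul, mul_one, Units.val_mul, mul_comm,
    mul_assoc, Units.mul_inv, mul_one]

theorem IsRel.tw [OrderTop Q] {z : Coch Γ G Q X m} (hz : IsRel z) : IsRel (tw θ z) := by
  intro e x g hx
  show ((θ g : Rˣ) : R) • z e x g = 0
  rw [hz e x g hx, smul_zero]

theorem IsCob.tw [OrderTop Q] (hΓ : ∀ γ, θ (τ γ) = 1) (hU : ∀ u ∈ U, θ u = 1)
    {ρ : Representation R K X} {z : Coch Γ G Q X m} (hz : IsCob τ a U K ρ z) :
    IsCob τ a U K (twRep θ ρ) (tw θ z) := by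
  cases m with
  | zero =>
    have h1 : z = 0 := hz
    subst h1
    show Pool.Agent.Lib.MP_666dc0_nt.TP.tw θ (0 : Coch Γ G Q X 0) = 0
    funext e x g
    exact smul_zero _
  | succ m =>
    obtain ⟨y, h1, h2, rfl⟩ := hz
    exact ⟨Pool.Agent.Lib.MP_666dc0_nt.TP.tw θ y, IsCoch.tw hΓ hU h1, IsRel.tw h2,
      (del_tw θ y).symm⟩

/-- Continuity of the twisted coefficients. -/
theorem continuous_twRep [TopologicalSpace G] [TopologicalSpace R] [IsTopologicalRing R]
    [TopologicalSpace X] [ContinuousSMul R X] (hθ : Continuous θ) {ρ : Representation R K X}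
    (hρ : ∀ w, Continuous fun x : K => ρ x w) (w : X) :
    Continuous fun x : K => twRep θ ρ x w := by
  have h1 : Continuous fun x : K => (((θ (x : G))⁻¹ : Rˣ) : R) :=
    Units.continuous_val.comp ((hθ.comp continuous_subtype_val).inv)
  exact h1.smul (hρ w)

end Pool.Agent.Lib.MP_666dc0_nt.TP
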