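import Pool.Agent.Lib.MP_666dc0_nt.TP.A2

/-!
# TP, X0: the algebra of operators on cochains
-/

namespace Pool.Agent.Lib.MP_666dc0_nt.TP

variable {Γ G Q Q' X R : Type} [Group Γ] [Group G] [PartialOrder Q] [OrderTop Q] [CommRing R]
  [AddCommGroup X] [Module R X] {m : ℕ}

/-- Operators on functions act on cochains: an algebra homomorphism. -/
def opHom (R Γ G Q X : Type) [Group Γ] [Group G] [PartialOrder Q] [CommRing R] [AddCommGroup X]
    [Module R X] (m : ℕ) : Module.End R (G → X) →ₐ[R] Module.End R (Coch Γ G Q X m) where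
  toFun T :=
    { toFun := fun z => opOn T z
      map_add' := fun z z' => by
        funext e x
        exact map_add T (z e x) (z' e x)
      map_smul' := fun r z => by
        funext e x
        exact map_smul T r (z e x) }
  map_one' := rfl
  map_mul' _ _ := rfl
  map_zero' := rfl
  map_add' _ _ := rfl
  commutes' _ := rfl

omit [OrderTop Q] in
theorem opHom_apply (T : Module.End R (G → X)) (z : Coch Γ G Q X m) :
    opHom R Γ G Q X m T z = opOn T z := rfl

variable {τ : Γ →* G} {a : Γ →* (Q ≃o Q)} {U K : Subgroup G} {ρ : Representation R K X}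

variable (τ U K) in
/-- The cocycles of the complex for the ordered set with one element. -/
def cyc (ρ : Representation R K X) (m : ℕ) : Submodule R (Coch Γ G Unit X m) where
  carrier := {z | IsCoch τ (1 : Γ →* (Unit ≃o Unit)) U K ρ z ∧ del z = 0}
  zero_mem' := ⟨IsCoch.zero, del_zero⟩
  add_mem' {z z'} hz hz' := ⟨hz.1.add hz'.1, by rw [del_add, hz.2, hz'.2, add_zero]⟩
  smul_mem' r z hz := ⟨hz.1.smul r, by
    funext e x g
    have h2 : del (r • z) e x g = r • del z e x g := by
      unfold del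
      simp only [Pi.smul_apply, Finset.smul_sum]
      exact Finset.sum_congr rfl fun i _ => smul_comm _ _ _
    rw [h2, hz.2]
    exact smul_zero r⟩

variable (τ U K) in
/-- The coboundaries. -/
def cob (ρ : Representation R K X) (m : ℕ) : Submodule R (Coch Γ G Unit X m) where
  carrier := {z | IsCob τ (1 : Γ →* (Unit ≃o Unit)) U K ρ z}
  zero_mem' := IsCob.zero
  add_mem' hz hz' := IsCob.add hz hz'
  smul_mem' r _ hz := IsCob.smul r hz

variable (τ a U K) in
/-- The image of the relative cocycles. -/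
def inter (ρ : Representation R K X) (m : ℕ) : Submodule R (Coch Γ G Unit X m) where
  carrier := {w | ∃ z : Coch Γ G Q X m, IsCoch τ a U K ρ z ∧ IsRel z ∧ del z = 0 ∧ w = topVal z}
  zero_mem' := ⟨0, IsCoch.zero, fun _ _ _ _ => rfl, del_zero, rfl⟩
  add_mem' := by
    rintro _ _ ⟨z, h1, h2, h3, rfl⟩ ⟨z', h1', h2', h3', rfl⟩
    exact ⟨z + z', h1.add h1', h2.add h2', by rw [del_add, h3, h3', add_zero], rfl⟩
  smul_mem' := by
    rintro r _ ⟨z, h1, h2, h3, rfl⟩
    refine ⟨r • z, h1.smul r, h2.smul r, ?_, rfl⟩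
    funext e x g
    have h4 : del (r • z) e x g = r • del z e x g := by
      unfold del
      simp only [Pi.smul_apply, Finset.smul_sum]
      exact Finset.sum_congr rfl fun i _ => smul_comm _ _ _
    rw [h4, h3]
    exact smul_zero r

theorem cob_le_cyc : cob τ U K ρ m ≤ cyc τ U K ρ m := fun _ hz => ⟨hz.isCoch, hz.del_eq⟩

/-- The values on the flags `⊤` of a cochain form a cochain (`a γ ⊤ = ⊤`). -/
theorem isCoch_topVal {z : Coch Γ G Q X m} (hz : IsCoch τ a U K ρ z) :
    IsCoch τ (1 : Γ →* (Unit ≃o Unit)) U K ρ (topVal z) := by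
  intro γ e x g u hu k
  have h1 := hz γ e (cst ⊤) g u hu k
  have h2 : flagMap (a γ) (cst ⊤ : Fin (m + 1) →o Q) = cst ⊤ := by
    ext i
    exact map_top (a γ)
  rw [h2] at h1
  exact h1

omit [Group Γ] [Group G] in
theorem del_topVal (z : Coch Γ G Q X m) : del (topVal z) = topVal (del z) := by
  funext e x g
  exact Finset.sum_congr rfl fun i _ => rfl

theorem inter_le_cyc : inter τ a U K ρ m ≤ cyc τ U K ρ m := by
  rintro _ ⟨z, h1, _, h3, rfl⟩
  exact ⟨isCoch_topVal h1, by rw [del_topVal, h3]; rfl⟩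

omit [Group Γ] [Group G] in
theorem opOn_topVal (T : Module.End R (G → X)) (z : Coch Γ G Q X m) :
    opOn T (topVal z) = topVal (opOn T z) := rfl

theorem opOn_mem_cyc (hUK : ∀ u ∈ U, ∀ k ∈ K, u * k = k * u) {T : Module.End R (G → X)}
    (hT : IsGoodOp U K T) {z : Coch Γ G Unit X m} (hz : z ∈ cyc τ U K ρ m) :
    opOn T z ∈ cyc τ U K ρ m :=
  ⟨hz.1.opOn hUK hT, by
    rw [← opOn_del, hz.2]
    funext e x
    exact map_zero T⟩

theorem opOn_mem_cob (hUK : ∀ u ∈ U, ∀ k ∈ K, u * k = k * u) {T : Module.End R (G → X)}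
    (hT : IsGoodOp U K T) {z : Coch Γ G Unit X m} (hz : z ∈ cob τ U K ρ m) :
    opOn T z ∈ cob τ U K ρ m :=
  IsCob.opOn hUK hT hz

theorem opOn_mem_inter (hUK : ∀ u ∈ U, ∀ k ∈ K, u * k = k * u) {T : Module.End R (G → X)}
    (hT : IsGoodOp U K T) {z : Coch Γ G Unit X m} (hz : z ∈ inter τ a U K ρ m) :
    opOn T z ∈ inter τ a U K ρ m := by
  obtain ⟨z', h1, h2, h3, rfl⟩ := hz
  refine ⟨opOn T z', h1.opOn hUK hT, h2.opOn T, ?_, rfl⟩
  rw [← opOn_del, h3]
  funext e x
  exact map_zero T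

end Pool.Agent.Lib.MP_666dc0_nt.TP
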