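import Pool.Agent.Lib.MP_666dc0_nt.TP.B3
import Pool.Agent.Lib.MP_666dc0_nt.TP.H5
import Pool.Agent.Lib.MP_666dc0_nt.TP.N1
import Pool.Agent.Lib.MP_666dc0_nt.TP.N2
import Pool.Agent.Lib.MP_666dc0_nt.TP.R1
import Pool.Agent.Lib.MP_666dc0_nt.TP.R4
import Pool.Agent.Lib.MP_666dc0_nt.TP.R5
import Pool.Agent.Lib.MP_666dc0_nt.TP.V1
import Pool.Agent.Lib.MP_666dc0_nt.TP.X0

/-!
# TP, X1: the estimate at one level
-/

open NumberField IsDedekindDomain
open scoped NumberField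

namespace Pool.Agent.Lib.MP_666dc0_nt.TP

open WL

variable {F : Type} [Field F] [NumberField F] {n : ℕ} {D D' : Datum F n} {μ : Grading D}
  {Q Q' : Type} [PartialOrder Q] [OrderTop Q] [PartialOrder Q'] [OrderTop Q']
  {ℓ : ℕ} [Fact ℓ.Prime] {U : Subgroup D.Ad}
  {B : Type} [CommRing B] {O : Type} [CommRing O] [HopfAlgebra B O]
  {A : OverB.HopfAction B Gal(AlgebraicClosure F/F) O} {S : Finset (HeightOneSpectrum (𝓞 F))}
  {φ : HeightOneSpectrum (𝓞 F) → Gal(AlgebraicClosure F/F)}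

/-- **The estimate at one level.** Let `ρk` be the reduction of `ρ` modulo `ℓ^k`, trivial on the level `W ≤ K'`, and `L` a level of `G` normalised by `K'` with `π(L ∩ P) ⊆ W`. If `t^N` kills the cohomology and the cohomology with compact support of level `U L`, with coefficients
in `ℤ/ℓ^k`, in the degrees `≤ i` and `≤ i + 1`, then `t^(N(2i+3))` maps the image of the relative cocycles of degree `i` of `M` to the coboundaries modulo `ℓ^k`.
Proof: put `X = Fin d → Zk ℓ k`, `s = actG sat X t ^ N`, `PD` = `mkPD hM a a' j hj hP hst hact`, whose `ι`, `π` are `inclM`, `leviM` (`rfl`).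
(1) `Kills.pi` for `T = actG sat (Zk ℓ k) t ^ N`, `T' = s`: the hypothesis is `actG_natural` for `α = LinearMap.proj l` and the polynomial `t ^ N` (`map_pow`).
(2) `K = K'.map ι ⊔ L`; all its elements are trivial at the places not above `ℓ` (`PD.mem_level`, `trivialAt_inclM`, supports of `K'` and `L`), so `level_comm`, `level_disj` apply to `U`, `K`. `exists_rep` gives `ρ̃` on `K` with `Compat ρ̃ ρk`, trivial on `L`; `L` is normal in `K`
(`PD.level_normal`). `hochschild_serre` (for `K' := L`, `T = s`, a good operator for `U`, `K`: `actG_isGoodOp`, `IsGoodOp.pow`; `v ∉ S` is not above `ℓ` by `hSl`) for `Q = Unit`, `m = i`, and for `Q`, `m = i + 1`: `s^(i+1)` kills `H^i` and `s^(i+2)` kills `H_c^(i+1)` of level `U K` with coefficients `ρ̃`.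
(3) `PD.transfer` with `T₁ = s^(i+1)`, `T₂ = s^(i+2)`, `T' = actC μ D' sat X t ^ (N(2i+3))`, `Lev` from `mkPD_lev` (`PD.π_level`; `ι(K') ⊆ K`), for the cocycle `red ∘ z` (equivariant for `ρk` by `hρk`, relative, `del (red ∘ z) = red ∘ del z = 0`). `OpCompat`: `T₁ * T₂ = actG sat X (t ^ (N(2i+3)))`, `actG_compat`
(its hypothesis `hT` is `(actG_isGoodOp ..).right`). So the reduction of `opOn (actC .. (Fin d → ℤ_[ℓ]) t ^ ..) (topVal z)` is a coboundary (`actC_natural` for `α = red ℓ d k`).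
(4) `exists_cob_add` for `w = opOn (actC .. t ^ ..) (topVal z)`, a cocycle of level `restr D' U`, `K'` (`actC_isGoodOp`, `IsCoch.opOn`, `opOn_del`; `a' γ ⊤ = ⊤`; `level_comm`, `level_disj` for `D'`, `isTame_restr`). -/
theorem estimate_step (hM : μ.IsLevi D') (a : D.Rat →* (Q ≃o Q)) (a' : D'.Rat →* (Q' ≃o Q'))
    (j : Q' ↪o Q) (hj : ∀ x, x ≤ j ⊤ → x ∈ Set.range j) (hP : IsCoatom (j ⊤))
    (hst : ∀ γ, a γ (j ⊤) = j ⊤ ↔ γ ∈ μ.parab (RingHom.id F))
    (hact : ∀ γ ∈ μ.parab (RingHom.id F), ∀ γ' : D'.Rat, μ.IsLeviPart (RingHom.id F) γ.1 γ'.1 →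
      ∀ x, a γ (j x) = j (a' γ' x)) (hU : IsTame ℓ U)
    (hUP : ∀ u ∈ U, u ∈ μ.parab (algebraMap F (FiniteAdeleRing (𝓞 F) F)) → ∀ m : D'.Ad,
      μ.IsLeviPart (algebraMap F (FiniteAdeleRing (𝓞 F) F)) u.1 m.1 → m ∈ restr D' U)
    (hSl : ∀ v : HeightOneSpectrum (𝓞 F), (ℓ : 𝓞 F) ∈ v.asIdeal → v ∈ S)
    (hgood : ∀ v, v ∉ S → IsGood μ U v) (sat : ∀ v, A.inv (φ v) → Hk ℓ U v)
    {K' W : Subgroup D'.Ad} (hK' : IsLevel ℓ (restr D' U) K') {d k : ℕ}
    (ρ : Representation ℤ_[ℓ] K' (Fin d → ℤ_[ℓ])) (ρk : Representation ℤ_[ℓ] K' (Fin d → Zk ℓ k))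
    (hW : W ≤ K') (hρk : ∀ x w, ρk x (red ℓ d k w) = red ℓ d k (ρ x w))
    (hρW : ∀ x : K', (x : D'.Ad) ∈ W → ρk x = 1) {L : Subgroup D.Ad} (hL : IsLevel ℓ U L)
    (hLn : ∀ k ∈ K', ∀ l ∈ L, inclM hM (algebraMap F (FiniteAdeleRing (𝓞 F) F)) k * l *
      (inclM hM (algebraMap F (FiniteAdeleRing (𝓞 F) F)) k)⁻¹ ∈ L)
    (hLW : ∀ l ∈ L, l ∈ μ.parab (algebraMap F (FiniteAdeleRing (𝓞 F) F)) →
      leviM hM (algebraMap F (FiniteAdeleRing (𝓞 F) F)) l ∈ W)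
    (t : FreeAlgebra ℤ_[ℓ] (Ix A S φ)) (N i : ℕ)
    (h1 : ∀ m, m ≤ i → Kills D.toAd (1 : D.Rat →* (Unit ≃o Unit)) U L
      (1 : Representation ℤ_[ℓ] L (Zk ℓ k)) (actG sat (Zk ℓ k) t ^ N) m)
    (h2 : ∀ m, m ≤ i + 1 → Kills D.toAd a U L
      (1 : Representation ℤ_[ℓ] L (Zk ℓ k)) (actG sat (Zk ℓ k) t ^ N) m)
    {z : Coch D'.Rat D'.Ad Q' (Fin d → ℤ_[ℓ]) i}
    (hz : IsCoch D'.toAd a' (restr D' U) K' ρ z) (hr : IsRel z) (hd : del z = 0) :
    ∃ w' w'' : Coch D'.Rat D'.Ad Unit (Fin d → ℤ_[ℓ]) i,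
      IsCob D'.toAd (1 : D'.Rat →* (Unit ≃o Unit)) (restr D' U) K' ρ w' ∧
      IsCoch D'.toAd (1 : D'.Rat →* (Unit ≃o Unit)) (restr D' U) K' ρ w'' ∧ del w'' = 0 ∧
      opOn (actC μ D' sat (Fin d → ℤ_[ℓ]) t ^ (N * (2 * i + 3))) (topVal z) =
        w' + (ℓ : ℤ_[ℓ]) ^ k • w'' := by
  let P : PD D.Rat D.Ad Q D'.Rat D'.Ad Q' := mkPD hM a a' j hj hP hst hact
  let K : Subgroup D.Ad := K'.map P.ι ⊔ L
  have hn : ∀ k ∈ K', ∀ l ∈ L, P.ι k * l * (P.ι k)⁻¹ ∈ L := hLn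
  have hLP : ∀ l ∈ L, l ∈ P.P → P.π l ∈ W := hLW
  have hsK : ∀ g ∈ K, ∀ v : HeightOneSpectrum (𝓞 F), (ℓ : 𝓞 F) ∉ v.asIdeal → TrivialAt v g := by
    intro g hg v hv
    obtain ⟨k, hk, l, hl, rfl⟩ := (PD.mem_level P hn).1 hg
    exact TrivialAt.mul ((trivialAt_inclM hM v k).2 (hK'.supp k hk v hv)) (hL.supp l hl v hv)
  have hsK' : ∀ g ∈ K', ∀ v : HeightOneSpectrum (𝓞 F), (ℓ : 𝓞 F) ∉ v.asIdeal → TrivialAt v g :=
    hK'.supp
  have hvS : ∀ v : HeightOneSpectrum (𝓞 F), v ∉ S → (ℓ : 𝓞 F) ∉ v.asIdeal :=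
    fun v hv h => hv (hSl v h)
  obtain ⟨ρt, hρt, hcompat⟩ := PD.exists_rep P hn hW hLP ρk hρW
  have hgoodG : ∀ t' : FreeAlgebra ℤ_[ℓ] (Ix A S φ),
      IsGoodOp U K (actG sat (Fin d → Zk ℓ k) t') := fun t' =>
    actG_isGoodOp (fun v hv => (hgood v hv).split) (fun v hv g hg => hsK g hg v (hvS v hv)) sat t'
  have hs : IsGoodOp U K (actG sat (Fin d → Zk ℓ k) t ^ N) := (hgoodG t).pow N
  have hT : ∀ (f : D.Ad → Fin d → Zk ℓ k) g l, (actG sat (Fin d → Zk ℓ k) t ^ N) f g l =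
      (actG sat (Zk ℓ k) t ^ N) (fun h => f h l) g := by
    intro f g l
    have h := actG_natural sat (t ^ N) (LinearMap.proj l : (Fin d → Zk ℓ k) →ₗ[ℤ_[ℓ]] Zk ℓ k) f
    rw [map_pow, map_pow] at h
    exact (congrFun h g).symm
  have h1' : Kills D.toAd (1 : D.Rat →* (Unit ≃o Unit)) U K ρt
      ((actG sat (Fin d → Zk ℓ k) t ^ N) ^ (i + 1)) i :=
    hochschild_serre (level_comm hU hsK) (level_disj hU hsK) le_sup_right (PD.level_normal P hn)
      hρt hs i (fun q hq => Kills.pi hT (h1 q hq))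
  have h2' : Kills D.toAd a U K ρt
      ((actG sat (Fin d → Zk ℓ k) t ^ N) ^ (i + 1 + 1)) (i + 1) :=
    hochschild_serre (level_comm hU hsK) (level_disj hU hsK) le_sup_right (PD.level_normal P hn)
      hρt hs (i + 1) (fun q hq => Kills.pi hT (h2 q hq))
  have hLev : P.Lev U K (restr D' U) K' :=
    mkPD_lev hM a a' j hj hP hst hact hU hUP hsK (PD.π_level P hn hW hLP)
      (fun k hk => le_sup_left (α := Subgroup D.Ad) (Subgroup.mem_map_of_mem P.ι hk))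
  have hpow : (actG sat (Fin d → Zk ℓ k) t ^ N) ^ (i + 1) *
      (actG sat (Fin d → Zk ℓ k) t ^ N) ^ (i + 1 + 1) =
        actG sat (Fin d → Zk ℓ k) (t ^ (N * (2 * i + 3))) := by
    rw [← pow_add, ← pow_mul, map_pow]
    congr 2
    ring
  have hOp : P.OpCompat U ((actG sat (Fin d → Zk ℓ k) t ^ N) ^ (i + 1) *
      (actG sat (Fin d → Zk ℓ k) t ^ N) ^ (i + 1 + 1))
      (actC μ D' sat (Fin d → Zk ℓ k) t ^ (N * (2 * i + 3))) := by
    intro f f' hf hff p hp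
    rw [hpow, ← map_pow (actC μ D' sat (Fin d → Zk ℓ k))]
    exact actG_compat hM hgood sat (fun t' f hf => (hgoodG t').right f hf) _ f f' hf hff p hp
  -- the reduction of the cocycle
  have hz' : IsCoch D'.toAd a' (restr D' U) K' ρk
      (fun e x g => red ℓ d k (z e x g) : Coch D'.Rat D'.Ad Q' (Fin d → Zk ℓ k) i) := by
    intro γ e x g u hu κ
    show ρk κ (red ℓ d k (z (fun i => γ * e i) (flagMap (a' γ) x) (D'.toAd γ * g * u * κ))) =
      red ℓ d k (z e x g)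
    rw [hρk, hz γ e x g u hu κ]
  have hr' : IsRel (fun e x g => red ℓ d k (z e x g) :
      Coch D'.Rat D'.Ad Q' (Fin d → Zk ℓ k) i) := by
    intro e x g hx
    show red ℓ d k (z e x g) = 0
    rw [hr e x g hx, map_zero]
  have hd' : del (fun e x g => red ℓ d k (z e x g) :
      Coch D'.Rat D'.Ad Q' (Fin d → Zk ℓ k) i) = 0 := by
    funext e x g
    have h3 : red ℓ d k (del z e x g) = 0 := by
      rw [hd]
      exact map_zero _
    unfold del at h3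
    rw [map_sum] at h3
    simp only [map_zsmul] at h3
    exact h3
  have hcob := PD.transfer hLev hcompat (hs.pow (i + 1)) (hs.pow (i + 1 + 1)) hOp h1' h2' hz' hr' hd'
  -- lifting
  have hUt : IsTame ℓ (restr D' U) := isTame_restr hM hU
  have hcomm' := level_comm hUt hsK'
  have hgoodC : IsGoodOp (restr D' U) K'
      (actC μ D' sat (Fin d → ℤ_[ℓ]) t ^ (N * (2 * i + 3))) :=
    (actC_isGoodOp hM hgood hUP (fun v hv g hg => hsK' g hg v (hvS v hv)) sat t).pow _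
  refine exists_cob_add hcomm' (level_disj hUt hsK') hρk
    ((isCoch_topVal hz).opOn hcomm' hgoodC) ?_ ?_
  · rw [← opOn_del, del_topVal, hd]
    funext e x
    exact map_zero _
  · have key : (fun e x g => red ℓ d k (opOn (actC μ D' sat (Fin d → ℤ_[ℓ]) t ^ (N * (2 * i + 3)))
        (topVal z) e x g) : Coch D'.Rat D'.Ad Unit (Fin d → Zk ℓ k) i) =
        opOn (actC μ D' sat (Fin d → Zk ℓ k) t ^ (N * (2 * i + 3)))
          (topVal (fun e x g => red ℓ d k (z e x g) :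
            Coch D'.Rat D'.Ad Q' (Fin d → Zk ℓ k) i)) := by
      funext e x g
      have h := actC_natural (μ := μ) (D' := D') sat (t ^ (N * (2 * i + 3))) (red ℓ d k)
        (topVal z e x)
      rw [map_pow, map_pow] at h
      exact (congrFun h g).symm
    rw [key]
    exact hcob

end Pool.Agent.Lib.MP_666dc0_nt.TP
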