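import Pool.Agent.Lib.MP_666dc0_nt.TP.X1

/-!
# TP, X2: the estimate at all levels
-/

open NumberField IsDedekindDomain
open scoped NumberField

namespace Pool.Agent.Lib.MP_666dc0_nt.TP

open WL

variable {F : Type} [Field F] [NumberField F] {n : ℕ} {D D' : Datum F n} {μ : Grading D}
  {Q Q' : Type} [PartialOrder Q] [OrderTop Q] [PartialOrder Q'] [OrderTop Q']
  {ℓ : ℕ} [Fact ℓ.Prime] {U : Subgroup D.Ad}
  {B : Type} [CommRing B] {O : Type} [CommRing O] [HopfAlgebra B O]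
  {A : OverB.HopfAction B Gal(AlgebraicClosure F/F) O} {S : Finset (HeightOneSpectrum (𝓞 F))}
  {φ : HeightOneSpectrum (𝓞 F) → Gal(AlgebraicClosure F/F)}

/-- **The estimate.**
Proof: `N₀ = 1 + ∑_{m ≤ i+1} N m`, `N' = N₀ (2i + 3)`. Given `k`: `ρk`, `W` from `exists_rhok`; `L` from `exists_level`; for each `m ≤ i + 1` the neighbourhood `W_m` from `hTor m k L`; their intersection over `m ∈ Finset.range (i + 2)` is a neighbourhood (`Filter.biInter_finset_mem`). If `t(x)` is in it, then `t^(N m)`, hence `t^N₀`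
(`Kills.pow_le`, `level_comm`, `actG_isGoodOp` for the level `L`) kills, and `estimate_step` applies to the polynomial `toZl ℓ _ t`. -/
theorem estimate (hM : μ.IsLevi D') (a : D.Rat →* (Q ≃o Q)) (a' : D'.Rat →* (Q' ≃o Q'))
    (j : Q' ↪o Q) (hj : ∀ x, x ≤ j ⊤ → x ∈ Set.range j) (hP : IsCoatom (j ⊤))
    (hst : ∀ γ, a γ (j ⊤) = j ⊤ ↔ γ ∈ μ.parab (RingHom.id F))
    (hact : ∀ γ ∈ μ.parab (RingHom.id F), ∀ γ' : D'.Rat, μ.IsLeviPart (RingHom.id F) γ.1 γ'.1 →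
      ∀ x, a γ (j x) = j (a' γ' x)) (hU : IsTame ℓ U) (hK : ∃ K, IsLevel ℓ U K)
    (hUP : ∀ u ∈ U, u ∈ μ.parab (algebraMap F (FiniteAdeleRing (𝓞 F) F)) → ∀ m : D'.Ad,
      μ.IsLeviPart (algebraMap F (FiniteAdeleRing (𝓞 F) F)) u.1 m.1 → m ∈ restr D' U)
    (hSl : ∀ v : HeightOneSpectrum (𝓞 F), (ℓ : 𝓞 F) ∈ v.asIdeal → v ∈ S)
    (hgood : ∀ v, v ∉ S → IsGood μ U v) (sat : ∀ v, A.inv (φ v) → Hk ℓ U v)
    {T : Type} [CommRing T] [TopologicalSpace T] (x : ∀ v, A.inv (φ v) → T) (N : ℕ → ℕ)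
    (hTor : ∀ (m k : ℕ) (K : Subgroup D.Ad), IsLevel ℓ U K → ∃ W ∈ nhds (0 : T),
      ∀ t : FreeAlgebra ℤ (Ix A S φ),
        FreeAlgebra.lift ℤ (fun i : Ix A S φ => x i.1.1 i.2) t ∈ W →
        Kills D.toAd (1 : D.Rat →* (Unit ≃o Unit)) U K (1 : Representation ℤ_[ℓ] K (Zk ℓ k))
          (actG sat (Zk ℓ k) (toZl ℓ (Ix A S φ) t) ^ N m) m ∧
        Kills D.toAd a U K (1 : Representation ℤ_[ℓ] K (Zk ℓ k))
          (actG sat (Zk ℓ k) (toZl ℓ (Ix A S φ) t) ^ N m) m)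
    {K' : Subgroup D'.Ad} (hK' : IsLevel ℓ (restr D' U) K') {d : ℕ}
    (ρ : Representation ℤ_[ℓ] K' (Fin d → ℤ_[ℓ])) (hρ : ∀ w, Continuous fun x : K' => ρ x w)
    (i : ℕ) : ∃ N' : ℕ, 0 < N' ∧ ∀ k : ℕ, ∃ W ∈ nhds (0 : T), ∀ t : FreeAlgebra ℤ (Ix A S φ),
      FreeAlgebra.lift ℤ (fun i : Ix A S φ => x i.1.1 i.2) t ∈ W →
      ∀ z : Coch D'.Rat D'.Ad Q' (Fin d → ℤ_[ℓ]) i,
        IsCoch D'.toAd a' (restr D' U) K' ρ z → IsRel z → del z = 0 →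
        ∃ w' w'' : Coch D'.Rat D'.Ad Unit (Fin d → ℤ_[ℓ]) i,
          IsCob D'.toAd (1 : D'.Rat →* (Unit ≃o Unit)) (restr D' U) K' ρ w' ∧
          IsCoch D'.toAd (1 : D'.Rat →* (Unit ≃o Unit)) (restr D' U) K' ρ w'' ∧ del w'' = 0 ∧
          opOn (actC μ D' sat (Fin d → ℤ_[ℓ]) (toZl ℓ (Ix A S φ) t) ^ N') (topVal z) =
            w' + (ℓ : ℤ_[ℓ]) ^ k • w'' := by
  classical
  have hvS : ∀ v : HeightOneSpectrum (𝓞 F), v ∉ S → (ℓ : 𝓞 F) ∉ v.asIdeal :=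
    fun v hv h => hv (hSl v h)
  let N₀ : ℕ := 1 + ∑ m ∈ Finset.range (i + 2), N m
  have hN : ∀ m, m ≤ i + 1 → N m ≤ N₀ := by
    intro m hm
    have h1 : N m ≤ ∑ m ∈ Finset.range (i + 2), N m :=
      Finset.single_le_sum (f := N) (fun _ _ => Nat.zero_le _) (Finset.mem_range.2 (by omega))
    exact h1.trans (Nat.le_add_left _ _)
  refine ⟨N₀ * (2 * i + 3), Nat.mul_pos (by omega) (by omega), fun k => ?_⟩
  obtain ⟨ρk, W, hWK, hWl, hρk, hρW⟩ := exists_rhok (isTame_restr hM hU) hK' ρ hρ k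
  obtain ⟨L, hL, hLn, hLW⟩ := exists_level hM hU hK hK' hWl
  choose Wm hWm H using fun m => hTor m k L hL
  refine ⟨⋂ m ∈ Finset.range (i + 2), Wm m,
    (Filter.biInter_finset_mem _).2 (fun m _ => hWm m), ?_⟩
  intro t ht z hz hr hd
  have htm : ∀ m, m ≤ i + 1 →
      FreeAlgebra.lift ℤ (fun i : Ix A S φ => x i.1.1 i.2) t ∈ Wm m := by
    intro m hm
    have h1 := Set.mem_iInter₂.1 ht m (Finset.mem_range.2 (by omega))
    exact h1
  have hgL : IsGoodOp U L (actG sat (Zk ℓ k) (toZl ℓ (Ix A S φ) t)) :=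
    actG_isGoodOp (fun v hv => (hgood v hv).split)
      (fun v hv g hg => hL.supp g hg v (hvS v hv)) sat _
  have hcomm := level_comm hU hL.supp
  exact estimate_step hM a a' j hj hP hst hact hU hUP hSl hgood sat hK' ρ ρk hWK hρk hρW hL hLn hLW
    (toZl ℓ (Ix A S φ) t) N₀ i
    (fun m hm => Kills.pow_le hcomm hgL (hN m (by omega)) (H m t (htm m (by omega))).1)
    (fun m hm => Kills.pow_le hcomm hgL (hN m hm) (H m t (htm m hm)).2) hz hr hd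

end Pool.Agent.Lib.MP_666dc0_nt.TP
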