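import Pool.Agent.Lib.MP_666dc0_nt.TP.X0
import Pool.Agent.Lib.MP_666dc0_nt.TP.X2
import Pool.Agent.Lib.MP_666dc0_nt.TP.F3
import Pool.Agent.Lib.MP_666dc0_nt.TP.L2
import Pool.Agent.Lib.MP_666dc0_nt.TP.R4
import Pool.Agent.Lib.MP_666dc0_nt.TP.R6
import Pool.Agent.Lib.MP_666dc0_nt.TP.R7
import Pool.Agent.Lib.MP_666dc0_nt.TP.T4
import Pool.Agent.Lib.MP_666dc0_nt.TP.W1

/-!
# TP, X3: bounds for the systems of eigenvalues and their twists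
-/

open NumberField IsDedekindDomain TensorProduct LaurentPolynomial
open scoped NumberField TensorProduct

namespace Pool.Agent.Lib.MP_666dc0_nt.TP

open WL

variable {F : Type} [Field F] [NumberField F] {n : ℕ} {D D' : Datum F n} {μ : Grading D}
  {Q Q' : Type} [PartialOrder Q] [OrderTop Q] [PartialOrder Q'] [OrderTop Q']
  {ℓ : ℕ} [Fact ℓ.Prime] {U : Subgroup D.Ad}
  {B : Type} [CommRing B] [Algebra B ℚ] {O : Type} [CommRing O] [HopfAlgebra B O]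
  {A : OverB.HopfAction B Gal(AlgebraicClosure F/F) O} {S : Finset (HeightOneSpectrum (𝓞 F))}
  {φ : HeightOneSpectrum (𝓞 F) → Gal(AlgebraicClosure F/F)}

/-- The values `f(m_v ν(N(v)^(2j)))`. -/
noncomputable def valJ {O' : Type} [CommRing O'] [HopfAlgebra ℚ O'] (π : (ℚ ⊗[B] O) →ₐc[ℚ] O')
    (ν : (ℚ ⊗[B] O) →ₐc[ℚ] ℚ[T;T⁻¹]) (m : HeightOneSpectrum (𝓞 F) → Pts O' (PadicAlgCl ℓ)) (j : ℤ)
    (i : Ix A S φ) : PadicAlgCl ℓ :=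
  (Pts.incl π (m i.1.1) * Pts.cochar ν (normUnit (PadicAlgCl ℓ) i.1.1 ^ (2 * j))).hom
    (1 ⊗ₜ[B] (i.2 : O))

private theorem X3_valJ {O' : Type} [CommRing O'] [HopfAlgebra ℚ O']
    (π : (ℚ ⊗[B] O) →ₐc[ℚ] O') (ν : (ℚ ⊗[B] O) →ₐc[ℚ] ℚ[T;T⁻¹])
    (m : HeightOneSpectrum (𝓞 F) → Pts O' (PadicAlgCl ℓ)) (j : ℤ)
    (i : Ix A S φ) (hi : (ℓ : 𝓞 F) ∉ i.1.1.asIdeal) (R : Finset ℤ)
    (hR : ∀ r, coef π ν (m i.1.1) (1 ⊗ₜ[B] (i.2 : O)) r ≠ 0 → r ∈ R) :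
    ∑ r ∈ R, ((qU ℓ i.1.1 ^ (2 * j * r) : ℤ_[ℓ]ˣ) : ℤ_[ℓ]) •
      coef π ν (m i.1.1) (1 ⊗ₜ[B] (i.2 : O)) r = valJ π ν m j i := by
  unfold valJ
  have h := sum_coef_qU (O := ℚ ⊗[B] O) π ν hi j (m i.1.1) (1 ⊗ₜ[B] (i.2 : O)) hR
  exact h

/-- The twisted estimate: the estimate for the coefficients `ρ_j = twRep (θ^j) ρ`, translated back by the twist. `Rs` as in `exists_Rs`.
Proof: apply the hypothesis to the cochain `tw (θ ^ j) z` (`IsCoch.tw` for `θ ^ j`, `IsRel.tw`, `del_tw`): `opOn (actC .. t ^ N') (topVal (tw (θ ^ j) z)) = w' + ℓ^k w''`; the left side is `tw (θ ^ j) (opOn (actM .. (subst ℓ Rs j t ^ N')) (topVal z))` (`topVal_tw`, `actC_twist` for the polynomial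
`t ^ N'`, `map_pow`, `MonoidHom.pow`/`zpow_apply`). Apply `tw (θ ^ j)⁻¹` (`tw_inv_tw`, `tw_add`, `tw_smul`, `IsCob.tw`, `IsCoch.tw` for `(θ ^ j)⁻¹`, `twRep_inv_twRep`, `del_tw`). -/
theorem estimate_twist (hM : μ.IsLevi D') (a₀ : ℤ) {a' : D'.Rat →* (Q' ≃o Q')}
    (θ : D'.Ad →* ℤ_[ℓ]ˣ) (hΓ : ∀ γ : D'.Rat, θ (D'.toAd γ) = 1)
    (hθU : ∀ u ∈ restr D' U, θ u = 1)
    (hθ : ∀ v, v ∉ S → ∀ (c : LocQuot U v) (r : ℤ), HasDeg μ D' a₀ c r →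
      θ (leviRep μ D' c) = qU ℓ v ^ (2 * r))
    (sat : ∀ v, A.inv (φ v) → Hk ℓ U v) {Rs : Ix A S φ → Finset ℤ}
    (hRs : ∀ i (c : LocQuot U i.1.1), (sat i.1.1 i.2).1 c ≠ 0 → ∀ r, HasDeg μ D' a₀ c r →
      r ∈ Rs i) (j : ℤ) {K' : Subgroup D'.Ad} {d i : ℕ}
    (ρ : Representation ℤ_[ℓ] K' (Fin d → ℤ_[ℓ])) (t : FreeAlgebra ℤ_[ℓ] (Ix A S φ)) (N' k : ℕ)
    (h : ∀ z : Coch D'.Rat D'.Ad Q' (Fin d → ℤ_[ℓ]) i,
        IsCoch D'.toAd a' (restr D' U) K' (twRep (θ ^ j) ρ) z → IsRel z → del z = 0 →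
        ∃ w' w'' : Coch D'.Rat D'.Ad Unit (Fin d → ℤ_[ℓ]) i,
          IsCob D'.toAd (1 : D'.Rat →* (Unit ≃o Unit)) (restr D' U) K' (twRep (θ ^ j) ρ) w' ∧
          IsCoch D'.toAd (1 : D'.Rat →* (Unit ≃o Unit)) (restr D' U) K' (twRep (θ ^ j) ρ) w'' ∧
          del w'' = 0 ∧ opOn (actC μ D' sat (Fin d → ℤ_[ℓ]) t ^ N') (topVal z) =
            w' + (ℓ : ℤ_[ℓ]) ^ k • w'')
    (z : Coch D'.Rat D'.Ad Q' (Fin d → ℤ_[ℓ]) i)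
    (hz : IsCoch D'.toAd a' (restr D' U) K' ρ z) (hr : IsRel z) (hd : del z = 0) :
    ∃ w' w'' : Coch D'.Rat D'.Ad Unit (Fin d → ℤ_[ℓ]) i,
      IsCob D'.toAd (1 : D'.Rat →* (Unit ≃o Unit)) (restr D' U) K' ρ w' ∧
      IsCoch D'.toAd (1 : D'.Rat →* (Unit ≃o Unit)) (restr D' U) K' ρ w'' ∧ del w'' = 0 ∧
      opOn (actM μ D' a₀ sat (Fin d → ℤ_[ℓ]) (subst ℓ Rs j t ^ N')) (topVal z) =
        w' + (ℓ : ℤ_[ℓ]) ^ k • w'' := by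
  have hΓ1 : ∀ γ : D'.Rat, (θ ^ j) (D'.toAd γ) = 1 := fun γ => by
    have h1 : (θ ^ j) (D'.toAd γ) = θ (D'.toAd γ) ^ j := rfl
    rw [h1, hΓ, one_zpow]
  have hU1 : ∀ u ∈ restr D' U, (θ ^ j) u = 1 := fun u hu => by
    have h1 : (θ ^ j) u = θ u ^ j := rfl
    rw [h1, hθU u hu, one_zpow]
  have hΓ2 : ∀ γ : D'.Rat, (θ ^ j)⁻¹ (D'.toAd γ) = 1 := fun γ => by
    rw [MonoidHom.inv_apply, hΓ1, inv_one]
  have hU2 : ∀ u ∈ restr D' U, (θ ^ j)⁻¹ u = 1 := fun u hu => by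
    rw [MonoidHom.inv_apply, hU1 u hu, inv_one]
  have htw0 : ∀ {Q₁ : Type} [PartialOrder Q₁] {m₁ : ℕ} (θ₁ : D'.Ad →* ℤ_[ℓ]ˣ),
      tw θ₁ (0 : Coch D'.Rat D'.Ad Q₁ (Fin d → ℤ_[ℓ]) m₁) = 0 := by
    intro Q₁ _ m₁ θ₁
    funext e x g
    exact smul_zero _
  obtain ⟨w', w'', h1, h2, h3, h4⟩ := h (tw (θ ^ j) z) (hz.tw hΓ1 hU1) hr.tw
    (by rw [del_tw, hd, htw0])
  refine ⟨tw (θ ^ j)⁻¹ w', tw (θ ^ j)⁻¹ w'', ?_, ?_, ?_, ?_⟩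
  · have h5 := h1.tw (θ := (θ ^ j)⁻¹) hΓ2 hU2
    rw [twRep_inv_twRep] at h5
    exact h5
  · have h5 := h2.tw (θ := (θ ^ j)⁻¹) hΓ2 hU2
    rw [twRep_inv_twRep] at h5
    exact h5
  · rw [del_tw, h3, htw0]
  · have key : opOn (actC μ D' sat (Fin d → ℤ_[ℓ]) t ^ N') (topVal (tw (θ ^ j) z)) =
        tw (θ ^ j) (opOn (actM μ D' a₀ sat (Fin d → ℤ_[ℓ]) (subst ℓ Rs j t ^ N'))
          (topVal z)) := by
      rw [topVal_tw, ← map_pow]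
      funext e x g
      have h6 := congrFun (actC_twist hM a₀ θ hθ sat hRs j (t ^ N') (topVal z e x)) g
      rw [map_pow (subst ℓ Rs j)] at h6
      exact h6
    rw [key] at h4
    have h7 := congrArg (tw (θ ^ j)⁻¹) h4
    rw [tw_inv_tw, tw_add, tw_smul] at h7
    exact h7

/-- **Bounds.**
Proof: let `c` be the system of the `coef π ν (m v) (1 ⊗ f) r`. `θ` from `exists_theta` (`V = restr D' U ⊔ K'`, compact by `hK'.isCompact`); `hθ` of `estimate_twist` holds by `leviRep_mem_locSub` and the definition of `HasDeg` (`v ∉ S` is not above `ℓ`). `Rs` from `exists_Rs` for the finite sets `E i` of the `r` with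
`coef π ν (m v) (1 ⊗ f) r ≠ 0` (`coef_finite`). For `t : FreeAlgebra ℤ (Ix A S φ)`: `t(valJ) = c (subst ℓ Rs j (toZl t))` (`lift_subst`, `lift_toZl`, `sum_coef_qU`).
`character_bounds` for `M = Coch D'.Rat D'.Ad Unit (Fin d → ℤ_[ℓ]) i`, `E = FreeAlgebra ℤ_[ℓ] (IxM A S φ)`, `act = (opHom ..).comp (actM μ D' a₀ sat _)`, `Z = cyc D'.toAd (restr D' U) K' ρ i`, `B = cob ..`, `W = inter D'.toAd a' (restr D' U) K' ρ i`, `Y`, `m₀` from `exists_fg_coch` (`X0`: `cob_le_cyc`, `inter_le_cyc`, `opOn_mem_cyc`, ... with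
`actM_isGoodOp`, `level_comm`, `isTame_restr`), `c = FreeAlgebra.lift ℤ_[ℓ] c`, and `hc` = `hocc`. This gives the compact set, and a constant `A₀` with `‖c t'‖ ≤ ℓ^(A₀ - k)` if `t' W ⊆ B + ℓ^k Z`. Given `ε > 0`, let `N'` be from `estimate` for the coefficients `twRep (θ ^ j) ρ` (continuous: `continuous_twRep`, `θ ^ j` is continuous) and choose `k` with
`ℓ^(A₀ - k) < ε ^ N'`; for the neighbourhood of this `k` and `t(x)` in it, `estimate_twist` shows that `t' = subst ℓ Rs j (toZl t) ^ N'` maps `W` to `B + ℓ^k Z`, so `‖t(valJ)‖ ^ N' = ‖c t'‖ < ε ^ N'` (`map_pow`, `norm_pow`) and `‖t(valJ)‖ < ε` (`lt_of_pow_lt_pow_left₀`). -/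
theorem bounds (hM : μ.IsLevi D') (hq : D'.q.det ≠ 0) (hcl : EC.HasClosedOrbit D')
    (a : D.Rat →* (Q ≃o Q)) (a' : D'.Rat →* (Q' ≃o Q'))
    (j : Q' ↪o Q) (hj : ∀ x, x ≤ j ⊤ → x ∈ Set.range j) (hP : IsCoatom (j ⊤))
    (hst : ∀ γ, a γ (j ⊤) = j ⊤ ↔ γ ∈ μ.parab (RingHom.id F))
    (hact : ∀ γ ∈ μ.parab (RingHom.id F), ∀ γ' : D'.Rat, μ.IsLeviPart (RingHom.id F) γ.1 γ'.1 →
      ∀ x, a γ (j x) = j (a' γ' x)) (hU : IsTame ℓ U) (hK : ∃ K, IsLevel ℓ U K)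
    (hUP : ∀ u ∈ U, u ∈ μ.parab (algebraMap F (FiniteAdeleRing (𝓞 F) F)) → ∀ m : D'.Ad,
      μ.IsLeviPart (algebraMap F (FiniteAdeleRing (𝓞 F) F)) u.1 m.1 → m ∈ restr D' U)
    (hSl : ∀ v : HeightOneSpectrum (𝓞 F), (ℓ : 𝓞 F) ∈ v.asIdeal → v ∈ S)
    (hgood : ∀ v, v ∉ S → IsGood μ U v) (sat : ∀ v, A.inv (φ v) → Hk ℓ U v)
    {T : Type} [CommRing T] [TopologicalSpace T] (x : ∀ v, A.inv (φ v) → T) (N : ℕ → ℕ)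
    (hTor : ∀ (m k : ℕ) (K : Subgroup D.Ad), IsLevel ℓ U K → ∃ W ∈ nhds (0 : T),
      ∀ t : FreeAlgebra ℤ (Ix A S φ),
        FreeAlgebra.lift ℤ (fun i : Ix A S φ => x i.1.1 i.2) t ∈ W →
        Kills D.toAd (1 : D.Rat →* (Unit ≃o Unit)) U K (1 : Representation ℤ_[ℓ] K (Zk ℓ k))
          (actG sat (Zk ℓ k) (toZl ℓ (Ix A S φ) t) ^ N m) m ∧
        Kills D.toAd a U K (1 : Representation ℤ_[ℓ] K (Zk ℓ k))
          (actG sat (Zk ℓ k) (toZl ℓ (Ix A S φ) t) ^ N m) m)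
    {O' : Type} [CommRing O'] [HopfAlgebra ℚ O'] (π : (ℚ ⊗[B] O) →ₐc[ℚ] O')
    (ν : (ℚ ⊗[B] O) →ₐc[ℚ] ℚ[T;T⁻¹]) (m : HeightOneSpectrum (𝓞 F) → Pts O' (PadicAlgCl ℓ))
    (a₀ : ℤ) {K' : Subgroup D'.Ad} (hK' : IsLevel ℓ (restr D' U) K') {d i : ℕ}
    (ρ : Representation ℤ_[ℓ] K' (Fin d → ℤ_[ℓ])) (hρ : ∀ w, Continuous fun x : K' => ρ x w)
    (hocc : Occurs μ D' a₀ sat a' K' ρ i (fun x : IxM A S φ =>
      coef π ν (m x.1.1.1) (1 ⊗ₜ[B] (x.1.2 : O)) x.2)) (j' : ℤ) :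
    (∃ C : Set (PadicAlgCl ℓ), IsCompact C ∧ ∀ t : FreeAlgebra ℤ (Ix A S φ),
      FreeAlgebra.lift ℤ (valJ π ν m j') t ∈ C) ∧
    ∀ ε : ℝ, 0 < ε → ∃ W ∈ nhds (0 : T), ∀ t : FreeAlgebra ℤ (Ix A S φ),
      FreeAlgebra.lift ℤ (fun i : Ix A S φ => x i.1.1 i.2) t ∈ W →
        ‖FreeAlgebra.lift ℤ (valJ π ν m j') t‖ < ε := by
  classical
  have hV : IsCompact ((restr D' U ⊔ K' : Subgroup D'.Ad) : Set D'.Ad) := hK'.isCompact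
  have hUV : restr D' U ≤ restr D' U ⊔ K' := le_sup_left
  obtain ⟨θ, hθc, hθΓ, hθU, hθv⟩ := exists_theta (μ := μ) hM a₀ hU hV hUV
  have hSl1 : ∀ v : HeightOneSpectrum (𝓞 F), v ∉ S → (ℓ : 𝓞 F) ∉ v.asIdeal :=
    fun v hv h => hv (hSl v h)
  have hθ : ∀ v, v ∉ S → ∀ (c : LocQuot U v) (r : ℤ), HasDeg μ D' a₀ c r →
      θ (leviRep μ D' c) = qU ℓ v ^ (2 * r) := fun v hv c r hr =>
    hθv v (hSl1 v hv) _ (leviRep_mem_locSub hM (hgood v hv) c) r hr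
  have hfin := fun i : Ix A S φ => coef_finite π ν (m i.1.1) (1 ⊗ₜ[B] (i.2 : O))
  obtain ⟨Rs, hE, hRs⟩ := exists_Rs μ D' a₀ sat (fun i => (hfin i).toFinset)
  have hval : ∀ t : FreeAlgebra ℤ (Ix A S φ), FreeAlgebra.lift ℤ (valJ π ν m j') t =
      FreeAlgebra.lift ℤ_[ℓ] (fun x : IxM A S φ =>
        coef π ν (m x.1.1.1) (1 ⊗ₜ[B] (x.1.2 : O)) x.2)
        (subst ℓ Rs j' (toZl ℓ (Ix A S φ) t)) := by
    intro t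
    have h1 : (fun i : Ix A S φ => ∑ r ∈ Rs i,
        ((qU ℓ i.1.1 ^ (2 * j' * r) : ℤ_[ℓ]ˣ) : ℤ_[ℓ]) •
          (fun x : IxM A S φ => coef π ν (m x.1.1.1) (1 ⊗ₜ[B] (x.1.2 : O)) x.2) (i, r)) =
        valJ π ν m j' := by
      funext i
      exact X3_valJ π ν m j' i (hSl1 _ i.1.2) (Rs i)
        (fun r hr => hE i ((hfin i).mem_toFinset.2 hr))
    rw [lift_subst, h1, lift_toZl]
  have hKt : ∀ v, v ∉ S → ∀ k ∈ K', TrivialAt v k :=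
    fun v hv k hk => hK'.supp k hk v (hSl1 v hv)
  have hUK : ∀ u ∈ restr D' U, ∀ k ∈ K', u * k = k * u :=
    level_comm (isTame_restr hM hU) hK'.supp
  have hgd : ∀ t : FreeAlgebra ℤ_[ℓ] (IxM A S φ),
      IsGoodOp (restr D' U) K' (actM μ D' a₀ sat (Fin d → ℤ_[ℓ]) t) :=
    fun t => actM_isGoodOp hM hgood hUP hKt hV hUV a₀ sat t
  obtain ⟨m₀, hm₀, Y, hY, hYZ⟩ := exists_fg_coch hq hcl (isTame_restr hM hU) hK' ρ i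
  obtain ⟨⟨C, hC, hCt⟩, -, A₀, hA⟩ := character_bounds
    ((opHom ℤ_[ℓ] D'.Rat D'.Ad Unit (Fin d → ℤ_[ℓ]) i).comp
      (actM μ D' a₀ sat (Fin d → ℤ_[ℓ])))
    (Z := cyc D'.toAd (restr D' U) K' ρ i) (B := cob D'.toAd (restr D' U) K' ρ i)
    (W := inter D'.toAd a' (restr D' U) K' ρ i) (Y := Y) cob_le_cyc inter_le_cyc
    (fun t z hz => opOn_mem_cyc hUK (hgd t) hz) (fun t z hz => opOn_mem_cob hUK (hgd t) hz)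
    (fun t z hz => opOn_mem_inter hUK (hgd t) hz) hY hm₀ (fun z hz => hYZ z hz.1 hz.2)
    (FreeAlgebra.lift ℤ_[ℓ] (fun x : IxM A S φ =>
        coef π ν (m x.1.1.1) (1 ⊗ₜ[B] (x.1.2 : O)) x.2))
    (fun t ht => hocc t fun z h1 h2 h3 => ht (topVal z) ⟨z, h1, h2, h3, rfl⟩)
  refine ⟨⟨C, hC, fun t => by rw [hval]; exact hCt _⟩, fun ε hε => ?_⟩
  have hθc1 : Continuous (θ ^ j' : D'.Ad →* ℤ_[ℓ]ˣ) := hθc.zpow j'
  obtain ⟨N', hN', hest⟩ := estimate hM a a' j hj hP hst hact hU hK hUP hSl hgood sat x N hTor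
    hK' (twRep (θ ^ j') ρ) (continuous_twRep hθc1 hρ) i
  have hl : (1 : ℝ) < (ℓ : ℝ) := by exact_mod_cast (Fact.out : ℓ.Prime).one_lt
  have hl0 : (0 : ℝ) < (ℓ : ℝ) := lt_trans zero_lt_one hl
  obtain ⟨k, hk⟩ : ∃ k : ℕ, (ℓ : ℝ) ^ (A₀ : ℤ) * (ℓ : ℝ) ^ (-(k : ℤ)) < ε ^ N' := by
    have h1 : 0 < ε ^ N' / (ℓ : ℝ) ^ (A₀ : ℤ) := div_pos (pow_pos hε _) (zpow_pos hl0 _)
    obtain ⟨k, hk⟩ := exists_pow_lt_of_lt_one h1 (inv_lt_one_of_one_lt₀ hl)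
    refine ⟨k, ?_⟩
    rw [zpow_neg, zpow_natCast (ℓ : ℝ) k, ← inv_pow, mul_comm]
    exact (lt_div_iff₀ (zpow_pos hl0 _)).1 hk
  obtain ⟨W, hW, hWt⟩ := hest k
  refine ⟨W, hW, fun t ht => ?_⟩
  rw [hval]
  have h1 := hA k (subst ℓ Rs j' (toZl ℓ (Ix A S φ) t) ^ N') (by
    rintro _ ⟨z, hz1, hz2, hz3, rfl⟩
    obtain ⟨w', w'', a1, a2, a3, a4⟩ := estimate_twist hM a₀ θ hθΓ hθU hθ sat hRs j' ρ
      (toZl ℓ (Ix A S φ) t) N' k (hWt t ht) z hz1 hz2 hz3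
    exact ⟨w', a1, w'', ⟨a2, a3⟩, a4⟩)
  rw [map_pow, norm_pow] at h1
  exact lt_of_pow_lt_pow_left₀ N' hε.le (h1.trans_lt hk)

end Pool.Agent.Lib.MP_666dc0_nt.TP
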